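import Pool.Agent.H5.DG4.Defs
import Pool.Agent.H5.DG3.Exc
import Pool.Agent.H5.DG3.Dim3
import Pool.Agent.H5.DG.FinalDefs

/-!
# Project DG4, module Exc4: the exceptional set
-/

open MvPolynomial
open Pool.Agent.H17 (PN VanishesAt ZariskiClosedIn)
open Pool.Agent.H17LG.Variety (FunField)
open Pool.Agent.H5.DG (Homog variety)
open Pool.Agent.H5.DG3 (IsMorphism morph RamifiedMorphism)

noncomputable section

namespace Pool.Agent.H5.DG4

variable {N M m s : ℕ}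

theorem excSet_closed4 {A N₀ k : ℕ} {P : Ideal (MvPolynomial (Fin (M + 1)) ℂ)}
    {G : Fin m → MvPolynomial (Fin (M + 1)) ℂ}
    {I : Ideal (MvPolynomial (Fin (N + 1)) ℂ)} (hI : Homog I) {B Z : Set (PN N)}
    (hZ : ZariskiClosedIn Set.univ Z) {F : Fin s → Fin (M + 1) → MvPolynomial (Fin (N + 1)) ℂ}
    (hF : IsMorphism I (variety I \ B) F) {Δ : MvPolynomial (Fin (M + 1)) ℂ}
    (hk : Δ.IsHomogeneous k) :
    ZariskiClosedIn (variety I \ B) (excSet A N₀ P G I B Z F Δ) := by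
  obtain ⟨S, hS, hZS⟩ := hZ
  refine ⟨{Q | ∃ T ∈ S, ∃ α, ∃ (a : ℕ) (τ : Fin s → MvPolynomial (Fin (N + 1)) ℂ),
    RamifiedSection A N₀ P G I B F a τ ∧ ∃ β, Q = T * aeval (F α) Δ * τ β}, ?_, ?_⟩
  · rintro Q ⟨T, hT, α, a, τ, hτ, β, rfl⟩
    obtain ⟨n, hn⟩ := hS T hT
    obtain ⟨e, he⟩ := hF.hom α
    obtain ⟨e', -, he'⟩ := hτ.isSection.hom β
    exact ⟨_, (hn.mul (hk.aeval _ he)).mul he'⟩
  · ext x
    change (x ∈ variety I \ B ∧ (x ∈ Z ∨ VanishesAt Δ (morph F x) ∨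
      ∀ a τ, RamifiedSection A N₀ P G I B F a τ → ∀ α, VanishesAt (τ α) x)) ↔
      (x ∈ variety I \ B ∧ ∀ Q ∈ {Q | ∃ T ∈ S, ∃ α, ∃ (a : ℕ)
        (τ : Fin s → MvPolynomial (Fin (N + 1)) ℂ), RamifiedSection A N₀ P G I B F a τ ∧
        ∃ β, Q = T * aeval (F α) Δ * τ β}, VanishesAt Q x)
    refine and_congr_right fun hx => ⟨?_, fun h => ?_⟩
    · rintro (h | h | h) Q ⟨T, hT, α, a, τ, hτ, β, rfl⟩
      · rw [hZS] at h
        have h1 : eval x.rep T = 0 := h.2 T hT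
        change eval x.rep (T * aeval (F α) Δ * τ β) = 0
        rw [map_mul, map_mul, h1, zero_mul, zero_mul]
      · have h1 : eval x.rep (aeval (F α) Δ) = 0 :=
          (Pool.Agent.H5.DG3.vanishesAt_morph_iff hF hI hx.1 hx hk).1 h α
        change eval x.rep (T * aeval (F α) Δ * τ β) = 0
        rw [map_mul, map_mul, h1, mul_zero, zero_mul]
      · have h1 : eval x.rep (τ β) = 0 := h a τ hτ β
        change eval x.rep (T * aeval (F α) Δ * τ β) = 0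
        rw [map_mul, h1, mul_zero]
    · by_cases hxZ : x ∈ Z
      · exact Or.inl hxZ
      right
      by_cases hxΔ : VanishesAt Δ (morph F x)
      · exact Or.inl hxΔ
      right
      rw [hZS] at hxZ
      have h1 : ∃ T ∈ S, ¬ VanishesAt T x := by
        by_contra hcon
        push Not at hcon
        exact hxZ ⟨Set.mem_univ x, hcon⟩
      obtain ⟨T, hT, hTx⟩ := h1
      rw [Pool.Agent.H5.DG3.vanishesAt_morph_iff hF hI hx.1 hx hk] at hxΔ
      push Not at hxΔ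
      obtain ⟨α, hα⟩ := hxΔ
      intro a τ hτ β
      have h2 : eval x.rep (T * aeval (F α) Δ * τ β) = 0 := h _ ⟨T, hT, α, a, τ, hτ, β, rfl⟩
      rw [map_mul, map_mul] at h2
      rcases mul_eq_zero.1 h2 with h3 | h3
      · rcases mul_eq_zero.1 h3 with h4 | h4
        · exact absurd h4 hTx
        · exact absurd h4 hα
      · exact h3

/-- A variety on which three forms do not vanish identically has points where all three are not
zero. -/
private theorem exists_common {I : Ideal (MvPolynomial (Fin (N + 1)) ℂ)} [I.IsPrime] {x : PN N}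
    (hx : x ∈ variety I) {R₁ R₂ R₃ : MvPolynomial (Fin (N + 1)) ℂ} {d₁ d₂ d₃ : ℕ}
    (h₁ : R₁.IsHomogeneous d₁) (h₂ : R₂.IsHomogeneous d₂) (h₃ : R₃.IsHomogeneous d₃)
    (h₁I : R₁ ∉ I) (h₂I : R₂ ∉ I) (h₃I : R₃ ∉ I) :
    ∃ y ∈ variety I, ¬ VanishesAt R₁ y ∧ ¬ VanishesAt R₂ y ∧ ¬ VanishesAt R₃ y := by
  have hIp : I.IsPrime := inferInstance
  obtain ⟨i, hi⟩ : ∃ i, x.rep i ≠ 0 := by
    by_contra hcon
    push Not at hcon
    exact x.rep_nonzero (funext hcon)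
  have hXI : (X i : MvPolynomial (Fin (N + 1)) ℂ) ∉ I := by
    intro h
    have h2 := hx _ h 1 (isHomogeneous_X ℂ i)
    unfold VanishesAt at h2
    rw [eval_X] at h2
    exact hi h2
  have h4 : X i * R₁ * R₂ * R₃ ∉ I := by
    intro h
    rcases hIp.mem_or_mem h with h | h
    · rcases hIp.mem_or_mem h with h | h
      · rcases hIp.mem_or_mem h with h | h
        · exact hXI h
        · exact h₁I h
      · exact h₂I h
    · exact h₃I h
  have h5 : ∃ v : Fin (N + 1) → ℂ, (∀ R ∈ I, eval v R = 0) ∧ eval v (X i * R₁ * R₂ * R₃) ≠ 0 := by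
    by_contra hcon
    push Not at hcon
    exact h4 (Pool.Agent.H5.DG.mem_of_forall I hcon)
  obtain ⟨v, hv, hne⟩ := h5
  rw [map_mul, map_mul, map_mul, eval_X] at hne
  have hv0 : v ≠ 0 := by
    rintro rfl
    exact hne (by rw [Pi.zero_apply, zero_mul, zero_mul, zero_mul])
  refine ⟨Projectivization.mk ℂ v hv0, fun R hR k hk => ?_, ?_, ?_, ?_⟩
  · rw [Pool.Agent.H17.vanishesAt_mk_iff hk]
    exact hv R hR
  · rw [Pool.Agent.H17.vanishesAt_mk_iff h₁]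
    exact right_ne_zero_of_mul (left_ne_zero_of_mul (left_ne_zero_of_mul hne))
  · rw [Pool.Agent.H17.vanishesAt_mk_iff h₂]
    exact right_ne_zero_of_mul (left_ne_zero_of_mul hne)
  · rw [Pool.Agent.H17.vanishesAt_mk_iff h₃]
    exact right_ne_zero_of_mul hne

theorem not_subset4 {A N₀ k w : ℕ} {P : Ideal (MvPolynomial (Fin (M + 1)) ℂ)} [P.IsPrime]
    (hP : Homog P) {G : Fin m → MvPolynomial (Fin (M + 1)) ℂ}
    {I : Ideal (MvPolynomial (Fin (N + 1)) ℂ)} [I.IsPrime] {B Z : Set (PN N)}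
    {F : Fin s → Fin (M + 1) → MvPolynomial (Fin (N + 1)) ℂ} (h : FiniteMorphism P I B Z F)
    (hw : 1 ≤ w) (hz : ∃ z : Fin w → FunField I, IsTranscendenceBasis ℂ z)
    (hzP : ∃ z : Fin w → FunField P, IsTranscendenceBasis ℂ z)
    (hZ : ¬ (variety I \ B ⊆ Z)) {Δ : MvPolynomial (Fin (M + 1)) ℂ} (hk : Δ.IsHomogeneous k)
    (hΔ : Δ ∉ P) (hτ : ∃ a τ, RamifiedSection A N₀ P G I B F a τ ∧ ∃ α, τ α ∉ I) :
    ¬ (variety I \ B ⊆ excSet A N₀ P G I B Z F Δ) := by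
  obtain ⟨a, τ, hτ, α, hα⟩ := hτ
  have hR : RamifiedMorphism 2 P (fun j : Fin 0 => j.elim0) I B Z F :=
    ⟨h.homog, h.closedB, h.closedZ, h.morphism, h.maps, h.finite, fun x _ j => j.elim0⟩
  have h1 := Pool.Agent.H5.DG3.not_subset_of_dim hP hR hw hz hzP hZ hk hΔ
  obtain ⟨x, hx, hx'⟩ := Set.not_subset.1 h1
  obtain ⟨S, hS, hSe⟩ := Pool.Agent.H5.DG3.excSet_closed h.homog h.closedZ h.morphism hk
  obtain ⟨R₁, hR₁, hR₁x⟩ : ∃ R ∈ S, ¬ VanishesAt R x := by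
    by_contra hcon
    push Not at hcon
    exact hx' (by rw [hSe]; exact ⟨hx, hcon⟩)
  obtain ⟨d₁, hd₁⟩ := hS R₁ hR₁
  obtain ⟨S', hS', hBS⟩ := h.closedB
  obtain ⟨R₂, hR₂, hR₂x⟩ : ∃ R ∈ S', ¬ VanishesAt R x := by
    by_contra hcon
    push Not at hcon
    exact hx.2 (by rw [hBS]; exact ⟨Set.mem_univ _, hcon⟩)
  obtain ⟨d₂, hd₂⟩ := hS' R₂ hR₂
  obtain ⟨e, -, hd₃⟩ := hτ.isSection.hom α
  obtain ⟨y, hy, hy₁, hy₂, hy₃⟩ := exists_common hx.1 hd₁ hd₂ hd₃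
    (fun hcon => hR₁x (hx.1 _ hcon _ hd₁)) (fun hcon => hR₂x (hx.1 _ hcon _ hd₂)) hα
  have hyU : y ∈ variety I \ B := by
    refine ⟨hy, fun hcon => hy₂ ?_⟩
    rw [hBS] at hcon
    exact hcon.2 R₂ hR₂
  have hyE : y ∉ Pool.Agent.H5.DG3.excSet I B Z F Δ := by
    intro hcon
    rw [hSe] at hcon
    exact hy₁ (hcon.2 R₁ hR₁)
  intro hsub
  have hy4 := (hsub hyU).2
  rcases hy4 with h2 | h2 | h2
  · exact hyE ⟨hyU, Or.inl h2⟩
  · exact hyE ⟨hyU, Or.inr h2⟩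
  · exact hy₃ (h2 a τ hτ α)

end Pool.Agent.H5.DG4
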