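import Pool.Agent.H5.DG4.Defs
import Pool.Agent.H5.DG3.Points
import Pool.Agent.H5.DG3.Into
import Pool.Agent.H5.DG2.Main2

/-!
# Project DG4, module Mult4: multiplicities at least two

`prod_section`: `τ α = ∏ j ∈ J, aeval (F α) (G j)` is a section with `a = ∑ j ∈ J, deg (G j)`:
`compat`: `F β b ^ d * G (F α) = G (F β b • F α)`, `G (F α b • F β) = F α b ^ d * G (F β)`, and
`F β b * F α c - F α b * F β c ∈ I`; `integral` with `n = 1`, `c 1 = - ∏ j ∈ J, G j`, `c i = 0` otherwise.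
`vanishes_two`: for `x` choose one `α` and `b` with `F α b` not zero at `x`; for every `j` there is `β` with
`PullbackMult` for `β`; `F β b` does not vanish at `x` either (`compat`, both tuples are not zero at `x`
and `x ∈ variety I`); with `u = F β b`, `v = F α b`, `L = G j (F α)`, `L' = G j (F β)`:
`u ^ d * L - v ^ d * L' ∈ I`, so `v ^ d * radical (L' ) ⊆ radical (L)`, and `T * L' ∈ radical (L') ^ 2 + I` gives
`(u ^ d * T * v ^ (2 d)) * L ∈ radical (L) ^ 2 + I`.  Then take the products over `j ∈ J`.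
`excSet_eq`: for `x ∈ variety I \ B` let `J = {j | ¬ VanishesAt (G j) (morph F x)}`, at least `m - k ≥ N₀`
elements (`morph F x ∈ variety P`); the section does not vanish at `x`.
-/

open MvPolynomial
open Pool.Agent.H17 (PN VanishesAt ZariskiClosedIn)
open Pool.Agent.H5.DG (Homog variety AtMostThrough)
open Pool.Agent.H5.DG3 (IsMorphism morph RamifiedMorphism PullbackMult)

noncomputable section

namespace Pool.Agent.H5.DG4

variable {N M m s : ℕ} {P : Ideal (MvPolynomial (Fin (M + 1)) ℂ)}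
  {G : Fin m → MvPolynomial (Fin (M + 1)) ℂ} {I : Ideal (MvPolynomial (Fin (N + 1)) ℂ)}
  {B Z : Set (PN N)} {F : Fin s → Fin (M + 1) → MvPolynomial (Fin (N + 1)) ℂ}

/-! ### Auxiliary lemmas -/

private theorem Mult4_aeval_smul {A : Type*} [CommRing A] [Algebra ℂ A]
    {Q : MvPolynomial (Fin (M + 1)) ℂ} {d : ℕ} (hQ : Q.IsHomogeneous d) (r : A)
    (v : Fin (M + 1) → A) :
    aeval (fun c => r * v c) Q = r ^ d * aeval v Q := by
  classical
  rw [MvPolynomial.aeval_def, MvPolynomial.aeval_def, eval₂_eq, eval₂_eq, Finset.mul_sum]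
  refine Finset.sum_congr rfl fun n hn => ?_
  have hdeg : n.degree = d := by
    by_contra hne
    exact (mem_support_iff.mp hn) (hQ.coeff_eq_zero hne)
  have h1 : ∏ i ∈ n.support, (r * v i) ^ n i = r ^ d * ∏ i ∈ n.support, v i ^ n i := by
    simp_rw [mul_pow]
    rw [Finset.prod_mul_distrib, Finset.prod_pow_eq_pow_sum]
    congr 2
  rw [h1]
  ring

/-- The values of a form at two proportional tuples. -/
private theorem Mult4_compat (hF : IsMorphism I (variety I \ B) F)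
    {Q : MvPolynomial (Fin (M + 1)) ℂ} {d : ℕ} (hQ : Q.IsHomogeneous d) (α β : Fin s)
    (b : Fin (M + 1)) :
    aeval (F α) Q * F β b ^ d - aeval (F β) Q * F α b ^ d ∈ I := by
  rw [← Ideal.Quotient.eq_zero_iff_mem, map_sub, map_mul, map_mul, map_pow, map_pow, sub_eq_zero]
  have h1 : ∀ γ : Fin s, Ideal.Quotient.mk I (aeval (F γ) Q) =
      aeval (fun c => Ideal.Quotient.mk I (F γ c)) Q := by
    intro γ
    have h2 := MvPolynomial.map_aeval (F γ) (Ideal.Quotient.mk I) Q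
    rw [h2]
    rfl
  rw [h1, h1]
  have h3 : (fun c => Ideal.Quotient.mk I (F β b) * Ideal.Quotient.mk I (F α c)) =
      fun c => Ideal.Quotient.mk I (F α b) * Ideal.Quotient.mk I (F β c) := by
    funext c
    have h4 := hF.compat α β c b
    rw [← Ideal.Quotient.eq_zero_iff_mem, map_sub, map_mul, map_mul, sub_eq_zero] at h4
    linear_combination h4
  have h5 := Mult4_aeval_smul hQ (Ideal.Quotient.mk I (F β b)) fun c => Ideal.Quotient.mk I (F α c)
  have h6 := Mult4_aeval_smul hQ (Ideal.Quotient.mk I (F α b)) fun c => Ideal.Quotient.mk I (F β c)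
  rw [h3] at h5
  linear_combination h6 - h5

private theorem Mult4_sup_mul {R : Type*} [CommRing R] {I₀ K₁ K₂ : Ideal R} {a b : R}
    (ha : a ∈ K₁ ⊔ I₀) (hb : b ∈ K₂ ⊔ I₀) : a * b ∈ K₁ * K₂ ⊔ I₀ := by
  have h1 : (K₁ ⊔ I₀) * (K₂ ⊔ I₀) ≤ K₁ * K₂ ⊔ I₀ := by
    rw [Ideal.sup_mul, Ideal.mul_sup, Ideal.mul_sup]
    have e1 : K₁ * I₀ ≤ I₀ := Ideal.mul_le.2 fun r _ y hy => Ideal.mul_mem_left _ _ hy
    have e2 : I₀ * K₂ ≤ I₀ := Ideal.mul_le.2 fun r hr y _ => Ideal.mul_mem_right _ _ hr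
    have e3 : I₀ * I₀ ≤ I₀ := Ideal.mul_le.2 fun r _ y hy => Ideal.mul_mem_left _ _ hy
    exact sup_le (sup_le le_sup_left (e1.trans le_sup_right))
      (sup_le (e2.trans le_sup_right) (e3.trans le_sup_right))
  exact h1 (Ideal.mul_mem_mul ha hb)

/-- Multiplicities at least two do not depend on the tuple. -/
private theorem Mult4_transfer {u v L L' T : MvPolynomial (Fin (N + 1)) ℂ} {d : ℕ}
    (h : u ^ d * L - v ^ d * L' ∈ I)
    (hT : T * L' ∈ (Ideal.radical (Ideal.span {L'} ⊔ I)) ^ 2 ⊔ I) :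
    (u ^ d * (v ^ d) ^ 2 * T) * L ∈ (Ideal.radical (Ideal.span {L} ⊔ I)) ^ 2 ⊔ I := by
  -- the generator
  have h1 : v ^ d * L' ∈ Ideal.span {L} ⊔ I := by
    have h2 : v ^ d * L' = u ^ d * L - (u ^ d * L - v ^ d * L') := by ring
    rw [h2]
    refine Ideal.sub_mem _ ?_ (Ideal.mem_sup_right h)
    exact Ideal.mem_sup_left (Ideal.mul_mem_left _ _ (Ideal.mem_span_singleton_self L))
  have h3 : ∀ z ∈ Ideal.span {L'} ⊔ I, v ^ d * z ∈ Ideal.span {L} ⊔ I := by
    intro z hz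
    obtain ⟨y, hy, w, hw, rfl⟩ := Submodule.mem_sup.1 hz
    obtain ⟨c, rfl⟩ := Ideal.mem_span_singleton'.1 hy
    rw [mul_add]
    refine Ideal.add_mem _ ?_ (Ideal.mem_sup_right (Ideal.mul_mem_left _ _ hw))
    have h4 : v ^ d * (c * L') = c * (v ^ d * L') := by ring
    rw [h4]
    exact Ideal.mul_mem_left _ _ h1
  have h4 : Ideal.span {v ^ d} * Ideal.radical (Ideal.span {L'} ⊔ I) ≤
      Ideal.radical (Ideal.span {L} ⊔ I) := by
    rw [Ideal.span_singleton_mul_le_iff]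
    intro z hz
    obtain ⟨n, hn⟩ := hz
    refine ⟨n + 1, ?_⟩
    have h5 : (v ^ d * z) ^ (n + 1) = ((v ^ d) ^ n * z) * (v ^ d * z ^ n) := by ring
    rw [h5]
    exact Ideal.mul_mem_left _ _ (h3 _ hn)
  have h5 : Ideal.span {(v ^ d) ^ 2} * (Ideal.radical (Ideal.span {L'} ⊔ I)) ^ 2 ≤
      (Ideal.radical (Ideal.span {L} ⊔ I)) ^ 2 := by
    rw [← Ideal.span_singleton_pow, ← mul_pow]
    exact Ideal.pow_right_mono h4 2
  obtain ⟨y, hy, w, hw, hyw⟩ := Submodule.mem_sup.1 hT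
  have h6 : (v ^ d) ^ 2 * y ∈ (Ideal.radical (Ideal.span {L} ⊔ I)) ^ 2 :=
    h5 (Ideal.mul_mem_mul (Ideal.mem_span_singleton_self _) hy)
  have h7 : (u ^ d * (v ^ d) ^ 2 * T) * L =
      v ^ d * ((v ^ d) ^ 2 * y) +
        ((v ^ d) ^ 2 * T * (u ^ d * L - v ^ d * L') + (v ^ d) ^ 3 * w) := by
    have h8 : T * L' = y + w := hyw.symm
    linear_combination (v ^ d) ^ 3 * h8
  rw [h7]
  refine Ideal.add_mem _ (Ideal.mem_sup_left (Ideal.mul_mem_left _ _ h6))
    (Ideal.mem_sup_right (Ideal.add_mem _ (Ideal.mul_mem_left _ _ h) (Ideal.mul_mem_left _ _ hw)))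

/-- The multiplicity for the tuple `F α`. -/
private theorem Mult4_multAt (hI : Homog I) (hF : IsMorphism I (variety I \ B) F)
    {Q : MvPolynomial (Fin (M + 1)) ℂ} {d : ℕ} (hQ : Q.IsHomogeneous d) {x : PN N}
    (hx : x ∈ variety I \ B) (hmult : PullbackMult 2 I F Q x) {α : Fin s} {b : Fin (M + 1)}
    (hb : ¬ VanishesAt (F α b) x) :
    Pool.Agent.H5.DG3.MultAt 2 I (aeval (F α) Q) x := by
  obtain ⟨β, ⟨a₀, ha₀⟩, T, e, hTh, hTx, hT⟩ := hmult
  -- values on the variety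
  have hval : ∀ R ∈ I, eval x.rep R = 0 := by
    intro R hR
    have h1 : Projectivization.mk ℂ x.rep x.rep_nonzero = x := x.mk_rep
    refine Pool.Agent.H5.DG.eval_of_mem hI x.rep_nonzero ?_ hR
    rw [h1]
    exact hx.1
  have hβb : ¬ VanishesAt (F β b) x := by
    intro h0
    have h1 := hval _ (hF.compat α β a₀ b)
    rw [map_sub, map_mul, map_mul] at h1
    have h2 : eval x.rep (F β b) = 0 := h0
    rw [h2, mul_zero, zero_sub, neg_eq_zero] at h1
    exact (mul_ne_zero (M₀ := ℂ) hb ha₀) h1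
  obtain ⟨eα, heα⟩ := hF.hom α
  obtain ⟨eβ, heβ⟩ := hF.hom β
  have hc := Mult4_compat hF hQ α β b
  have hc' : F β b ^ d * aeval (F α) Q - F α b ^ d * aeval (F β) Q ∈ I := by
    have h1 : F β b ^ d * aeval (F α) Q - F α b ^ d * aeval (F β) Q =
        aeval (F α) Q * F β b ^ d - aeval (F β) Q * F α b ^ d := by ring
    rw [h1]
    exact hc
  refine ⟨F β b ^ d * (F α b ^ d) ^ 2 * T, eβ * d + eα * d * 2 + e,
    (((heβ b).pow d).mul (((heα b).pow d).pow 2)).mul hTh, ?_, Mult4_transfer hc' hT⟩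
  intro h0
  have h1 : eval x.rep (F β b ^ d * (F α b ^ d) ^ 2 * T) = 0 := h0
  rw [map_mul, map_mul, map_pow, map_pow, map_pow] at h1
  exact (mul_ne_zero (mul_ne_zero (pow_ne_zero _ hβb) (pow_ne_zero _ (pow_ne_zero _ hb))) hTx) h1

theorem finiteMorphism_of_ramified {q : ℕ} (h : RamifiedMorphism q P G I B Z F) :
    FiniteMorphism P I B Z F :=
  ⟨h.homog, h.closedB, h.closedZ, h.morphism, h.maps, h.finite⟩

theorem prod_section (hF : IsMorphism I (variety I \ B) F) (hG : ∀ j, ∃ e, (G j).IsHomogeneous e)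
    (hG0 : ∀ j, G j ≠ 0) (J : Finset (Fin m)) :
    IsSection I F (∑ j ∈ J, (G j).totalDegree) fun α => ∏ j ∈ J, aeval (F α) (G j) := by
  classical
  have hdeg : ∀ j, (G j).IsHomogeneous (G j).totalDegree := by
    intro j
    obtain ⟨e, he⟩ := hG j
    rw [he.totalDegree (hG0 j)]
    exact he
  refine ⟨fun α => ?_, fun α β b => ?_, ?_⟩
  · obtain ⟨e, he⟩ := hF.hom α
    refine ⟨e, he, ?_⟩
    rw [Finset.mul_sum]
    exact IsHomogeneous.prod J _ _ fun j _ => (hdeg j).aeval _ he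
  · rw [← Ideal.Quotient.eq_zero_iff_mem, map_sub, map_mul, map_mul, map_pow, map_pow, map_prod,
      map_prod, sub_eq_zero, ← Finset.prod_pow_eq_pow_sum, ← Finset.prod_pow_eq_pow_sum,
      ← Finset.prod_mul_distrib, ← Finset.prod_mul_distrib]
    refine Finset.prod_congr rfl fun j _ => ?_
    have h1 := Mult4_compat hF (hdeg j) α β b
    rw [← Ideal.Quotient.eq_zero_iff_mem, map_sub, map_mul, map_mul, map_pow, map_pow,
      sub_eq_zero] at h1
    exact h1
  · refine ⟨1, fun i => if i = 1 then - ∏ j ∈ J, G j else 0, fun i => ?_, fun α => ?_⟩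
    · by_cases hi : i = 1
      · subst hi
        simp only [if_true, mul_one]
        exact (IsHomogeneous.prod J _ _ fun j _ => hdeg j).neg
      · simp only [if_neg hi]
        exact isHomogeneous_zero _ _ _
    · have h1 : (∏ j ∈ J, aeval (F α) (G j)) ^ 1 + ∑ i ∈ Finset.range 1,
          aeval (F α) (if 1 - i = 1 then - ∏ j ∈ J, G j else 0) *
            (∏ j ∈ J, aeval (F α) (G j)) ^ i = 0 := by
        simp
      change (∏ j ∈ J, aeval (F α) (G j)) ^ 1 + ∑ i ∈ Finset.range 1,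
          aeval (F α) (if 1 - i = 1 then - ∏ j ∈ J, G j else 0) *
            (∏ j ∈ J, aeval (F α) (G j)) ^ i ∈ I
      rw [h1]
      exact I.zero_mem

theorem vanishes_two (hI : Homog I) (hF : IsMorphism I (variety I \ B) F)
    (hG : ∀ j, ∃ e, (G j).IsHomogeneous e) {x : PN N} (hx : x ∈ variety I \ B)
    (hmult : ∀ j, PullbackMult 2 I F (G j) x) (J : Finset (Fin m)) :
    ∃ α, (∃ b, ¬ VanishesAt (F α b) x) ∧ VanishesTimes 2 I J (fun j => aeval (F α) (G j))
      (∏ j ∈ J, aeval (F α) (G j)) x := by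
  classical
  obtain ⟨α, b, hb⟩ := hF.base x hx
  refine ⟨α, ⟨b, hb⟩, ?_⟩
  have hM : ∀ j, Pool.Agent.H5.DG3.MultAt 2 I (aeval (F α) (G j)) x := by
    intro j
    obtain ⟨e, he⟩ := hG j
    exact Mult4_multAt hI hF he hx (hmult j) hb
  choose T d hTh hTx hT using hM
  refine ⟨∏ j ∈ J, T j, ∑ j ∈ J, d j, IsHomogeneous.prod J _ _ fun j _ => hTh j, ?_, ?_⟩
  · intro h0
    have h1 : eval x.rep (∏ j ∈ J, T j) = 0 := h0
    rw [map_prod] at h1
    exact (Finset.prod_ne_zero_iff.2 fun j _ => hTx j) h1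
  · rw [← Finset.prod_mul_distrib, ← Finset.prod_pow]
    clear hmult
    induction J using Finset.induction_on with
    | empty =>
      simp
    | insert j J hj ih =>
      rw [Finset.prod_insert hj, Finset.prod_insert hj]
      exact Mult4_sup_mul (hT j) ih

/-- The forms which do not vanish at a point are a good set. -/
theorem goodSet_of_atMost {N₀ k : ℕ} (hthr : AtMostThrough k P G) (hm : (N₀ + 1) * (k + 1) ≤ m)
    {y : PN M} (hy : y ∈ variety P) :
    GoodSet N₀ P G (open Classical in Finset.univ.filter fun j => ¬ VanishesAt (G j) y) := by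
  classical
  obtain ⟨J, hJ⟩ : ∃ J : Finset (Fin m), J = Finset.univ.filter fun j => ¬ VanishesAt (G j) y :=
    ⟨_, rfl⟩
  have hcard : m ≤ J.card + k := by
    have h2 := hthr _ hy
    have h3 : ({j | VanishesAt (G j) y} : Set (Fin m)) = (Jᶜ : Finset (Fin m)) := by
      ext j
      rw [Finset.mem_coe, Finset.mem_compl, hJ, Finset.mem_filter, not_and, not_not]
      exact ⟨fun h _ => h, fun h => h (Finset.mem_univ _)⟩
    rw [h3, Set.ncard_coe_finset, Finset.card_compl, Fintype.card_fin] at h2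
    omega
  have h4 : (N₀ + 1) * (k + 1) = N₀ * k + N₀ + k + 1 := by ring
  refine ⟨?_, fun y' hy' => ?_⟩
  · convert (by omega : N₀ ≤ J.card) using 2
    rw [hJ]
  · have h5 : {j | j ∈ J ∧ VanishesAt (G j) y'}.ncard ≤ k :=
      (Set.ncard_le_ncard (fun j hj => hj.2) (Set.toFinite _)).trans (hthr _ hy')
    have h6 : N₀ * {j | j ∈ J ∧ VanishesAt (G j) y'}.ncard ≤ J.card :=
      (Nat.mul_le_mul_left _ h5).trans (by omega)
    rw [hJ] at h6
    convert h6

theorem excSet_eq {A N₀ k : ℕ} (hA : 2 ≤ A) (hG : ∀ j, ∃ e, (G j).IsHomogeneous e)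
    (hG0 : ∀ j, G j ≠ 0) (hthr : AtMostThrough k P G) (hm : (N₀ + 1) * (k + 1) ≤ m)
    (h : RamifiedMorphism 2 P G I B Z F) (Δ : MvPolynomial (Fin (M + 1)) ℂ) :
    excSet A N₀ P G I B Z F Δ = Pool.Agent.H5.DG3.excSet I B Z F Δ := by
  classical
  ext x
  refine ⟨fun hx => ⟨hx.1, ?_⟩, fun hx => ⟨hx.1, ?_⟩⟩
  swap
  · rcases hx.2 with h1 | h1
    · exact Or.inl h1
    · exact Or.inr (Or.inl h1)
  rcases hx.2 with h1 | h1 | h1
  · exact Or.inl h1
  · exact Or.inr h1
  exfalso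
  obtain ⟨J, hJ⟩ : ∃ J : Finset (Fin m),
      J = Finset.univ.filter fun j => ¬ VanishesAt (G j) (morph F x) := ⟨_, rfl⟩
  have hJmem : ∀ j, j ∈ J ↔ ¬ VanishesAt (G j) (morph F x) := by
    intro j
    rw [hJ, Finset.mem_filter]
    exact ⟨fun h => h.2, fun h => ⟨Finset.mem_univ _, h⟩⟩
  have hgood : GoodSet N₀ P G J := by
    rw [hJ]
    exact goodSet_of_atMost hthr hm (h.maps x hx.1)
  have hsec : RamifiedSection A N₀ P G I B F (∑ j ∈ J, (G j).totalDegree)
      fun α => ∏ j ∈ J, aeval (F α) (G j) := by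
    refine ⟨prod_section h.morphism hG hG0 J, 2, J, by norm_num, hgood, ?_, fun y hy => ?_⟩
    · have h2 : A ≤ (A - 1) * 2 := by omega
      calc A * ∑ j ∈ J, (G j).totalDegree ≤ ((A - 1) * 2) * ∑ j ∈ J, (G j).totalDegree :=
            Nat.mul_le_mul_right _ h2
        _ = (A - 1) * (2 * ∑ j ∈ J, (G j).totalDegree) := by ring
    · exact vanishes_two h.homog h.morphism hG hy (h.mult y hy) J
  obtain ⟨α, b, hb⟩ := h.morphism.base x hx.1
  have h2 := h1 _ _ hsec α
  have h3 : eval x.rep (∏ j ∈ J, aeval (F α) (G j)) = 0 := h2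
  rw [map_prod] at h3
  obtain ⟨j, hj, hj0⟩ := Finset.prod_eq_zero_iff.1 h3
  obtain ⟨e, he⟩ := hG j
  exact (hJmem j).1 hj
    ((Pool.Agent.H5.DG3.vanishesAt_morph h.morphism h.homog hx.1.1 he ⟨b, hb⟩).2 hj0)

end Pool.Agent.H5.DG4
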