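import Pool.Agent.H5.DG4.SmtPart
import Pool.Agent.H5.DG4.Mult4
import Pool.Agent.H5.DG.SecOrb
import Pool.Agent.H5.DG2.Main2
import Pool.Agent.H62.FC.Nev0

/-!
# Project DG4, module Orb4: maps which meet the hypersurfaces with multiplicities at least two

`picard`: `J = {j | ¬ VanishesAt (G j) (f z₀)}` with `z₀` such that `Δ` does not vanish at `f z₀`; it has a
good set (`goodSet_of_atMost`, module Mult4); the form of the partition divides `Δ`.  `ext_of_section`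
with `k = 2`, `a = ∑ j ∈ J, deg (G j)` (`(G j).totalDegree = d j` since `G j ≠ 0`),
`t = ∏ j ∈ J, eval (nc f i₀) (G j)`: bounded by `C * size ^ a`; at `s`, with the lift `ψ` of `MeetsForm`, the
order of `G j (nc f i₀) = G j (ψ) / ψ_(i₀) ^ d` is `ordZ (G j (ψ)) s - d * ordZ ψ_(i₀) s`, the first term is `≥ 2` if
`VanishesAt (G j) (f s)` and `≥ 0` in any case (the order is not `⊤` since `G j` is not identically zero
along `f`), `minOrd_nc`.  `brody`: `brody_of_picard`, `MeetsForm.exp` (module SecOrb).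
-/

open MvPolynomial Filter Topology
open Pool.Agent.H17 (PN VanishesAt HolomorphicInto puncturedDisc)
open Pool.Agent.H5.DG

noncomputable section

namespace Pool.Agent.H5.DG4

/-! ### Auxiliary lemmas -/

section aux

open Pool.Agent.H62.FC (MeroPunct)
open Pool.Agent.H92.GGL (ordZ)

variable {M m : ℕ}

private theorem Orb4_nc {f : ℂ → PN M} (i₀ : Fin (M + 1)) (z : ℂ) :
    (fun i => nc f i₀ i z) = ((f z).rep i₀)⁻¹ • (f z).rep := by
  funext i
  show (f z).rep i / (f z).rep i₀ = ((f z).rep i₀)⁻¹ * (f z).rep i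
  rw [div_eq_inv_mul]

private theorem Orb4_smul {r e : ℕ} {Q : MvPolynomial (Fin r) ℂ} (hQ : Q.IsHomogeneous e)
    (c : ℂ) (x : Fin r → ℂ) : eval (c • x) Q = c ^ e * eval x Q :=
  Pool.Agent.H17.eval_smul_of_isHomogeneous hQ c x

private theorem Orb4_eval {f : ℂ → PN M} (i₀ : Fin (M + 1)) (z : ℂ)
    {Q : MvPolynomial (Fin (M + 1)) ℂ} {e : ℕ} (hQ : Q.IsHomogeneous e) :
    eval (fun i => nc f i₀ i z) Q = ((f z).rep i₀)⁻¹ ^ e * eval (f z).rep Q := by
  rw [Orb4_nc, Orb4_smul hQ]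

private theorem Orb4_rep {r : ℕ} {f : ℂ → PN r} {s : ℂ} {ψ : ℂ → Fin (r + 1) → ℂ}
    (he : ∀ᶠ z in 𝓝 s, ∃ h : ψ z ≠ 0, f z = Projectivization.mk ℂ (ψ z) h) :
    ∀ᶠ z in 𝓝 s, ∃ c : ℂ, c ≠ 0 ∧ (f z).rep = c • ψ z := by
  filter_upwards [he] with z hz
  obtain ⟨h1, h2⟩ := hz
  obtain ⟨a, ha, h3⟩ := Pool.Agent.H17.exists_smul_rep (ψ z) h1
  refine ⟨a, ha, ?_⟩
  rw [h2, h3]

private theorem Orb4_analytic {r : ℕ} {ψ : ℂ → Fin (r + 1) → ℂ} {s : ℂ} (hψ : AnalyticAt ℂ ψ s)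
    (Q : MvPolynomial (Fin (r + 1)) ℂ) : AnalyticAt ℂ (fun z => eval (ψ z) Q) s := by
  have h1 : AnalyticAt ℂ (fun z => aeval (ψ z) Q) s :=
    AnalyticAt.aeval_mvPolynomial (fun i => analyticAt_pi_iff.mp hψ i) Q
  refine h1.congr (Eventually.of_forall fun z => ?_)
  rfl

/-- Not identically zero forms give meromorphic functions. -/
private theorem Orb4_mero {f : ℂ → PN M} (hf : HolomorphicInto f puncturedDisc)
    {i₀ : Fin (M + 1)} (hi₀ : i₀ ∈ nzSet f) {Q : MvPolynomial (Fin (M + 1)) ℂ} {e : ℕ}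
    (hQ : Q.IsHomogeneous e)
    (hne : ∀ s ∈ puncturedDisc, ∀ᶠ z in 𝓝[≠] s, ¬ VanishesAt Q (f z)) :
    MeroPunct 1 (fun ζ => eval (fun i => nc f i₀ i ζ) Q) := by
  have hmer : ∀ z, 0 < ‖z‖ → ‖z‖ < 1 →
      MeromorphicAt (fun ζ => eval (fun i => nc f i₀ i ζ) Q) z := by
    intro z h1 h2
    obtain ⟨ψ, hψ, he⟩ := hf z (mem_puncturedDisc.mpr ⟨h1, h2⟩)
    have h3 : MeromorphicAt (fun ζ => (ψ ζ i₀)⁻¹ ^ e * eval (ψ ζ) Q) z :=
      ((analyticAt_pi_iff.mp hψ i₀).meromorphicAt.inv.pow e).mul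
        (Orb4_analytic hψ Q).meromorphicAt
    refine h3.congr ?_
    filter_upwards [(Orb4_rep he).filter_mono nhdsWithin_le_nhds] with ζ hζ
    obtain ⟨c, hc, h4⟩ := hζ
    rw [Orb4_eval i₀ ζ hQ, h4, Orb4_smul hQ, Pi.smul_apply,
      smul_eq_mul, mul_inv, mul_pow, inv_pow c]
    field_simp
  refine ⟨hmer, fun z h1 h2 => ?_⟩
  have hs := mem_puncturedDisc.mpr ⟨h1, h2⟩
  rw [meromorphicOrderAt_ne_top_iff_eventually_ne_zero (hmer z h1 h2)]
  filter_upwards [hne z hs, nz_mem hi₀ hs] with ζ h3 h4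
  rw [Orb4_eval i₀ ζ hQ]
  exact mul_ne_zero (pow_ne_zero _ (inv_ne_zero h4)) h3

/-- The order of a form. -/
private theorem Orb4_ord {f : ℂ → PN M} (hf : HolomorphicInto f puncturedDisc)
    {i₀ : Fin (M + 1)} (hi₀ : i₀ ∈ nzSet f) {s : ℂ} (hs : s ∈ puncturedDisc)
    {ψ : ℂ → Fin (M + 1) → ℂ} (hψ : AnalyticAt ℂ ψ s)
    (he : ∀ᶠ z in 𝓝 s, ∃ h : ψ z ≠ 0, f z = Projectivization.mk ℂ (ψ z) h)
    {Q : MvPolynomial (Fin (M + 1)) ℂ} {e : ℕ} (hQ : Q.IsHomogeneous e)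
    (hne : ∀ s ∈ puncturedDisc, ∀ᶠ z in 𝓝[≠] s, ¬ VanishesAt Q (f z)) :
    meromorphicOrderAt (fun z => eval (ψ z) Q) s ≠ ⊤ ∧
    ordZ (fun ζ => eval (fun i => nc f i₀ i ζ) Q) s =
      ordZ (fun z => eval (ψ z) Q) s - e * ordZ (fun z => ψ z i₀) s := by
  have hM := Orb4_mero hf hi₀ hQ hne
  have h5 := mem_puncturedDisc.mp hs
  have ha := Orb4_analytic hψ Q
  have hb := analyticAt_pi_iff.mp hψ i₀
  have hψ0 : ∀ᶠ z in 𝓝[≠] s, ψ z i₀ ≠ 0 := by
    filter_upwards [(Orb4_rep he).filter_mono nhdsWithin_le_nhds, nz_mem hi₀ hs] with z hz h1 h2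
    obtain ⟨c, hc, h3⟩ := hz
    apply h1
    rw [h3, Pi.smul_apply, h2, smul_zero]
  have hQ0 : ∀ᶠ z in 𝓝[≠] s, eval (ψ z) Q ≠ 0 := by
    filter_upwards [(Orb4_rep he).filter_mono nhdsWithin_le_nhds, hne s hs] with z hz h1 h2
    obtain ⟨c, hc, h3⟩ := hz
    apply h1
    unfold VanishesAt
    rw [h3, Orb4_smul hQ, h2, mul_zero]
  have hta := (meromorphicOrderAt_ne_top_iff_eventually_ne_zero ha.meromorphicAt).mpr hQ0
  have htb := (meromorphicOrderAt_ne_top_iff_eventually_ne_zero hb.meromorphicAt).mpr hψ0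
  refine ⟨hta, ?_⟩
  have h1 : (fun z => eval (ψ z) Q) =ᶠ[𝓝[≠] s]
      ((fun ζ => eval (fun i => nc f i₀ i ζ) Q) * (fun z => ψ z i₀) ^ e) := by
    filter_upwards [(Orb4_rep he).filter_mono nhdsWithin_le_nhds, hψ0] with z hz h2
    obtain ⟨c, hc, h3⟩ := hz
    rw [Pi.mul_apply, Pi.pow_apply]
    show _ = eval (fun i => nc f i₀ i z) Q * ψ z i₀ ^ e
    rw [Orb4_eval i₀ z hQ, h3, Orb4_smul hQ, Pi.smul_apply,
      smul_eq_mul, mul_inv, mul_pow, inv_pow c, inv_pow (ψ z i₀)]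
    field_simp
  have h2 := meromorphicOrderAt_congr h1
  rw [meromorphicOrderAt_mul (hM.mero s h5.1 h5.2) (hb.meromorphicAt.pow e),
    meromorphicOrderAt_pow hb.meromorphicAt] at h2
  rw [← Pool.Agent.H92.GGL.ordZ_cast hta, ← Pool.Agent.H92.GGL.ordZ_cast htb,
    ← Pool.Agent.H92.GGL.ordZ_cast (hM.ord s h5.1 h5.2)] at h2
  have h4 : ordZ (fun z => eval (ψ z) Q) s =
      ordZ (fun ζ => eval (fun i => nc f i₀ i ζ) Q) s + e * ordZ (fun z => ψ z i₀) s := by
    exact_mod_cast h2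
  linarith

private theorem Orb4_ne {f : ℂ → PN M} (hf : HolomorphicInto f puncturedDisc)
    {Q : MvPolynomial (Fin (M + 1)) ℂ} {e : ℕ} (hQ : Q.IsHomogeneous e)
    (h : ∃ z ∈ puncturedDisc, ¬ VanishesAt Q (f z)) :
    ∀ s ∈ puncturedDisc, ∀ᶠ z in 𝓝[≠] s, ¬ VanishesAt Q (f z) := by
  rcases vanish_dich hf hQ with h1 | h1
  · obtain ⟨z, hz1, hz2⟩ := h
    exact absurd (h1 z hz1).self_of_nhds hz2
  · exact h1

/-- Products. -/
private theorem Orb4_prod {J : Finset (Fin m)} {u : Fin m → ℂ → ℂ}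
    (hu : ∀ j ∈ J, MeroPunct 1 (u j)) :
    MeroPunct 1 (fun ζ => ∏ j ∈ J, u j ζ) ∧
    ∀ s ∈ puncturedDisc, ordZ (fun ζ => ∏ j ∈ J, u j ζ) s = ∑ j ∈ J, ordZ (u j) s := by
  classical
  induction J using Finset.induction_on with
  | empty =>
    have h1 : ∀ s : ℂ, meromorphicOrderAt (fun _ : ℂ => (1 : ℂ)) s = 0 := by
      intro s
      rw [meromorphicOrderAt_const, if_neg one_ne_zero]
    simp only [Finset.prod_empty, Finset.sum_empty]
    refine ⟨⟨fun z _ _ => MeromorphicAt.const 1 z, fun z _ _ => ?_⟩, fun s _ => ?_⟩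
    · rw [h1]
      exact WithTop.zero_ne_top
    · unfold ordZ
      rw [h1]
      rfl
  | insert i J hi ih =>
    obtain ⟨h1, h2⟩ := ih fun j hj => hu j (Finset.mem_insert_of_mem hj)
    have h3 := hu i (Finset.mem_insert_self i J)
    have h4 : (fun ζ => ∏ j ∈ insert i J, u j ζ) = fun ζ => u i ζ * ∏ j ∈ J, u j ζ := by
      funext ζ
      rw [Finset.prod_insert hi]
    rw [h4]
    have h5 := h3.mul h1
    refine ⟨h5, fun s hs => ?_⟩
    have h6 := mem_puncturedDisc.mp hs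
    rw [Finset.sum_insert hi, ← h2 s hs]
    have h7 : meromorphicOrderAt (fun ζ => u i ζ * ∏ j ∈ J, u j ζ) s =
        meromorphicOrderAt (u i) s + meromorphicOrderAt (fun ζ => ∏ j ∈ J, u j ζ) s :=
      fun_meromorphicOrderAt_mul (h3.mero s h6.1 h6.2) (h1.mero s h6.1 h6.2)
    rw [← Pool.Agent.H92.GGL.ordZ_cast (h5.ord s h6.1 h6.2),
      ← Pool.Agent.H92.GGL.ordZ_cast (h3.ord s h6.1 h6.2),
      ← Pool.Agent.H92.GGL.ordZ_cast (h1.ord s h6.1 h6.2)] at h7
    exact_mod_cast h7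

/-- The growth of a form. -/
private theorem Orb4_bound {Q : MvPolynomial (Fin (M + 1)) ℂ} {e : ℕ} (hQ : Q.IsHomogeneous e) :
    ∃ K : ℝ, 0 ≤ K ∧ ∀ (x : Fin (M + 1) → ℂ) (H : ℝ), (∀ i, ‖x i‖ ≤ H) →
      ‖eval x Q‖ ≤ K * H ^ e := by
  classical
  refine ⟨∑ n ∈ Q.support, ‖Q.coeff n‖, Finset.sum_nonneg fun _ _ => norm_nonneg _,
    fun x H hH => ?_⟩
  have hH0 : 0 ≤ H := (norm_nonneg _).trans (hH 0)
  rw [eval_eq', Finset.sum_mul]
  refine (norm_sum_le _ _).trans (Finset.sum_le_sum fun n hn => ?_)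
  rw [norm_mul, norm_prod]
  refine mul_le_mul_of_nonneg_left ?_ (norm_nonneg _)
  have h1 : ∑ i, n i = e := by
    by_contra hne
    refine (mem_support_iff.mp hn) (hQ.coeff_eq_zero ?_)
    rw [Finsupp.degree_eq_sum]
    exact hne
  calc ∏ i, ‖x i ^ n i‖ ≤ ∏ i, H ^ n i := by
        refine Finset.prod_le_prod (fun _ _ => norm_nonneg _) fun i _ => ?_
        rw [norm_pow]
        exact pow_le_pow_left₀ (norm_nonneg _) (hH i) _
    _ = H ^ e := by rw [Finset.prod_pow_eq_pow_sum, h1]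

end aux

theorem orbifold_of_partitions {A M m k N₀ d : ℕ} (hA : 2 ≤ A)
    {P : Ideal (MvPolynomial (Fin (M + 1)) ℂ)} (hP : Homog P)
    {G : Fin m → MvPolynomial (Fin (M + 1)) ℂ} (hG : ∀ j, ∃ e, (G j).IsHomogeneous e)
    (hG0 : ∀ j, G j ≠ 0) (hthr : AtMostThrough k P G) (hm : (N₀ + 1) * (k + 1) ≤ m)
    {Δ : MvPolynomial (Fin (M + 1)) ℂ} (hΔ : Δ.IsHomogeneous d)
    (hpart : ∀ J : Finset (Fin m), GoodSet N₀ P G J → ∃ Γ : Partition A P G J, Γ.form ∣ Δ) :
    OrbifoldSection 2 P G Δ := by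
  classical
  choose e he using hG
  have hpic : ∀ f : ℂ → PN M, HolomorphicInto f puncturedDisc →
      (∀ z ∈ puncturedDisc, f z ∈ variety P) → (∀ j, MeetsForm 2 (G j) f puncturedDisc) →
      (∃ z ∈ puncturedDisc, ¬ VanishesAt Δ (f z)) →
      ∃ g : ℂ → PN M, HolomorphicInto g (Metric.ball 0 1) ∧ ∀ z ∈ puncturedDisc, g z = f z := by
    intro f hf hfP hm2 hne
    obtain ⟨z₀, hz₀, hΔ₀⟩ := hne
    obtain ⟨J, hJ⟩ : ∃ J : Finset (Fin m),
      J = Finset.univ.filter fun j => ¬ VanishesAt (G j) (f z₀) := ⟨_, rfl⟩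
    have hgood : GoodSet N₀ P G J := by
      have h1 := goodSet_of_atMost hthr hm (hfP z₀ hz₀)
      rw [hJ]
      convert h1
    obtain ⟨Γ, Ξ, hΓ⟩ := hpart J hgood
    have htd : ∀ j, (G j).totalDegree = e j := fun j => (he j).totalDegree (hG0 j)
    have hΔΓ : ∃ z ∈ puncturedDisc, ¬ VanishesAt Γ.form (f z) := by
      refine ⟨z₀, hz₀, fun hcon => hΔ₀ ?_⟩
      unfold VanishesAt at hcon ⊢
      rw [hΓ, map_mul, hcon, zero_mul]
    have hGne : ∀ j ∈ J, ∃ z ∈ puncturedDisc, ¬ VanishesAt (G j) (f z) := by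
      intro j hj
      rw [hJ] at hj
      exact ⟨z₀, hz₀, (Finset.mem_filter.1 hj).2⟩
    obtain ⟨i₀, hi₀⟩ : ∃ i₀, i₀ ∈ nzSet f := by
      by_contra hcon
      push Not at hcon
      exact (f z₀).rep_nonzero (funext fun i => nz_notMem hf (hcon i) hz₀)
    have hGne' : ∀ j ∈ J, ∀ s ∈ puncturedDisc, ∀ᶠ z in 𝓝[≠] s, ¬ VanishesAt (G j) (f z) :=
      fun j hj => Orb4_ne hf (he j) (hGne j hj)
    obtain ⟨hpm, hpo⟩ := Orb4_prod (J := J) (u := fun j ζ => eval (fun i => nc f i₀ i ζ) (G j))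
      fun j hj => Orb4_mero hf hi₀ (he j) (hGne' j hj)
    choose K hK0 hK using fun j => Orb4_bound (he j)
    refine ext_of_section hP Γ hf hfP hΔΓ hGne hi₀ (k := 2) (a := ∑ j ∈ J, (G j).totalDegree)
      (by norm_num) ?_ hpm (C := ∏ j ∈ J, K j) ?_ ?_
    · have h2 : A ≤ (A - 1) * 2 := by omega
      calc A * ∑ j ∈ J, (G j).totalDegree ≤ ((A - 1) * 2) * ∑ j ∈ J, (G j).totalDegree :=
            Nat.mul_le_mul_right _ h2
        _ = (A - 1) * (2 * ∑ j ∈ J, (G j).totalDegree) := by ring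
    · intro z _
      refine Eventually.of_forall fun ζ => ?_
      have hle : ∀ i, ‖nc f i₀ i ζ‖ ≤ size (nc f i₀) ζ := fun i =>
        Finset.le_sup' (fun i => ‖nc f i₀ i ζ‖) (Finset.mem_univ i)
      rw [norm_prod]
      calc ∏ j ∈ J, ‖eval (fun i => nc f i₀ i ζ) (G j)‖
          ≤ ∏ j ∈ J, (K j * size (nc f i₀) ζ ^ e j) :=
            Finset.prod_le_prod (fun _ _ => norm_nonneg _) fun j _ => hK j _ _ hle
        _ = (∏ j ∈ J, K j) * size (nc f i₀) ζ ^ ∑ j ∈ J, (G j).totalDegree := by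
            rw [Finset.prod_mul_distrib, Finset.prod_pow_eq_pow_sum]
            simp only [htd]
    · intro s hs
      rw [hpo s hs]
      have hkey : ∀ j ∈ J, (if VanishesAt (G j) (f s) then (2 : ℤ) else 0) ≤
          Pool.Agent.H92.GGL.ordZ (fun ζ => eval (fun i => nc f i₀ i ζ) (G j)) s -
            e j * minOrd (nc f i₀) s := by
        intro j hj
        obtain ⟨ψ, hψ, hlift, hord⟩ := hm2 j s hs
        obtain ⟨htop, h1⟩ := Orb4_ord hf hi₀ hs hψ hlift (he j) (hGne' j hj)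
        rw [minOrd_nc hf hi₀ hs hψ hlift, h1]
        have h2 : Pool.Agent.H92.GGL.ordZ (fun z => eval (ψ z) (G j)) s -
            e j * Pool.Agent.H92.GGL.ordZ (fun z => ψ z i₀) s -
            e j * -Pool.Agent.H92.GGL.ordZ (fun z => ψ z i₀) s =
            Pool.Agent.H92.GGL.ordZ (fun z => eval (ψ z) (G j)) s := by ring
        rw [h2]
        have hA' := Orb4_analytic hψ (G j)
        split_ifs with hvan
        · have h3 : eval (ψ s) (G j) = 0 := by
            obtain ⟨h4, h5⟩ := hlift.self_of_nhds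
            rw [h5, Pool.Agent.H17.vanishesAt_mk_iff (he j)] at hvan
            exact hvan
          have h4 := hord h3
          have h5 : ((2 : ℤ) : WithTop ℤ) ≤
              meromorphicOrderAt (fun z => eval (ψ z) (G j)) s := by
            rw [hA'.meromorphicOrderAt_eq]
            rw [hA'.meromorphicOrderAt_eq] at htop
            generalize analyticOrderAt (fun z => eval (ψ z) (G j)) s = o at h4 htop
            induction o using ENat.recTopCoe with
            | top => exact absurd rfl htop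
            | coe o =>
              have h6 : 2 ≤ o := by exact_mod_cast h4
              show ((2 : ℤ) : WithTop ℤ) ≤ ((o : ℤ) : WithTop ℤ)
              exact_mod_cast h6
          rw [← Pool.Agent.H92.GGL.ordZ_cast htop] at h5
          exact_mod_cast h5
        · have h5 := hA'.meromorphicOrderAt_nonneg
          rw [← Pool.Agent.H92.GGL.ordZ_cast htop] at h5
          exact_mod_cast h5
      have hset : {j | j ∈ J ∧ VanishesAt (G j) (f s)} =
          ((J.filter fun j => VanishesAt (G j) (f s) : Finset (Fin m)) : Set (Fin m)) := by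
        ext j
        simp
      rw [hset, Set.ncard_coe_finset]
      calc ((2 * (J.filter fun j => VanishesAt (G j) (f s)).card : ℕ) : ℤ)
          = ∑ j ∈ J, (if VanishesAt (G j) (f s) then (2 : ℤ) else 0) := by
            rw [← Finset.sum_filter, Finset.sum_const, nsmul_eq_mul]
            push_cast
            ring
        _ ≤ ∑ j ∈ J, (Pool.Agent.H92.GGL.ordZ (fun ζ => eval (fun i => nc f i₀ i ζ) (G j)) s -
            e j * minOrd (nc f i₀) s) := Finset.sum_le_sum hkey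
        _ = ∑ j ∈ J, Pool.Agent.H92.GGL.ordZ (fun ζ => eval (fun i => nc f i₀ i ζ) (G j)) s -
            ((∑ j ∈ J, (G j).totalDegree : ℕ) : ℤ) * minOrd (nc f i₀) s := by
            rw [Finset.sum_sub_distrib, ← Finset.sum_mul]
            simp only [htd]
            push_cast
            rfl
  refine ⟨hpic, fun f hf hfY hm2 hne z w => ?_⟩
  exact brody_of_picard hΔ hf hne (fun hgh hne' => hpic _ hgh (fun z _ => hfY _)
    (fun j => (hm2 j).exp) hne') z w

end Pool.Agent.H5.DG4
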