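import Pool.Agent.H5.DG2.VPack

/-!
# Project DG4, module Pack4: the package with many points

`pack4` is `Pool.Agent.H5.DG.pack2` (module `Pool.Agent.H5.DG2.Pack`), `vpack4` is
`Pool.Agent.H5.DG.vpack` (module `Pool.Agent.H5.DG2.VPack`), with the additional conclusions
`K n * κ < m'` for a given function `K` (take `max ρ (max N' (max (2 * n + 8) (K n)))` in `partA`; in
the case of the subspace `W` it comes from the induction hypothesis) and that the `G (ι j)` have
degree `e`. Copy the proofs.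
-/

open MvPolynomial

noncomputable section

namespace Pool.Agent.H5.DG4

open Pool.Agent.H5.DG

theorem pack4 (K : ℕ → ℕ) (D ρ : ℕ) : ∃ N₀ : ℕ, ∀ (V : Type) [AddCommGroup V] [Module ℂ V]
    [FiniteDimensional ℂ V], Module.finrank ℂ V ≤ D → ∀ (m : ℕ) (l : Fin m → V), N₀ ≤ m →
    (∀ i j, i ≠ j → ∀ c : ℂ, l i ≠ c • l j) →
    ∃ (n m' κ : ℕ) (ι : Fin m' → Fin m) (N : Polynomial (PV n)) (φ : PVW n)
      (p : Fin m' → Fin (n + 2) → ℂ) (c : Fin m' → ℂ) (B : Fin (n + 2) → V),
      Function.Injective ι ∧ Pkg2 p κ N φ ∧ K n * κ < m' ∧ ρ < m' ∧ LinearIndependent ℂ B ∧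
      ∀ j, c j ≠ 0 ∧ c j • l (ι j) = ∑ a, p j a • B a := by
  classical
  induction D with
  | zero =>
    refine ⟨2, ?_⟩
    intro V _ _ _ hV m l hm hl
    exfalso
    have h0 : Module.finrank ℂ V = 0 := Nat.le_zero.1 hV
    have h1 : Subsingleton V := Module.finrank_zero_iff.1 h0
    exact hl ⟨0, by omega⟩ ⟨1, by omega⟩ (by simp) 0 (Subsingleton.elim _ _)
  | succ D ih =>
    obtain ⟨N', hN'⟩ := ih
    rcases D with - | n
    · refine ⟨2, ?_⟩
      intro V _ _ _ hV m l hm hl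
      exfalso
      have hne : l ⟨1, by omega⟩ ≠ 0 := by
        intro h
        refine hl ⟨1, by omega⟩ ⟨0, by omega⟩ (by simp) 0 ?_
        rw [h, zero_smul]
      have h1 : Module.finrank ℂ V = 1 := by
        have h2 : Module.finrank ℂ V ≠ 0 := by
          intro h3
          have h4 : Subsingleton V := Module.finrank_zero_iff.1 h3
          exact hne (Subsingleton.elim _ _)
        omega
      obtain ⟨c, hc⟩ := exists_smul_eq_of_finrank_eq_one h1 hne (l ⟨0, by omega⟩)
      exact hl ⟨0, by omega⟩ ⟨1, by omega⟩ (by simp) c hc.symm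
    · obtain ⟨N₁, hN₁⟩ := partA n (max (2 * n + 8) (max (K n) (max ρ N')))
      refine ⟨max 2 (max N' N₁), ?_⟩
      intro V _ _ _ hV m l hm hl
      have hm2 : 2 ≤ m := (le_max_left _ _).trans hm
      have hmN' : N' ≤ m := ((le_max_left _ _).trans (le_max_right _ _)).trans hm
      have hmN₁ : N₁ ≤ m := ((le_max_right _ _).trans (le_max_right _ _)).trans hm
      by_cases hfr : Module.finrank ℂ V ≤ n + 1
      · exact hN' V hfr m l hmN' hl
      have hfr2 : Module.finrank ℂ V = n + 2 := by omega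
      have hl0 : ∀ j, l j ≠ 0 := by
        intro j h
        obtain ⟨i, hi⟩ : ∃ i : Fin m, i ≠ j := by
          by_cases hj : j.1 = 0
          · exact ⟨⟨1, by omega⟩, fun h1 => by
              have h2 := congrArg Fin.val h1
              simp only at h2
              omega⟩
          · exact ⟨⟨0, by omega⟩, fun h1 => hj (by rw [← h1])⟩
        refine hl j i hi.symm 0 ?_
        rw [h, zero_smul]
      let b : Module.Basis (Fin (n + 2)) ℂ V := Module.finBasisOfFinrankEq ℂ V hfr2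
      obtain ⟨M, κ, N, J, c, hM, hκ, hN, hJ, hc⟩ := hN₁ m (fun j a => b.repr (l j) a) hmN₁
        (by
          intro j h
          apply hl0 j
          have h1 : b.repr (l j) = 0 := by
            ext a
            exact congrFun h a
          exact (map_eq_zero_iff _ b.repr.injective).1 h1)
      have hJ1 : max (2 * n + 8) (max (K n) (max ρ N')) < J.card :=
        lt_of_le_of_lt (Nat.le_mul_of_pos_right _ hκ) hJ
      have hJρ : ρ < J.card :=
        lt_of_le_of_lt (((le_max_left _ _).trans (le_max_right _ _)).trans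
          (le_max_right _ _)) hJ1
      have hJN' : N' ≤ J.card :=
        (lt_of_le_of_lt (((le_max_right _ _).trans (le_max_right _ _)).trans
          (le_max_right _ _)) hJ1).le
      have hJK : K n * κ < J.card :=
        lt_of_le_of_lt (Nat.mul_le_mul_right κ ((le_max_left _ _).trans (le_max_right _ _))) hJ
      have hJn : (2 * n + 8) * κ < J.card :=
        lt_of_le_of_lt (Nat.mul_le_mul_right κ (le_max_left _ _)) hJ
      by_cases hspan : Submodule.span ℂ (l '' J) = ⊤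
      · obtain ⟨ι, φ, p, c', B, hι, hpkg, hB, hcp⟩ :=
          pack_span b l hl hM hκ hN hc hJn hspan
        exact ⟨n, J.card, κ, ι, N, φ, p, c', B, hι, hpkg, hJK, hJρ, hB, hcp⟩
      · let W : Submodule ℂ V := Submodule.span ℂ (l '' J)
        have hW : Module.finrank ℂ W ≤ n + 1 := by
          have h1 : Module.finrank ℂ W < Module.finrank ℂ V := Submodule.finrank_lt hspan
          omega
        have hmem : ∀ i : Fin J.card, l (J.orderEmbOfFin rfl i) ∈ W := fun i =>
          Submodule.subset_span ⟨_, Finset.mem_coe.2 (J.orderEmbOfFin_mem rfl i), rfl⟩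
        obtain ⟨n', m', κ', ι, N₂, φ, p, c', B, hι, hpkg, hK', hρ, hB, hcp⟩ :=
          hN' W hW J.card (fun i => ⟨l (J.orderEmbOfFin rfl i), hmem i⟩) hJN' (by
            intro i j hij a h
            refine hl (J.orderEmbOfFin rfl i) (J.orderEmbOfFin rfl j)
              (fun h1 => hij ((J.orderEmbOfFin rfl).injective h1)) a ?_
            exact congrArg Subtype.val h)
        refine ⟨n', m', κ', fun i => J.orderEmbOfFin rfl (ι i), N₂, φ, p, c',
          fun a => (B a : V), ?_, hpkg, hK', hρ, ?_, ?_⟩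
        · exact (J.orderEmbOfFin rfl).injective.comp hι
        · exact hB.map' W.subtype W.ker_subtype
        · intro j
          refine ⟨(hcp j).1, ?_⟩
          have h1 := congrArg W.subtype (hcp j).2
          rw [map_smul, map_sum] at h1
          simp only [map_smul] at h1
          exact h1

private theorem pk4_pigeon {m δ K : ℕ} (hm : δ * K < m) (e : Fin m → ℕ)
    (he : ∀ j, 1 ≤ e j ∧ e j ≤ δ) : ∃ (e₀ m₁ : ℕ) (ι : Fin m₁ → Fin m), 1 ≤ e₀ ∧ e₀ ≤ δ ∧
      K < m₁ ∧ Function.Injective ι ∧ ∀ i, e (ι i) = e₀ := by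
  classical
  have h1 : (Finset.Icc 1 δ).card * K < (Finset.univ : Finset (Fin m)).card := by
    rw [Nat.card_Icc, Nat.add_sub_cancel, Finset.card_univ, Fintype.card_fin]
    exact hm
  obtain ⟨e₀, he₀, h2⟩ := Finset.exists_lt_card_fiber_of_mul_lt_card_of_maps_to
    (f := e) (fun j _ => Finset.mem_Icc.2 (he j)) h1
  rw [Finset.mem_Icc] at he₀
  refine ⟨e₀, _, (Finset.univ.filter fun j => e j = e₀).orderEmbOfFin rfl, he₀.1, he₀.2, h2,
    ((Finset.univ.filter fun j => e j = e₀).orderEmbOfFin rfl).injective, fun i => ?_⟩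
  have h3 := Finset.orderEmbOfFin_mem (Finset.univ.filter fun j => e j = e₀) rfl i
  exact (Finset.mem_filter.1 h3).2

private instance pk4_fin (M e : ℕ) :
    FiniteDimensional ℂ (homogeneousSubmodule (Fin (M + 1)) ℂ e) :=
  Module.Finite.iff_fg.2 (homogeneousSubmodule_fg (Fin (M + 1)) ℂ e)

private abbrev pk4_sub {M : ℕ} (P : Ideal (MvPolynomial (Fin (M + 1)) ℂ)) (e : ℕ) :
    Submodule ℂ (homogeneousSubmodule (Fin (M + 1)) ℂ e) :=
  (P.restrictScalars ℂ).comap (homogeneousSubmodule (Fin (M + 1)) ℂ e).subtype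

private theorem pk4_mk_zero {M : ℕ} (P : Ideal (MvPolynomial (Fin (M + 1)) ℂ)) {e : ℕ}
    (h : homogeneousSubmodule (Fin (M + 1)) ℂ e) :
    (pk4_sub P e).mkQ h = 0 ↔ (h : MvPolynomial (Fin (M + 1)) ℂ) ∈ P := by
  rw [Submodule.mkQ_apply, Submodule.Quotient.mk_eq_zero]
  rfl

private theorem pk4_comb {M n : ℕ} (P : Ideal (MvPolynomial (Fin (M + 1)) ℂ)) {e : ℕ}
    (B : Fin n → homogeneousSubmodule (Fin (M + 1)) ℂ e) (x : Fin n → ℂ) :
    comb x (fun a => (B a : MvPolynomial (Fin (M + 1)) ℂ)) ∈ P ↔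
      ∑ a, x a • (pk4_sub P e).mkQ (B a) = 0 := by
  have h1 : ∑ a, x a • (pk4_sub P e).mkQ (B a) = (pk4_sub P e).mkQ (∑ a, x a • B a) := by
    rw [map_sum]
    simp only [map_smul]
  rw [h1, pk4_mk_zero]
  have h2 : ((∑ a, x a • B a : homogeneousSubmodule (Fin (M + 1)) ℂ e) :
      MvPolynomial (Fin (M + 1)) ℂ) =
      comb x (fun a => (B a : MvPolynomial (Fin (M + 1)) ℂ)) := by
    unfold comb
    rw [AddSubmonoidClass.coe_finsetSum]
    refine Finset.sum_congr rfl fun a _ => ?_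
    rw [Submodule.coe_smul, MvPolynomial.smul_eq_C_mul]
  rw [h2]

theorem vpack4 (K : ℕ → ℕ) (M δ ρ : ℕ) : ∃ N₀ : ℕ, ∀ (P : Ideal (MvPolynomial (Fin (M + 1)) ℂ))
    (m : ℕ) (G : Fin m → MvPolynomial (Fin (M + 1)) ℂ), N₀ ≤ m →
    (∀ j, ∃ e, 1 ≤ e ∧ e ≤ δ ∧ (G j).IsHomogeneous e) →
    (∀ i j, i ≠ j → ∀ c : ℂ, G i - C c * G j ∉ P) →
    ∃ (e n m' κ : ℕ) (ι : Fin m' → Fin m) (N : Polynomial (PV n)) (φ : PVW n)
      (p : Fin m' → Fin (n + 2) → ℂ) (c : Fin m' → ℂ)
      (B : Fin (n + 2) → MvPolynomial (Fin (M + 1)) ℂ),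
      1 ≤ e ∧ Function.Injective ι ∧ Pkg2 p κ N φ ∧ K n * κ < m' ∧ ρ < m' ∧
      (∀ a, (B a).IsHomogeneous e) ∧ (∀ j, (G (ι j)).IsHomogeneous e) ∧
      (∀ x : Fin (n + 2) → ℂ, comb x B ∈ P → x = 0) ∧
      ∀ j, c j ≠ 0 ∧ C (c j) * G (ι j) - comb (p j) B ∈ P := by
  classical
  choose L hL using fun e : ℕ =>
    pack4 K (Module.finrank ℂ (homogeneousSubmodule (Fin (M + 1)) ℂ e)) ρ
  refine ⟨δ * (∑ e ∈ Finset.range (δ + 1), L e) + 1, fun P m G hm hdeg hmul => ?_⟩
  choose ee h1 h2 h3 using hdeg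
  obtain ⟨e, m₁, ι₁, he1, heδ, hKm, hι₁, hee⟩ :=
    pk4_pigeon (Nat.lt_of_succ_le hm) ee fun j => ⟨h1 j, h2 j⟩
  have hKe : L e ≤ m₁ := by
    refine le_trans ?_ hKm.le
    exact Finset.single_le_sum (f := L) (fun _ _ => Nat.zero_le _)
      (Finset.mem_range.2 (Nat.lt_succ_of_le heδ))
  have hG : ∀ i, G (ι₁ i) ∈ homogeneousSubmodule (Fin (M + 1)) ℂ e := by
    intro i
    rw [mem_homogeneousSubmodule, ← hee i]
    exact h3 _
  set H := homogeneousSubmodule (Fin (M + 1)) ℂ e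
  set l : Fin m₁ → H ⧸ pk4_sub P e := fun i => (pk4_sub P e).mkQ ⟨G (ι₁ i), hG i⟩ with hl
  have hlm : ∀ i j, i ≠ j → ∀ c : ℂ, l i ≠ c • l j := by
    intro i j hij c hc
    refine hmul (ι₁ i) (ι₁ j) (fun h => hij (hι₁ h)) c ?_
    rw [← sub_eq_zero, hl] at hc
    simp only at hc
    rw [← map_smul, ← map_sub, pk4_mk_zero] at hc
    rw [Submodule.coe_sub, Submodule.coe_smul, MvPolynomial.smul_eq_C_mul] at hc
    exact hc
  obtain ⟨n, m', κ, ι₂, N, φ, p, c, B, hι₂, hpkg, hK', hρ, hB, hc⟩ :=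
    hL e (H ⧸ pk4_sub P e) (Submodule.finrank_quotient_le _) m₁ l hKe hlm
  choose B' hB' using fun a => (pk4_sub P e).mkQ_surjective (B a)
  refine ⟨e, n, m', κ, ι₁ ∘ ι₂, N, φ, p, c, fun a => (B' a : MvPolynomial (Fin (M + 1)) ℂ), he1,
    hι₁.comp hι₂, hpkg, hK', hρ, fun a => ?_, fun j => ?_, fun x hx => ?_,
    fun j => ⟨(hc j).1, ?_⟩⟩
  · exact (mem_homogeneousSubmodule e _).1 (B' a).2
  · exact (mem_homogeneousSubmodule e _).1 (hG (ι₂ j))
  · rw [pk4_comb] at hx
    simp only [hB'] at hx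
    exact funext fun a => Fintype.linearIndependent_iff.1 hB x hx a
  · have h4 := (hc j).2
    have h5 : ∑ a, p j a • B a = (pk4_sub P e).mkQ (∑ a, p j a • B' a) := by
      rw [map_sum]
      simp only [map_smul, hB']
    rw [h5, hl, ← sub_eq_zero, ← map_smul, ← map_sub, pk4_mk_zero] at h4
    have h6 : ((∑ a, p j a • B' a : H) : MvPolynomial (Fin (M + 1)) ℂ) =
        comb (p j) (fun a => (B' a : MvPolynomial (Fin (M + 1)) ℂ)) := by
      unfold comb
      rw [AddSubmonoidClass.coe_finsetSum]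
      refine Finset.sum_congr rfl fun a _ => ?_
      rw [Submodule.coe_smul, MvPolynomial.smul_eq_C_mul]
    rw [Submodule.coe_sub, Submodule.coe_smul, MvPolynomial.smul_eq_C_mul, h6] at h4
    exact h4

end Pool.Agent.H5.DG4
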