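import Pool.Agent.H5.DG4.Defs
import Pool.Agent.H5.DG2.Main2

/-!
# Project DG4, module Sel4: choice of hypersurfaces in general position (idea of helper39)

From a large set `S` of forms such that only a small part of them vanishes at any point of the
variety given by `P` one can choose `n` forms, at most `k₀` of which vanish at any point, where `k₀`
depends only on the number of the variables and the degrees.
-/

open MvPolynomial
open Pool.Agent.H17 (PN VanishesAt)
open Pool.Agent.H5.DG (Homog variety AtMostThrough)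

noncomputable section

namespace Pool.Agent.H5.DG4

variable {M m : ℕ}

/-- All subsets of `T` with a common zero are linearly independent. -/
private def IndepZeros (P : Ideal (MvPolynomial (Fin (M + 1)) ℂ))
    (G : Fin m → MvPolynomial (Fin (M + 1)) ℂ) (T : Finset (Fin m)) : Prop :=
  ∀ T' ⊆ T, (∃ y ∈ variety P, ∀ j ∈ T', VanishesAt (G j) y) →
    LinearIndepOn ℂ G (T' : Set (Fin m))

private theorem exists_indep (n : ℕ) {P : Ideal (MvPolynomial (Fin (M + 1)) ℂ)}
    {G : Fin m → MvPolynomial (Fin (M + 1)) ℂ} {S : Finset (Fin m)} (hS : 2 ^ (n + 2) ≤ S.card)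
    (hpos : ∀ y ∈ variety P,
      2 ^ (n + 2) * {j | j ∈ S ∧ VanishesAt (G j) y}.ncard ≤ S.card) :
    ∀ t ≤ n, ∃ T : Finset (Fin m), T ⊆ S ∧ T.card = t ∧ IndepZeros P G T := by
  classical
  intro t
  induction t with
  | zero =>
    intro _
    refine ⟨∅, Finset.empty_subset _, rfl, fun T' hT' _ => ?_⟩
    rw [Finset.subset_empty.1 hT', Finset.coe_empty]
    exact linearIndepOn_empty ℂ G
  | succ t ih =>
    intro ht
    obtain ⟨T, hTS, hTc, hT⟩ := ih (by omega)
    -- a common zero of every subset which has one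
    have hex : ∀ T' : Finset (Fin m), ∃ Z : Finset (Fin m),
        (2 ^ (n + 2) * Z.card ≤ S.card) ∧
        ((∃ y ∈ variety P, ∀ j ∈ T', VanishesAt (G j) y) →
          ∃ y ∈ variety P, (∀ j ∈ T', VanishesAt (G j) y) ∧
            ∀ j ∈ S, VanishesAt (G j) y → j ∈ Z) := by
      intro T'
      by_cases h : ∃ y ∈ variety P, ∀ j ∈ T', VanishesAt (G j) y
      · obtain ⟨y, hy, hyT⟩ := h
        refine ⟨S.filter fun j => VanishesAt (G j) y, ?_, fun _ => ⟨y, hy, hyT, fun j hj hjy =>
          Finset.mem_filter.2 ⟨hj, hjy⟩⟩⟩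
        have h1 := hpos y hy
        have h2 : {j | j ∈ S ∧ VanishesAt (G j) y} =
            ((S.filter fun j => VanishesAt (G j) y : Finset (Fin m)) : Set (Fin m)) := by
          ext j
          rw [Finset.mem_coe, Finset.mem_filter]
          rfl
        rwa [h2, Set.ncard_coe_finset] at h1
      · exact ⟨∅, by simp, fun h' => absurd h' h⟩
    choose Z hZc hZ using hex
    obtain ⟨Bad, hBad⟩ : ∃ Bad : Finset (Fin m), Bad = T ∪ T.powerset.biUnion Z := ⟨_, rfl⟩
    have hcard : Bad.card < S.card := by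
      have h1 : Bad.card ≤ t + (T.powerset.biUnion Z).card := by
        rw [hBad, ← hTc]
        exact Finset.card_union_le _ _
      have h2 : 2 ^ (n + 2) * (T.powerset.biUnion Z).card ≤ 2 ^ t * S.card := by
        calc 2 ^ (n + 2) * (T.powerset.biUnion Z).card ≤
              2 ^ (n + 2) * ∑ T' ∈ T.powerset, (Z T').card :=
            Nat.mul_le_mul_left _ Finset.card_biUnion_le
          _ = ∑ T' ∈ T.powerset, 2 ^ (n + 2) * (Z T').card := by rw [Finset.mul_sum]
          _ ≤ ∑ _T' ∈ T.powerset, S.card := Finset.sum_le_sum fun T' _ => hZc T'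
          _ = 2 ^ t * S.card := by
            rw [Finset.sum_const, Finset.card_powerset, hTc, smul_eq_mul]
      have h3 : 2 ^ (n + 2) = 2 ^ t * 2 ^ (n + 2 - t) := by
        rw [← pow_add]
        congr 1
        omega
      have h4 : (2 : ℕ) ^ 3 ≤ 2 ^ (n + 2 - t) := Nat.pow_le_pow_right (by norm_num) (by omega)
      have h5 : 2 ^ (n + 2 - t) * (T.powerset.biUnion Z).card ≤ S.card := by
        rw [h3, mul_assoc] at h2
        exact Nat.le_of_mul_le_mul_left h2 (pow_pos (by norm_num) t)
      have h6 : 2 ^ 3 * (T.powerset.biUnion Z).card ≤ S.card :=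
        (Nat.mul_le_mul_right _ h4).trans h5
      have h7 : t < 2 ^ t := Nat.lt_two_pow_self
      have h8 : 2 ^ t * 4 ≤ S.card := by
        calc 2 ^ t * 4 = 2 ^ (t + 2) := by ring
          _ ≤ 2 ^ (n + 2) := Nat.pow_le_pow_right (by norm_num) (by omega)
          _ ≤ S.card := hS
      omega
    obtain ⟨j, hjS, hjB⟩ := Finset.exists_mem_notMem_of_card_lt_card hcard
    rw [hBad, Finset.mem_union, not_or] at hjB
    refine ⟨insert j T, Finset.insert_subset hjS hTS, by
      rw [Finset.card_insert_of_notMem hjB.1, hTc], fun T'' hT'' hy => ?_⟩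
    by_cases hj : j ∈ T''
    · have hT' : T''.erase j ⊆ T := by
        intro i hi
        rcases Finset.mem_insert.1 (hT'' (Finset.mem_of_mem_erase hi)) with h | h
        · exact absurd h (Finset.ne_of_mem_erase hi)
        · exact h
      have hy' : ∃ y ∈ variety P, ∀ i ∈ T''.erase j, VanishesAt (G i) y := by
        obtain ⟨y, h1, h2⟩ := hy
        exact ⟨y, h1, fun i hi => h2 i (Finset.mem_of_mem_erase hi)⟩
      obtain ⟨y, -, hyT, hyZ⟩ := hZ (T''.erase j) hy'
      have hjy : ¬ VanishesAt (G j) y := fun hcon => hjB.2 (Finset.mem_biUnion.2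
        ⟨T''.erase j, Finset.mem_powerset.2 hT', hyZ j hjS hcon⟩)
      have hspan : G j ∉ Submodule.span ℂ (G '' (T''.erase j : Finset (Fin m))) := by
        intro hcon
        apply hjy
        have h1 : Submodule.span ℂ (G '' (T''.erase j : Finset (Fin m))) ≤
            LinearMap.ker (aeval (R := ℂ) y.rep).toLinearMap := by
          rw [Submodule.span_le]
          rintro _ ⟨i, hi, rfl⟩
          have h2 : eval y.rep (G i) = 0 := hyT i hi
          rw [SetLike.mem_coe, LinearMap.mem_ker]
          exact (RingHom.congr_fun (MvPolynomial.coe_aeval_eq_eval y.rep) (G i)).trans h2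
        have h2 := h1 hcon
        rw [LinearMap.mem_ker] at h2
        exact (RingHom.congr_fun (MvPolynomial.coe_aeval_eq_eval y.rep) (G j)).symm.trans h2
      have h1 := (hT _ hT' hy').insert hspan
      have h2 : insert j ((T''.erase j : Finset (Fin m)) : Set (Fin m)) = (T'' : Set (Fin m)) := by
        rw [← Finset.coe_insert, Finset.insert_erase hj]
      rwa [h2] at h1
    · refine hT T'' (fun i hi => ?_) hy
      rcases Finset.mem_insert.1 (hT'' hi) with h | h
      · exact absurd (h ▸ hi) hj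
      · exact h

/-- **Choice of `n` forms** in `S`, at most `k₀` of which vanish at any point. -/
theorem exists_subfamily (M δ : ℕ) : ∃ k₀ : ℕ, ∀ (n m : ℕ)
    (P : Ideal (MvPolynomial (Fin (M + 1)) ℂ)) (G : Fin m → MvPolynomial (Fin (M + 1)) ℂ),
    (∀ j, ∃ e, e ≤ δ ∧ (G j).IsHomogeneous e) → ∀ S : Finset (Fin m), 2 ^ (n + 2) ≤ S.card →
    (∀ y ∈ variety P, 2 ^ (n + 2) * {j | j ∈ S ∧ VanishesAt (G j) y}.ncard ≤ S.card) →
    ∃ f : Fin n → Fin m, Function.Injective f ∧ (∀ i, f i ∈ S) ∧
      AtMostThrough k₀ P fun i => G (f i) := by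
  classical
  obtain ⟨W, hW⟩ : ∃ W : Submodule ℂ (MvPolynomial (Fin (M + 1)) ℂ),
      W = restrictTotalDegree (Fin (M + 1)) ℂ δ := ⟨_, rfl⟩
  have hWf : FiniteDimensional ℂ W := by
    rw [hW]
    infer_instance
  refine ⟨Module.finrank ℂ W, fun n m P G hG S hS hpos => ?_⟩
  obtain ⟨T, hTS, hTc, hT⟩ := exists_indep n hS hpos n le_rfl
  refine ⟨T.orderEmbOfFin hTc, (T.orderEmbOfFin hTc).injective,
    fun i => hTS (T.orderEmbOfFin_mem hTc i), fun x hx => ?_⟩
  obtain ⟨T', hT'⟩ : ∃ T' : Finset (Fin m), T' = T.filter fun j => VanishesAt (G j) x := ⟨_, rfl⟩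
  have h1 : LinearIndepOn ℂ G (T' : Set (Fin m)) := by
    refine hT T' ?_ ⟨x, hx, fun j hj => ?_⟩
    · rw [hT']
      exact Finset.filter_subset _ _
    · rw [hT'] at hj
      exact (Finset.mem_filter.1 hj).2
  have hmem : ∀ j, G j ∈ W := by
    intro j
    obtain ⟨e, he, hj⟩ := hG j
    rw [hW, mem_restrictTotalDegree]
    exact hj.totalDegree_le.trans he
  have h2 : LinearIndependent ℂ fun j : (T' : Set (Fin m)) => (⟨G j, hmem j⟩ : W) := by
    have h3 : LinearIndependent ℂ fun j : (T' : Set (Fin m)) => G j := h1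
    refine LinearIndependent.of_comp W.subtype ?_
    exact h3
  have h3 := h2.fintype_card_le_finrank
  have h4 : Fintype.card (T' : Set (Fin m)) = T'.card := by simp
  rw [h4] at h3
  refine le_trans ?_ h3
  have h5 : {i | VanishesAt (G (T.orderEmbOfFin hTc i)) x}.ncard =
      ((T.orderEmbOfFin hTc) '' {i | VanishesAt (G (T.orderEmbOfFin hTc i)) x}).ncard :=
    (Set.ncard_image_of_injective _ (T.orderEmbOfFin hTc).injective).symm
  rw [h5, ← Set.ncard_coe_finset T']
  refine Set.ncard_le_ncard ?_ (Set.toFinite _)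
  rintro _ ⟨i, hi, rfl⟩
  rw [Finset.mem_coe, hT', Finset.mem_filter]
  exact ⟨T.orderEmbOfFin_mem hTc i, hi⟩

end Pool.Agent.H5.DG4
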