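import Pool.Agent.H5.DG4.Clu
import Pool.Agent.H5.DG4.Pack4
import Pool.Agent.H5.DG4.Sel4
import Pool.Agent.H5.DG2.BaseY
import Pool.Agent.H5.DG2.DelV
import Pool.Agent.H5.DG2.Main2

/-!
# Project DG4, module Part4: partitions into clusters

`exists_cluster` (helper98): the package `vpack4`.  `exists_cluster_lin`: a cluster in a set `S` such
that only a small part of the forms `G j`, `j ∈ S`, vanishes at any point.  `exists_partition`
(helper98): a partition of a good set `S`.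
-/

open MvPolynomial
open Pool.Agent.H17 (PN VanishesAt)
open Pool.Agent.H5.DG

noncomputable section

namespace Pool.Agent.H5.DG4

theorem exists_cluster (A M δ k : ℕ) : ∃ N₀ : ℕ, ∀ (m : ℕ)
    (P : Ideal (MvPolynomial (Fin (M + 1)) ℂ)) [P.IsPrime]
    (G : Fin m → MvPolynomial (Fin (M + 1)) ℂ), Homog P →
    (∀ j, ∃ e, 1 ≤ e ∧ e ≤ δ ∧ (G j).IsHomogeneous e) →
    (∀ i j, i ≠ j → ∀ c : ℂ, G i - C c * G j ∉ P) → (∀ j, IntegralSection P (G j)) →
    AtMostThrough k P G → ∀ S : Finset (Fin m), N₀ ≤ S.card →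
    ∃ γ : Cluster A P G, ∀ j, γ.ι j ∈ S := by
  obtain ⟨N₀, hN₀⟩ := vpack4 (fun n => 2 * A * (n + 6)) M δ k
  refine ⟨N₀, fun m P _ G hP hdeg hne hint hthr S hS => ?_⟩
  have hf : Function.Injective (S.orderEmbOfFin rfl) := (S.orderEmbOfFin rfl).injective
  obtain ⟨e, n, m', κ, ι, N, φ, p, c, B, he, hι, hpkg, hK, hm', hB, hhom, hind, hc⟩ :=
    hN₀ P S.card (fun j => G (S.orderEmbOfFin rfl j)) hS (fun j => hdeg _)
      (fun i j hij c => hne _ _ (fun h => hij (hf h)) c)
  have hGh : ∀ j, ∃ d, (G j).IsHomogeneous d := fun j => by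
    obtain ⟨d, -, -, hd⟩ := hdeg j
    exact ⟨d, hd⟩
  have hι' : Function.Injective (fun j => S.orderEmbOfFin rfl (ι j)) := fun i j hij => hι (hf hij)
  have hbase : BaseFree P e B := by
    refine baseFree_of_few (k := k) he hB (fun y hy hyP => ?_) hι' hm' hc
    have h1 := hthr (Projectivization.mk ℂ y hy) (fun Q hQ d hd => by
      rw [Pool.Agent.H17.vanishesAt_mk_iff hd]
      exact hyP Q hQ)
    refine le_trans (le_of_eq ?_) h1
    congr 1
    ext j
    obtain ⟨d, hd⟩ := hGh j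
    simp only [Set.mem_ofPred_eq]
    rw [Pool.Agent.H17.vanishesAt_mk_iff hd]
  have hj : 0 < m' := by omega
  have hdel : aeval B (Del κ N) ∉ P :=
    del_notMem hpkg.data.pos hpkg.data.norm P hP he hB hind (hpkg.mem ⟨0, hj⟩)
      ((hint _).congr (hc ⟨0, hj⟩).1 (hc ⟨0, hj⟩).2)
  exact ⟨{ n := n, κ := κ, len := m', e := e, N := N, φ := φ, p := p,
           ι := fun j => S.orderEmbOfFin rfl (ι j), c := c, B := B, inj := hι',
           data := hpkg.data, hom := hpkg.hom, mem := hpkg.mem, pinj := hpkg.inj, card := hK,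
           base := hbase, cne := fun j => (hc j).1, eq := fun j => (hc j).2, homG := hhom,
           del := hdel }, fun j => S.orderEmbOfFin_mem rfl _⟩

/-- A cluster of a subfamily. -/
private def part4_map {A M m n : ℕ} {P : Ideal (MvPolynomial (Fin (M + 1)) ℂ)}
    {G : Fin m → MvPolynomial (Fin (M + 1)) ℂ} {f : Fin n → Fin m} (hf : Function.Injective f)
    (γ : Cluster A P fun i => G (f i)) : Cluster A P G :=
  { n := γ.n, κ := γ.κ, len := γ.len, e := γ.e, N := γ.N, φ := γ.φ, p := γ.p,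
    ι := fun j => f (γ.ι j), c := γ.c, B := γ.B, inj := hf.comp γ.inj, data := γ.data,
    hom := γ.hom, mem := γ.mem, pinj := γ.pinj, card := γ.card, base := γ.base, cne := γ.cne,
    eq := γ.eq, homG := γ.homG, del := γ.del }

/-- A cluster in a large set `S` such that only a small part of the forms vanishes at any point. -/
theorem exists_cluster_lin (A M δ : ℕ) : ∃ N₂ : ℕ, ∀ (m : ℕ)
    (P : Ideal (MvPolynomial (Fin (M + 1)) ℂ)) [P.IsPrime]
    (G : Fin m → MvPolynomial (Fin (M + 1)) ℂ), Homog P →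
    (∀ j, ∃ e, 1 ≤ e ∧ e ≤ δ ∧ (G j).IsHomogeneous e) →
    (∀ i j, i ≠ j → ∀ c : ℂ, G i - C c * G j ∉ P) → (∀ j, IntegralSection P (G j)) →
    ∀ S : Finset (Fin m), N₂ ≤ S.card →
    (∀ y ∈ variety P, N₂ * {j | j ∈ S ∧ VanishesAt (G j) y}.ncard ≤ S.card) →
    ∃ γ : Cluster A P G, ∀ j, γ.ι j ∈ S := by
  obtain ⟨k₀, hk₀⟩ := exists_subfamily M δ
  obtain ⟨N₀, hN₀⟩ := exists_cluster A M δ k₀
  refine ⟨2 ^ (N₀ + 2), fun m P _ G hP hdeg hne hint S hS hpos => ?_⟩
  obtain ⟨f, hf, hfS, hthr⟩ := hk₀ N₀ m P G (fun j => by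
    obtain ⟨e, -, he, hG⟩ := hdeg j
    exact ⟨e, he, hG⟩) S hS hpos
  obtain ⟨γ, -⟩ := hN₀ N₀ P (fun i => G (f i)) hP (fun i => hdeg _)
    (fun i j hij c => hne _ _ (fun h => hij (hf h)) c) (fun i => hint _) hthr Finset.univ
    (by rw [Finset.card_univ, Fintype.card_fin])
  exact ⟨part4_map hf γ, fun j => hfS _⟩

/-- Disjoint clusters which contain all but fewer than `N₀` elements of `S`. -/
private theorem part4_clusters {A M N₀ m : ℕ} {P : Ideal (MvPolynomial (Fin (M + 1)) ℂ)}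
    {G : Fin m → MvPolynomial (Fin (M + 1)) ℂ}
    {S₀ : Finset (Fin m)}
    (h : ∀ S ⊆ S₀, N₀ ≤ S.card → ∃ γ : Cluster A P G, ∀ j, γ.ι j ∈ S) :
    ∀ (s : ℕ) (S : Finset (Fin m)), S ⊆ S₀ → S.card = s → ∃ (ν : ℕ) (γ : Fin ν → Cluster A P G),
      (∀ a j, (γ a).ι j ∈ S) ∧ (∀ a b i j, (γ a).ι i = (γ b).ι j → a = b) ∧
      S.card ≤ N₀ + ∑ a, (γ a).len ∧
      ∀ w : Fin m → ℕ, ∀ D, (∀ j, w j ≤ D) →
        ∑ j ∈ S, w j ≤ D * N₀ + ∑ a, ∑ j, w ((γ a).ι j) := by
  classical
  intro s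
  induction s using Nat.strong_induction_on with
  | _ s ih =>
    intro S hSS hs
    by_cases hS : N₀ ≤ S.card
    · obtain ⟨γ₀, hγ₀⟩ := h S hSS hS
      have hlen : 0 < γ₀.len := by
        have := γ₀.card
        omega
      set T : Finset (Fin m) := Finset.univ.image γ₀.ι with hT
      have hTS : T ⊆ S := by
        intro x hx
        obtain ⟨j, -, rfl⟩ := Finset.mem_image.1 hx
        exact hγ₀ j
      have hTc : T.card = γ₀.len := by
        rw [hT, Finset.card_image_of_injective _ γ₀.inj, Finset.card_univ, Fintype.card_fin]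
      have hcard : (S \ T).card = S.card - γ₀.len := by
        rw [Finset.card_sdiff_of_subset hTS, hTc]
      have hTle : T.card ≤ S.card := Finset.card_le_card hTS
      obtain ⟨ν, γ, h1, h2, h3, h4⟩ := ih (S \ T).card (by omega) (S \ T)
        (Finset.sdiff_subset.trans hSS) rfl
      refine ⟨ν + 1, Fin.cons γ₀ γ, ?_, ?_, ?_, ?_⟩
      · intro a
        refine Fin.cases ?_ (fun a => ?_) a
        · exact hγ₀
        · exact fun j => (Finset.mem_sdiff.1 (h1 a j)).1
      · intro a b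
        refine Fin.cases ?_ (fun a => ?_) a <;> refine Fin.cases ?_ (fun b => ?_) b
        · intro _ _ _
          rfl
        · rw [Fin.cons_zero, Fin.cons_succ]
          intro i j hij
          exfalso
          refine (Finset.mem_sdiff.1 (h1 b j)).2 ?_
          rw [← hij]
          exact Finset.mem_image_of_mem _ (Finset.mem_univ _)
        · rw [Fin.cons_zero, Fin.cons_succ]
          intro i j hij
          exfalso
          refine (Finset.mem_sdiff.1 (h1 a i)).2 ?_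
          rw [hij]
          exact Finset.mem_image_of_mem _ (Finset.mem_univ _)
        · rw [Fin.cons_succ, Fin.cons_succ]
          intro i j hij
          rw [h2 a b i j hij]
      · rw [Fin.sum_univ_succ]
        simp only [Fin.cons_zero, Fin.cons_succ]
        omega
      · intro w D hw
        rw [Fin.sum_univ_succ]
        change _ ≤ D * N₀ + (∑ j, w (γ₀.ι j) + ∑ a, ∑ j, w ((γ a).ι j))
        have h5 := h4 w D hw
        have h6 : ∑ j ∈ S, w j = ∑ j ∈ S \ T, w j + ∑ j ∈ T, w j :=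
          (Finset.sum_sdiff hTS).symm
        have h7 : ∑ j ∈ T, w j = ∑ j, w (γ₀.ι j) := by
          rw [hT, Finset.sum_image fun a _ b _ hab => γ₀.inj hab]
        omega
    · refine ⟨0, fun a => a.elim0, fun a => a.elim0, fun a => a.elim0, ?_, ?_⟩
      · rw [Fin.sum_univ_zero]
        omega
      · intro w D hw
        rw [Fin.sum_univ_zero, add_zero]
        calc ∑ j ∈ S, w j ≤ ∑ _j ∈ S, D := Finset.sum_le_sum fun j _ => hw j
          _ = S.card * D := by rw [Finset.sum_const, smul_eq_mul]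
          _ ≤ D * N₀ := by
            rw [mul_comm]
            exact Nat.mul_le_mul_left _ (by omega)

/-- The weights of one cluster. -/
private theorem part4_len {A K len : ℕ} (hA : 1 ≤ A) (h : 2 * A * K < len) :
    (2 * A - 1) * len ≤ 2 * A * (len - K) := by
  obtain ⟨A, rfl⟩ : ∃ a, A = a + 1 := ⟨A - 1, by omega⟩
  have h1 : K ≤ len := by nlinarith
  obtain ⟨d, rfl⟩ : ∃ d, len = K + d := ⟨len - K, by omega⟩
  have h2 : K + d - K = d := by omega
  have h3 : 2 * (A + 1) - 1 = 2 * A + 1 := by omega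
  rw [h2, h3]
  nlinarith

/-- **A partition of a good set.** -/
theorem exists_partition (A M δ : ℕ) (hA : 1 ≤ A) : ∃ N₁ : ℕ, ∀ (m : ℕ)
    (P : Ideal (MvPolynomial (Fin (M + 1)) ℂ)) [P.IsPrime]
    (G : Fin m → MvPolynomial (Fin (M + 1)) ℂ), Homog P →
    (∀ j, ∃ e, 1 ≤ e ∧ e ≤ δ ∧ (G j).IsHomogeneous e) →
    (∀ i j, i ≠ j → ∀ c : ℂ, G i - C c * G j ∉ P) → (∀ j, IntegralSection P (G j)) →
    ∀ S : Finset (Fin m), GoodSet N₁ P G S → Nonempty (Partition A P G S) := by
  obtain ⟨N₂, hN₂⟩ := exists_cluster_lin A M δ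
  obtain ⟨L, hL⟩ : ∃ L, L = 4 * A * (δ + 1) := ⟨_, rfl⟩
  have hL0 : 0 < L := by
    rw [hL]
    positivity
  refine ⟨L * (N₂ + 2), fun m P _ G hP hdeg hne hint S hgood => ?_⟩
  have hS : L * (N₂ + 2) ≤ S.card := hgood.1
  obtain ⟨t, ht⟩ : ∃ t, t = S.card / L := ⟨_, rfl⟩
  have ht1 : N₂ + 2 ≤ t := by
    rw [ht, Nat.le_div_iff_mul_le hL0, mul_comm]
    exact hS
  have ht2 : t * L ≤ S.card := by
    rw [ht]
    exact Nat.div_mul_le_self _ _
  have ht3 : S.card < (t + 1) * L := by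
    rw [← Nat.div_lt_iff_lt_mul hL0, ← ht]
    exact Nat.lt_succ_self _
  have hcl : ∀ R ⊆ S, t + 1 ≤ R.card → ∃ γ : Cluster A P G, ∀ j, γ.ι j ∈ R := by
    intro R hRS hR
    refine hN₂ m P G hP hdeg hne hint R (by omega) fun y hy => ?_
    have h1 := hgood.2 y hy
    have h2 : {j | j ∈ R ∧ VanishesAt (G j) y}.ncard ≤ {j | j ∈ S ∧ VanishesAt (G j) y}.ncard :=
      Set.ncard_le_ncard (fun j hj => ⟨hRS hj.1, hj.2⟩) (Set.toFinite _)
    have h3 : L * (N₂ * {j | j ∈ R ∧ VanishesAt (G j) y}.ncard) < L * (t + 1) := by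
      calc L * (N₂ * {j | j ∈ R ∧ VanishesAt (G j) y}.ncard) ≤
            L * ((N₂ + 2) * {j | j ∈ S ∧ VanishesAt (G j) y}.ncard) :=
          Nat.mul_le_mul_left _ (Nat.mul_le_mul (by omega) h2)
        _ = L * (N₂ + 2) * {j | j ∈ S ∧ VanishesAt (G j) y}.ncard := by ring
        _ ≤ S.card := h1
        _ < (t + 1) * L := ht3
        _ = L * (t + 1) := mul_comm _ _
    have h4 := Nat.lt_of_mul_lt_mul_left h3
    omega
  obtain ⟨ν, γ, h1, h2, -, h4⟩ := part4_clusters hcl S.card S (Finset.Subset.refl S) rfl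
  have hw : ∀ j, (G j).totalDegree ≤ δ := fun j => by
    obtain ⟨e, -, he, hG⟩ := hdeg j
    exact hG.totalDegree_le.trans he
  have h5 := h4 (fun j => (G j).totalDegree) δ hw
  have h6 : ∑ a, ∑ j, (G ((γ a).ι j)).totalDegree ≤ ∑ a, (γ a).e * (γ a).len := by
    refine Finset.sum_le_sum fun a _ => ?_
    calc ∑ j, (G ((γ a).ι j)).totalDegree ≤ ∑ _j : Fin (γ a).len, (γ a).e :=
          Finset.sum_le_sum fun j _ => ((γ a).homG j).totalDegree_le
      _ = (γ a).e * (γ a).len := by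
        rw [Finset.sum_const, Finset.card_univ, Fintype.card_fin, smul_eq_mul, mul_comm]
  have hS2 : 1 < S.card := by
    have : 1 * (N₂ + 2) ≤ L * (N₂ + 2) := Nat.mul_le_mul_right _ hL0
    omega
  have h7 : S.card ≤ ∑ j ∈ S, (G j).totalDegree := by
    rw [Finset.card_eq_sum_ones]
    refine Finset.sum_le_sum fun j hj => ?_
    obtain ⟨i, -, hij⟩ := Finset.exists_mem_ne hS2 j
    have h0 : G j ≠ 0 := by
      intro h0
      refine hne j i hij.symm 0 ?_
      rw [h0, C_0, zero_mul, sub_zero]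
      exact P.zero_mem
    obtain ⟨e, he, -, hG⟩ := hdeg j
    rw [hG.totalDegree h0]
    exact he
  have h8 : (2 * A - 1) * ∑ a, (γ a).e * (γ a).len ≤
      2 * A * ∑ a, (γ a).e * ((γ a).len - ((γ a).n + 6) * (γ a).κ) := by
    rw [Finset.mul_sum, Finset.mul_sum]
    refine Finset.sum_le_sum fun a _ => ?_
    have h9 := part4_len (K := ((γ a).n + 6) * (γ a).κ) hA (by
      have := (γ a).card
      rwa [← mul_assoc])
    calc (2 * A - 1) * ((γ a).e * (γ a).len) = (γ a).e * ((2 * A - 1) * (γ a).len) := by ring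
      _ ≤ (γ a).e * (2 * A * ((γ a).len - ((γ a).n + 6) * (γ a).κ)) := Nat.mul_le_mul_left _ h9
      _ = _ := by ring
  refine ⟨⟨ν, γ, h1, h2, ?_⟩⟩
  -- numbers
  have h10 : 2 * A * (δ * (t + 1)) ≤ S.card := by
    have h11 : 2 * A * (δ * (t + 1)) ≤ t * L := by
      rw [hL]
      have h12 : t + 1 ≤ 2 * t := by omega
      calc 2 * A * (δ * (t + 1)) ≤ 2 * A * (δ * (2 * t)) :=
            Nat.mul_le_mul_left _ (Nat.mul_le_mul_left _ h12)
        _ = t * (4 * A * δ) := by ring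
        _ ≤ t * (4 * A * (δ + 1)) := Nat.mul_le_mul_left _ (Nat.mul_le_mul_left _ (by omega))
    omega
  generalize ∑ a, (γ a).e * ((γ a).len - ((γ a).n + 6) * (γ a).κ) = X at h8 ⊢
  generalize ∑ a, (γ a).e * (γ a).len = Y at h6 h8
  generalize ∑ j ∈ S, (G j).totalDegree = W at h5 h7 ⊢
  generalize ∑ a, ∑ j, (G ((γ a).ι j)).totalDegree = Z at h5 h6
  generalize δ * (t + 1) = R at *
  obtain ⟨A, rfl⟩ : ∃ a, A = a + 1 := ⟨A - 1, by omega⟩
  have h9 : 2 * (A + 1) - 1 = 2 * A + 1 := by omega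
  have h11 : A + 1 - 1 = A := by omega
  rw [h9] at h8
  rw [h11]
  have h12 : W ≤ R + Y := by omega
  have h13 : (2 * A + 1) * W ≤ (2 * A + 1) * R + 2 * (A + 1) * X :=
    calc (2 * A + 1) * W ≤ (2 * A + 1) * (R + Y) := Nat.mul_le_mul_left _ h12
      _ ≤ _ := by
        rw [mul_add]
        omega
  have h14 : (2 * A + 1) * R < W ∨ R = 0 := by
    rcases Nat.eq_zero_or_pos R with h | h
    · exact Or.inr h
    · left
      have : (2 * A + 1) * R < 2 * (A + 1) * R := by nlinarith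
      omega
  have h15 : 0 < W := by omega
  rcases h14 with h | h
  · nlinarith
  · rw [h] at h13
    nlinarith

end Pool.Agent.H5.DG4
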