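import Pool.Agent.H5.DG4.SmtPart

/-!
# Project DG4, module SmtC: the second main theorem for entire curves

`f z = [h (z⁻¹)]` on the punctured disc, `R₁ = 1 / 2`, `i₀` with `h i₀` not identically zero.
`smt_partition` with `S = J` and `ε` such that `D - ε ≥ (1 - 1 / A) * ∑ deg (G j)`, `D > (1 - 1 / A) ∑ deg` by
`Γ.num` (and `(n + 6) * κ ≥ 2 * κ`).
(1) `characteristic h (exp x) ≤ chr (nc f i₀) R₁ x + C * (1 + x)`: on the circle `‖z‖ = exp (-x)`,
`log ‖h (z⁻¹)‖ = max log ‖nc f i₀ i z‖ + log ‖h i₀ (z⁻¹)‖` (the norm of `Fin (M + 1) → ℂ` is the maximum;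
`(f z).rep` is a multiple of `h (z⁻¹)`), the mean of the second term is
`A' + B' * x + cnt (ordZ (h i₀ (z⁻¹)))` (`MeroPunct.jensen`), and `- minOrd (nc f i₀) s = ordZ (h i₀ ∘ inv) s`
(`minOrd_nc` with the lift `ψ z = h (z⁻¹)`); circle averages: `z ↦ z⁻¹` maps the circle of radius
`exp (-x)` to that of radius `exp x` (`circleAverage` of `g (z⁻¹)`; reverse the orientation).
(2) `cnt (Γ.count) R₁ (exp (-x)) ≤ ∑ j, counting (G j) h (exp x)`: `count_le`, the points `s` with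
`exp (-x) < ‖s‖ < R₁` correspond to `z = s⁻¹`, `1 / R₁ < ‖z‖ < exp x`, with the same logarithm
`log (‖s‖ / exp (-x)) = log (exp x / ‖z‖)`; all the terms of `counting` are nonnegative; the sets are
finite (`G j (h)` is an entire function, not identically zero).
For `exp (-x) ≥ R₁`, i.e. `0 ≤ x ≤ log 2`: put these `x` into `E` (a set of finite measure).
-/

open MvPolynomial Filter Topology MeasureTheory
open Pool.Agent.H17 (PN VanishesAt HolomorphicInto puncturedDisc)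
open Pool.Agent.H62.FC hiding Homog
open Pool.Agent.H92.GGL (ordZ)
open Pool.Agent.H5.DG

noncomputable section

namespace Pool.Agent.H5.DG4

variable {A M m : ℕ} {P : Ideal (MvPolynomial (Fin (M + 1)) ℂ)}
  {G : Fin m → MvPolynomial (Fin (M + 1)) ℂ}

/-- The map `[h (z⁻¹)]`. -/
def invMap (h : ℂ → Fin (M + 1) → ℂ) (hne : ∀ z, h z ≠ 0) (z : ℂ) : PN M :=
  Projectivization.mk ℂ (h z⁻¹) (hne z⁻¹)


/-! ### Private lemmas -/

private theorem smtc_rep (h : ℂ → Fin (M + 1) → ℂ) (hne : ∀ z, h z ≠ 0) (z : ℂ) :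
    ∃ c : ℂ, c ≠ 0 ∧ ∀ i, (invMap h hne z).rep i = c * h z⁻¹ i := by
  obtain ⟨a, ha, h3⟩ := Pool.Agent.H17.exists_smul_rep (h z⁻¹) (hne z⁻¹)
  refine ⟨a, ha, fun i => ?_⟩
  unfold invMap
  rw [h3]
  rfl

private theorem smtc_nc (h : ℂ → Fin (M + 1) → ℂ) (hne : ∀ z, h z ≠ 0) (i₀ i : Fin (M + 1))
    (z : ℂ) : nc (invMap h hne) i₀ i z = h z⁻¹ i / h z⁻¹ i₀ := by
  obtain ⟨c, hc, h1⟩ := smtc_rep h hne z
  unfold nc
  rw [h1, h1, mul_div_mul_left _ _ hc]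

private theorem smtc_an {h : ℂ → Fin (M + 1) → ℂ} (hd : Differentiable ℂ h) {s : ℂ}
    (hs : s ≠ 0) : AnalyticAt ℂ (fun z => h z⁻¹) s := by
  have h1 : AnalyticAt ℂ h s⁻¹ := hd.analyticAt _
  have h2 : AnalyticAt ℂ (fun z : ℂ => z⁻¹) s := analyticAt_inv hs
  exact AnalyticAt.fun_comp h1 h2

private theorem smtc_van {h : ℂ → Fin (M + 1) → ℂ} (hne : ∀ z, h z ≠ 0)
    {Q : MvPolynomial (Fin (M + 1)) ℂ} {d : ℕ} (hQ : Q.IsHomogeneous d) (z : ℂ) :
    VanishesAt Q (invMap h hne z) ↔ eval (h z⁻¹) Q = 0 := by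
  unfold invMap
  rw [Pool.Agent.H17.vanishesAt_mk_iff hQ]

private theorem smtc_entire {h : ℂ → Fin (M + 1) → ℂ} (hd : Differentiable ℂ h)
    (Q : MvPolynomial (Fin (M + 1)) ℂ) : AnalyticOnNhd ℂ (fun z => eval (h z) Q) Set.univ := by
  intro z _
  exact AnalyticAt.aeval_mvPolynomial (fun i => analyticAt_pi_iff.mp (hd.analyticAt z) i) Q

/-- The identity theorem: a frequent zero forces vanishing everywhere. -/
private theorem smtc_ident {h : ℂ → Fin (M + 1) → ℂ} (hd : Differentiable ℂ h)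
    {Q : MvPolynomial (Fin (M + 1)) ℂ} {z₀ : ℂ} (hf : ∃ᶠ z in 𝓝[≠] z₀, eval (h z) Q = 0)
    (z : ℂ) : eval (h z) Q = 0 := by
  have h1 := (smtc_entire hd Q).eqOn_zero_of_preconnected_of_frequently_eq_zero
    isPreconnected_univ (Set.mem_univ z₀) hf
  exact h1 (Set.mem_univ z)

private theorem smtc_fin {h : ℂ → Fin (M + 1) → ℂ} (hd : Differentiable ℂ h)
    {Q : MvPolynomial (Fin (M + 1)) ℂ} (hQ : ∃ z, eval (h z) Q ≠ 0) (R : ℝ) :
    {z : ℂ | z ≠ 0 ∧ ‖z‖ < R ∧ eval (h z) Q = 0}.Finite := by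
  by_contra hinf
  have hinf' : {z : ℂ | z ≠ 0 ∧ ‖z‖ < R ∧ eval (h z) Q = 0}.Infinite := hinf
  obtain ⟨z₀, -, hz₀⟩ := hinf'.exists_accPt_of_subset_isCompact
    (isCompact_closedBall (0 : ℂ) R) (by
      intro z hz
      rw [mem_closedBall_zero_iff]
      exact hz.2.1.le)
  obtain ⟨z, hz⟩ := hQ
  apply hz
  refine smtc_ident hd (z₀ := z₀) ?_ z
  rw [accPt_iff_frequently_nhdsNE] at hz₀
  exact hz₀.mono fun y hy => hy.2.2

private theorem smtc_out {h : ℂ → Fin (M + 1) → ℂ} (hd : Differentiable ℂ h)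
    {Q : MvPolynomial (Fin (M + 1)) ℂ} (hQ : ∃ z, eval (h z) Q ≠ 0) :
    ∃ z ∈ puncturedDisc, eval (h z⁻¹) Q ≠ 0 := by
  by_contra hcon
  push Not at hcon
  obtain ⟨z, hz⟩ := hQ
  apply hz
  refine smtc_ident hd (z₀ := 2) ?_ z
  have h1 : ∀ᶠ w in 𝓝[≠] (2 : ℂ), eval (h w) Q = 0 := by
    have h2 : ∀ᶠ w in 𝓝 (2 : ℂ), 1 < ‖w‖ := by
      have h3 : IsOpen {w : ℂ | 1 < ‖w‖} := isOpen_lt continuous_const continuous_norm
      exact h3.mem_nhds (by simp)
    filter_upwards [h2.filter_mono nhdsWithin_le_nhds] with w hw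
    have h4 : w⁻¹ ∈ puncturedDisc := by
      rw [mem_puncturedDisc, norm_inv]
      have h5 : 0 < ‖w‖ := lt_trans one_pos hw
      exact ⟨inv_pos.mpr h5, inv_lt_one_of_one_lt₀ hw⟩
    have h6 := hcon w⁻¹ h4
    rwa [inv_inv] at h6
  exact h1.frequently

private theorem smtc_mem {x : ℝ} {s : ℂ} (h1 : Real.exp (-x) < ‖s‖) (h2 : ‖s‖ < 1 / 2) :
    s ∈ puncturedDisc := by
  rw [mem_puncturedDisc]
  exact ⟨(Real.exp_pos _).trans h1, by linarith⟩

private theorem smtc_mero {h : ℂ → Fin (M + 1) → ℂ} (hd : Differentiable ℂ h)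
    (hne : ∀ z, h z ≠ 0) {i : Fin (M + 1)} (hi : i ∈ nzSet (invMap h hne)) :
    MeroPunct 1 (fun z => h z⁻¹ i) where
  mero z h1 h2 :=
    (analyticAt_pi_iff.mp (smtc_an hd (norm_pos_iff.mp h1)) i).meromorphicAt
  ord z h1 h2 := by
    have h3 := (analyticAt_pi_iff.mp (smtc_an hd (norm_pos_iff.mp h1)) i).meromorphicAt
    rw [meromorphicOrderAt_ne_top_iff_eventually_ne_zero h3]
    filter_upwards [nz_mem hi (mem_puncturedDisc.mpr ⟨h1, h2⟩)] with w hw hw'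
    obtain ⟨c, hc, h4⟩ := smtc_rep h hne w
    apply hw
    rw [h4, hw', mul_zero]

private theorem smtc_inv (g : ℂ → ℝ) (x : ℝ) :
    Real.circleAverage g 0 (Real.exp x) =
      Real.circleAverage (fun z => g z⁻¹) 0 (Real.exp (-x)) := by
  rw [Real.circleAverage_eq_circleAverage_zero_one (f := g),
    Real.circleAverage_eq_circleAverage_zero_one (f := fun z => g z⁻¹),
    ← Real.circleAverage_zero_one_congr_inv]
  congr 1
  funext z
  congr 1
  rw [add_zero, add_zero, mul_inv, Real.exp_neg]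
  push_cast
  rw [inv_inv]

private theorem smtc_pt {h : ℂ → Fin (M + 1) → ℂ} (hne : ∀ z, h z ≠ 0) {i₀ : Fin (M + 1)}
    {z : ℂ} (hz : h z⁻¹ i₀ ≠ 0) :
    (Finset.univ.sup' Finset.univ_nonempty fun i => Real.posLog ‖nc (invMap h hne) i₀ i z‖) =
      Real.log ‖h z⁻¹‖ - Real.log ‖h z⁻¹ i₀‖ := by
  have h0 : 0 < ‖h z⁻¹ i₀‖ := norm_pos_iff.mpr hz
  have h1 : 0 < ‖h z⁻¹‖ := norm_pos_iff.mpr (hne _)
  have h2 : ‖h z⁻¹ i₀‖ ≤ ‖h z⁻¹‖ := norm_le_pi_norm _ _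
  have h3 : 1 ≤ ‖h z⁻¹‖ / ‖h z⁻¹ i₀‖ := (one_le_div h0).mpr h2
  have h4 : Real.posLog (‖h z⁻¹‖ / ‖h z⁻¹ i₀‖) = Real.log ‖h z⁻¹‖ - Real.log ‖h z⁻¹ i₀‖ := by
    rw [Real.posLog_eq_log (by rw [abs_of_pos (by positivity)]; exact h3),
      Real.log_div h1.ne' h0.ne']
  rw [← h4]
  apply le_antisymm
  · apply Finset.sup'_le
    intro i _
    rw [smtc_nc, norm_div]
    apply Real.posLog_le_posLog (by positivity)
    exact div_le_div_of_nonneg_right (norm_le_pi_norm _ _) h0.le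
  · obtain ⟨i, hi⟩ : ∃ i, ‖h z⁻¹‖ = ‖h z⁻¹ i‖ := by
      obtain ⟨i, -, hi⟩ := Finset.exists_max_image Finset.univ (fun i => ‖h z⁻¹ i‖)
        Finset.univ_nonempty
      refine ⟨i, le_antisymm ?_ (norm_le_pi_norm _ _)⟩
      rw [pi_norm_le_iff_of_nonneg (norm_nonneg _)]
      exact fun j => hi j (Finset.mem_univ j)
    refine le_trans (le_of_eq ?_) (Finset.le_sup' _ (Finset.mem_univ i))
    rw [smtc_nc, norm_div, hi]

/-! ### The theorems -/

theorem invMap_holomorphic {h : ℂ → Fin (M + 1) → ℂ} (hd : Differentiable ℂ h)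
    (hne : ∀ z, h z ≠ 0) : HolomorphicInto (invMap h hne) puncturedDisc := by
  intro z₀ hz₀
  have h1 : z₀ ≠ 0 := hz₀.2
  exact ⟨fun z => h z⁻¹, smtc_an hd h1, Filter.Eventually.of_forall fun z => ⟨hne z⁻¹, rfl⟩⟩

theorem characteristic_le {h : ℂ → Fin (M + 1) → ℂ} (hd : Differentiable ℂ h)
    (hne : ∀ z, h z ≠ 0) {i₀ : Fin (M + 1)} (hi₀ : i₀ ∈ nzSet (invMap h hne)) :
    ∃ C : ℝ, ∀ x : ℝ, Real.exp (-x) < 1 / 2 →
      characteristic h (Real.exp x) ≤ chr (nc (invMap h hne) i₀) (1 / 2) x + C * (1 + |x|) := by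
  have hu : MeroPunct 1 (fun z => h z⁻¹ i₀) := smtc_mero hd hne hi₀
  obtain ⟨A', B', hAB⟩ := hu.jensen (R₁ := 1 / 2) (by norm_num) (by norm_num)
  refine ⟨|A'| + |B'|, fun x hx => ?_⟩
  have hx1 : Real.exp (-x) < 1 := by linarith
  have hcu : CircleIntegrable (fun z => Real.log ‖h z⁻¹ i₀‖) 0 (Real.exp (-x)) :=
    hu.circleIntegrable_log hx1
  have hch : CircleIntegrable (fun z => Real.log ‖h z⁻¹‖) 0 (Real.exp (-x)) := by
    apply ContinuousOn.circleIntegrable (Real.exp_pos _).le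
    intro z hz
    have hz0 : z ≠ 0 := by
      intro h0
      rw [h0, mem_sphere_zero_iff_norm, norm_zero] at hz
      exact (Real.exp_pos (-x)).ne hz
    have h1 : ContinuousAt (fun z => h z⁻¹) z := (smtc_an hd hz0).continuousAt
    exact (h1.norm.log (norm_ne_zero_iff.mpr (hne _))).continuousWithinAt
  have hcod : (fun z => Finset.univ.sup' Finset.univ_nonempty
        fun i => Real.posLog ‖nc (invMap h hne) i₀ i z‖)
      =ᶠ[codiscreteWithin (Metric.sphere (0 : ℂ) |Real.exp (-x)|)]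
      ((fun z => Real.log ‖h z⁻¹‖) - fun z => Real.log ‖h z⁻¹ i₀‖) := by
    rw [Filter.EventuallyEq, Filter.Eventually, mem_codiscreteWithin_iff_forall_mem_nhdsNE]
    intro z hz
    rw [mem_sphere_zero_iff_norm, abs_of_pos (Real.exp_pos _)] at hz
    have hzp : z ∈ puncturedDisc := by
      rw [mem_puncturedDisc, hz]
      exact ⟨Real.exp_pos _, hx1⟩
    filter_upwards [nz_mem hi₀ hzp] with w hw
    left
    apply smtc_pt hne
    intro hw'
    obtain ⟨c, hc, h4⟩ := smtc_rep h hne w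
    apply hw
    rw [h4, hw', mul_zero]
  have h1 : mean (fun z => Finset.univ.sup' Finset.univ_nonempty
      fun i => Real.posLog ‖nc (invMap h hne) i₀ i z‖) x =
      characteristic h (Real.exp x) - mean (fun z => Real.log ‖h z⁻¹ i₀‖) x := by
    unfold mean characteristic
    rw [Real.circleAverage_congr_codiscreteWithin hcod (Real.exp_pos _).ne',
      Real.circleAverage_sub hch hcu, smtc_inv (fun z => Real.log ‖h z‖)]
  have h2 : cnt (fun s => -(minOrd (nc (invMap h hne) i₀) s : ℝ)) (1 / 2) (Real.exp (-x)) =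
      cnt (fun s => (ordZ (fun z => h z⁻¹ i₀) s : ℝ)) (1 / 2) (Real.exp (-x)) := by
    unfold cnt
    apply finsum_mem_congr rfl
    rintro s ⟨hs1, hs2⟩
    have hs := smtc_mem hs1 hs2
    have h3 := minOrd_nc (invMap_holomorphic hd hne) hi₀ hs (ψ := fun z => h z⁻¹)
      (smtc_an hd (norm_pos_iff.mp (mem_puncturedDisc.mp hs).1))
      (Filter.Eventually.of_forall fun z => ⟨hne z⁻¹, rfl⟩)
    beta_reduce
    rw [h3]
    push_cast
    rw [neg_neg]
  have h3 : chr (nc (invMap h hne) i₀) (1 / 2) x =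
      characteristic h (Real.exp x) - (A' + B' * x) := by
    unfold chr
    rw [h1, h2, hAB x hx]
    ring
  rw [h3]
  have h4 : A' + B' * x ≤ (|A'| + |B'|) * (1 + |x|) := by
    have e1 := le_abs_self A'
    have e2 := le_abs_self (B' * x)
    rw [abs_mul] at e2
    nlinarith [abs_nonneg A', abs_nonneg B', abs_nonneg x,
      mul_nonneg (abs_nonneg A') (abs_nonneg x)]
  linarith

theorem cnt_le_counting {J : Finset (Fin m)} (hG : ∀ j, ∃ d, (G j).IsHomogeneous d)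
    (Γ : Partition A P G J) {h : ℂ → Fin (M + 1) → ℂ} (hd : Differentiable ℂ h)
    (hne : ∀ z, h z ≠ 0) (hj : ∀ j ∈ J, ∃ z, eval (h z) (G j) ≠ 0) {i₀ : Fin (M + 1)}
    (hi₀ : i₀ ∈ nzSet (invMap h hne)) {x : ℝ} (hx : Real.exp (-x) < 1 / 2) :
    cnt (fun s => (Γ.count (nc (invMap h hne) i₀) s : ℝ)) (1 / 2) (Real.exp (-x)) ≤
      ∑ j ∈ J, counting (G j) h (Real.exp x) := by
  classical
  have hx0 : 0 < x := by
    by_contra hcon
    have h1 : 1 ≤ Real.exp (-x) := Real.one_le_exp (by linarith)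
    linarith
  have hr : 0 < Real.exp (-x) := Real.exp_pos _
  have hfin := fun j (hJ : j ∈ J) => smtc_fin hd (hj j hJ) (Real.exp x)
  have hfinU : (⋃ j ∈ J, {z : ℂ | z ≠ 0 ∧ ‖z‖ < Real.exp x ∧ eval (h z) (G j) = 0}).Finite :=
    J.finite_toSet.biUnion fun j hJ => hfin j hJ
  have hf := invMap_holomorphic hd hne
  have hGp : ∀ j ∈ J, ∃ z ∈ puncturedDisc, ¬ VanishesAt (G j) (invMap h hne z) := by
    intro j hJ
    obtain ⟨d, hdj⟩ := hG j
    obtain ⟨z, hz, hz'⟩ := smtc_out hd (hj j hJ)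
    exact ⟨z, hz, fun h1 => hz' ((smtc_van hne hdj z).mp h1)⟩
  have hcount : ∀ s ∈ puncturedDisc, (Γ.count (nc (invMap h hne) i₀) s : ℝ) ≤
      ∑ j ∈ J, if eval (h s⁻¹) (G j) = 0 then (1 : ℝ) else 0 := by
    intro s hs
    have h1 := count_le Γ hf hi₀ hGp hs
    have h2 : {j | j ∈ J ∧ VanishesAt (G j) (invMap h hne s)} =
        ((J.filter fun j => eval (h s⁻¹) (G j) = 0 : Finset (Fin m)) : Set (Fin m)) := by
      ext j
      obtain ⟨d, hdj⟩ := hG j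
      simp [smtc_van hne hdj s]
    rw [h2, Set.ncard_coe_finset] at h1
    rw [Finset.sum_boole]
    exact_mod_cast h1
  have hinvlt : ∀ s : ℂ, Real.exp (-x) < ‖s‖ → s⁻¹ ≠ 0 ∧ ‖s⁻¹‖ < Real.exp x := by
    intro s hs
    have hs0 : 0 < ‖s‖ := hr.trans hs
    refine ⟨inv_ne_zero (norm_pos_iff.mp hs0), ?_⟩
    rw [norm_inv]
    rw [Real.exp_neg] at hs
    exact (inv_lt_comm₀ hs0 (Real.exp_pos x)).mpr hs
  set T : Finset ℂ := hfinU.toFinset.image (fun z => z⁻¹) with hT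
  have hTm : ∀ s, Real.exp (-x) < ‖s‖ → ‖s‖ < 1 / 2 →
      (Γ.count (nc (invMap h hne) i₀) s : ℝ) ≠ 0 → s ∈ T := by
    intro s hs1 hs2 hs3
    have h1 := hcount s (smtc_mem hs1 hs2)
    have h2 : (0 : ℝ) < ∑ j ∈ J, if eval (h s⁻¹) (G j) = 0 then (1 : ℝ) else 0 :=
      lt_of_lt_of_le (lt_of_le_of_ne (Nat.cast_nonneg _) (Ne.symm hs3)) h1
    obtain ⟨j, hJ, hjj⟩ : ∃ j ∈ J,
        (if eval (h s⁻¹) (G j) = 0 then (1 : ℝ) else 0) ≠ 0 := by
      by_contra hcon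
      push Not at hcon
      rw [Finset.sum_eq_zero hcon] at h2
      exact lt_irrefl _ h2
    have h3 : eval (h s⁻¹) (G j) = 0 := by
      by_contra h4
      rw [if_neg h4] at hjj
      exact hjj rfl
    rw [hT, Finset.mem_image]
    refine ⟨s⁻¹, ?_, inv_inv s⟩
    rw [Set.Finite.mem_toFinset, Set.mem_iUnion₂]
    exact ⟨j, hJ, (hinvlt s hs1).1, (hinvlt s hs1).2, h3⟩
  rw [cnt_eq_sum hTm hr]
  have hstep : ∑ s ∈ T with Real.exp (-x) < ‖s‖ ∧ ‖s‖ < 1 / 2,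
      (Γ.count (nc (invMap h hne) i₀) s : ℝ) * Real.log (‖s‖ / Real.exp (-x)) ≤
      ∑ s ∈ T with Real.exp (-x) < ‖s‖ ∧ ‖s‖ < 1 / 2,
        ∑ j ∈ J, (if eval (h s⁻¹) (G j) = 0 then (1 : ℝ) else 0) *
          Real.log (‖s‖ / Real.exp (-x)) := by
    refine Finset.sum_le_sum fun s hs => ?_
    obtain ⟨-, hs1, hs2⟩ := Finset.mem_filter.mp hs
    rw [← Finset.sum_mul]
    refine mul_le_mul_of_nonneg_right (hcount s (smtc_mem hs1 hs2)) ?_
    exact Real.log_nonneg ((one_le_div hr).mpr hs1.le)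
  refine hstep.trans ?_
  rw [Finset.sum_comm]
  refine Finset.sum_le_sum fun j hJ => ?_
  have hterm : ∀ z ∈ (hfin j hJ).toFinset, 0 ≤ Real.log (Real.exp x / ‖z‖) := by
    intro z hz
    rw [Set.Finite.mem_toFinset] at hz
    exact Real.log_nonneg ((one_le_div (norm_pos_iff.mpr hz.1)).mpr hz.2.1.le)
  have h1 : ∑ s ∈ T with Real.exp (-x) < ‖s‖ ∧ ‖s‖ < 1 / 2,
      (if eval (h s⁻¹) (G j) = 0 then (1 : ℝ) else 0) * Real.log (‖s‖ / Real.exp (-x)) ≤
      ∑ z ∈ (hfin j hJ).toFinset, Real.log (Real.exp x / ‖z‖) := by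
    have h2 : ∑ s ∈ T with Real.exp (-x) < ‖s‖ ∧ ‖s‖ < 1 / 2,
        (if eval (h s⁻¹) (G j) = 0 then (1 : ℝ) else 0) * Real.log (‖s‖ / Real.exp (-x)) =
        ∑ s ∈ (T.filter fun s => Real.exp (-x) < ‖s‖ ∧ ‖s‖ < 1 / 2).filter
          (fun s => eval (h s⁻¹) (G j) = 0), Real.log (‖s‖ / Real.exp (-x)) := by
      rw [Finset.sum_filter (p := fun s => eval (h s⁻¹) (G j) = 0)]
      refine Finset.sum_congr rfl fun s _ => ?_
      split_ifs <;> simp
    rw [h2]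
    have h3 : ∑ s ∈ (T.filter fun s => Real.exp (-x) < ‖s‖ ∧ ‖s‖ < 1 / 2).filter
          (fun s => eval (h s⁻¹) (G j) = 0), Real.log (‖s‖ / Real.exp (-x)) =
        ∑ z ∈ ((T.filter fun s => Real.exp (-x) < ‖s‖ ∧ ‖s‖ < 1 / 2).filter
          (fun s => eval (h s⁻¹) (G j) = 0)).image (fun s => s⁻¹),
            Real.log (Real.exp x / ‖z‖) := by
      rw [Finset.sum_image (fun a _ b _ hab => inv_injective hab)]
      refine Finset.sum_congr rfl fun s _ => ?_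
      rw [norm_inv, Real.exp_neg, div_inv_eq_mul, div_inv_eq_mul, mul_comm]
    rw [h3]
    refine Finset.sum_le_sum_of_subset_of_nonneg ?_ fun z hz _ => hterm z hz
    intro z hz
    obtain ⟨s, hs, rfl⟩ := Finset.mem_image.mp hz
    obtain ⟨hs', hs3⟩ := Finset.mem_filter.mp hs
    obtain ⟨-, hs1, hs2⟩ := Finset.mem_filter.mp hs'
    rw [Set.Finite.mem_toFinset]
    exact ⟨(hinvlt s hs1).1, (hinvlt s hs1).2, hs3⟩
  refine h1.trans ?_
  unfold counting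
  rw [finsum_mem_eq_finite_toFinset_sum _ (hfin j hJ)]
  have h4 : (0 : ℝ) ≤ (if eval (h 0) (G j) = 0 then Real.log (Real.exp x) else 0) := by
    split_ifs
    · rw [Real.log_exp]
      exact hx0.le
    · exact le_rfl
  have h5 : (open Classical in if eval (h 0) (G j) = 0 then Real.log (Real.exp x) else 0) =
      (if eval (h 0) (G j) = 0 then Real.log (Real.exp x) else 0) := by
    congr
  rw [h5]
  linarith

theorem truncatedSMT_of_partition {J : Finset (Fin m)} (hA : 1 ≤ A) (hP : Homog P)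
    (hG : ∀ j, ∃ d, (G j).IsHomogeneous d) (Γ : Partition A P G J)
    {Δ : MvPolynomial (Fin (M + 1)) ℂ} (hΔ : Γ.form ∣ Δ) : TruncatedSMT A P G J Δ := by
  intro h hd hne hPv hΔ' hj
  have hf := invMap_holomorphic hd hne
  obtain ⟨i₀, hi₀⟩ : ∃ i₀, i₀ ∈ nzSet (invMap h hne) := by
    by_contra hcon
    push Not at hcon
    have hs : (1 / 2 : ℂ) ∈ puncturedDisc := by
      rw [mem_puncturedDisc]
      norm_num
    refine (invMap h hne (1 / 2)).rep_nonzero ?_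
    funext i
    exact nz_notMem hf (hcon i) hs
  have hfP : ∀ z ∈ puncturedDisc, invMap h hne z ∈ variety P := by
    intro z _ Q hQ k hk
    exact (smtc_van hne hk z).mpr (hPv _ Q hQ)
  have hΔp : ∃ z ∈ puncturedDisc, ¬ VanishesAt Γ.form (invMap h hne z) := by
    obtain ⟨k, hk⟩ := Γ.form_homogeneous
    obtain ⟨Q, hQ⟩ := hΔ
    obtain ⟨z₀, hz₀⟩ := hΔ'
    have h1 : ∃ z, eval (h z) Γ.form ≠ 0 := by
      refine ⟨z₀, fun h0 => hz₀ ?_⟩
      rw [hQ, map_mul, h0, zero_mul]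
    obtain ⟨z, hz, hz'⟩ := smtc_out hd h1
    exact ⟨z, hz, fun h2 => hz' ((smtc_van hne hk z).mp h2)⟩
  have hGp : ∀ j ∈ J, ∃ z ∈ puncturedDisc, ¬ VanishesAt (G j) (invMap h hne z) := by
    intro j hJ
    obtain ⟨d, hdj⟩ := hG j
    obtain ⟨z, hz, hz'⟩ := smtc_out hd (hj j hJ)
    exact ⟨z, hz, fun h1 => hz' ((smtc_van hne hdj z).mp h1)⟩
  set D : ℕ := ∑ a, (Γ.γ a).e * ((Γ.γ a).len - 2 * (Γ.γ a).κ) with hD
  set W : ℕ := ∑ j ∈ J, (G j).totalDegree with hW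
  have hApos : (0 : ℝ) < A := by exact_mod_cast hA
  have hA1 : (1 : ℝ) ≤ A := by exact_mod_cast hA
  have hK : (1 - 1 / (A : ℝ)) * (W : ℝ) < (D : ℝ) := by
    have h1 : (A - 1) * W < A * D := by
      refine lt_of_lt_of_le Γ.num (Nat.mul_le_mul_left _ ?_)
      refine Finset.sum_le_sum fun a _ => Nat.mul_le_mul_left _ ?_
      refine Nat.sub_le_sub_left (Nat.mul_le_mul_right _ (by omega)) _
    have h2 : ((A : ℝ) - 1) * W < A * D := by
      have h3 : (((A - 1) * W : ℕ) : ℝ) < ((A * D : ℕ) : ℝ) := by exact_mod_cast h1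
      push_cast [Nat.cast_sub hA] at h3
      exact h3
    have h4 : (1 - 1 / (A : ℝ)) * (W : ℝ) = ((A : ℝ) - 1) * W / A := by
      field_simp
    rw [h4, div_lt_iff₀ hApos]
    linarith
  have hK0 : 0 ≤ (1 - 1 / (A : ℝ)) * (W : ℝ) := by
    refine mul_nonneg ?_ (Nat.cast_nonneg _)
    rw [sub_nonneg, div_le_one hApos]
    exact hA1
  obtain ⟨-, C, E, hE, hb⟩ := smt_partition hP Γ hf hfP hΔp hGp hi₀ (R₁ := 1 / 2)
    (by norm_num) (by norm_num) (ε := (D : ℝ) - (1 - 1 / (A : ℝ)) * (W : ℝ)) (by linarith)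
  obtain ⟨C₂, hC₂⟩ := characteristic_le hd hne hi₀
  refine ⟨C + (1 - 1 / (A : ℝ)) * (W : ℝ) * C₂, E ∪ Set.Icc 0 (Real.log 2), ?_,
    fun x hx0 hx => ?_⟩
  · refine measure_union_ne_top hE ?_
    rw [Real.volume_Icc]
    exact ENNReal.ofReal_ne_top
  have hxE : x ∉ E := fun h1 => hx (Or.inl h1)
  have hx2 : Real.log 2 < x := by
    by_contra hcon
    exact hx (Or.inr ⟨hx0, not_lt.mp hcon⟩)
  have hxe : Real.exp (-x) < 1 / 2 := by
    rw [Real.exp_neg, ← one_div]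
    refine one_div_lt_one_div_of_lt two_pos ?_
    rw [← Real.log_lt_iff_lt_exp two_pos]
    exact hx2
  have h1 := hb x hxe hxE
  have h2 := hC₂ x hxe
  have h3 := cnt_le_counting hG Γ hd hne hj hi₀ hxe
  rw [abs_of_nonneg hx0] at h1 h2
  have h4 := mul_le_mul_of_nonneg_left h2 hK0
  have h5 : ((D : ℝ) - ((D : ℝ) - (1 - 1 / (A : ℝ)) * (W : ℝ))) =
      (1 - 1 / (A : ℝ)) * (W : ℝ) := by ring
  rw [h5] at h1
  nlinarith

end Pool.Agent.H5.DG4
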