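import Pool.Agent.H5.DG4.Strong4
import Pool.Agent.H5.DG4.Exc4
import Pool.Agent.H5.DG4.SmtC
import Pool.Agent.H5.DG4.Orb4
import Pool.Agent.H5.DG4.Mult4
import Pool.Agent.H5.DG4.Part4
import Pool.Agent.H5.DG3.ExtMorph
import Pool.Agent.H5.DG3.Main3

/-!
# Project DG4, module Asm4: the theorem on partially ramified morphisms
-/

open MvPolynomial
open Pool.Agent.H17 (PN VanishesAt ZariskiClosedIn HolomorphicInto puncturedDisc)
open Pool.Agent.H17LG.Variety (FunField)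
open Pool.Agent.H5.DG (Homog variety IntegralSection AtMostThrough nzSet isOpen_puncturedDisc
  LangProperties)
open Pool.Agent.H5.DG3 (IsMorphism morph Hyperbolic RamifiedMorphism MorphismTheorem)

noncomputable section

namespace Pool.Agent.H5.DG4

theorem picard_of_section {A N₀ N M m s : ℕ} {P : Ideal (MvPolynomial (Fin (M + 1)) ℂ)}
    (hP : Homog P) {G : Fin m → MvPolynomial (Fin (M + 1)) ℂ}
    (hGh : ∀ j, ∃ d, (G j).IsHomogeneous d) {Δ : MvPolynomial (Fin (M + 1)) ℂ}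
    (hpart : ∀ J : Finset (Fin m), GoodSet N₀ P G J → ∃ Γ : Partition A P G J, Γ.form ∣ Δ)
    {I : Ideal (MvPolynomial (Fin (N + 1)) ℂ)} {B Z : Set (PN N)}
    {F : Fin s → Fin (M + 1) → MvPolynomial (Fin (N + 1)) ℂ}
    (hR : FiniteMorphism P I B Z F) {f : ℂ → PN N} (hf : HolomorphicInto f puncturedDisc)
    (hfU : ∀ z ∈ puncturedDisc, f z ∈ variety I \ B)
    (hne : ∃ z ∈ puncturedDisc, f z ∉ excSet A N₀ P G I B Z F Δ) :
    ∃ g : ℂ → PN N, HolomorphicInto g (Metric.ball 0 1) ∧ ∀ z ∈ puncturedDisc, g z = f z := by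
  obtain ⟨z₀, hz₀, hx₀Ξ⟩ := hne
  have hx₀ := hfU z₀ hz₀
  have hx₀Z : f z₀ ∉ Z := fun hcon => hx₀Ξ ⟨hx₀, Or.inl hcon⟩
  have hx₀Δ : ¬ VanishesAt Δ (morph F (f z₀)) := fun hcon => hx₀Ξ ⟨hx₀, Or.inr (Or.inl hcon)⟩
  obtain ⟨a, τ, hτ, β, hβ⟩ : ∃ a τ, RamifiedSection A N₀ P G I B F a τ ∧
      ∃ β, ¬ VanishesAt (τ β) (f z₀) := by
    by_contra hcon
    push Not at hcon
    exact hx₀Ξ ⟨hx₀, Or.inr (Or.inr hcon)⟩
  obtain ⟨k, J, hk, hJ, hnum, hv⟩ := hτ.vanishes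
  obtain ⟨Γ, R', hΓ⟩ := hpart J hJ
  have hU : variety I \ B ⊆ variety I := fun x hx => hx.1
  have hmh := Pool.Agent.H5.DG3.morph_holomorphic hR.morphism hR.homog hU
    isOpen_puncturedDisc hf hfU
  obtain ⟨i₀, hi₀⟩ : ∃ i₀, i₀ ∈ nzSet fun z => morph F (f z) := by
    by_contra hcon
    push Not at hcon
    refine (morph F (f z₀)).rep_nonzero (funext fun i => ?_)
    exact Pool.Agent.H5.DG.nz_notMem hmh (hcon i) hz₀
  obtain ⟨t, C, ht, hb, hord⟩ := section_along (J := J) (k := k) hR.homog hU hR.morphism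
    hτ.isSection hGh hf hfU hi₀ ⟨z₀, hz₀, β, hβ⟩ hv
  have hext := ext_of_section hP Γ hmh (fun z hz => hR.maps _ (hfU z hz)) ⟨z₀, hz₀, fun hcon => by
      apply hx₀Δ
      unfold VanishesAt at hcon ⊢
      rw [hΓ, map_mul, hcon, zero_mul]⟩
    (fun j hj => ⟨z₀, hz₀, not_vanishesAt_of_section hR.homog hU hR.morphism hτ.isSection hk hGh
      hx₀ (hv _ hx₀) hβ hj⟩) hi₀ hk hnum ht hb hord
  exact Pool.Agent.H5.DG3.extends_of_morph hR.homog hR.closedB hR.closedZ hR.morphism hR.finite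
    hf hfU ⟨z₀, hz₀, hx₀Z⟩ hext

theorem PartialTheorem.of_partitions {A N₀ M m d : ℕ} (hA : 1 ≤ A)
    {P : Ideal (MvPolynomial (Fin (M + 1)) ℂ)} [P.IsPrime] (hP : Homog P)
    {G : Fin m → MvPolynomial (Fin (M + 1)) ℂ} (hGh : ∀ j, ∃ d, (G j).IsHomogeneous d)
    {Δ : MvPolynomial (Fin (M + 1)) ℂ} (hk : Δ.IsHomogeneous d) (hΔP : Δ ∉ P)
    (hpart : ∀ J : Finset (Fin m), GoodSet N₀ P G J → ∃ Γ : Partition A P G J, Γ.form ∣ Δ) :
    PartialTheorem A N₀ P G Δ where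
  smt := by
    intro J hJ
    obtain ⟨Γ, hΓ⟩ := hpart J hJ
    exact truncatedSMT_of_partition hA hP hGh Γ hΓ
  morphisms := by
    intro N s I _ B Z F hR
    have hcl := excSet_closed4 (A := A) (N₀ := N₀) (P := P) (G := G) hR.homog hR.closedZ hR.morphism hk
    have hpic : ∀ f : ℂ → PN N, HolomorphicInto f puncturedDisc →
        (∀ z ∈ puncturedDisc, f z ∈ variety I \ B) →
        (∃ z ∈ puncturedDisc, f z ∉ excSet A N₀ P G I B Z F Δ) →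
        ∃ g : ℂ → PN N, HolomorphicInto g (Metric.ball 0 1) ∧ ∀ z ∈ puncturedDisc, g z = f z :=
      fun f hf hfU hne => picard_of_section hP hGh hpart hR hf hfU hne
    have hhyp : Hyperbolic I B (excSet A N₀ P G I B Z F Δ) :=
      ⟨hpic, fun f hf hfU hne z w =>
        Pool.Agent.H5.DG3.brody_of_picard_closed hcl hpic hf hfU hne z w,
        fun Q _ hQ hIQ hQΞ w hw hz => strongly_of_section hP hGh hpart hR Q hQ hIQ hQΞ hw hz⟩
    exact ⟨hhyp, fun w hw hz => ⟨fun hzP hUZ hτ => not_subset4 hP hR hw hz hzP hUZ hk hΔP hτ,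
      fun hne => hhyp.four hR.homog hcl hne hw hz⟩⟩

theorem morphismTheorem_of_partial {A N₀ M m k d : ℕ} (hA : 2 ≤ A)
    {P : Ideal (MvPolynomial (Fin (M + 1)) ℂ)} [P.IsPrime] (hP : Homog P)
    {G : Fin m → MvPolynomial (Fin (M + 1)) ℂ} (hGh : ∀ j, ∃ d, (G j).IsHomogeneous d)
    (hG0 : ∀ j, G j ≠ 0) (hthr : AtMostThrough k P G) (hm : (N₀ + 1) * (k + 1) ≤ m)
    {Δ : MvPolynomial (Fin (M + 1)) ℂ} (hk : Δ.IsHomogeneous d) (hΔP : Δ ∉ P)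
    (hpart : ∀ J : Finset (Fin m), GoodSet N₀ P G J → ∃ Γ : Partition A P G J, Γ.form ∣ Δ)
    (h : PartialTheorem A N₀ P G Δ) : MorphismTheorem 2 P G Δ where
  orbifold := orbifold_of_partitions hA hP hGh hG0 hthr hm hk hpart
  morphisms := by
    intro N s I _ B Z F hR
    have h1 := h.morphisms N s I B Z F (finiteMorphism_of_ramified hR)
    rw [excSet_eq hA hGh hG0 hthr hm hR Δ] at h1
    exact ⟨h1.1, fun w hw hz => ⟨fun hzP hUZ =>
      Pool.Agent.H5.DG3.not_subset_of_dim hP hR hw hz hzP hUZ hk hΔP, (h1.2 w hw hz).2⟩⟩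

/-- **The main theorem on partially ramified morphisms.** -/
theorem main_partial (M δ A : ℕ) (hA : 1 ≤ A) : ∃ N₁ : ℕ, 1 ≤ N₁ ∧ ∀ (m : ℕ)
    (P : Ideal (MvPolynomial (Fin (M + 1)) ℂ)) [P.IsPrime]
    (G : Fin m → MvPolynomial (Fin (M + 1)) ℂ), Homog P →
    (∀ j, ∃ e, 1 ≤ e ∧ e ≤ δ ∧ (G j).IsHomogeneous e) →
    (∀ i j, i ≠ j → ∀ c : ℂ, G i - C c * G j ∉ P) → (∀ j, IntegralSection P (G j)) →
    ∃ (d : ℕ) (Δ : MvPolynomial (Fin (M + 1)) ℂ), Δ ∉ P ∧ Δ.IsHomogeneous d ∧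
      (∀ N₀, N₁ ≤ N₀ → PartialTheorem A N₀ P G Δ) ∧
      (2 ≤ A → ∀ k, AtMostThrough k P G → (N₁ + 1) * (k + 1) ≤ m → MorphismTheorem 2 P G Δ) := by
  classical
  obtain ⟨N₁, hN₁⟩ := exists_partition A M δ hA
  refine ⟨N₁ + 1, by omega, fun m P _ G hP hdeg hne hint => ?_⟩
  have hPp : P.IsPrime := inferInstance
  have hGh : ∀ j, ∃ d, (G j).IsHomogeneous d := fun j => by
    obtain ⟨d, -, -, hd⟩ := hdeg j
    exact ⟨d, hd⟩
  have hex : ∀ S : Finset (Fin m), ∃ H : MvPolynomial (Fin (M + 1)) ℂ, H ∉ P ∧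
      (∃ d, H.IsHomogeneous d) ∧ (GoodSet N₁ P G S → ∃ Γ : Partition A P G S, Γ.form ∣ H) := by
    intro S
    by_cases hS : GoodSet N₁ P G S
    · obtain ⟨Γ⟩ := hN₁ m P G hP hdeg hne hint S hS
      exact ⟨Γ.form, Γ.form_notMem, Γ.form_homogeneous, fun _ => ⟨Γ, dvd_rfl⟩⟩
    · refine ⟨1, fun hcon => hPp.ne_top ((Ideal.eq_top_iff_one P).2 hcon),
        ⟨0, isHomogeneous_one _ _⟩, fun h => absurd h hS⟩
  choose H hHP hHh hHΓ using hex
  choose d hd using hHh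
  have hΔP : (∏ S, H S) ∉ P := by
    intro hcon
    obtain ⟨S, -, hS⟩ := (hPp.prod_mem_iff).1 hcon
    exact hHP S hS
  have hΔh : (∏ S, H S).IsHomogeneous (∑ S, d S) := IsHomogeneous.prod _ _ d fun S _ => hd S
  have hpart : ∀ N₀, N₁ ≤ N₀ → ∀ J : Finset (Fin m), GoodSet N₀ P G J →
      ∃ Γ : Partition A P G J, Γ.form ∣ ∏ S, H S := by
    intro N₀ hN₀ J hJ
    obtain ⟨Γ, hΓ⟩ := hHΓ J ⟨hN₀.trans hJ.1, fun y hy =>
      (Nat.mul_le_mul_right _ hN₀).trans (hJ.2 y hy)⟩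
    exact ⟨Γ, hΓ.trans (Finset.dvd_prod_of_mem _ (Finset.mem_univ J))⟩
  have h1 : ∀ N₀, N₁ + 1 ≤ N₀ → PartialTheorem A N₀ P G (∏ S, H S) := fun N₀ hN₀ =>
    PartialTheorem.of_partitions hA hP hGh hΔh hΔP (hpart N₀ (by omega))
  refine ⟨_, _, hΔP, hΔh, h1, fun hA2 k hthr hm => ?_⟩
  have hm2 : 2 ≤ m := by
    have h2 : 2 * 1 ≤ (N₁ + 1 + 1) * (k + 1) := Nat.mul_le_mul (by omega) (by omega)
    omega
  have hG0 : ∀ j, G j ≠ 0 := by
    intro j hj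
    obtain ⟨i, hi⟩ : ∃ i : Fin m, j ≠ i := by
      have : Nontrivial (Fin m) := Fin.nontrivial_iff_two_le.2 hm2
      obtain ⟨i, hi⟩ := exists_ne j
      exact ⟨i, hi.symm⟩
    refine hne j i hi 0 ?_
    rw [hj, C_0, zero_mul, sub_zero]
    exact P.zero_mem
  exact morphismTheorem_of_partial hA2 hP hGh hG0 hthr hm hΔh hΔP (hpart (N₁ + 1) (by omega))
    (h1 (N₁ + 1) le_rfl)

end Pool.Agent.H5.DG4
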