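import Pool.Agent.H5.DG4.CIMap
import Pool.Agent.H5.DG3.Main3

/-!
# Project DG4, module CI4: complete intersections given by the forms `∑ j, a i j * x j ^ e * L j (x)`

`partial_data`: the assumptions of the main theorem for hyperplanes in general position
(`GenPos.pair` in module F1, `few_of_genPos`, `integralSection_linearForm`).
`ci_exc`: every `x ∈ variety I` has a `J = {j | eval x.rep (X j * L j) ≠ 0}` with at least
`N + 1 - (n + 1) ≥ N₀ * (n + 1)` elements (`few_of_genPos` for `F (x)`), a good set, so the section of `ci_ramified` does not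
vanish at `x`; `vanishesAt_morph` (module `Pool.Agent.H5.DG3.Points`).
`ci_four`: `FiniteMorphism` from `isMorphism_of_baseFree`, `finite_fibre` (`variety ⊥` is everything);
`delta_notMem` (module `Pool.Agent.H5.DG.CovAlg`) gives a point (`exists_point` in module FinalDefs or
`mem_of_forall`, `exists_X_notMem`); `PartialTheorem.morphisms`, `Hyperbolic.lang`
(module `Pool.Agent.H5.DG3.Asm`).
-/

open MvPolynomial
open Pool.Agent.H17 (PN VanishesAt)
open Pool.Agent.H17LG.Variety (FunField)
open Pool.Agent.H5.DG hiding FourProperties HasFourProperties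
open Pool.Agent.H5.DG3 (IsMorphism morph FourProperties)

noncomputable section

namespace Pool.Agent.H5.DG4

variable {N c n e s : ℕ} {a : Fin c → Fin (N + 1) → ℂ} {L : Fin (N + 1) → MvPolynomial (Fin (N + 1)) ℂ}
  {l : Fin (N + 1) → Fin (n + 2) → ℂ} {I : Ideal (MvPolynomial (Fin (N + 1)) ℂ)}

private theorem ci4_eval_linearForm {r : ℕ} (l : Fin (r + 1) → ℂ) (v : Fin (r + 1) → ℂ) :
    eval v (linearForm l) = dot l v := by
  unfold linearForm dot
  rw [map_sum]
  exact Finset.sum_congr rfl fun a _ => by rw [map_mul, eval_C, eval_X]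

theorem partial_data {m : ℕ} (hm : n + 2 ≤ m) {l : Fin m → Fin (n + 2) → ℂ} (hl : GenPos l) :
    (∀ i j, i ≠ j → ∀ c : ℂ, linearForm (l i) - C c * linearForm (l j) ∉
      (⊥ : Ideal (MvPolynomial (Fin (n + 2)) ℂ))) ∧
    (∀ j, IntegralSection (⊥ : Ideal (MvPolynomial (Fin (n + 2)) ℂ)) (linearForm (l j))) ∧
    AtMostThrough (n + 1) (⊥ : Ideal (MvPolynomial (Fin (n + 2)) ℂ))
      fun j => linearForm (l j) := by
  classical
  obtain ⟨h0, h1⟩ := hl.pair hm
  refine ⟨fun i j hij c hcon => h1 i j hij ⟨c, ?_⟩, fun j => integralSection_linearForm (h0 j), ?_⟩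
  · rw [Ideal.mem_bot] at hcon
    funext b
    have h2 := congrArg (eval (Pi.single b (1 : ℂ))) hcon
    rw [map_sub, map_mul, eval_C, map_zero, ci4_eval_linearForm, ci4_eval_linearForm] at h2
    have h3 : ∀ t : Fin (n + 2) → ℂ, dot t (Pi.single b (1 : ℂ)) = t b := by
      intro t
      unfold dot
      rw [Finset.sum_eq_single b]
      · rw [Pi.single_eq_same, mul_one]
      · intro k _ hk
        rw [Pi.single_eq_of_ne hk, mul_zero]
      · intro h
        exact absurd (Finset.mem_univ _) h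
    rw [h3, h3] at h2
    rw [Pi.smul_apply, smul_eq_mul]
    exact sub_eq_zero.1 h2
  · intro x _
    have h2 : {j | VanishesAt (linearForm (l j)) x} = {j | dot (l j) x.rep = 0} := by
      ext j
      change eval x.rep (linearForm (l j)) = 0 ↔ dot (l j) x.rep = 0
      rw [ci4_eval_linearForm]
    rw [h2]
    exact few_of_genPos hl x.rep_nonzero

theorem ci_exc [I.IsPrime] {A N₀ : ℕ} (hm : n + 2 ≤ N + 1) (hN : (N₀ + 1) * (n + 1) ≤ N + 1)
    (he : 2 ≤ e)
    (hes : e + s ≤ A * (e - 1)) (hL : ∀ j, (L j).IsHomogeneous s) (hl : GenPos l)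
    (hI : Homog I) {F : Fin (n + 2) → MvPolynomial (Fin (N + 1)) ℂ} (hF : BaseFree I (e + s) F)
    (hlin : ∀ j, X j ^ e * L j - aeval F (linearForm (l j)) ∈ I)
    {Δ : MvPolynomial (Fin (n + 2)) ℂ} {k : ℕ} (hk : Δ.IsHomogeneous k) :
    excSet A N₀ ⊥ (fun j => linearForm (l j)) I ∅ ∅ (fun _ : Fin 1 => F) Δ =
      {x | x ∈ variety I ∧ VanishesAt (aeval F Δ) x} := by
  classical
  have hmor := isMorphism_of_baseFree hI hF
  ext x
  constructor
  · rintro ⟨hx, h⟩
    obtain ⟨α, hb⟩ := hmor.base x hx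
    have key : ¬ ∀ a τ, RamifiedSection A N₀ ⊥ (fun j => linearForm (l j)) I ∅
        (fun _ : Fin 1 => F) a τ → ∀ α, VanishesAt (τ α) x := by
      intro hcon
      obtain ⟨w, hw⟩ : ∃ w : Fin (n + 2) → ℂ, w = fun b => eval x.rep (F b) := ⟨_, rfl⟩
      have hw0 : w ≠ 0 := by
        intro h1
        obtain ⟨b, hb⟩ := hb
        apply hb
        change eval x.rep (F b) = 0
        have h2 := congrFun h1 b
        rw [hw] at h2
        exact h2
      have hval : ∀ j, eval x.rep (X j ^ e * L j) = dot (l j) w := by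
        intro j
        have h1 := eval_of_mem hI x.rep_nonzero (by
          rw [x.mk_rep]
          exact hx.1) (hlin j)
        rw [map_sub, eval_aeval, ← hw, ci4_eval_linearForm] at h1
        exact sub_eq_zero.1 h1
      obtain ⟨J, hJ⟩ : ∃ J : Finset (Fin (N + 1)),
        J = Finset.univ.filter fun j => eval x.rep (X j * L j) ≠ 0 := ⟨_, rfl⟩
      have hcard : N₀ * (n + 1) ≤ J.card := by
        have h1 := few_of_genPos hl hw0
        have h2 : Jᶜ.card ≤ n + 1 := by
          rw [← Set.ncard_coe_finset]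
          refine le_trans (Set.ncard_le_ncard ?_ (Set.toFinite _)) h1
          intro j hj
          rw [Finset.mem_coe, Finset.mem_compl, hJ, Finset.mem_filter, not_and, not_not] at hj
          have h3 := hj (Finset.mem_univ j)
          change dot (l j) w = 0
          rw [← hval, map_mul, map_pow, eval_X]
          rw [map_mul, eval_X] at h3
          rcases mul_eq_zero.1 h3 with h4 | h4
          · rw [h4, zero_pow (by omega), zero_mul]
          · rw [h4, mul_zero]
        rw [Finset.card_compl, Fintype.card_fin] at h2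
        rw [add_mul, one_mul] at hN
        omega
      have hgood : GoodSet N₀ (⊥ : Ideal (MvPolynomial (Fin (n + 2)) ℂ))
          (fun j => linearForm (l j)) J := by
        refine ⟨le_trans ?_ hcard, fun y _ => le_trans (Nat.mul_le_mul_left N₀ ?_) hcard⟩
        · calc N₀ = N₀ * 1 := (mul_one _).symm
            _ ≤ N₀ * (n + 1) := Nat.mul_le_mul_left _ (by omega)
        · refine le_trans (Set.ncard_le_ncard ?_ (Set.toFinite _))
            (few_of_genPos hl y.rep_nonzero)
          rintro j ⟨-, hj⟩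
          change dot (l j) y.rep = 0
          rw [← ci4_eval_linearForm]
          exact hj
      have h1 := hcon _ _ (ci_ramified (N₀ := N₀) he hes hL (hl.pair (by omega)).1 hI hF hlin
        hgood) 0
      change eval x.rep (∏ j ∈ J, (X j * L j) ^ (e + s)) = 0 at h1
      rw [map_prod, Finset.prod_eq_zero_iff] at h1
      obtain ⟨j, hj, h2⟩ := h1
      rw [map_pow] at h2
      rw [hJ, Finset.mem_filter] at hj
      exact hj.2 (pow_eq_zero_iff (by omega) |>.1 h2)
    rcases h with h | h | h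
    · exact absurd h (Set.notMem_empty x)
    · refine ⟨hx.1, ?_⟩
      exact (Pool.Agent.H5.DG3.vanishesAt_morph (α := α) hmor hI hx.1 hk hb).1 h
    · exact absurd h key
  · rintro ⟨hx, h⟩
    have hx' : x ∈ variety I \ (∅ : Set (PN N)) := ⟨hx, Set.notMem_empty x⟩
    obtain ⟨α, hb⟩ := hmor.base x hx'
    exact ⟨hx', Or.inr (Or.inl
      ((Pool.Agent.H5.DG3.vanishesAt_morph (α := α) hmor hI hx hk hb).2 h))⟩

theorem ci_four [I.IsPrime] {A N₀ k : ℕ} (hc : c + (n + 1) = N)
    (hN : (N₀ + 1) * (n + 1) ≤ N + 1) (he : 2 ≤ e) (hes : e + s ≤ A * (e - 1)) (hL : ∀ j, (L j).IsHomogeneous s) (hl : GenPos l)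
    (hker : ∀ y : Fin (N + 1) → ℂ, (∀ i, ∑ j, a i j * y j = 0) ↔
      ∃ v : Fin (n + 2) → ℂ, ∀ j, y j = dot (l j) v)
    (hI : Homog I) (hf : ∀ i, ciForm a e L i ∈ I)
    (hne : ∀ v : Fin (N + 1) → ℂ, v ≠ 0 → (∀ Q ∈ I, eval v Q = 0) → ∃ j, eval v (X j * L j) ≠ 0)
    (hz : ∃ z : Fin (n + 1) → FunField I, IsTranscendenceBasis ℂ z)
    {Δ : MvPolynomial (Fin (n + 2)) ℂ} (hk : Δ.IsHomogeneous k) (hΔ : Δ ≠ 0)
    (h : PartialTheorem A N₀ ⊥ (fun j => linearForm (l j)) Δ) :
    ∃ F : Fin (n + 2) → MvPolynomial (Fin (N + 1)) ℂ,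
      FourProperties I ∅ (n + 1) {x | x ∈ variety I ∧ VanishesAt (aeval F Δ) x} ∧
      LangProperties I (n + 1) {x | x ∈ variety I ∧ VanishesAt (aeval F Δ) x} := by
  obtain ⟨F, hF, hlin⟩ := exists_ciMap (I := I) hc he hL hl hker hf hne
  have hmor := isMorphism_of_baseFree hI hF
  have hcl : Pool.Agent.H17.ZariskiClosedIn Set.univ (∅ : Set (PN N)) := by
    refine ⟨{1}, ?_, ?_⟩
    · intro P hP
      rw [Set.mem_singleton_iff] at hP
      subst hP
      exact ⟨0, isHomogeneous_one _ _⟩
    · ext x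
      constructor
      · intro hx
        exact absurd hx (Set.notMem_empty x)
      · rintro ⟨-, hx⟩
        have h1 := hx 1 (Set.mem_singleton _)
        unfold VanishesAt at h1
        rw [map_one] at h1
        exact absurd h1 one_ne_zero
  have hfin : FiniteMorphism (⊥ : Ideal (MvPolynomial (Fin (n + 2)) ℂ)) I ∅ ∅
      (fun _ : Fin 1 => F) :=
    { homog := hI
      closedB := hcl
      closedZ := hcl
      morphism := hmor
      maps := by
        intro x _ Q hQ d _
        rw [Ideal.mem_bot] at hQ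
        rw [hQ]
        unfold VanishesAt
        rw [map_zero]
      finite := finite_fibre hI hF }
  have hexc := ci_exc (A := A) (N₀ := N₀) (by omega) hN he hes hL hl hI hF hlin hk
  obtain ⟨hhyp, hrest⟩ := h.morphisms N 1 I ∅ ∅ (fun _ => F) hfin
  rw [hexc] at hhyp hrest
  have hΔI : aeval F Δ ∉ I := delta_notMem I hI hF hz hΔ hk
  have hne' : ¬ (variety I ⊆ {x | x ∈ variety I ∧ VanishesAt (aeval F Δ) x}) := by
    intro hcon
    obtain ⟨x, hx, hne'⟩ := exists_point (P := I) (w := n + 1) (by omega) hz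
      (O := (∅ : Finset (Fin 0))) (H := fun i => i.elim0) (e := 0) (fun i => i.elim0)
      (fun i hi => absurd hi (Finset.notMem_empty i)) (hk.aeval _ hF.hom) hΔI
    exact hne' (hcon hx.1).2
  have hΞ : Pool.Agent.H17.ZariskiClosedIn (variety I)
      {x | x ∈ variety I ∧ VanishesAt (aeval F Δ) x} := by
    refine ⟨{aeval F Δ}, ?_, ?_⟩
    · intro P hP
      rw [Set.mem_singleton_iff] at hP
      subst hP
      exact ⟨_, hk.aeval _ hF.hom⟩
    · ext x
      simp
  refine ⟨F, (hrest (n + 1) (by omega) hz).2 ?_, hhyp.lang hI hΞ hne' (by omega) hz⟩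
  rw [Set.sdiff_empty]
  exact hne'

end Pool.Agent.H5.DG4
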