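import Pool.Agent.H5.DG3.Defs

/-!
# Project DG4, definitions: partial ramification, the second main theorem with truncation level one

`U = variety I \ B` is a quasi-projective variety, the tuples of forms `F α` define a morphism
`f : U → Y`, `Y` is the projective variety given by `P`.
-/

open MvPolynomial Filter Topology MeasureTheory
open Pool.Agent.H17 (PN VanishesAt ZariskiClosedIn HolomorphicInto puncturedDisc)
open Pool.Agent.H17LG.Variety (FunField)
open Pool.Agent.H5.DG (Homog variety)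
open Pool.Agent.H5.DG3 (IsMorphism morph Hyperbolic FourProperties)

noncomputable section

namespace Pool.Agent.H5.DG4

variable {N M m s : ℕ}

/-- The tuples `F α` define a morphism from `U = variety I \ B` to the variety given by `P`, with
finite fibres outside of the closed set `Z`. -/
structure FiniteMorphism (P : Ideal (MvPolynomial (Fin (M + 1)) ℂ))
    (I : Ideal (MvPolynomial (Fin (N + 1)) ℂ)) (B Z : Set (PN N))
    (F : Fin s → Fin (M + 1) → MvPolynomial (Fin (N + 1)) ℂ) : Prop where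
  homog : Homog I
  closedB : ZariskiClosedIn Set.univ B
  closedZ : ZariskiClosedIn Set.univ Z
  morphism : IsMorphism I (variety I \ B) F
  maps : ∀ x ∈ variety I \ B, morph F x ∈ variety P
  finite : ∀ y : PN M, {x | x ∈ variety I \ B ∧ x ∉ Z ∧ morph F x = y}.Finite

/-- The forms `τ α` define a section of `f^* O(a)`: its quotient by the `a`-th power of the `b`-th
coordinate of `f` is `τ α / F α b ^ a`. It is integral over the homogeneous coordinate ring of `Y`
(this is always true for sections on all of a projective variety). -/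
structure IsSection (I : Ideal (MvPolynomial (Fin (N + 1)) ℂ))
    (F : Fin s → Fin (M + 1) → MvPolynomial (Fin (N + 1)) ℂ) (a : ℕ)
    (τ : Fin s → MvPolynomial (Fin (N + 1)) ℂ) : Prop where
  hom : ∀ α, ∃ e, (∀ b, (F α b).IsHomogeneous e) ∧ (τ α).IsHomogeneous (e * a)
  compat : ∀ α β b, τ α * F β b ^ a - τ β * F α b ^ a ∈ I
  integral : ∃ (n : ℕ) (c : ℕ → MvPolynomial (Fin (M + 1)) ℂ),
    (∀ i, (c i).IsHomogeneous (a * i)) ∧
    ∀ α, τ α ^ n + ∑ i ∈ Finset.range n, aeval (F α) (c (n - i)) * τ α ^ i ∈ I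

/-- Near the point `x` of the variety given by `I` the form `t` vanishes at least `k` times along the
reduced zero sets of the forms `L j`, `j ∈ J`: for some form `T`, not zero at `x`, the product `T t`
is, on the variety, in the `k`-th power of the product of the radicals of the ideals `(L j)`. If `x`
is a smooth point and the zero divisors of the `L j` have no common components this means that all
the components through `x` of these divisors have multiplicity at least `k` in the divisor of `t`. -/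
def VanishesTimes (k : ℕ) (I : Ideal (MvPolynomial (Fin (N + 1)) ℂ)) (J : Finset (Fin m))
    (L : Fin m → MvPolynomial (Fin (N + 1)) ℂ) (t : MvPolynomial (Fin (N + 1)) ℂ) (x : PN N) :
    Prop :=
  ∃ (T : MvPolynomial (Fin (N + 1)) ℂ) (d : ℕ), T.IsHomogeneous d ∧ ¬ VanishesAt T x ∧
    T * t ∈ (∏ j ∈ J, Ideal.radical (Ideal.span {L j} ⊔ I)) ^ k ⊔ I

/-- The set `J` has at least `N₀` elements, and at any point of the variety given by `P` at most
`|J| / N₀` of the forms `G j`, `j ∈ J`, vanish. -/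
def GoodSet (N₀ : ℕ) (P : Ideal (MvPolynomial (Fin (M + 1)) ℂ))
    (G : Fin m → MvPolynomial (Fin (M + 1)) ℂ) (J : Finset (Fin m)) : Prop :=
  N₀ ≤ J.card ∧ ∀ y ∈ variety P, N₀ * {j | j ∈ J ∧ VanishesAt (G j) y}.ncard ≤ J.card

/-- The section of `f^* O(a)` given by the forms `τ α` vanishes at least `k` times along the reduced
inverse images of the hypersurfaces `G j = 0`, `j ∈ J`, for some `k ≥ 1` and some good set `J` such
that `a ≤ (1 - 1 / A) * k * ∑ j ∈ J, deg (G j)`. -/
structure RamifiedSection (A N₀ : ℕ) (P : Ideal (MvPolynomial (Fin (M + 1)) ℂ))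
    (G : Fin m → MvPolynomial (Fin (M + 1)) ℂ) (I : Ideal (MvPolynomial (Fin (N + 1)) ℂ))
    (B : Set (PN N)) (F : Fin s → Fin (M + 1) → MvPolynomial (Fin (N + 1)) ℂ) (a : ℕ)
    (τ : Fin s → MvPolynomial (Fin (N + 1)) ℂ) : Prop where
  isSection : IsSection I F a τ
  vanishes : ∃ (k : ℕ) (J : Finset (Fin m)), 1 ≤ k ∧ GoodSet N₀ P G J ∧
    A * a ≤ (A - 1) * (k * ∑ j ∈ J, (G j).totalDegree) ∧
    ∀ x ∈ variety I \ B, ∃ α, (∃ b, ¬ VanishesAt (F α b) x) ∧
      VanishesTimes k I J (fun j => aeval (F α) (G j)) (τ α) x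

/-- The points `x` of `U = variety I \ B` such that `x` lies in `Z`, or the image of `x` lies in the
hypersurface `Δ = 0`, or all the sections of `RamifiedSection` vanish at `x`. -/
def excSet (A N₀ : ℕ) (P : Ideal (MvPolynomial (Fin (M + 1)) ℂ))
    (G : Fin m → MvPolynomial (Fin (M + 1)) ℂ) (I : Ideal (MvPolynomial (Fin (N + 1)) ℂ))
    (B Z : Set (PN N)) (F : Fin s → Fin (M + 1) → MvPolynomial (Fin (N + 1)) ℂ)
    (Δ : MvPolynomial (Fin (M + 1)) ℂ) : Set (PN N) :=
  {x | x ∈ variety I \ B ∧ (x ∈ Z ∨ VanishesAt Δ (morph F x) ∨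
    ∀ a τ, RamifiedSection A N₀ P G I B F a τ → ∀ α, VanishesAt (τ α) x)}

/-! ### The second main theorem -/

/-- The characteristic function of the holomorphic curve `[h 0 : ⋯ : h M]`, up to a constant. -/
def characteristic (h : ℂ → Fin (M + 1) → ℂ) (r : ℝ) : ℝ :=
  Real.circleAverage (fun z => Real.log ‖h z‖) 0 r

/-- The counting function of the zeros of `G (h)`, all counted once (truncation level one). -/
def counting (G : MvPolynomial (Fin (M + 1)) ℂ) (h : ℂ → Fin (M + 1) → ℂ) (r : ℝ) : ℝ :=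
  (∑ᶠ z ∈ {z : ℂ | z ≠ 0 ∧ ‖z‖ < r ∧ eval (h z) G = 0}, Real.log (r / ‖z‖)) +
    (open Classical in if eval (h 0) G = 0 then Real.log r else 0)

/-- **The second main theorem with truncation level one** for the hypersurfaces `G j = 0`, `j ∈ J`:
for every holomorphic map `[h 0 : ⋯ : h M]` from `ℂ` to the variety given by `P`, not into `Δ = 0` or
some `G j = 0`, with the characteristic function `T`, and for all `r` outside of a set of finite
logarithmic measure,
`(1 - 1 / A) * (∑ j ∈ J, deg (G j)) * T r ≤ ∑ j ∈ J, counting (G j) r + C * (1 + log r)`. -/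
def TruncatedSMT (A : ℕ) (P : Ideal (MvPolynomial (Fin (M + 1)) ℂ))
    (G : Fin m → MvPolynomial (Fin (M + 1)) ℂ) (J : Finset (Fin m))
    (Δ : MvPolynomial (Fin (M + 1)) ℂ) : Prop :=
  ∀ h : ℂ → Fin (M + 1) → ℂ, Differentiable ℂ h → (∀ z, h z ≠ 0) →
    (∀ z, ∀ R ∈ P, eval (h z) R = 0) → (∃ z, eval (h z) Δ ≠ 0) →
    (∀ j ∈ J, ∃ z, eval (h z) (G j) ≠ 0) →
    ∃ (C : ℝ) (E : Set ℝ), volume E ≠ ⊤ ∧ ∀ x : ℝ, 0 ≤ x → x ∉ E →
      (1 - 1 / (A : ℝ)) * (∑ j ∈ J, (G j).totalDegree : ℕ) * characteristic h (Real.exp x) ≤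
        ∑ j ∈ J, counting (G j) h (Real.exp x) + C * (1 + x)

/-! ### The main statement -/

/-- **The theorem on partially ramified morphisms** to the variety `Y` given by `P`, for the forms
`G j` and the exceptional form `Δ`. -/
structure PartialTheorem (A N₀ : ℕ) {M : ℕ} (P : Ideal (MvPolynomial (Fin (M + 1)) ℂ)) [P.IsPrime]
    (G : Fin m → MvPolynomial (Fin (M + 1)) ℂ) (Δ : MvPolynomial (Fin (M + 1)) ℂ) : Prop where
  smt : ∀ J, GoodSet N₀ P G J → TruncatedSMT A P G J Δ
  morphisms : ∀ (N s : ℕ) (I : Ideal (MvPolynomial (Fin (N + 1)) ℂ)) [I.IsPrime] (B Z : Set (PN N))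
    (F : Fin s → Fin (M + 1) → MvPolynomial (Fin (N + 1)) ℂ), FiniteMorphism P I B Z F →
    Hyperbolic I B (excSet A N₀ P G I B Z F Δ) ∧
    ∀ w, 1 ≤ w → (∃ z : Fin w → FunField I, IsTranscendenceBasis ℂ z) →
      ((∃ z : Fin w → FunField P, IsTranscendenceBasis ℂ z) → ¬ (variety I \ B ⊆ Z) →
        (∃ a τ, RamifiedSection A N₀ P G I B F a τ ∧ ∃ α, τ α ∉ I) →
        ¬ (variety I \ B ⊆ excSet A N₀ P G I B Z F Δ)) ∧
      (¬ (variety I \ B ⊆ excSet A N₀ P G I B Z F Δ) →
        FourProperties I B w (excSet A N₀ P G I B Z F Δ))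

end Pool.Agent.H5.DG4
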