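import Pool.Agent.H5.DG4.GenPos4
import Pool.Agent.H5.DG4.IntBase
import Pool.Agent.H5.DG4.Defs
import Pool.Agent.H5.DG.FinalDefs

/-!
# Project DG4, module CIMap: the map given by the `x_j ^ e * L_j (x)`

`F b = ∑ j, ρ b j • X j ^ e * L j` with the left inverse `ρ` of `exists_inverse` (module
`Pool.Agent.H5.DG.F1`).  At a point `v` of the cone of `I` the vector `y j = v j ^ e * L j (v)` lies in the
kernel of `a`, so `y j = dot (l j) w` and `F b (v) = w b`: `mem_of_forall` (module FinalDefs) gives `hlin`,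
`baseFree_of_points` (module IntBase) gives `BaseFree`.  See `diag_data_of` in module
`Pool.Agent.H5.DG.Final`.
`ci_ramified`: `τ = ∏ j ∈ J, (X j * L j) ^ (e + s)`, `k = e + s`, `a = (1 + s) * J.card`, `T = 1`;
`(X j * L j) ^ e = (X j ^ e * L j) * L j ^ (e - 1)` lies in `span {linearForm (l j) (F)} ⊔ I`;
`form_integral`.  `totalDegree = 1` for the nonzero linear forms.
-/

open MvPolynomial
open Pool.Agent.H17 (PN VanishesAt)
open Pool.Agent.H5.DG
open Pool.Agent.H5.DG3 (IsMorphism morph)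

noncomputable section

namespace Pool.Agent.H5.DG4

variable {N c n e s : ℕ} {a : Fin c → Fin (N + 1) → ℂ} {L : Fin (N + 1) → MvPolynomial (Fin (N + 1)) ℂ}
  {l : Fin (N + 1) → Fin (n + 2) → ℂ} {I : Ideal (MvPolynomial (Fin (N + 1)) ℂ)}

theorem exists_ciMap [I.IsPrime] (hc : c + (n + 1) = N) (he : 2 ≤ e)
    (hL : ∀ j, (L j).IsHomogeneous s) (hl : GenPos l)
    (hker : ∀ y : Fin (N + 1) → ℂ, (∀ i, ∑ j, a i j * y j = 0) ↔
      ∃ v : Fin (n + 2) → ℂ, ∀ j, y j = dot (l j) v)
    (hf : ∀ i, ciForm a e L i ∈ I)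
    (hne : ∀ v : Fin (N + 1) → ℂ, v ≠ 0 → (∀ Q ∈ I, eval v Q = 0) → ∃ j, eval v (X j * L j) ≠ 0) :
    ∃ F : Fin (n + 2) → MvPolynomial (Fin (N + 1)) ℂ, BaseFree I (e + s) F ∧
      ∀ j, X j ^ e * L j - aeval F (linearForm (l j)) ∈ I := by
  classical
  have hle : n + 2 ≤ N + 1 := by omega
  obtain ⟨ρ, hρ⟩ := exists_inverse hle hl
  set F : Fin (n + 2) → MvPolynomial (Fin (N + 1)) ℂ :=
    fun b => ∑ j, C (ρ b j) * (X j ^ e * L j) with hFdef
  have hFhom : ∀ b, (F b).IsHomogeneous (e + s) := by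
    intro b
    refine MvPolynomial.IsHomogeneous.sum _ _ _ fun j _ => ?_
    exact ((isHomogeneous_X_pow j e).mul (hL j)).C_mul _
  have hcone : ∀ v : Fin (N + 1) → ℂ, (∀ Q ∈ I, eval v Q = 0) →
      ∃ w : Fin (n + 2) → ℂ, (∀ j, v j ^ e * eval v (L j) = dot (l j) w) ∧
        ∀ b, eval v (F b) = w b := by
    intro v hv
    have h1 : ∀ i, ∑ j, a i j * (v j ^ e * eval v (L j)) = 0 := by
      intro i
      have h2 := hv _ (hf i)
      unfold ciForm at h2
      rw [map_sum] at h2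
      rw [← h2]
      refine Finset.sum_congr rfl fun j _ => ?_
      rw [map_mul, map_mul, map_pow, eval_C, eval_X]
    obtain ⟨w, hw⟩ := (hker fun j => v j ^ e * eval v (L j)).1 h1
    refine ⟨w, hw, fun b => ?_⟩
    have h3 : eval v (F b) = ∑ j, ρ b j * (v j ^ e * eval v (L j)) := by
      rw [hFdef]
      simp only
      rw [map_sum]
      refine Finset.sum_congr rfl fun j _ => ?_
      rw [map_mul, map_mul, map_pow, eval_C, eval_X]
    rw [h3, hρ w b]
    exact Finset.sum_congr rfl fun j _ => by rw [hw j]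
  refine ⟨F, baseFree_of_points (by omega) hFhom fun v hv0 hv => ?_, fun j => ?_⟩
  · obtain ⟨w, hw, hFw⟩ := hcone v hv
    obtain ⟨j, hj⟩ := hne v hv0 hv
    rw [map_mul, eval_X] at hj
    have h1 : dot (l j) w ≠ 0 := by
      rw [← hw j]
      exact mul_ne_zero (pow_ne_zero _ (left_ne_zero_of_mul hj)) (right_ne_zero_of_mul hj)
    by_contra hcon
    push Not at hcon
    refine h1 ?_
    unfold dot
    refine Finset.sum_eq_zero fun b _ => ?_
    rw [← hFw b, hcon b, mul_zero]
  · refine mem_of_forall I fun v hv => ?_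
    obtain ⟨w, hw, hFw⟩ := hcone v hv
    rw [map_sub, map_mul, map_pow, eval_X, hw j]
    unfold linearForm dot
    rw [map_sum, map_sum, sub_eq_zero]
    refine Finset.sum_congr rfl fun b _ => ?_
    rw [map_mul, map_mul, aeval_C, aeval_X, hFw b]
    simp

private theorem totalDegree_linearForm {r : ℕ} {t : Fin (r + 1) → ℂ} (ht : t ≠ 0) :
    (linearForm t).totalDegree = 1 := by
  refine (linearForm_isHomogeneous t).totalDegree ?_
  intro hcon
  refine ht (funext fun b => ?_)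
  have h1 := congrArg (eval (Pi.single b (1 : ℂ))) hcon
  unfold linearForm at h1
  rw [map_sum, map_zero] at h1
  rw [Finset.sum_eq_single b] at h1
  · simpa using h1
  · intro b' _ hb'
    rw [map_mul, eval_X, Pi.single_eq_of_ne hb', mul_zero]
  · intro h
    exact absurd (Finset.mem_univ _) h

theorem ci_ramified {A N₀ : ℕ} (he : 2 ≤ e) (hes : e + s ≤ A * (e - 1))
    (hL : ∀ j, (L j).IsHomogeneous s) (hl : ∀ j, l j ≠ 0) (hI : Homog I)
    {F : Fin (n + 2) → MvPolynomial (Fin (N + 1)) ℂ} (hF : BaseFree I (e + s) F)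
    (hlin : ∀ j, X j ^ e * L j - aeval F (linearForm (l j)) ∈ I) {J : Finset (Fin (N + 1))}
    (hJ : GoodSet N₀ (⊥ : Ideal (MvPolynomial (Fin (n + 2)) ℂ)) (fun j => linearForm (l j)) J) :
    RamifiedSection A N₀ ⊥ (fun j => linearForm (l j)) I ∅ (fun _ : Fin 1 => F)
      ((1 + s) * J.card) fun _ => ∏ j ∈ J, (X j * L j) ^ (e + s) := by
  classical
  have hτ : (∏ j ∈ J, (X j * L j) ^ (e + s)).IsHomogeneous ((e + s) * ((1 + s) * J.card)) := by
    have h1 : (∏ j ∈ J, (X j * L j) ^ (e + s)).IsHomogeneous (∑ _j ∈ J, (1 + s) * (e + s)) := by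
      refine MvPolynomial.IsHomogeneous.prod _ _ _ fun j _ => ?_
      exact ((isHomogeneous_X ℂ j).mul (hL j)).pow _
    have h2 : ∑ _j ∈ J, (1 + s) * (e + s) = (e + s) * ((1 + s) * J.card) := by
      rw [Finset.sum_const, smul_eq_mul]
      ring
    rwa [h2] at h1
  refine ⟨⟨fun _ => ⟨e + s, hF.hom, hτ⟩, fun α β b => ?_, ?_⟩, e + s, J, by omega, hJ, ?_, ?_⟩
  · rw [sub_self]
    exact I.zero_mem
  · obtain ⟨m, c, h1, h2⟩ := form_integral hI hF hτ
    exact ⟨m, c, h1, fun _ => h2⟩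
  · have h1 : ∑ j ∈ J, (linearForm (l j)).totalDegree = J.card := by
      rw [Finset.sum_congr rfl fun j _ => totalDegree_linearForm (hl j)]
      simp
    rw [h1]
    have h2 : A * (1 + s) ≤ (A - 1) * (e + s) := by
      obtain ⟨e', rfl⟩ : ∃ e', e = e' + 2 := ⟨e - 2, by omega⟩
      have h3 : e' + 2 - 1 = e' + 1 := by omega
      rw [h3] at hes
      obtain ⟨A', rfl⟩ : ∃ A', A = A' + 1 := by
        refine ⟨A - 1, ?_⟩
        rcases Nat.eq_zero_or_pos A with h | h
        · rw [h, zero_mul] at hes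
          omega
        · omega
      rw [Nat.add_sub_cancel]
      nlinarith
    calc A * ((1 + s) * J.card) = (A * (1 + s)) * J.card := by ring
      _ ≤ ((A - 1) * (e + s)) * J.card := Nat.mul_le_mul_right _ h2
      _ = (A - 1) * ((e + s) * J.card) := by ring
  · intro x hx
    obtain ⟨α, b, hb⟩ := (isMorphism_of_baseFree hI hF).base x hx
    refine ⟨0, ⟨b, hb⟩, 1, 0, isHomogeneous_one _ _, ?_, ?_⟩
    · intro h
      unfold VanishesAt at h
      rw [map_one] at h
      exact one_ne_zero h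
    · rw [one_mul, Finset.prod_pow]
      refine Submodule.mem_sup_left (Ideal.pow_mem_pow (Ideal.prod_mem_prod fun j _ => ?_) _)
      refine ⟨e, ?_⟩
      obtain ⟨e', rfl⟩ : ∃ e', e = e' + 1 := ⟨e - 1, by omega⟩
      have h1 : (X j * L j) ^ (e' + 1) = L j ^ e' * (aeval F (linearForm (l j)) +
          (X j ^ (e' + 1) * L j - aeval F (linearForm (l j)))) := by
        ring
      rw [h1]
      refine Ideal.mul_mem_left _ _ ?_
      exact Submodule.add_mem_sup (Ideal.subset_span rfl) (hlin j)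

end Pool.Agent.H5.DG4
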