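import Pool.Agent.H62.FC.NevDefs
import Pool.Agent.H62.FC.CharMero
import Pool.Agent.H62.FC.Nev0
import Pool.Agent.H62.FC.LogDeriv

/-!
# Project DG4, module Chr: the second main theorem at a puncture, abstract form

Proof as in `Pool.Agent.H5.DG.smt_punct` (module `Pool.Agent.H5.DG.D1`), with the functions `u j`
instead of the `h j` (`nevT (u j) ≤ d * chr h + C * (1 + |x|)` from `hub` and `hul`, `size h ≥ 1`),
and with the weight `n` instead of `hmult`: the means of the logarithms of `hpt` give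
`D * mean G ≤ ∑ j ∈ J, mean log ‖u j‖ - mean log ‖P‖ + ρ * ∑ j, mean log⁺ ‖u j' / u j‖ + C`, Jensen
(`MeroPunct.jensen`) replaces the means of `log ‖u j‖` and `log ‖P‖` by counting functions, `hloc`.
Coordinates `h i` which vanish identically do not contribute to `size`, `minOrd` (`ordZ = 0`, `minOrd ≤ 0`).
-/

open Filter Topology MeasureTheory
open Pool.Agent.H92.GGL (ordZ)
open Pool.Agent.H62.FC

noncomputable section

namespace Pool.Agent.H5.DG4

variable {ι : Type} [Fintype ι] [Nonempty ι]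

/-- The minimal order at `s`. -/
def minOrd (h : ι → ℂ → ℂ) (s : ℂ) : ℤ :=
  Finset.univ.inf' Finset.univ_nonempty fun i => ordZ (h i) s

/-- The maximum of the absolute values. -/
def size (h : ι → ℂ → ℂ) (z : ℂ) : ℝ := Finset.univ.sup' Finset.univ_nonempty fun i => ‖h i z‖

/-- The characteristic function. -/
def chr (h : ι → ℂ → ℂ) (R₁ x : ℝ) : ℝ :=
  mean (fun z => Finset.univ.sup' Finset.univ_nonempty fun i => Real.posLog ‖h i z‖) x +
    cnt (fun s => -(minOrd h s : ℝ)) R₁ (Real.exp (-x))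

/-- Normalised coordinates of a curve near a puncture. -/
structure Curve (R₀ : ℝ) (h : ι → ℂ → ℂ) (i₀ : ι) : Prop where
  dich : ∀ i, MeroPunct R₀ (h i) ∨ ∀ z, 0 < ‖z‖ → ‖z‖ < R₀ → ∀ᶠ ζ in 𝓝[≠] z, h i ζ = 0
  one : ∀ z, 0 < ‖z‖ → ‖z‖ < R₀ → ∀ᶠ ζ in 𝓝[≠] z, h i₀ ζ = 1

theorem Curve.minOrd_le {R₀ : ℝ} {h : ι → ℂ → ℂ} {i₀ : ι} (hh : Curve R₀ h i₀) {s : ℂ}
    (h1 : 0 < ‖s‖) (h2 : ‖s‖ < R₀) : minOrd h s ≤ 0 := by
  refine (Finset.inf'_le _ (Finset.mem_univ i₀)).trans (le_of_eq ?_)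
  unfold ordZ
  have h3 : h i₀ =ᶠ[𝓝[≠] s] fun _ => 1 := hh.one s h1 h2
  rw [meromorphicOrderAt_congr h3, meromorphicOrderAt_const]
  simp

/-! ### Means -/

private theorem circleIntegrable_sup {f g : ℂ → ℝ} {c : ℂ} {R : ℝ} (hf : CircleIntegrable f c R)
    (hg : CircleIntegrable g c R) : CircleIntegrable (f ⊔ g) c R := by
  have h : f ⊔ g = (1 / 2 : ℝ) • (f + g + |g - f|) := by
    funext z
    simp only [Pi.sup_apply, Pi.smul_apply, Pi.add_apply, Pi.abs_apply, Pi.sub_apply, smul_eq_mul]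
    rw [max_def]
    split_ifs with h1
    · rw [abs_of_nonneg (by linarith)]
      ring
    · rw [abs_of_nonpos (by linarith)]
      ring
  rw [h]
  exact ((hf.add hg).add (hg.sub hf).abs).const_smul

private theorem mean_mono {f g : ℂ → ℝ} {x : ℝ} (hf : CircleIntegrable f 0 (Real.exp (-x)))
    (hg : CircleIntegrable g 0 (Real.exp (-x)))
    (h : ∀ z ∈ Metric.sphere (0 : ℂ) |Real.exp (-x)|, ∀ᶠ ζ in 𝓝[≠] z, f ζ ≤ g ζ) :
    mean f x ≤ mean g x := by
  have h1 : g =ᶠ[codiscreteWithin (Metric.sphere (0 : ℂ) |Real.exp (-x)|)]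
      fun z => max (f z) (g z) := by
    rw [Filter.EventuallyEq, Filter.Eventually, mem_codiscreteWithin_iff_forall_mem_nhdsNE]
    intro z hz
    filter_upwards [h z hz] with ζ hζ
    left
    show g ζ = max (f ζ) (g ζ)
    rw [max_eq_right hζ]
  have h2 : mean g x = mean (fun z => max (f z) (g z)) x :=
    Real.circleAverage_congr_codiscreteWithin h1 (Real.exp_ne_zero _)
  rw [h2]
  exact Real.circleAverage_mono hf (CircleIntegrable.congr_codiscreteWithin h1 hg)
    fun z _ => le_max_left _ _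

private theorem exists_T {κ : Type*} [Finite κ] {R₀ R₁ : ℝ} (h : R₁ < R₀) {w : κ → ℂ → ℝ}
    (hw : ∀ i, LocFin R₀ (w i)) {r : ℝ} (hr : 0 < r) :
    ∃ (T : Finset ℂ) (l : ℂ → ℝ), (∀ s ∈ T, r < ‖s‖ ∧ ‖s‖ < R₁ ∧ 0 ≤ l s) ∧
      ∀ w' : ℂ → ℝ, (∀ s, r < ‖s‖ → ‖s‖ < R₁ → (∀ i, w i s = 0) → w' s = 0) →
        cnt w' R₁ r = ∑ s ∈ T, w' s * l s := by
  classical
  have hfin : (⋃ i, {s : ℂ | r ≤ ‖s‖ ∧ ‖s‖ ≤ R₁ ∧ w i s ≠ 0}).Finite :=
    Set.finite_iUnion fun i => hw i r R₁ hr h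
  refine ⟨hfin.toFinset.filter fun s => r < ‖s‖ ∧ ‖s‖ < R₁, fun s => Real.log (‖s‖ / r),
    fun s hs => ?_, fun w' hw' => ?_⟩
  · rw [Finset.mem_filter] at hs
    refine ⟨hs.2.1, hs.2.2, Real.log_nonneg ?_⟩
    rw [le_div_iff₀ hr, one_mul]
    exact hs.2.1.le
  · refine cnt_eq_sum (fun s h1 h2 h3 => ?_) hr
    rw [Set.Finite.mem_toFinset, Set.mem_iUnion]
    by_contra hcon
    refine h3 (hw' s h1 h2 fun i => ?_)
    by_contra hi
    exact hcon ⟨i, h1.le, h2.le, hi⟩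

private theorem linear_bound (A B x : ℝ) : |A + B * x| ≤ (|A| + |B|) * (1 + |x|) := by
  have h1 : |A + B * x| ≤ |A| + |B| * |x| := by
    rw [← abs_mul]
    exact abs_add_le A (B * x)
  nlinarith [abs_nonneg A, abs_nonneg B, abs_nonneg x, mul_nonneg (abs_nonneg A) (abs_nonneg x)]

private theorem circleAverage_const_mul (a : ℝ) (f : ℂ → ℝ) (R : ℝ) :
    Real.circleAverage (fun z => a * f z) 0 R = a * Real.circleAverage f 0 R :=
  Real.circleAverage_fun_smul (a := a)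

/-- The sum of the logarithmic derivatives. -/
private def Q {κ : Type} [Fintype κ] (h : κ → ℂ → ℂ) (z : ℂ) : ℝ :=
  ∑ i, Real.posLog ‖deriv (h i) z / h i z‖

private theorem log_one_add_sum {κ : Type} [Fintype κ] (a : κ → ℝ) :
    Real.log (1 + ∑ i, a i) ≤ Real.log (Fintype.card κ + 1) + ∑ i, Real.posLog (a i) := by
  have h1 := Real.posLog_sum (Finset.univ : Finset (Option κ)) (fun o => o.elim 1 a)
  rw [Fintype.sum_option, Fintype.sum_option, Finset.card_univ, Fintype.card_option] at h1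
  simp only [Option.elim_none, Option.elim_some, Real.posLog_one, zero_add] at h1
  push_cast at h1
  exact (le_max_right _ _).trans h1

omit [Fintype ι] [Nonempty ι] in
/-- Every coordinate of a curve has integrable positive logarithm. -/
private theorem Curve.integrable {R₀ : ℝ} {h : ι → ℂ → ℂ} {i₀ : ι} (hh : Curve R₀ h i₀) (j : ι)
    {x : ℝ} (hx : Real.exp (-x) < R₀) :
    CircleIntegrable (fun z => Real.posLog ‖h j z‖) 0 (Real.exp (-x)) := by
  rcases hh.dich j with hj | hj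
  · exact MeroPunct.circleIntegrable_posLog hj hx
  · have h0 : CircleIntegrable (fun _ : ℂ => (0 : ℝ)) 0 (Real.exp (-x)) := circleIntegrable_const 0 0 _
    refine CircleIntegrable.congr_codiscreteWithin ?_ h0
    rw [Filter.EventuallyEq, Filter.Eventually, mem_codiscreteWithin_iff_forall_mem_nhdsNE]
    intro z hz
    have hr : 0 < Real.exp (-x) := Real.exp_pos _
    rw [mem_sphere_zero_iff_norm, abs_of_pos hr] at hz
    filter_upwards [hj z (by rw [hz]; exact hr) (by rw [hz]; exact hx)] with ζ hζ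
    left
    show (0 : ℝ) = Real.posLog ‖h j ζ‖
    rw [hζ, norm_zero, Real.posLog_zero]

omit [Fintype ι] [Nonempty ι] in
/-- The orders of every coordinate of a curve are locally finite. -/
private theorem Curve.locFin {R₀ : ℝ} {h : ι → ℂ → ℂ} {i₀ : ι} (hh : Curve R₀ h i₀) (j : ι) :
    LocFin R₀ (fun s => (ordZ (h j) s : ℝ)) := by
  rcases hh.dich j with hj | hj
  · exact MeroPunct.locFin hj
  · intro r b hr hb
    have he : {s : ℂ | r ≤ ‖s‖ ∧ ‖s‖ ≤ b ∧ (ordZ (h j) s : ℝ) ≠ 0} = ∅ := by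
      ext s
      simp only [Set.mem_ofPred_eq, Set.mem_empty_iff_false, iff_false, not_and, not_not]
      intro h1 h2
      have h3 : h j =ᶠ[𝓝[≠] s] fun _ => 0 := hj s (lt_of_lt_of_le hr h1) (lt_of_le_of_lt h2 hb)
      unfold ordZ
      rw [meromorphicOrderAt_congr h3, meromorphicOrderAt_const]
      simp
    rw [he]
    exact Set.finite_empty

theorem smt_trunc {ι' : Type} [Fintype ι'] {R₀ R₁ : ℝ} (h1 : 0 < R₁) (h2 : R₁ < R₀)
    {h : ι → ℂ → ℂ} {i₀ : ι} (hh : Curve R₀ h i₀) {u : ι' → ℂ → ℂ} (hu : ∀ j, MeroPunct R₀ (u j))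
    {P : ℂ → ℂ} (hP : MeroPunct R₀ P) {J : Finset ι'} {n : ℂ → ℝ} (hn : LocFin R₀ n)
    {D ρ d : ℕ} {C : ℝ}
    (hub : ∀ z, 0 < ‖z‖ → ‖z‖ < R₀ → ∀ᶠ ζ in 𝓝[≠] z, ∀ j, ‖u j ζ‖ ≤ C * size h ζ ^ d)
    (hul : ∀ s, 0 < ‖s‖ → ‖s‖ < R₀ → ∀ j, d * minOrd h s ≤ ordZ (u j) s)
    (hpt : ∀ z, 0 < ‖z‖ → ‖z‖ < R₀ → ∀ᶠ ζ in 𝓝[≠] z, ‖P ζ‖ * size h ζ ^ D ≤
      C * (∏ j ∈ J, ‖u j ζ‖) * (1 + ∑ j, ‖deriv (u j) ζ / u j ζ‖) ^ ρ)
    (hloc : ∀ s, 0 < ‖s‖ → ‖s‖ < R₀ →
      ((∑ j ∈ J, ordZ (u j) s : ℤ) : ℝ) ≤ (ordZ P s : ℝ) + D * minOrd h s + n s)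
    {ε : ℝ} (hε : 0 < ε) :
    ∃ (C' : ℝ) (E : Set ℝ), volume E ≠ ⊤ ∧ ∀ x, Real.exp (-x) < R₁ → x ∉ E →
      ((D : ℝ) - ε) * chr h R₁ x ≤ cnt n R₁ (Real.exp (-x)) + C' * (1 + |x|) := by
  classical
  have hR₀ : 0 < R₀ := h1.trans h2
  -- the minimum of the orders
  obtain ⟨μ, hμd⟩ : ∃ μ : ℂ → ℤ, μ = minOrd h := ⟨_, rfl⟩
  have hμ0 : ∀ s, 0 < ‖s‖ → ‖s‖ < R₀ → μ s ≤ 0 := fun s hs1 hs2 => by
    rw [hμd]
    exact hh.minOrd_le hs1 hs2
  have hμ' : ∀ s, ∃ j, ordZ (h j) s = μ s := fun s => by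
    obtain ⟨j, -, hj⟩ := Finset.exists_mem_eq_inf' (Finset.univ_nonempty (α := ι))
      (fun j => ordZ (h j) s)
    exact ⟨j, by rw [hμd]; exact hj.symm⟩
  -- the characteristic function
  obtain ⟨G, hG⟩ : ∃ G : ℂ → ℝ, ∀ z, G z =
      Finset.univ.sup' Finset.univ_nonempty (fun j => Real.posLog ‖h j z‖) := ⟨_, fun z => rfl⟩
  have hGj : ∀ z j, Real.posLog ‖h j z‖ ≤ G z := by
    intro z j
    rw [hG]
    exact Finset.le_sup' (fun j => Real.posLog ‖h j z‖) (Finset.mem_univ j)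
  have hG0 : ∀ z, 0 ≤ G z := fun z => Real.posLog_nonneg.trans (hGj z i₀)
  have hsize : ∀ z, h i₀ z = 1 → 1 ≤ size h z ∧ G z = Real.log (size h z) := by
    intro z hz
    have hs1 : 1 ≤ size h z := by
      have := Finset.le_sup' (fun i => ‖h i z‖) (Finset.mem_univ i₀)
      rw [hz, norm_one] at this
      exact this
    refine ⟨hs1, ?_⟩
    obtain ⟨j₁, -, hj₁⟩ := Finset.exists_mem_eq_sup' (Finset.univ_nonempty (α := ι))
      (fun j => ‖h j z‖)
    have hj₁' : size h z = ‖h j₁ z‖ := hj₁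
    rw [hG]
    refine le_antisymm (Finset.sup'_le _ _ fun j hj => ?_) ?_
    · rw [← Real.posLog_eq_log (by rw [abs_of_nonneg (by linarith)]; exact hs1)]
      exact Real.posLog_le_posLog (norm_nonneg _) (Finset.le_sup' (fun i => ‖h i z‖) hj)
    · rw [← Real.posLog_eq_log (by rw [abs_of_nonneg (by linarith)]; exact hs1), hj₁']
      exact Finset.le_sup' (fun j => Real.posLog ‖h j z‖) (Finset.mem_univ j₁)
  -- weights
  have hLoc : ∀ o : Option (Option (ι ⊕ ι')), LocFin R₀ (fun s =>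
      o.elim (ordZ P s : ℝ) fun o' => o'.elim (n s) fun t =>
        Sum.elim (fun i => (ordZ (h i) s : ℝ)) (fun j => (ordZ (u j) s : ℝ)) t) := by
    intro o
    rcases o with _ | _ | i | j
    · exact MeroPunct.locFin hP
    · exact hn
    · exact hh.locFin i
    · exact MeroPunct.locFin (hu j)
  -- constants
  choose A B hAB using fun j => MeroPunct.jensen (hu j) h1 h2
  obtain ⟨A', B', hAB'⟩ := MeroPunct.jensen hP h1 h2
  obtain ⟨L, hL⟩ : ∃ L : ℝ, L = |Real.log C| + ρ * Real.log (Fintype.card ι' + 1) := ⟨_, rfl⟩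
  have hcard : (0 : ℝ) ≤ Fintype.card ι' := Nat.cast_nonneg _
  have hL0 : 0 ≤ L := by
    rw [hL]
    have := Real.log_nonneg (show (1 : ℝ) ≤ Fintype.card ι' + 1 by linarith)
    positivity
  obtain ⟨e', he'⟩ : ∃ e' : ℝ, e' = ε / ((ρ + 1) * (Fintype.card ι' + 1) * (d + 1)) := ⟨_, rfl⟩
  have he0 : 0 < e' := by
    rw [he']
    positivity
  choose Cq E hE hq' using fun j : ι' => MeroPunct.logDeriv_negl h1 h2 (hu j) _ he0
  -- the exceptional set
  have hE' : volume (⋃ i, E i) ≠ ⊤ := by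
    refine ((measure_iUnion_fintype_le volume _).trans_lt ?_).ne
    exact ENNReal.sum_lt_top.2 fun p _ => lt_top_iff_ne_top.2 (hE p)
  obtain ⟨C₀, hC₀⟩ : ∃ C₀ : ℝ, C₀ = (∑ j, (|A j| + |B j|)) + (|A'| + |B'|) + L +
    ρ * (∑ i, |Cq i|) + ρ * (Fintype.card ι' * (e' * Real.posLog C)) := ⟨_, rfl⟩
  refine ⟨C₀, ⋃ i, E i, hE', fun x hx hxE => ?_⟩
  have hxR₀ : Real.exp (-x) < R₀ := hx.trans h2
  have hr : 0 < Real.exp (-x) := Real.exp_pos _
  have hxE' : ∀ i, x ∉ E i := fun i hcon => hxE (Set.mem_iUnion.2 ⟨i, hcon⟩)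
  have hsph : ∀ z ∈ Metric.sphere (0 : ℂ) |Real.exp (-x)|, 0 < ‖z‖ ∧ ‖z‖ < R₀ := by
    intro z hz
    rw [mem_sphere_zero_iff_norm, abs_of_pos hr] at hz
    rw [hz]
    exact ⟨hr, hxR₀⟩
  -- integrability
  have hIG : CircleIntegrable G 0 (Real.exp (-x)) := by
    have hsup := Finset.sup'_induction (Finset.univ_nonempty (α := ι))
      (fun j => fun z => Real.posLog ‖h j z‖)
      (p := fun f : ℂ → ℝ => CircleIntegrable f 0 (Real.exp (-x)))
      (fun f hf g hg => circleIntegrable_sup hf hg)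
      (fun j _ => hh.integrable j hxR₀)
    have e : G = Finset.univ.sup' (Finset.univ_nonempty (α := ι))
        (fun j => fun z => Real.posLog ‖h j z‖) := by
      funext z
      rw [hG, Finset.sup'_apply]
    rw [e]
    exact hsup
  have hIlog : ∀ j, CircleIntegrable (fun z => Real.log ‖u j z‖) 0 (Real.exp (-x)) :=
    fun j => MeroPunct.circleIntegrable_log (hu j) hxR₀
  have hIP : CircleIntegrable (fun z => Real.log ‖P z‖) 0 (Real.exp (-x)) :=
    MeroPunct.circleIntegrable_log hP hxR₀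
  have hIq : ∀ j, CircleIntegrable (fun z => Real.posLog ‖deriv (u j) z / u j z‖) 0
      (Real.exp (-x)) := by
    intro j
    apply MeromorphicOn.circleIntegrable_posLog_norm
    intro z hz
    obtain ⟨hz1, hz2⟩ := hsph z hz
    have hm := (hu j).mero z hz1 hz2
    exact hm.deriv.fun_div hm
  have hIQ : CircleIntegrable (Q u) 0 (Real.exp (-x)) := by
    have e : Q u = ∑ j, fun z => Real.posLog ‖deriv (u j) z / u j z‖ := by
      funext z
      unfold Q
      simp only [Finset.sum_apply]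
    rw [e]
    exact CircleIntegrable.sum _ fun i _ => hIq i
  have hISum : CircleIntegrable (fun z => ∑ j ∈ J, Real.log ‖u j z‖) 0 (Real.exp (-x)) := by
    have e : (fun z => ∑ j ∈ J, Real.log ‖u j z‖) = ∑ j ∈ J, fun z => Real.log ‖u j z‖ := by
      funext z
      simp only [Finset.sum_apply]
    rw [e]
    exact CircleIntegrable.sum _ fun j _ => hIlog j
  have hISP : CircleIntegrable (fun z => (∑ j ∈ J, Real.log ‖u j z‖) - Real.log ‖P z‖) 0
      (Real.exp (-x)) := hISum.sub hIP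
  have hIρQ : CircleIntegrable (fun z => ρ * Q u z) 0 (Real.exp (-x)) :=
    hIQ.const_smul (a := (ρ : ℝ))
  have hILρ : CircleIntegrable (fun z => L + ρ * Q u z) 0 (Real.exp (-x)) :=
    (circleIntegrable_const L 0 _).add hIρQ
  have hIR : CircleIntegrable (fun z => (∑ j ∈ J, Real.log ‖u j z‖) - Real.log ‖P z‖ +
      (L + ρ * Q u z)) 0 (Real.exp (-x)) := hISP.add hILρ
  have hIDG : CircleIntegrable (fun z => (D : ℝ) * G z) 0 (Real.exp (-x)) :=
    hIG.const_smul (a := (D : ℝ))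
  -- the mean of `G`
  have hmG : (D : ℝ) * mean G x ≤ (∑ j ∈ J, mean (fun z => Real.log ‖u j z‖) x) -
      mean (fun z => Real.log ‖P z‖) x +
      (L + ρ * ∑ j, mean (fun z => Real.posLog ‖deriv (u j) z / u j z‖) x) := by
    have h := mean_mono (x := x) hIDG hIR (fun z hz => by
      obtain ⟨hz1, hz2⟩ := hsph z hz
      have e1 : ∀ᶠ ζ in 𝓝[≠] z, ∀ j, u j ζ ≠ 0 :=
        Filter.eventually_all.2 fun j =>
          (meromorphicOrderAt_ne_top_iff_eventually_ne_zero ((hu j).mero z hz1 hz2)).1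
            ((hu j).ord z hz1 hz2)
      have e2 : ∀ᶠ ζ in 𝓝[≠] z, P ζ ≠ 0 :=
        (meromorphicOrderAt_ne_top_iff_eventually_ne_zero (hP.mero z hz1 hz2)).1
          (hP.ord z hz1 hz2)
      filter_upwards [hpt z hz1 hz2, e1, e2, hh.one z hz1 hz2] with ζ hH h4 h5 h1'
      obtain ⟨hH1, hGe⟩ := hsize ζ h1'
      have hH0 : 0 < size h ζ := by linarith
      have hP0 : 0 < ‖P ζ‖ := norm_pos_iff.2 h5
      have hLHS : 0 < ‖P ζ‖ * size h ζ ^ D := by positivity
      have hprod : 0 < ∏ j ∈ J, ‖u j ζ‖ := Finset.prod_pos fun j _ => norm_pos_iff.2 (h4 j)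
      have hsum : 0 < (1 + ∑ i, ‖deriv (u i) ζ / u i ζ‖) ^ ρ := by
        have : 0 ≤ ∑ i, ‖deriv (u i) ζ / u i ζ‖ := Finset.sum_nonneg fun _ _ => norm_nonneg _
        positivity
      have hC : 0 < C := by
        by_contra hcon
        have : C * (∏ j ∈ J, ‖u j ζ‖) * (1 + ∑ i, ‖deriv (u i) ζ / u i ζ‖) ^ ρ ≤ 0 := by
          rw [mul_assoc]
          exact mul_nonpos_of_nonpos_of_nonneg (not_lt.1 hcon) (by positivity)
        linarith
      have hlog := Real.log_le_log hLHS hH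
      rw [Real.log_mul hP0.ne' (pow_ne_zero _ hH0.ne'), Real.log_pow,
        Real.log_mul (by positivity) hsum.ne', Real.log_mul hC.ne' hprod.ne',
        Real.log_pow, Real.log_prod (fun j _ => norm_ne_zero_iff.2 (h4 j))] at hlog
      have h6 := log_one_add_sum (fun i => ‖deriv (u i) ζ / u i ζ‖)
      have h7 : (ρ : ℝ) * Real.log (1 + ∑ i, ‖deriv (u i) ζ / u i ζ‖) ≤
          ρ * (Real.log (Fintype.card ι' + 1) + Q u ζ) :=
        mul_le_mul_of_nonneg_left h6 (Nat.cast_nonneg _)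
      have h8 := le_abs_self (Real.log C)
      rw [hGe, hL]
      linarith)
    have e0 : mean (fun z => (D : ℝ) * G z) x = (D : ℝ) * mean G x :=
      circleAverage_const_mul _ _ _
    rw [← e0]
    refine h.trans (le_of_eq ?_)
    unfold mean
    rw [Real.circleAverage_fun_add hISP hILρ,
      Real.circleAverage_fun_sub hISum hIP, Real.circleAverage_fun_sum fun j _ => hIlog j,
      Real.circleAverage_fun_add (circleIntegrable_const L 0 _) hIρQ,
      Real.circleAverage_const]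
    congr 2
    rw [circleAverage_const_mul]
    congr 1
    unfold Q
    exact Real.circleAverage_fun_sum (fun i _ => hIq i)
  have hIdG : CircleIntegrable (fun z => Real.posLog C + d * G z) 0 (Real.exp (-x)) :=
    (circleIntegrable_const (Real.posLog C) 0 _).add (hIG.const_smul (a := (d : ℝ)))
  have hposG : ∀ j, mean (fun z => Real.posLog ‖u j z‖) x ≤ Real.posLog C + d * mean G x := by
    intro j
    have h := mean_mono (x := x) (MeroPunct.circleIntegrable_posLog (hu j) hxR₀) hIdG (fun z hz => by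
      obtain ⟨hz1, hz2⟩ := hsph z hz
      filter_upwards [hub z hz1 hz2, hh.one z hz1 hz2] with ζ hζ h1'
      obtain ⟨hH1, hGe⟩ := hsize ζ h1'
      have k1 := Real.posLog_le_posLog (norm_nonneg _) (hζ j)
      have k2 : Real.posLog (C * size h ζ ^ d) ≤ Real.posLog C + Real.posLog (size h ζ ^ d) :=
        Real.posLog_mul
      have k3 : Real.posLog (size h ζ ^ d) = d * G ζ := by
        rw [Real.posLog_pow, Real.posLog_eq_log (x := size h ζ)
          (by rw [abs_of_nonneg (by linarith)]; exact hH1), hGe]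
      rw [k3] at k2
      exact k1.trans k2)
    refine h.trans (le_of_eq ?_)
    have hdG : CircleIntegrable (fun z => (d : ℝ) * G z) 0 (Real.exp (-x)) :=
      hIG.const_smul (a := (d : ℝ))
    unfold mean
    rw [Real.circleAverage_fun_add (circleIntegrable_const (Real.posLog C) 0 _) hdG,
      Real.circleAverage_const, circleAverage_const_mul]
  have hmG0 : 0 ≤ mean G x := Real.circleAverage_nonneg_of_nonneg fun z _ => hG0 z
  -- the counting functions
  obtain ⟨T, l, hT, hcnt⟩ := exists_T h2 hLoc hr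
  have hμz : ∀ s, (∀ i, (ordZ (h i) s : ℝ) = 0) → μ s = 0 := by
    intro s hs
    obtain ⟨j, hj⟩ := hμ' s
    rw [← hj]
    exact_mod_cast hs j
  have c1 : ∀ j, cnt (fun s => (ordZ (u j) s : ℝ)) R₁ (Real.exp (-x)) =
      ∑ s ∈ T, (ordZ (u j) s : ℝ) * l s :=
    fun j => hcnt _ fun s _ _ hs => hs (some (some (Sum.inr j)))
  have c2 : cnt (fun s => (ordZ P s : ℝ)) R₁ (Real.exp (-x)) =
      ∑ s ∈ T, (ordZ P s : ℝ) * l s := hcnt _ fun s _ _ hs => hs none
  have c3 : cnt n R₁ (Real.exp (-x)) = ∑ s ∈ T, n s * l s := hcnt _ fun s _ _ hs => hs (some none)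
  have c4 : ∀ j, cnt (fun s => max (-(ordZ (u j) s : ℝ)) 0) R₁ (Real.exp (-x)) =
      ∑ s ∈ T, max (-(ordZ (u j) s : ℝ)) 0 * l s := fun j => hcnt _ fun s _ _ hs => by
    have h3 : (ordZ (u j) s : ℝ) = 0 := hs (some (some (Sum.inr j)))
    rw [h3]
    simp
  set cμ : ℝ := ∑ s ∈ T, -(μ s : ℝ) * l s with hcμ
  have c5 : cnt (fun s => -(minOrd h s : ℝ)) R₁ (Real.exp (-x)) = cμ := by
    rw [hcμ, ← hμd]
    refine hcnt (fun s => -(μ s : ℝ)) fun s _ _ hs => ?_
    rw [hμz s fun i => hs (some (some (Sum.inl i)))]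
    simp
  have hchr : chr h R₁ x = mean G x + cμ := by
    unfold chr
    rw [c5]
    congr 2
    funext z
    exact (hG z).symm
  have hcμ0 : 0 ≤ cμ := by
    refine Finset.sum_nonneg fun s hs => mul_nonneg ?_ (hT s hs).2.2
    have := hμ0 s (hr.trans (hT s hs).1) ((hT s hs).2.1.trans h2)
    have h' : (μ s : ℝ) ≤ 0 := by exact_mod_cast this
    linarith
  have hnev : ∀ j, nevT (u j) R₁ x ≤ Real.posLog C + d * (mean G x + cμ) := by
    intro j
    unfold nevT
    rw [c4]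
    have k1 : ∑ s ∈ T, max (-(ordZ (u j) s : ℝ)) 0 * l s ≤ d * cμ := by
      rw [hcμ, Finset.mul_sum]
      refine Finset.sum_le_sum fun s hs => ?_
      rw [← mul_assoc]
      refine mul_le_mul_of_nonneg_right (max_le ?_ ?_) (hT s hs).2.2
      · have h' : (d : ℝ) * μ s ≤ ordZ (u j) s := by
          have := hul s (hr.trans (hT s hs).1) ((hT s hs).2.1.trans h2) j
          rw [← hμd] at this
          exact_mod_cast this
        linarith
      · have h' : (μ s : ℝ) ≤ 0 := by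
          exact_mod_cast hμ0 s (hr.trans (hT s hs).1) ((hT s hs).2.1.trans h2)
        have hd0 : (0 : ℝ) ≤ d := Nat.cast_nonneg _
        nlinarith
    have k2 := hposG j
    linarith
  have hloc' : (∑ j ∈ J, cnt (fun s => (ordZ (u j) s : ℝ)) R₁ (Real.exp (-x))) -
      cnt (fun s => (ordZ P s : ℝ)) R₁ (Real.exp (-x)) ≤ -(D * cμ) + cnt n R₁ (Real.exp (-x)) := by
    rw [c2, c3, hcμ]
    simp only [c1]
    rw [Finset.sum_comm, ← Finset.sum_sub_distrib, Finset.mul_sum, ← Finset.sum_neg_distrib,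
      ← Finset.sum_add_distrib]
    refine Finset.sum_le_sum fun s hs => ?_
    obtain ⟨hs1, hs2, hs3⟩ := hT s hs
    have hs4 : 0 < ‖s‖ := hr.trans hs1
    have hs5 : ‖s‖ < R₀ := hs2.trans h2
    have h3 := hloc s hs4 hs5
    rw [← hμd] at h3
    push_cast at h3
    rw [← Finset.sum_mul]
    have h4 := mul_le_mul_of_nonneg_right h3 hs3
    linarith
  -- the conclusion
  have hy : 1 ≤ 1 + |x| := by linarith [abs_nonneg x]
  obtain ⟨y, hyd⟩ : ∃ y, y = 1 + |x| := ⟨_, rfl⟩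
  rw [← hyd] at hy ⊢
  have hy0 : 0 ≤ y := by linarith
  obtain ⟨a, ha⟩ : ∃ a, a = ∑ j, (|A j| + |B j|) := ⟨_, rfl⟩
  have hlin : ∀ j, |A j + B j * x| ≤ (|A j| + |B j|) * y := fun j => by
    rw [hyd]
    exact linear_bound _ _ _
  have hlinP : |A' + B' * x| ≤ (|A'| + |B'|) * y := by
    rw [hyd]
    exact linear_bound _ _ _
  have hJP := hAB' x hx
  have hsub : ∑ j ∈ J, (|A j| + |B j|) * y ≤ a * y := by
    rw [← Finset.sum_mul, ha]
    refine mul_le_mul_of_nonneg_right ?_ hy0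
    exact Finset.sum_le_sum_of_subset_of_nonneg (Finset.subset_univ _)
      fun j _ _ => by positivity
  have hsum1 : |∑ j ∈ J, (A j + B j * x)| ≤ a * y :=
    (Finset.abs_sum_le_sum_abs _ _).trans ((Finset.sum_le_sum fun j _ => hlin j).trans hsub)
  obtain ⟨t, ht⟩ : ∃ t, t = mean G x + cμ := ⟨_, rfl⟩
  have ht0 : 0 ≤ t := by rw [ht]; linarith
  have hpC : 0 ≤ Real.posLog C := Real.posLog_nonneg
  have hq'' : (ρ : ℝ) * (∑ j, mean (fun z => Real.posLog ‖deriv (u j) z / u j z‖) x) ≤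
      ε * t + ρ * (∑ i, |Cq i|) * y + ρ * (Fintype.card ι' * (e' * Real.posLog C)) * y := by
    have h2 : ∀ j, mean (fun z => Real.posLog ‖deriv (u j) z / u j z‖) x ≤
        e' * (Real.posLog C + d * t) + |Cq j| * y := by
      intro j
      refine (hq' j x hx (hxE' j)).trans (add_le_add ?_ ?_)
      · refine mul_le_mul_of_nonneg_left ?_ he0.le
        rw [ht]
        exact hnev j
      · rw [← hyd]
        exact mul_le_mul_of_nonneg_right (le_abs_self _) hy0
    have h3 := mul_le_mul_of_nonneg_left (Finset.sum_le_sum fun j (_ : j ∈ Finset.univ) => h2 j)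
      (Nat.cast_nonneg (α := ℝ) ρ)
    refine h3.trans ?_
    rw [Finset.sum_add_distrib, Finset.sum_const, Finset.card_univ, nsmul_eq_mul,
      ← Finset.sum_mul]
    have k1 : (ρ : ℝ) * (Fintype.card ι' * (e' * (d * t))) ≤ ε * t := by
      have k2 : (ρ : ℝ) * (Fintype.card ι' * (e' * (d * t))) =
          (ρ * Fintype.card ι' * d) / ((ρ + 1) * (Fintype.card ι' + 1) * (d + 1)) * (ε * t) := by
        rw [he']
        field_simp
      rw [k2]
      refine mul_le_of_le_one_left (by positivity) ?_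
      rw [div_le_one (by positivity)]
      have hρ0 : (0 : ℝ) ≤ ρ := Nat.cast_nonneg _
      have hd0 : (0 : ℝ) ≤ d := Nat.cast_nonneg _
      gcongr <;> linarith
    have k3 : (ρ : ℝ) * (Fintype.card ι' * (e' * Real.posLog C)) ≤
        ρ * (Fintype.card ι' * (e' * Real.posLog C)) * y :=
      le_mul_of_one_le_right (by positivity) hy
    nlinarith
  have hJ : (∑ j ∈ J, mean (fun z => Real.log ‖u j z‖) x) =
      (∑ j ∈ J, (A j + B j * x)) +
        ∑ j ∈ J, cnt (fun s => (ordZ (u j) s : ℝ)) R₁ (Real.exp (-x)) := by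
    rw [← Finset.sum_add_distrib]
    exact Finset.sum_congr rfl fun j _ => hAB j x hx
  have hLy : L ≤ L * y := by nlinarith
  have e1 := (abs_le.1 hsum1).2
  have e2 := (abs_le.1 hlinP).1
  rw [hchr, ← ht]
  have e3 : (D : ℝ) * t = D * mean G x + D * cμ := by
    rw [ht]
    ring
  rw [hC₀, ← ha]
  linarith

end Pool.Agent.H5.DG4
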