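import Pool.Agent.H5.DG4.Chr

/-!
# Project DG4, module Chr2: sections along a curve near a puncture

`cnt_le_of_section`: `k * n s ≤ ordZ t s - a * minOrd h s` gives
`k * cnt n ≤ cnt (ordZ t) + a * cnt (-minOrd h)`; Jensen for `t`; `log ‖t‖ ≤ log⁺ C + a * G`.
`punctMero_of_chr`: `nevT (h i) ≤ chr h` and `punctMero_of_nevT`; the function `0` is trivial.
-/

open Filter Topology MeasureTheory
open Pool.Agent.H92.GGL (ordZ)
open Pool.Agent.H62.FC

noncomputable section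

namespace Pool.Agent.H5.DG4

variable {ι : Type} [Fintype ι] [Nonempty ι]

/-! ### Means and counting functions -/

private theorem circleIntegrable_sup {f g : ℂ → ℝ} {c : ℂ} {R : ℝ} (hf : CircleIntegrable f c R)
    (hg : CircleIntegrable g c R) : CircleIntegrable (f ⊔ g) c R := by
  have h : f ⊔ g = (1 / 2 : ℝ) • (f + g + |g - f|) := by
    funext z
    simp only [Pi.sup_apply, Pi.smul_apply, Pi.add_apply, Pi.abs_apply, Pi.sub_apply, smul_eq_mul]
    rw [max_def]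
    split_ifs with h1
    · rw [abs_of_nonneg (by linarith)]
      ring
    · rw [abs_of_nonpos (by linarith)]
      ring
  rw [h]
  exact ((hf.add hg).add (hg.sub hf).abs).const_smul

private theorem mean_mono {f g : ℂ → ℝ} {x : ℝ} (hf : CircleIntegrable f 0 (Real.exp (-x)))
    (hg : CircleIntegrable g 0 (Real.exp (-x)))
    (h : ∀ z ∈ Metric.sphere (0 : ℂ) |Real.exp (-x)|, ∀ᶠ ζ in 𝓝[≠] z, f ζ ≤ g ζ) :
    mean f x ≤ mean g x := by
  have h1 : g =ᶠ[codiscreteWithin (Metric.sphere (0 : ℂ) |Real.exp (-x)|)]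
      fun z => max (f z) (g z) := by
    rw [Filter.EventuallyEq, Filter.Eventually, mem_codiscreteWithin_iff_forall_mem_nhdsNE]
    intro z hz
    filter_upwards [h z hz] with ζ hζ
    left
    show g ζ = max (f ζ) (g ζ)
    rw [max_eq_right hζ]
  have h2 : mean g x = mean (fun z => max (f z) (g z)) x :=
    Real.circleAverage_congr_codiscreteWithin h1 (Real.exp_ne_zero _)
  rw [h2]
  exact Real.circleAverage_mono hf (CircleIntegrable.congr_codiscreteWithin h1 hg)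
    fun z _ => le_max_left _ _

private theorem linear_bound (A B x : ℝ) : |A + B * x| ≤ (|A| + |B|) * (1 + |x|) := by
  have h1 : |A + B * x| ≤ |A| + |B| * |x| := by
    rw [← abs_mul]
    exact abs_add_le A (B * x)
  nlinarith [abs_nonneg A, abs_nonneg B, abs_nonneg x, mul_nonneg (abs_nonneg A) (abs_nonneg x)]

private theorem mero_at {R₀ : ℝ} {h : ι → ℂ → ℂ} {i₀ : ι} (hh : Curve R₀ h i₀) (i : ι) {z : ℂ}
    (h1 : 0 < ‖z‖) (h2 : ‖z‖ < R₀) : MeromorphicAt (h i) z := by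
  rcases hh.dich i with h3 | h3
  · exact h3.mero z h1 h2
  · have h4 : (fun _ : ℂ => (0 : ℂ)) =ᶠ[𝓝[≠] z] h i := by
      filter_upwards [h3 z h1 h2] with ζ hζ
      exact hζ.symm
    exact (MeromorphicAt.const 0 z).congr h4

private theorem sphere_mem {R₀ x : ℝ} (hx : Real.exp (-x) < R₀) {z : ℂ}
    (hz : z ∈ Metric.sphere (0 : ℂ) |Real.exp (-x)|) : 0 < ‖z‖ ∧ ‖z‖ < R₀ := by
  rw [mem_sphere_zero_iff_norm, abs_of_pos (Real.exp_pos _)] at hz
  rw [hz]
  exact ⟨Real.exp_pos _, hx⟩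

private theorem int_posLog {R₀ : ℝ} {h : ι → ℂ → ℂ} {i₀ : ι} (hh : Curve R₀ h i₀) (i : ι) {x : ℝ}
    (hx : Real.exp (-x) < R₀) :
    CircleIntegrable (fun z => Real.posLog ‖h i z‖) 0 (Real.exp (-x)) := by
  apply MeromorphicOn.circleIntegrable_posLog_norm
  intro z hz
  obtain ⟨h1, h2⟩ := sphere_mem hx hz
  exact mero_at hh i h1 h2

private theorem int_sup {R₀ : ℝ} {h : ι → ℂ → ℂ} {i₀ : ι} (hh : Curve R₀ h i₀) {x : ℝ}
    (hx : Real.exp (-x) < R₀) :
    CircleIntegrable (fun z => Finset.univ.sup' Finset.univ_nonempty fun i => Real.posLog ‖h i z‖)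
      0 (Real.exp (-x)) := by
  have hsup := Finset.sup'_induction (Finset.univ_nonempty (α := ι))
    (fun j => fun z => Real.posLog ‖h j z‖)
    (p := fun f : ℂ → ℝ => CircleIntegrable f 0 (Real.exp (-x)))
    (fun f hf g hg => circleIntegrable_sup hf hg)
    (fun j _ => int_posLog hh j hx)
  have e : (fun z => Finset.univ.sup' Finset.univ_nonempty fun i => Real.posLog ‖h i z‖) =
      Finset.univ.sup' (Finset.univ_nonempty (α := ι))
      (fun j => fun z => Real.posLog ‖h j z‖) := by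
    funext z
    rw [Finset.sup'_apply]
  rw [e]
  exact hsup

private theorem locFin_ord {R₀ : ℝ} {h : ι → ℂ → ℂ} {i₀ : ι} (hh : Curve R₀ h i₀) (i : ι) :
    LocFin R₀ (fun s => (ordZ (h i) s : ℝ)) := by
  rcases hh.dich i with h3 | h3
  · exact MeroPunct.locFin h3
  · intro r b hr hb
    refine Set.finite_empty.subset ?_
    rintro s ⟨h1, h2, h4⟩
    refine h4 ?_
    have h5 : meromorphicOrderAt (h i) s = ⊤ :=
      meromorphicOrderAt_eq_top_iff.2 (h3 s (hr.trans_le h1) (h2.trans_lt hb))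
    show ((ordZ (h i) s : ℤ) : ℝ) = 0
    unfold ordZ
    rw [h5]
    simp

private theorem exists_ord_eq (h : ι → ℂ → ℂ) (s : ℂ) : ∃ i, minOrd h s = ordZ (h i) s := by
  obtain ⟨j, -, hj⟩ := Finset.exists_mem_eq_inf' (Finset.univ_nonempty (α := ι))
    (fun j => ordZ (h j) s)
  exact ⟨j, hj⟩

private theorem minOrd_le_ord (h : ι → ℂ → ℂ) (s : ℂ) (i : ι) : minOrd h s ≤ ordZ (h i) s :=
  Finset.inf'_le _ (Finset.mem_univ i)

private theorem locFin_minOrd {R₀ : ℝ} {h : ι → ℂ → ℂ} {i₀ : ι} (hh : Curve R₀ h i₀) :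
    LocFin R₀ (fun s => -(minOrd h s : ℝ)) := by
  intro r b hr hb
  refine (Set.finite_iUnion fun i => locFin_ord hh i r b hr hb).subset ?_
  rintro s ⟨h1, h2, h3⟩
  obtain ⟨i, hi⟩ := exists_ord_eq h s
  refine Set.mem_iUnion.2 ⟨i, h1, h2, fun h4 => h3 ?_⟩
  show -((minOrd h s : ℤ) : ℝ) = 0
  rw [hi]
  have h5 : ((ordZ (h i) s : ℤ) : ℝ) = 0 := h4
  rw [h5, neg_zero]

private theorem sup_nonneg (h : ι → ℂ → ℂ) (z : ℂ) :
    0 ≤ Finset.univ.sup' Finset.univ_nonempty fun i => Real.posLog ‖h i z‖ :=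
  Real.posLog_nonneg.trans
    (Finset.le_sup' (fun i => Real.posLog ‖h i z‖) (Finset.mem_univ (Classical.arbitrary ι)))

private theorem cnt_nonneg' {w : ℂ → ℝ} {R₁ r : ℝ} (hr : 0 < r)
    (hw : ∀ s, r < ‖s‖ → ‖s‖ < R₁ → 0 ≤ w s) : 0 ≤ cnt w R₁ r := by
  unfold cnt
  refine finsum_nonneg fun s => finsum_nonneg fun hs => ?_
  refine mul_nonneg (hw s hs.1 hs.2) (Real.log_nonneg ?_)
  rw [one_le_div hr]
  exact hs.1.le

/-- the pointwise estimate of `log ‖t‖` -/
private theorem log_le_of_size (h : ι → ℂ → ℂ) (ζ : ℂ) {y C : ℝ} (a : ℕ) (hy : 0 ≤ y)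
    (hb : y ≤ C * size h ζ ^ a) :
    Real.log y ≤ Real.posLog C +
      a * Finset.univ.sup' Finset.univ_nonempty fun i => Real.posLog ‖h i ζ‖ := by
  have hG := sup_nonneg h ζ
  have haG : 0 ≤ (a : ℝ) * Finset.univ.sup' Finset.univ_nonempty
      fun i => Real.posLog ‖h i ζ‖ := mul_nonneg (Nat.cast_nonneg _) hG
  rcases hy.eq_or_lt with h0 | h0
  · rw [← h0, Real.log_zero]
    exact add_nonneg Real.posLog_nonneg haG
  · obtain ⟨j, -, hj⟩ := Finset.exists_mem_eq_sup' (Finset.univ_nonempty (α := ι))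
      (fun i => ‖h i ζ‖)
    have hj' : size h ζ = ‖h j ζ‖ := hj
    have hs0 : 0 ≤ size h ζ := by
      rw [hj']
      exact norm_nonneg _
    have hpos : 0 < C * size h ζ ^ a := h0.trans_le hb
    have hp0 : 0 ≤ size h ζ ^ a := pow_nonneg hs0 a
    have hp : 0 < size h ζ ^ a := by
      rcases hp0.eq_or_lt with h1 | h1
      · rw [← h1, mul_zero] at hpos
        exact absurd hpos (lt_irrefl _)
      · exact h1
    have hC : 0 < C := pos_of_mul_pos_left hpos hp0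
    have h2 := Real.log_le_log h0 hb
    rw [Real.log_mul hC.ne' hp.ne', Real.log_pow] at h2
    have h3 : Real.log C ≤ Real.posLog C := le_max_right _ _
    have h4 : Real.log (size h ζ) ≤
        Finset.univ.sup' Finset.univ_nonempty fun i => Real.posLog ‖h i ζ‖ := by
      rw [hj']
      exact (le_max_right _ _).trans
        (Finset.le_sup' (fun i => Real.posLog ‖h i ζ‖) (Finset.mem_univ j))
    have h5 := mul_le_mul_of_nonneg_left h4 (Nat.cast_nonneg (α := ℝ) a)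
    linarith

theorem cnt_le_of_section {R₀ R₁ : ℝ} (h1 : 0 < R₁) (h2 : R₁ < R₀) {h : ι → ℂ → ℂ} {i₀ : ι}
    (hh : Curve R₀ h i₀) {t : ℂ → ℂ} (ht : MeroPunct R₀ t) {n : ℂ → ℝ} (hn : LocFin R₀ n)
    {k a : ℕ} {C : ℝ}
    (hb : ∀ z, 0 < ‖z‖ → ‖z‖ < R₀ → ∀ᶠ ζ in 𝓝[≠] z, ‖t ζ‖ ≤ C * size h ζ ^ a)
    (hord : ∀ s, 0 < ‖s‖ → ‖s‖ < R₀ → k * n s ≤ (ordZ t s : ℝ) - a * minOrd h s) :
    ∃ C' : ℝ, ∀ x, Real.exp (-x) < R₁ →
      k * cnt n R₁ (Real.exp (-x)) ≤ a * chr h R₁ x + C' * (1 + |x|) := by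
  obtain ⟨A, B, hAB⟩ := MeroPunct.jensen ht h1 h2
  refine ⟨|A| + |B| + Real.posLog C, fun x hx => ?_⟩
  have hr : 0 < Real.exp (-x) := Real.exp_pos _
  have hxR : Real.exp (-x) < R₀ := hx.trans h2
  have hJ := hAB x hx
  -- the counting functions
  have hlt := MeroPunct.locFin ht
  have hlm := locFin_minOrd hh
  have hlam : LocFin R₀ (fun s => (a : ℝ) * -(minOrd h s : ℝ)) := by
    intro r b hr hb
    refine (hlm r b hr hb).subset ?_
    rintro s ⟨h3, h4, h5⟩
    refine ⟨h3, h4, fun h6 => h5 ?_⟩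
    show (a : ℝ) * -(minOrd h s : ℝ) = 0
    have h7 : -(minOrd h s : ℝ) = 0 := h6
    rw [h7, mul_zero]
  have hlkn : LocFin R₀ (fun s => (k : ℝ) * n s) := by
    intro r b hr hb
    refine (hn r b hr hb).subset ?_
    rintro s ⟨h3, h4, h5⟩
    refine ⟨h3, h4, fun h6 => h5 ?_⟩
    show (k : ℝ) * n s = 0
    rw [h6, mul_zero]
  have hlsum : LocFin R₀ (fun s => (ordZ t s : ℝ) + (a : ℝ) * -(minOrd h s : ℝ)) := by
    intro r b hr hb
    refine ((hlt r b hr hb).union (hlam r b hr hb)).subset ?_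
    rintro s ⟨h3, h4, h5⟩
    by_cases h6 : (ordZ t s : ℝ) = 0
    · right
      refine ⟨h3, h4, fun h7 => h5 ?_⟩
      show (ordZ t s : ℝ) + (a : ℝ) * -(minOrd h s : ℝ) = 0
      have h8 : (a : ℝ) * -(minOrd h s : ℝ) = 0 := h7
      rw [h6, h8, add_zero]
    · left
      exact ⟨h3, h4, h6⟩
  have hc1 : (k : ℝ) * cnt n R₁ (Real.exp (-x)) ≤
      cnt (fun s => (ordZ t s : ℝ)) R₁ (Real.exp (-x)) +
        a * cnt (fun s => -(minOrd h s : ℝ)) R₁ (Real.exp (-x)) := by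
    rw [← cnt_mul (a : ℝ) h2 hlm hr, ← cnt_add h2 hlt hlam hr, ← cnt_mul (k : ℝ) h2 hn hr]
    refine cnt_mono h2 hlkn hlsum hr fun s h3 h4 => ?_
    have h5 := hord s (hr.trans h3) (h4.trans h2)
    linarith
  -- the means
  have hIG := int_sup hh hxR
  have hIaG : CircleIntegrable (fun z => (a : ℝ) *
      Finset.univ.sup' Finset.univ_nonempty fun i => Real.posLog ‖h i z‖) 0 (Real.exp (-x)) :=
    hIG.const_smul (a := (a : ℝ))
  have hm1 : mean (fun z => Real.log ‖t z‖) x ≤ mean (fun z => Real.posLog C + (a : ℝ) *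
      Finset.univ.sup' Finset.univ_nonempty fun i => Real.posLog ‖h i z‖) x := by
    refine mean_mono (MeroPunct.circleIntegrable_log ht hxR)
      ((circleIntegrable_const (Real.posLog C) 0 _).add hIaG) fun z hz => ?_
    obtain ⟨hz1, hz2⟩ := sphere_mem hxR hz
    filter_upwards [hb z hz1 hz2] with ζ hζ
    exact log_le_of_size h ζ a (norm_nonneg _) hζ
  have hm2 : mean (fun z => Real.posLog C + (a : ℝ) *
      Finset.univ.sup' Finset.univ_nonempty fun i => Real.posLog ‖h i z‖) x =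
      Real.posLog C + a * mean (fun z =>
        Finset.univ.sup' Finset.univ_nonempty fun i => Real.posLog ‖h i z‖) x := by
    unfold mean
    rw [Real.circleAverage_fun_add (circleIntegrable_const (Real.posLog C) 0 _) hIaG,
      Real.circleAverage_const]
    congr 1
    exact Real.circleAverage_fun_smul (a := (a : ℝ))
  have h6 := linear_bound A B x
  have h7 := (abs_le.1 h6).1
  have h8 : 0 ≤ Real.posLog C := Real.posLog_nonneg
  have h9 := abs_nonneg x
  have h10 : Real.posLog C ≤ Real.posLog C * (1 + |x|) := by nlinarith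
  unfold chr
  rw [hm2] at hm1
  have e1 : (|A| + |B| + Real.posLog C) * (1 + |x|) =
      (|A| + |B|) * (1 + |x|) + Real.posLog C * (1 + |x|) := by ring
  rw [e1, mul_add]
  linarith

theorem chr_nonneg {R₀ R₁ : ℝ} (h2 : R₁ < R₀) {h : ι → ℂ → ℂ} {i₀ : ι}
    (hh : Curve R₀ h i₀) {x : ℝ} (hx : Real.exp (-x) < R₁) : 0 ≤ chr h R₁ x := by
  unfold chr mean
  refine add_nonneg (Real.circleAverage_nonneg_of_nonneg fun z _ => sup_nonneg h z)
    (cnt_nonneg' (Real.exp_pos _) fun s h3 h4 => ?_)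
  have h5 : minOrd h s ≤ 0 := hh.minOrd_le ((Real.exp_pos _).trans h3) (h4.trans h2)
  have h6 : (minOrd h s : ℝ) ≤ 0 := by exact_mod_cast h5
  linarith

private theorem nevT_le_chr {R₀ R₁ : ℝ} (h2 : R₁ < R₀) {h : ι → ℂ → ℂ} {i₀ : ι}
    (hh : Curve R₀ h i₀) {i : ι} (hi : MeroPunct R₀ (h i)) {x : ℝ} (hx : Real.exp (-x) < R₁) :
    nevT (h i) R₁ x ≤ chr h R₁ x := by
  have hr : 0 < Real.exp (-x) := Real.exp_pos _
  have hxR : Real.exp (-x) < R₀ := hx.trans h2
  unfold nevT chr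
  refine add_le_add ?_ ?_
  · refine Real.circleAverage_mono (MeroPunct.circleIntegrable_posLog hi hxR) (int_sup hh hxR)
      fun z _ => ?_
    exact Finset.le_sup' (fun j => Real.posLog ‖h j z‖) (Finset.mem_univ i)
  · have hl : LocFin R₀ (fun s => max (-(ordZ (h i) s : ℝ)) 0) := by
      intro r b hr hb
      refine (MeroPunct.locFin hi r b hr hb).subset ?_
      rintro s ⟨h3, h4, h5⟩
      refine ⟨h3, h4, fun h6 => h5 ?_⟩
      show max (-(ordZ (h i) s : ℝ)) 0 = 0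
      have h7 : (ordZ (h i) s : ℝ) = 0 := h6
      rw [h7]
      simp
    refine cnt_mono h2 hl (locFin_minOrd hh) hr fun s h3 h4 => max_le ?_ ?_
    · have h5 : (minOrd h s : ℝ) ≤ ordZ (h i) s := by exact_mod_cast minOrd_le_ord h s i
      linarith
    · have h5 : minOrd h s ≤ 0 := hh.minOrd_le (hr.trans h3) (h4.trans h2)
      have h6 : (minOrd h s : ℝ) ≤ 0 := by exact_mod_cast h5
      linarith

theorem punctMero_of_chr {R₀ R₁ : ℝ} (h1 : 0 < R₁) (h2 : R₁ < R₀) {h : ι → ℂ → ℂ} {i₀ : ι}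
    (hh : Curve R₀ h i₀) {δ C : ℝ} (hδ : 0 < δ) {E : Set ℝ} (hE : volume E ≠ ⊤)
    (hx : ∀ x, Real.exp (-x) < R₁ → x ∉ E → δ * chr h R₁ x ≤ C * (1 + |x|)) (i : ι) :
    PunctMero (h i) := by
  rcases hh.dich i with hi | hi
  · refine punctMero_of_nevT h1 h2 hi (C := C / δ) hE fun x hx1 hx2 => ?_
    have h3 := nevT_le_chr h2 hh hi hx1
    have h4 := hx x hx1 hx2
    have h5 : chr h R₁ x ≤ C / δ * (1 + |x|) := by
      rw [div_mul_eq_mul_div, le_div_iff₀ hδ]
      linarith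
    exact h3.trans h5
  · refine ⟨fun _ => 0, MeromorphicAt.const 0 0, ?_⟩
    have h3 : ∀ᶠ z in 𝓝[≠] (0 : ℂ), 0 < ‖z‖ ∧ ‖z‖ < R₀ := by
      have h4 : ∀ᶠ z in 𝓝[≠] (0 : ℂ), z ≠ 0 := self_mem_nhdsWithin
      have h5 : ∀ᶠ z in 𝓝[≠] (0 : ℂ), ‖z‖ < R₀ := by
        refine nhdsWithin_le_nhds ?_
        have h6 := Metric.ball_mem_nhds (0 : ℂ) (h1.trans h2)
        filter_upwards [h6] with z hz
        rwa [mem_ball_zero_iff] at hz
      filter_upwards [h4, h5] with z hz1 hz2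
      exact ⟨norm_pos_iff.2 hz1, hz2⟩
    filter_upwards [h3] with z hz
    exact hi z hz.1 hz.2

end Pool.Agent.H5.DG4
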