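import Pool.Agent.H5.DG4.Defs
import Pool.Agent.H5.DG2.Defs
import Pool.Agent.H5.DG.CoverDefs

/-!
# Project DG4, module Clu: clusters of hypersurfaces

A cluster consists of hypersurfaces `G (ι j) = 0` of the same degree `e` which are, on the variety
given by `P`, the hyperplane sections `∑ a, p j a * B a = 0` of the finite map given by the forms
`B a`, such that the points `p j` lie on the curve given by the norm form `N` of degree `κ`, and such
that their number is large with respect to `κ`. A partition of `S` consists of disjoint clusters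
which contain almost all `j ∈ S`.
-/

open MvPolynomial
open Pool.Agent.H5.DG

noncomputable section

namespace Pool.Agent.H5.DG4

variable {M m : ℕ}

/-- A cluster of hypersurfaces. -/
structure Cluster (A : ℕ) (P : Ideal (MvPolynomial (Fin (M + 1)) ℂ))
    (G : Fin m → MvPolynomial (Fin (M + 1)) ℂ) where
  n : ℕ
  κ : ℕ
  len : ℕ
  e : ℕ
  N : Polynomial (PV n)
  φ : PVW n
  p : Fin len → Fin (n + 2) → ℂ
  ι : Fin len → Fin m
  c : Fin len → ℂ
  B : Fin (n + 2) → MvPolynomial (Fin (M + 1)) ℂ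
  inj : Function.Injective ι
  data : DGData κ N φ
  hom : ∃ k, (Del κ N).IsHomogeneous k
  mem : ∀ j, p j ∈ Gam N ℂ
  pinj : Function.Injective p
  card : 2 * A * (n + 6) * κ < len
  base : BaseFree P e B
  cne : ∀ j, c j ≠ 0
  eq : ∀ j, C (c j) * G (ι j) - comb (p j) B ∈ P
  homG : ∀ j, (G (ι j)).IsHomogeneous e
  del : aeval B (Del κ N) ∉ P

/-- The exceptional form of a cluster. -/
def Cluster.form {A : ℕ} {P : Ideal (MvPolynomial (Fin (M + 1)) ℂ)}
    {G : Fin m → MvPolynomial (Fin (M + 1)) ℂ} (γ : Cluster A P G) :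
    MvPolynomial (Fin (M + 1)) ℂ := aeval γ.B (Del γ.κ γ.N)

/-- Disjoint clusters in `S` which contain almost all `j ∈ S`. -/
structure Partition (A : ℕ) (P : Ideal (MvPolynomial (Fin (M + 1)) ℂ))
    (G : Fin m → MvPolynomial (Fin (M + 1)) ℂ) (S : Finset (Fin m)) where
  ν : ℕ
  γ : Fin ν → Cluster A P G
  mem : ∀ a j, (γ a).ι j ∈ S
  disj : ∀ a b i j, (γ a).ι i = (γ b).ι j → a = b
  num : (A - 1) * ∑ j ∈ S, (G j).totalDegree <
    A * ∑ a, (γ a).e * ((γ a).len - ((γ a).n + 6) * (γ a).κ)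

/-- The exceptional form of a partition. -/
def Partition.form {A : ℕ} {P : Ideal (MvPolynomial (Fin (M + 1)) ℂ)}
    {G : Fin m → MvPolynomial (Fin (M + 1)) ℂ} {S : Finset (Fin m)} (Γ : Partition A P G S) :
    MvPolynomial (Fin (M + 1)) ℂ := ∏ a, (Γ.γ a).form

theorem Cluster.form_homogeneous {A : ℕ} {P : Ideal (MvPolynomial (Fin (M + 1)) ℂ)}
    {G : Fin m → MvPolynomial (Fin (M + 1)) ℂ} (γ : Cluster A P G) :
    ∃ d, γ.form.IsHomogeneous d := by
  obtain ⟨k, hk⟩ := γ.hom
  exact ⟨_, hk.aeval _ γ.base.hom⟩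

theorem Partition.form_homogeneous {A : ℕ} {P : Ideal (MvPolynomial (Fin (M + 1)) ℂ)}
    {G : Fin m → MvPolynomial (Fin (M + 1)) ℂ} {S : Finset (Fin m)} (Γ : Partition A P G S) :
    ∃ d, Γ.form.IsHomogeneous d := by
  choose d hd using fun a => (Γ.γ a).form_homogeneous
  exact ⟨_, IsHomogeneous.prod _ _ d fun a _ => hd a⟩

theorem Partition.form_notMem {A : ℕ} {P : Ideal (MvPolynomial (Fin (M + 1)) ℂ)} [P.IsPrime]
    {G : Fin m → MvPolynomial (Fin (M + 1)) ℂ} {S : Finset (Fin m)} (Γ : Partition A P G S) :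
    Γ.form ∉ P := by
  intro h
  have hP : P.IsPrime := inferInstance
  obtain ⟨a, -, ha⟩ := (hP.prod_mem_iff).1 h
  exact (Γ.γ a).del ha

end Pool.Agent.H5.DG4
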