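import Pool.Agent.H5.DG4.Chr
import Pool.Agent.H5.DG.D2

/-!
# Project DG4, module CluEst: the estimates for one cluster, analytic case

As in `Pool.Agent.H5.DG.core_analytic2` (module `Pool.Agent.H5.DG2.Core2`) and `analytic_core` (module
`Pool.Agent.H5.DG.D2`).  `T` from `exists_constants`.  `lam` consists of `Pi.single a 1` (if `g a` is
not identically zero) or `Pi.single a 1 + Pi.single a₁ 1` (otherwise, `g a₁` not identically zero; the
value is `g a₁`), and of all the `p j`.  `P = Palong φ T.card g * g a₁ ^ T.card`: then the exponent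
`K = 2 * κ - T.card` of `pt_est` and `loc_est` becomes `2 * κ`
(`‖g a₁‖ ≤ size g`, `μ ≤ ordZ (g a₁)`).  `size g` and the maximum of the `‖dot (lam i) g‖` are bounded by
multiples of each other.  The `p j` are not in `T` since `lin (p j) g` is not identically zero.
-/

open MvPolynomial Filter Topology
open Pool.Agent.H62.FC (MeroPunct PunctMero)
open Pool.Agent.H92.GGL (ordZ)
open Pool.Agent.H5.DG

noncomputable section

namespace Pool.Agent.H5.DG4

private theorem order_pow' {u : ℂ → ℂ} {s : ℂ} (hu : MeromorphicAt u s) (hne : meromorphicOrderAt u s ≠ ⊤)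
    (e : ℕ) : meromorphicOrderAt (fun z => u z ^ e) s = (((e : ℤ) * ordZ u s : ℤ) : WithTop ℤ) := by
  induction e with
  | zero =>
    have h1 : (fun z => u z ^ 0) = fun _ => (1 : ℂ) := by
      funext z
      exact pow_zero _
    rw [h1, meromorphicOrderAt_const, if_neg one_ne_zero]
    simp
  | succ e ih =>
    have h1 : (fun z => u z ^ (e + 1)) = (fun z => u z ^ e) * u := by
      funext z
      exact pow_succ _ _
    have h2 : MeromorphicAt (fun z => u z ^ e) s := hu.fun_pow e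
    rw [h1, meromorphicOrderAt_mul h2 hu, ih, ← Pool.Agent.H92.GGL.ordZ_cast hne]
    push_cast
    norm_cast
    push_cast
    ring

private theorem punct_pow {R₀ : ℝ} {u : ℂ → ℂ} (hu : MeroPunct R₀ u) (e : ℕ) :
    MeroPunct R₀ (fun z => u z ^ e) := by
  refine ⟨fun z h1 h2 => (hu.mero z h1 h2).fun_pow e, fun z h1 h2 => ?_⟩
  rw [order_pow' (hu.mero z h1 h2) (hu.ord z h1 h2)]
  exact WithTop.coe_ne_top

private theorem dot_single3 {n : ℕ} (a : Fin (n + 2)) (v : Fin (n + 2) → ℂ) :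
    dot (Pi.single a 1) v = v a := by
  unfold dot
  rw [Finset.sum_eq_single a]
  · rw [Pi.single_eq_same, one_mul]
  · intro b _ hb
    rw [Pi.single_eq_of_ne hb, zero_mul]
  · intro h
    exact absurd (Finset.mem_univ a) h

private theorem dot_add3 {n : ℕ} (x y v : Fin (n + 2) → ℂ) :
    dot (x + y) v = dot x v + dot y v := by
  unfold dot
  rw [← Finset.sum_add_distrib]
  exact Finset.sum_congr rfl fun a _ => by rw [Pi.add_apply, add_mul]

private theorem lin_deriv3 {n : ℕ} {g : Fin (n + 2) → ℂ → ℂ} {z : ℂ}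
    (hg : ∀ a, AnalyticAt ℂ (g a) z) (τ : Fin (n + 2) → ℂ) :
    deriv (lin τ g) z = dot τ fun a => deriv (g a) z := by
  have h : lin τ g = fun ζ => ∑ a, τ a * g a ζ := rfl
  rw [h, deriv_fun_sum (fun a _ => ((hg a).differentiableAt.const_mul _))]
  refine Finset.sum_congr rfl fun a _ => ?_
  rw [deriv_const_mul _ (hg a).differentiableAt]

private theorem lin_mero3 {n : ℕ} {g : Fin (n + 2) → ℂ → ℂ} {z : ℂ}
    (hg : ∀ a, MeromorphicAt (g a) z) (τ : Fin (n + 2) → ℂ) : MeromorphicAt (lin τ g) z := by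
  have h : lin τ g = ∑ a, fun ζ => τ a * g a ζ := by
    funext ζ
    rw [Finset.sum_apply]
    rfl
  rw [h]
  exact MeromorphicAt.sum fun a _ => (MeromorphicAt.const _ _).mul (hg a)

/-- The algebra of the pointwise inequality. -/
private theorem algebra_est {H B s P L C₀ Q F : ℝ} {m k t : ℕ} (hm : 2 * k ≤ m) (ht : t ≤ k)
    (hH : 0 < H) (hB : 0 ≤ B) (hs0 : 0 ≤ s) (hs : s ≤ B * H) (hL : 0 ≤ L) (hP : P ≤ L * H ^ t)
    (hQ : 0 ≤ Q) (hF : 0 ≤ F)
    (h : L * H ^ m ≤ C₀ * H ^ (2 * k - t) * Q * F) :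
    P * s ^ (m - 2 * k) ≤ B ^ (m - 2 * k) * |C₀| * Q * F := by
  have h1 : H ^ m = H ^ (m - 2 * k) * H ^ t * H ^ (2 * k - t) := by
    rw [← pow_add, ← pow_add]
    congr 1
    omega
  have h2 : 0 < H ^ (2 * k - t) := pow_pos hH _
  have h3 : L * (H ^ (m - 2 * k) * H ^ t) ≤ C₀ * Q * F := by
    refine le_of_mul_le_mul_right ?_ h2
    calc L * (H ^ (m - 2 * k) * H ^ t) * H ^ (2 * k - t) = L * H ^ m := by rw [h1]; ring
      _ ≤ _ := h
      _ = _ := by ring
  have h4 : s ^ (m - 2 * k) ≤ B ^ (m - 2 * k) * H ^ (m - 2 * k) := by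
    rw [← mul_pow]
    exact pow_le_pow_left₀ hs0 hs _
  calc P * s ^ (m - 2 * k) ≤ (L * H ^ t) * s ^ (m - 2 * k) :=
        mul_le_mul_of_nonneg_right hP (pow_nonneg hs0 _)
    _ ≤ (L * H ^ t) * (B ^ (m - 2 * k) * H ^ (m - 2 * k)) :=
        mul_le_mul_of_nonneg_left h4 (mul_nonneg hL (pow_nonneg hH.le _))
    _ = B ^ (m - 2 * k) * (L * (H ^ (m - 2 * k) * H ^ t)) := by ring
    _ ≤ B ^ (m - 2 * k) * (C₀ * Q * F) := mul_le_mul_of_nonneg_left h3 (pow_nonneg hB _)
    _ ≤ B ^ (m - 2 * k) * (|C₀| * Q * F) := by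
        refine mul_le_mul_of_nonneg_left ?_ (pow_nonneg hB _)
        exact mul_le_mul_of_nonneg_right (mul_le_mul_of_nonneg_right (le_abs_self _) hQ) hF
    _ = _ := by ring

private theorem le_order_mul3 {u : ℂ → ℂ} {s : ℂ} (hu : MeromorphicAt u s) (x : ℂ)
    {k : WithTop ℤ} (h : k ≤ meromorphicOrderAt u s) :
    k ≤ meromorphicOrderAt (fun ζ => x * u ζ) s := by
  have h1 : (fun ζ => x * u ζ) = (fun _ => x) * u := rfl
  rw [h1, meromorphicOrderAt_mul (MeromorphicAt.const _ _) hu]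
  have h2 : 0 ≤ meromorphicOrderAt (fun _ : ℂ => x) s := by
    rw [meromorphicOrderAt_const]
    split_ifs
    · exact le_top
    · exact le_rfl
  calc k = 0 + k := (zero_add k).symm
    _ ≤ _ := add_le_add h2 h

private theorem le_order_sum3 {ι : Type*} (S : Finset ι) {u : ι → ℂ → ℂ} {s : ℂ}
    (hu : ∀ i, MeromorphicAt (u i) s) {k : WithTop ℤ}
    (h : ∀ i, k ≤ meromorphicOrderAt (u i) s) :
    k ≤ meromorphicOrderAt (∑ i ∈ S, u i) s := by
  classical
  induction S using Finset.induction_on with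
  | empty =>
    rw [Finset.sum_empty]
    have : meromorphicOrderAt (0 : ℂ → ℂ) s = ⊤ := by
      rw [meromorphicOrderAt_eq_top_iff]
      exact Filter.Eventually.of_forall fun _ => rfl
    rw [this]
    exact le_top
  | insert a S ha ih =>
    rw [Finset.sum_insert ha]
    have h1 := meromorphicOrderAt_add (hu a) (MeromorphicAt.sum (s := S) fun i _ => hu i)
    exact (le_min (h a) ih).trans h1

theorem cluster_est {n κ m : ℕ} {N : Polynomial (PV n)} {φ : PVW n} (hd : DGData κ N φ)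
    (hom : ∃ k, (Del κ N).IsHomogeneous k) {p : Fin m → Fin (n + 2) → ℂ}
    (hmem : ∀ j, p j ∈ Gam N ℂ) (hinj : Function.Injective p) (hm : 2 * κ ≤ m) {R₀ : ℝ}
    (hR₀ : 0 < R₀) {g : Fin (n + 2) → ℂ → ℂ}
    (hg : ∀ a, MeroPunct R₀ (g a) ∨
      ∀ z, 0 < ‖z‖ → ‖z‖ < R₀ → ∀ᶠ ζ in 𝓝[≠] z, g a ζ = 0)
    (hgm : ∀ a z, 0 < ‖z‖ → ‖z‖ < R₀ → MeromorphicAt (g a) z)
    (hΔ : ∀ z, 0 < ‖z‖ → ‖z‖ < R₀ →
      ∀ᶠ ζ in 𝓝[≠] z, MvPolynomial.eval (fun a => g a ζ) (Del κ N) ≠ 0)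
    (hp : ∀ j, MeroPunct R₀ (lin (p j) g)) :
    ∃ (l : ℕ) (lam : Fin l → Fin (n + 2) → ℂ) (P : ℂ → ℂ) (ρ : ℕ) (C : ℝ),
      (∀ i, MeroPunct R₀ (lin (lam i) g)) ∧ MeroPunct R₀ P ∧ 0 ≤ C ∧
      (∀ z, 0 < ‖z‖ → ‖z‖ < R₀ → ∀ᶠ ζ in 𝓝[≠] z, ‖P ζ‖ * size g ζ ^ (m - 2 * κ) ≤
        C * (∏ j, ‖lin (p j) g ζ‖) *
          (1 + ∑ i, ‖deriv (lin (lam i) g) ζ / lin (lam i) g ζ‖) ^ ρ) ∧
      ∀ s, 0 < ‖s‖ → ‖s‖ < R₀ → ∀ μ : ℤ,
        (∀ a, ((μ : ℤ) : WithTop ℤ) ≤ meromorphicOrderAt (g a) s) →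
        (∃ a, meromorphicOrderAt (g a) s = ((μ : ℤ) : WithTop ℤ)) →
        ∑ j, ordZ (lin (p j) g) s ≤ ordZ P s + ((m - 2 * κ : ℕ) : ℤ) * μ +
          ((Finset.univ.filter fun j => μ < ordZ (lin (p j) g) s).card : ℤ) := by
  classical
  have hz₁ : 0 < ‖((R₀ / 2 : ℝ) : ℂ)‖ ∧ ‖((R₀ / 2 : ℝ) : ℂ)‖ < R₀ := by
    rw [Complex.norm_real, Real.norm_of_nonneg (by linarith)]
    constructor <;> linarith
  have hκ := hd.pos
  obtain ⟨T, hTκ, hT, hP⟩ := exists_constants hd hR₀ hgm hΔ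
  have hTG : ∀ τ ∈ T, τ ∈ Gam N ℂ := fun τ hτ => ((hT τ).1 hτ).1
  have hTg : ∀ τ ∈ T, ∀ z, 0 < ‖z‖ → ‖z‖ < R₀ → ∀ᶠ ζ in 𝓝[≠] z, lin τ g ζ = 0 := fun τ hτ =>
    ((hT τ).1 hτ).2
  -- the points are not constants
  have hpT : ∀ j, p j ∉ T := by
    intro j hcon
    have h1 := hTg _ hcon _ hz₁.1 hz₁.2
    have h2 := (meromorphicOrderAt_ne_top_iff_eventually_ne_zero ((hp j).mero _ hz₁.1 hz₁.2)).1
      ((hp j).ord _ hz₁.1 hz₁.2)
    obtain ⟨ζ, h3, h4⟩ := (h1.and h2).exists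
    exact h4 h3
  -- a coordinate which is not identically zero
  obtain ⟨a₁, ha₁⟩ : ∃ a, MeroPunct R₀ (g a) := by
    by_contra hcon
    push Not at hcon
    have h0 : ∀ᶠ ζ in 𝓝[≠] ((R₀ / 2 : ℝ) : ℂ), ∀ a, g a ζ = 0 :=
      Filter.eventually_all.2 fun a => (hg a).resolve_left (hcon a) _ hz₁.1 hz₁.2
    have h2 := (meromorphicOrderAt_ne_top_iff_eventually_ne_zero
      ((hp ⟨0, by omega⟩).mero _ hz₁.1 hz₁.2)).1 ((hp ⟨0, by omega⟩).ord _ hz₁.1 hz₁.2)
    obtain ⟨ζ, h3, h4⟩ := (h0.and h2).exists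
    apply h4
    change ∑ a, _ * g a ζ = 0
    exact Finset.sum_eq_zero fun a _ => by rw [h3 a, mul_zero]
  have hnA : ∀ a, ¬ MeroPunct R₀ (g a) →
      ∀ z, 0 < ‖z‖ → ‖z‖ < R₀ → ∀ᶠ ζ in 𝓝[≠] z, g a ζ = 0 := fun a ha => (hg a).resolve_left ha
  -- the linear forms
  set lam : Fin (n + 2) ⊕ Fin m → Fin (n + 2) → ℂ := fun i =>
    Sum.elim (fun a => if MeroPunct R₀ (g a) then Pi.single a 1
      else Pi.single a 1 + Pi.single a₁ 1) (fun j => p j) i with hlam
  have hlamA : ∀ a, MeroPunct R₀ (g a) → lam (Sum.inl a) = Pi.single a 1 := fun a ha => if_pos ha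
  have hlamN : ∀ a, ¬ MeroPunct R₀ (g a) →
      lam (Sum.inl a) = Pi.single a 1 + Pi.single a₁ 1 := fun a ha => if_neg ha
  have hlinA : ∀ a, MeroPunct R₀ (g a) → lin (lam (Sum.inl a)) g = g a := by
    intro a ha
    rw [hlamA a ha]
    funext z
    exact dot_single3 a _
  have hlinN : ∀ a, ¬ MeroPunct R₀ (g a) → ∀ z, 0 < ‖z‖ → ‖z‖ < R₀ →
      ∀ᶠ ζ in 𝓝[≠] z, lin (lam (Sum.inl a)) g ζ = g a₁ ζ := by
    intro a ha z h1 h2
    filter_upwards [hnA a ha z h1 h2] with ζ h3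
    rw [hlamN a ha]
    change dot (Pi.single a 1 + Pi.single a₁ 1) (fun a => g a ζ) = g a₁ ζ
    rw [dot_add3, dot_single3, dot_single3, h3, zero_add]
  obtain ⟨b, hb⟩ : ∃ b : Fin (n + 2) → Fin (n + 2) ⊕ Fin m → ℂ,
      ∀ (v : Fin (n + 2) → ℂ) a, v a = ∑ i, b a i * dot (lam i) v := by
    refine ⟨fun a i => Sum.elim (fun a' => (if a' = a then 1 else 0) -
      (if a' = a₁ ∧ ¬ MeroPunct R₀ (g a) then 1 else 0)) (fun _ => 0) i, fun v a => ?_⟩
    rw [Fintype.sum_sum_type]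
    simp only [Sum.elim_inl, Sum.elim_inr, zero_mul, Finset.sum_const_zero, add_zero, sub_mul]
    rw [Finset.sum_sub_distrib]
    have e1 : ∑ a', (if a' = a then (1 : ℂ) else 0) * dot (lam (Sum.inl a')) v =
        dot (lam (Sum.inl a)) v := by
      rw [Finset.sum_eq_single a]
      · rw [if_pos rfl, one_mul]
      · intro a' _ h1
        rw [if_neg h1, zero_mul]
      · intro h1
        exact absurd (Finset.mem_univ a) h1
    have e2 : ∑ a', (if a' = a₁ ∧ ¬ MeroPunct R₀ (g a) then (1 : ℂ) else 0) *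
        dot (lam (Sum.inl a')) v = if ¬ MeroPunct R₀ (g a) then v a₁ else 0 := by
      rw [Finset.sum_eq_single a₁]
      · rw [hlamA a₁ ha₁, dot_single3]
        by_cases ha : MeroPunct R₀ (g a)
        · rw [if_neg fun h1 => h1.2 ha, if_neg (not_not.2 ha), zero_mul]
        · rw [if_pos ⟨rfl, ha⟩, if_pos ha, one_mul]
      · intro a' _ h1
        rw [if_neg fun h2 => h1 h2.1, zero_mul]
      · intro h1
        exact absurd (Finset.mem_univ a₁) h1
    rw [e1, e2]
    by_cases ha : MeroPunct R₀ (g a)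
    · rw [hlamA a ha, dot_single3, if_neg (not_not.2 ha), sub_zero]
    · rw [hlamN a ha, dot_add3, dot_single3, dot_single3, if_pos ha, add_sub_cancel_right]
  have hne : ∀ i, MeroPunct R₀ (lin (lam i) g) := by
    rintro (a | j)
    · by_cases ha : MeroPunct R₀ (g a)
      · rw [hlinA a ha]
        exact ha
      · refine ⟨fun z h1 h2 => lin_mero3 (fun a => hgm a z h1 h2) _, fun z h1 h2 => ?_⟩
        have h3 : lin (lam (Sum.inl a)) g =ᶠ[𝓝[≠] z] g a₁ := hlinN a ha z h1 h2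
        rw [meromorphicOrderAt_congr h3]
        exact ha₁.ord z h1 h2
    · exact hp j
  -- the marked points
  set J : Finset (Fin (n + 2) ⊕ Fin m) := Finset.univ.map
    (Function.Embedding.inr : Fin m ↪ Fin (n + 2) ⊕ Fin m) with hJdef
  have hJmem : ∀ i ∈ J, ∃ j : Fin m, i = Sum.inr j := by
    intro i hi
    rw [hJdef, Finset.mem_map] at hi
    obtain ⟨j, _, hj⟩ := hi
    exact ⟨j, hj.symm⟩
  have hJcard : J.card = m := by
    rw [hJdef, Finset.card_map, Finset.card_univ, Fintype.card_fin]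
  have hmarked : Marked N lam (fun _ => 1) J := by
    refine ⟨fun _ _ => one_ne_zero, fun i hi => ?_, fun i hi i' hi' hii => ?_⟩
    · obtain ⟨j, rfl⟩ := hJmem i hi
      simp only [one_mul]
      exact hmem j
    · obtain ⟨j, rfl⟩ := hJmem i hi
      obtain ⟨j', rfl⟩ := hJmem i' hi'
      simp only [one_mul] at hii
      have h1 : p j = p j' := funext fun a => congrFun hii a
      rw [hinj h1]
  have hJT : ∀ i ∈ J, (fun a => (fun _ => (1 : ℂ)) i * lam i a) ∉ T := by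
    intro i hi
    obtain ⟨j, rfl⟩ := hJmem i hi
    simp only [one_mul]
    exact hpT j
  have hmarked' : Marked N p (fun _ => 1) Finset.univ := by
    refine ⟨fun _ _ => one_ne_zero, fun j _ => ?_, fun j _ j' _ hjj => ?_⟩
    · simp only [one_mul]
      exact hmem j
    · simp only [one_mul] at hjj
      exact hinj (funext fun a => congrFun hjj a)
  have hJT' : ∀ j ∈ (Finset.univ : Finset (Fin m)), (fun a => (fun _ => (1 : ℂ)) j * p j a) ∉ T := by
    intro j _
    simp only [one_mul]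
    exact hpT j
  obtain ⟨C₀, hC₀⟩ := pt_est hd hb hmarked T hTG hJT
  set B : ℝ := ∑ a, ∑ i, ‖b a i‖ with hBdef
  have hB0 : 0 ≤ B := Finset.sum_nonneg fun _ _ => Finset.sum_nonneg fun _ _ => norm_nonneg _
  have hBa : ∀ a, ∑ i, ‖b a i‖ ≤ B := fun a =>
    Finset.single_le_sum (f := fun a => ∑ i, ‖b a i‖)
      (fun _ _ => Finset.sum_nonneg fun _ _ => norm_nonneg _) (Finset.mem_univ a)
  have hPP : MeroPunct R₀ (fun z => Palong φ T.card g z * g a₁ z ^ T.card) :=
    hP.mul (punct_pow ha₁ _)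
  refine ⟨(n + 2) + m, fun i => lam (finSumFinEquiv.symm i),
    fun z => Palong φ T.card g z * g a₁ z ^ T.card, κ - T.card, B ^ (m - 2 * κ) * |C₀|,
    fun i => hne _, hPP, mul_nonneg (pow_nonneg hB0 _) (abs_nonneg _), ?_, ?_⟩
  · -- the pointwise inequality
    intro z h1 h2
    have e1 : ∀ᶠ ζ in 𝓝[≠] z, ∀ a, AnalyticAt ℂ (g a) ζ :=
      Filter.eventually_all.2 fun a => (hgm a _ h1 h2).eventually_analyticAt
    have e2 : ∀ᶠ ζ in 𝓝[≠] z, ∀ i, lin (lam i) g ζ ≠ 0 :=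
      Filter.eventually_all.2 fun i =>
        (meromorphicOrderAt_ne_top_iff_eventually_ne_zero ((hne i).mero _ h1 h2)).1
          ((hne i).ord _ h1 h2)
    have e3 : ∀ᶠ ζ in 𝓝[≠] z, ∀ τ ∈ T, ∀ᶠ y in 𝓝 ζ, lin τ g y = 0 := by
      rw [Filter.eventually_all_finset]
      intro τ hτ
      have := eventually_eventually_nhdsWithin.2 (hTg τ hτ z h1 h2)
      filter_upwards [this, self_mem_nhdsWithin] with ζ hζ hne
      rwa [IsOpen.nhdsWithin_eq isOpen_compl_singleton hne] at hζ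
    filter_upwards [e1, e2, e3, hΔ z h1 h2] with ζ f1 f2 f3 f4
    have f5 : ∀ τ ∈ T, dot τ (fun a => deriv (g a) ζ) = 0 := by
      intro τ hτ
      rw [← lin_deriv3 f1 τ]
      have h3 : lin τ g =ᶠ[𝓝 ζ] fun _ => 0 := f3 τ hτ
      rw [h3.deriv_eq, deriv_const]
    -- the maximum of the absolute values of the linear forms
    obtain ⟨i₀, -, hi₀⟩ := Finset.exists_max_image (Finset.univ : Finset (Fin (n + 2) ⊕ Fin m))
      (fun i => ‖lin (lam i) g ζ‖) ⟨Sum.inl a₁, Finset.mem_univ _⟩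
    set H : ℝ := ‖lin (lam i₀) g ζ‖ with hHdef
    have hH0 : 0 < H := norm_pos_iff.2 (f2 i₀)
    have hHle : ∀ i, ‖dot (lam i) fun a => g a ζ‖ ≤ H := fun i => hi₀ i (Finset.mem_univ i)
    have key := hC₀ (fun a => g a ζ) (fun a => deriv (g a) ζ) f4
      (fun τ hτ => (f3 τ hτ).self_of_nhds) f5 f2 H hHle ⟨i₀, rfl⟩
    rw [hJcard] at key
    -- the sums and products
    have g1 : ∏ i ∈ J, ‖dot (lam i) fun a => g a ζ‖ = ∏ j, ‖lin (p j) g ζ‖ := by
      rw [hJdef, Finset.prod_map]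
      rfl
    have g2 : ∑ i, ‖dot (lam i) (fun a => deriv (g a) ζ) / dot (lam i) fun a => g a ζ‖ =
        ∑ i, ‖deriv (lin (lam (finSumFinEquiv.symm i)) g) ζ /
          lin (lam (finSumFinEquiv.symm i)) g ζ‖ := by
      rw [← Equiv.sum_comp (finSumFinEquiv (m := n + 2) (n := m)).symm]
      refine Finset.sum_congr rfl fun i _ => ?_
      rw [lin_deriv3 f1]
      rfl
    rw [g1, g2] at key
    have hsize0 : 0 ≤ size g ζ :=
      (norm_nonneg (g a₁ ζ)).trans (Finset.le_sup' (fun i => ‖g i ζ‖) (Finset.mem_univ a₁))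
    have hsize : size g ζ ≤ B * H := by
      refine Finset.sup'_le _ _ fun a _ => ?_
      have hba : ‖g a ζ‖ = ‖∑ i, b a i * dot (lam i) fun a => g a ζ‖ :=
        congrArg norm (hb (fun a => g a ζ) a)
      refine hba.le.trans ((norm_sum_le _ _).trans ?_)
      calc ∑ i, ‖b a i * dot (lam i) fun a => g a ζ‖ ≤ ∑ i, ‖b a i‖ * H := by
            refine Finset.sum_le_sum fun i _ => ?_
            rw [norm_mul]
            exact mul_le_mul_of_nonneg_left (hHle i) (norm_nonneg _)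
        _ = (∑ i, ‖b a i‖) * H := by rw [Finset.sum_mul]
        _ ≤ _ := mul_le_mul_of_nonneg_right (hBa a) hH0.le
    have hg1 : ‖g a₁ ζ‖ ≤ H := by
      have := hHle (Sum.inl a₁)
      rw [hlamA a₁ ha₁, dot_single3] at this
      exact this
    refine algebra_est hm hTκ hH0 hB0 hsize0 hsize (norm_nonneg _) ?_
      (Finset.prod_nonneg fun _ _ => norm_nonneg _) (pow_nonneg (add_nonneg zero_le_one
        (Finset.sum_nonneg fun _ _ => norm_nonneg _)) _) key
    rw [norm_mul, norm_pow]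
    exact mul_le_mul_of_nonneg_left (pow_le_pow_left₀ (norm_nonneg _) hg1 _) (norm_nonneg _)
  · -- the local inequality
    intro s h1 h2 μ hμ hμ'
    have hord : ∀ j, ((ordZ (lin (p j) g) s : ℤ) : WithTop ℤ) =
        meromorphicOrderAt (lin (p j) g) s := fun j =>
      Pool.Agent.H92.GGL.ordZ_cast ((hp j).ord s h1 h2)
    have hμj : ∀ j, μ ≤ ordZ (lin (p j) g) s := by
      intro j
      have h3 : ((μ : ℤ) : WithTop ℤ) ≤ meromorphicOrderAt (lin (p j) g) s := by
        have h4 : lin (p j) g = ∑ a, fun ζ => p j a * g a ζ := by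
          funext ζ
          rw [Finset.sum_apply]
          rfl
        rw [h4]
        exact le_order_sum3 _ (fun a => (MeromorphicAt.const _ _).mul (hgm a s h1 h2)) fun a =>
          le_order_mul3 (hgm a s h1 h2) _ (hμ a)
      rw [← hord] at h3
      exact_mod_cast h3
    have key := loc_est hd hom hmarked' T hTG hJT' (fun a => hgm a s h1 h2) (hΔ s h1 h2)
      (fun τ hτ => hTg τ hτ s h1 h2) hμ hμ' (fun j => (ordZ (lin (p j) g) s - μ).toNat)
      (fun j _ => by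
        have h3 : (μ + ((ordZ (lin (p j) g) s - μ).toNat : ℤ) : ℤ) =
            ordZ (lin (p j) g) s := by
          rw [Int.toNat_of_nonneg (by have := hμj j; omega)]
          ring
        rw [h3, hord]
        exact le_rfl)
    rw [← Pool.Agent.H92.GGL.ordZ_cast (hP.ord s h1 h2)] at key
    have key' : (((2 * κ - T.card : ℕ) : ℤ)) * μ +
        ∑ j, (((ordZ (lin (p j) g) s - μ).toNat - 1 : ℕ) : ℤ) ≤
        ordZ (Palong φ T.card g) s := by exact_mod_cast key
    -- the order of the product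
    have hPs : ordZ (fun z => Palong φ T.card g z * g a₁ z ^ T.card) s =
        ordZ (Palong φ T.card g) s + T.card * ordZ (g a₁) s := by
      have h3 : meromorphicOrderAt (fun z => Palong φ T.card g z * g a₁ z ^ T.card) s =
          ((ordZ (Palong φ T.card g) s + T.card * ordZ (g a₁) s : ℤ) : WithTop ℤ) := by
        have h4 : (fun z => Palong φ T.card g z * g a₁ z ^ T.card) =
            (Palong φ T.card g) * fun z => g a₁ z ^ T.card := rfl
        rw [h4, meromorphicOrderAt_mul (hP.mero s h1 h2) ((ha₁.mero s h1 h2).fun_pow _),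
          order_pow' (ha₁.mero s h1 h2) (ha₁.ord s h1 h2),
          ← Pool.Agent.H92.GGL.ordZ_cast (hP.ord s h1 h2)]
        exact (WithTop.coe_add _ _).symm
      have h5 := Pool.Agent.H92.GGL.ordZ_cast (hPP.ord s h1 h2)
      rw [h3] at h5
      exact_mod_cast h5
    have ha₁μ : μ ≤ ordZ (g a₁) s := by
      have h3 := hμ a₁
      rw [← Pool.Agent.H92.GGL.ordZ_cast (ha₁.ord s h1 h2)] at h3
      exact_mod_cast h3
    have hsum : ∑ j, ordZ (lin (p j) g) s = (m : ℤ) * μ +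
        ∑ j, (((ordZ (lin (p j) g) s - μ).toNat - 1 : ℕ) : ℤ) +
          ((Finset.univ.filter fun j => μ < ordZ (lin (p j) g) s).card : ℤ) := by
      have h3 : ((Finset.univ.filter fun j => μ < ordZ (lin (p j) g) s).card : ℤ) =
          ∑ j, if μ < ordZ (lin (p j) g) s then (1 : ℤ) else 0 := by
        rw [Finset.card_filter]
        push_cast
        rfl
      have h4 : (m : ℤ) * μ = ∑ _j : Fin m, μ := by
        rw [Finset.sum_const, Finset.card_univ, Fintype.card_fin, nsmul_eq_mul]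
      rw [h3, h4, ← Finset.sum_add_distrib, ← Finset.sum_add_distrib]
      refine Finset.sum_congr rfl fun j _ => ?_
      have h5 := hμj j
      split_ifs with h6
      · omega
      · omega
    rw [hPs, hsum]
    have h6 : (T.card : ℤ) * μ ≤ T.card * ordZ (g a₁) s :=
      mul_le_mul_of_nonneg_left ha₁μ (Int.natCast_nonneg _)
    have h7 : (((2 * κ - T.card : ℕ) : ℤ)) * μ + (T.card : ℤ) * μ + ((m - 2 * κ : ℕ) : ℤ) * μ =
        (m : ℤ) * μ := by
      rw [← add_mul, ← add_mul]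
      congr 1
      omega
    linarith

end Pool.Agent.H5.DG4
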