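import Pool.Agent.H5.DG4.Clu
import Pool.Agent.H5.DG3.EG3

/-!
# Project DG4, module CluK: the estimate for one cluster at a valuation

This is the inequality `cluster_ord` (module `Pool.Agent.H5.DG.E0`) for the normalised point, with the
scaling `evVW_Phi_scale`: see `EG3_est` (private) in module `Pool.Agent.H5.DG3.EG3`; copy the parts `hcl` and
`hscale` of its proof (`c j = 1`, `J = univ`, `u (Φ v (δ v) * det ^ (κ - t)) = u (x₁ ^ e) * κ + u (x₁ ^ e) * (κ - t) + ..`).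
-/

open MvPolynomial
open Pool.Agent.H5.DG

noncomputable section

namespace Pool.Agent.H5.DG4

section

variable {K : Type} [Field K] [Algebra ℂ K]

private lemma CluK_dot_smul_right {m : ℕ} (t x : Fin m → K) (s : K) :
    dot t (fun a => s * x a) = s * dot t x := by
  unfold dot
  rw [Finset.mul_sum]
  exact Finset.sum_congr rfl fun a _ => by ring

private lemma CluK_der_dot {m : ℕ} (δ : Derivation ℂ K K) (t : Fin m → ℂ) (x : Fin m → K) :
    dot (toL K t) (fun a => δ (x a)) = δ (dot (toL K t) x) := by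
  unfold dot toL
  rw [map_sum]
  refine Finset.sum_congr rfl fun a _ => ?_
  rw [δ.leibniz, δ.map_algebraMap, smul_zero, add_zero, smul_eq_mul]

private lemma CluK_aeval_scale {σ : Type} [Fintype σ] {G : MvPolynomial σ ℂ} {e : ℕ}
    (hG : G.IsHomogeneous e) (c : K) (x : σ → K) :
    aeval (fun i => c * x i) G = c ^ e * aeval x G := by
  rw [aeval_def, aeval_def, eval₂_eq, eval₂_eq, Finset.mul_sum]
  refine Finset.sum_congr rfl fun m hm => ?_
  have h5 : ∑ i ∈ m.support, m i = e := by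
    have := hG (mem_support_iff.1 hm)
    rw [Finsupp.weight_apply, Finsupp.sum] at this
    simpa using this
  simp only [mul_pow, Finset.prod_mul_distrib]
  rw [Finset.prod_pow_eq_pow_sum, h5]
  ring

section

variable {u : AddValuation K (WithTop ℤ)}

private lemma CluK_mul_eq {f g : K} {a b : ℤ} (hf : u f = ((a : ℤ) : WithTop ℤ))
    (hg : u g = ((b : ℤ) : WithTop ℤ)) : u (f * g) = ((a + b : ℤ) : WithTop ℤ) := by
  rw [u.map_mul, hf, hg, ← WithTop.coe_add]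

private lemma CluK_mul_le {f g : K} {a b : ℤ} (hf : ((a : ℤ) : WithTop ℤ) ≤ u f)
    (hg : ((b : ℤ) : WithTop ℤ) ≤ u g) : ((a + b : ℤ) : WithTop ℤ) ≤ u (f * g) := by
  rw [u.map_mul, WithTop.coe_add]
  exact add_le_add hf hg

private lemma CluK_pow {f : K} {a : ℤ} (h : u f = ((a : ℤ) : WithTop ℤ)) (m : ℕ) :
    u (f ^ m) = ((m * a : ℤ) : WithTop ℤ) := by
  induction m with
  | zero => simp
  | succ m ih =>
    rw [pow_succ, CluK_mul_eq ih h]
    congr 1
    push_cast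
    ring

private lemma CluK_prod {ι : Type} (S : Finset ι) {f : ι → K} {a : ι → ℤ}
    (h : ∀ j ∈ S, u (f j) = ((a j : ℤ) : WithTop ℤ)) :
    u (∏ j ∈ S, f j) = ((∑ j ∈ S, a j : ℤ) : WithTop ℤ) := by
  classical
  induction S using Finset.induction_on with
  | empty => simp
  | insert i S hi ih =>
    rw [Finset.prod_insert hi, Finset.sum_insert hi]
    exact CluK_mul_eq (h i (Finset.mem_insert_self i S))
      (ih fun j hj => h j (Finset.mem_insert_of_mem hj))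

private lemma CluK_ne {f : K} {a : ℤ} (h : u f = ((a : ℤ) : WithTop ℤ)) : f ≠ 0 := by
  rintro rfl
  rw [u.map_zero] at h
  exact absurd h.symm (WithTop.coe_ne_top)

private lemma CluK_exists {f : K} (h : f ≠ 0) : ∃ a : ℤ, u f = ((a : ℤ) : WithTop ℤ) := by
  have := (u.ne_top_iff).2 h
  exact ⟨(u f).untop this, by simp⟩

private lemma CluK_inv {f : K} {a : ℤ} (h : u f = ((a : ℤ) : WithTop ℤ)) :
    u f⁻¹ = ((-a : ℤ) : WithTop ℤ) := by
  obtain ⟨c, hc⟩ := CluK_exists (u := u) (inv_ne_zero (CluK_ne h))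
  have h1 := CluK_mul_eq h hc
  rw [mul_inv_cancel₀ (CluK_ne h), u.map_one] at h1
  have h2 : 0 = a + c := by exact_mod_cast h1
  rw [hc]
  congr 1
  omega

end

end

theorem cluster_val4 {K : Type} [Field K] [Algebra ℂ K] {u : AddValuation K (WithTop ℤ)}
    (hu : ∀ c : ℂ, 0 ≤ u (algebraMap ℂ K c)) {n κ e m : ℕ} {N : Polynomial (PV n)} {φ : PVW n}
    (hD : DGData κ N φ) (hom : ∃ k, (Del κ N).IsHomogeneous k) {v : Fin (n + 2) → K}
    {p : Fin m → Fin (n + 2) → ℂ} (hp : ∀ j, p j ∈ Gam N ℂ) (hinj : Function.Injective p)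
    (hΔ : MvPolynomial.aeval v (Del κ N) ≠ 0) (T : Finset (Fin (n + 2) → ℂ))
    (hT : ∀ τ ∈ T, τ ∈ Gam N ℂ) (hTv : ∀ τ ∈ T, dot (toL K τ) v = 0) (hJT : ∀ j, p j ∉ T)
    {x₁ : K} {r : ℕ} (hx₁ : u x₁ = ((-(r : ℤ) : ℤ) : WithTop ℤ))
    (hv0 : ∀ a, 0 ≤ u ((x₁⁻¹) ^ e * v a)) (hv1 : ∃ a, u ((x₁⁻¹) ^ e * v a) = 0) {o : Fin m → ℕ}
    (ho : ∀ j, u ((x₁⁻¹) ^ e * dot (toL K (p j)) v) = ((o j : ℤ) : WithTop ℤ)) {g₀ : K}
    (hg₀ : u g₀ = 1) {det : K} {δ : Derivation ℂ K K} {L : ℕ} {a : Fin m → ℕ}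
    (ha : ∀ j, a j ≤ o j)
    (h1 : ∀ j, ((-(L : ℤ) + a j : ℤ) : WithTop ℤ) ≤
      u (det * δ ((x₁⁻¹) ^ e * dot (toL K (p j)) v)))
    (h2 : ∀ f, 0 ≤ u f → ((-(L : ℤ) : ℤ) : WithTop ℤ) ≤ u (det * δ f)) :
    ((-((κ : ℤ) * (e * r)) - ((κ - T.card : ℕ) : ℤ) * (e * r) -
      ((κ - T.card : ℕ) : ℤ) * L + ∑ j, (a j : ℤ) : ℤ) : WithTop ℤ) ≤
      u (evVW (Phi φ T.card) v (fun a => δ (v a)) * det ^ (κ - T.card)) := by
  classical
  set s : K := x₁⁻¹ with hs
  have hx0 : x₁ ≠ 0 := CluK_ne hx₁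
  have hs0 : s ≠ 0 := inv_ne_zero hx0
  have hxs1 : x₁ * s = 1 := mul_inv_cancel₀ hx0
  set vh : Fin (n + 2) → K := fun a => s ^ e * v a with hvh
  set w : Fin (n + 2) → K := fun a => det * δ (vh a) with hw
  have hdot : ∀ t : Fin (n + 2) → ℂ, dot (toL K t) vh = s ^ e * dot (toL K t) v := fun t => by
    rw [hvh, CluK_dot_smul_right]
  have hdotw : ∀ t : Fin (n + 2) → ℂ, dot (toL K t) w = det * δ (dot (toL K t) vh) := by
    intro t
    rw [hw, CluK_dot_smul_right, CluK_der_dot]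
  have hg : u (g₀⁻¹) = ((-1 : ℤ) : WithTop ℤ) := CluK_inv (a := 1) (by rw [hg₀]; rfl)
  have hgL : u ((g₀⁻¹) ^ L) = ((-(L : ℤ) : ℤ) : WithTop ℤ) := by
    rw [CluK_pow hg]
    congr 1
    ring
  have hga : ∀ j, u (g₀ ^ a j) = ((a j : ℤ) : WithTop ℤ) := by
    intro j
    rw [CluK_pow (a := 1) (by rw [hg₀]; rfl)]
    congr 1
    ring
  -- the cluster inequality
  have hcl := cluster_ord hD.pos hD.norm hD.nondeg hD.chow (Finset.univ : Finset (Fin m)) p
    (fun j _ => hp j) (fun _ _ _ _ h => hinj h) T hT (fun j _ => hJT j) u hu vh w hv0 hv1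
    (by
      obtain ⟨k, hk⟩ := hom
      have h5 : MvPolynomial.aeval vh (Del κ N) = (s ^ e) ^ k * MvPolynomial.aeval v (Del κ N) := by
        rw [hvh]
        exact CluK_aeval_scale hk (s ^ e) v
      rw [h5]
      exact mul_ne_zero (pow_ne_zero _ (pow_ne_zero _ hs0)) hΔ)
    (fun τ hτ => by rw [hdot, hTv τ hτ, mul_zero])
    (fun τ hτ => by rw [hdotw, hdot, hTv τ hτ, mul_zero, map_zero, mul_zero])
    (fun j => g₀ ^ a j) ((g₀⁻¹) ^ L) (fun j _ => by
      rw [hga]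
      exact_mod_cast Nat.zero_le _)
    (fun j _ => by
      rw [hdot, ho j, hga]
      exact_mod_cast ha j)
    (fun j _ => by
      rw [hdotw, hdot, CluK_mul_eq hgL (hga j)]
      exact h1 j)
    (fun b => by
      rw [hgL]
      exact h2 _ (hv0 b))
  rw [CluK_mul_eq (CluK_pow hgL (κ - T.card)) (CluK_prod Finset.univ fun j _ => hga j)] at hcl
  -- scaling
  have hscale : evVW (Phi φ T.card) v (fun a => δ (v a)) * det ^ (κ - T.card) =
      (x₁ ^ e) ^ κ * (x₁ ^ e) ^ (κ - T.card) * evVW (Phi φ T.card) vh w := by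
    have hv' : ∀ a, v a = x₁ ^ e * vh a := by
      intro a
      rw [hvh]
      show v a = x₁ ^ e * (s ^ e * v a)
      rw [← mul_assoc, ← mul_pow, hxs1, one_pow, one_mul]
    have h1 := evVW_Phi_scale hD.norm hD.chow T.card vh (fun a => δ (vh a)) (x₁ ^ e) (x₁ ^ e)
      (δ (x₁ ^ e))
    have h2 := evVW_Phi_scale hD.norm hD.chow T.card vh (fun a => δ (vh a)) 1 det 0
    have e1 : (fun i => x₁ ^ e * vh i) = v := funext fun a => (hv' a).symm
    have e2 : (fun i => x₁ ^ e * δ (vh i) + δ (x₁ ^ e) * vh i) = fun a => δ (v a) := by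
      funext a
      have h3 : δ (v a) = δ (x₁ ^ e * vh a) := congrArg δ (hv' a)
      show x₁ ^ e * δ (vh a) + δ (x₁ ^ e) * vh a = δ (v a)
      rw [h3, δ.leibniz (x₁ ^ e) (vh a), smul_eq_mul, smul_eq_mul, mul_comm (vh a)]
    have e3 : (fun i => (1 : K) * vh i) = vh := funext fun a => one_mul _
    have e4 : (fun i => det * δ (vh i) + 0 * vh i) = w := by
      funext a
      rw [hw, zero_mul, add_zero]
    rw [e1, e2] at h1
    rw [e3, e4, one_pow, one_mul] at h2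
    rw [h1, h2]
    ring
  have hxe : u (x₁ ^ e) = ((-((e : ℤ) * r) : ℤ) : WithTop ℤ) := by
    rw [CluK_pow hx₁]
    congr 1
    ring
  rw [hscale]
  have h5 := CluK_mul_le ((CluK_mul_eq (CluK_pow hxe κ) (CluK_pow hxe (κ - T.card))).ge) hcl
  refine le_trans (le_of_eq ?_) h5
  congr 1
  ring

end Pool.Agent.H5.DG4
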