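import Pool.Agent.H5.DG4.CluK
import Pool.Agent.H5.DG3.PointK

/-!
# Project DG4, module FieldLgt: the theorem over function fields

As `EG3_core` (module `Pool.Agent.H5.DG3.EG3`), for the product over the clusters.  `K` has transcendence
degree `w = k' + 1`; `exists_index` for the point `y` gives a transcendence basis `y (I i)`;
`Pool.Agent.H92.GT.isLogGeneralType_of_function` with `x = y`, `j₀ = a₀`.  For every cluster `γ c`:
`v_c b = aeval y (B_c b)`, `T_c` = the constants (`finite_constants`), `T_c.card < κ_c`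
(`card_constants_lt`: `v_c` is not proportional to a constant point, since `K` is algebraic over
`ℂ (v_c b / v_c b')` by `point_algebraic` (module PointK); for the same reason `w ≤ n_c + 1`), `δ_c` a
derivation with `Φ_c (v_c, δ_c v_c) ≠ 0` (`phi_ne_zero`), `dot (p j) v_c = c j * G (ι j) (y) ≠ 0`, so
`p j ∉ T_c`.
`Θ = (∏ c, Φ_c (v_c, δ_c v_c)) ^ k * t / (∏ c, ∏ j, dot (p j) v_c) ^ k`, `M = k * ∑ c, (κ_c - T_c.card)`.
At a prime divisor `E`: `r`, `b` as in `EG3_core` (`E.ord (y b) = - r` minimal), `cluster_val4` with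
`e = e_c`, `x₁ = y b`, `L = loss k' r`, `a j = o j - 1` (`E` not in `Bd`) or `L = loss k' r + 1`, `a j = o j` (in general);
`point_unit` gives `hv1`.  `E.ord t ≥ - a * r + k * #{j ∈ S, ..}` by `h1` (`E` not in `Bd`; the `j` of the
clusters with `o j ≥ 1` are distinct elements of `S`), `E.ord t ≥ - a * r` by `h0`.
Numbers: `Γ.num` and `hnum` give `a + 1 ≤ k * ∑ c, e_c * (len_c - (n_c + 6) * κ_c)`, `loss k' r ≤ r * (k' + 1)`,
`k' + 1 = w ≤ n_c + 1`, `1 ≤ e_c`.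
-/

open MvPolynomial
open Pool.Agent.H17LG.Variety (IsLogGeneralType)
open Pool.Agent.H23.Fano (PrimeDivisorOver)
open Pool.Agent.H5.DG

noncomputable section

namespace Pool.Agent.H5.DG4

section

open Pool.Agent.H23 (dualDer dualDer_apply)
open Pool.Agent.H92.GT (loss localDer_loss exists_const_of_D_eq_zero isLogGeneralType_of_function
  exists_index)

section

variable {K : Type} [Field K] [Algebra ℂ K]

private lemma FL4_der_sum {ι : Type*} (S : Finset ι) (D : ι → Derivation ℂ K K) (g : K) :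
    (∑ i ∈ S, D i) g = ∑ i ∈ S, D i g := by
  classical
  induction S using Finset.induction_on with
  | empty => simp
  | insert a S ha ih => rw [Finset.sum_insert ha, Finset.sum_insert ha, Derivation.add_apply, ih]

private lemma FL4_aeval_scale {σ : Type} [Fintype σ] {G : MvPolynomial σ ℂ} {e : ℕ}
    (hG : G.IsHomogeneous e) (c : K) (x : σ → K) :
    aeval (fun i => c * x i) G = c ^ e * aeval x G := by
  rw [aeval_def, aeval_def, eval₂_eq, eval₂_eq, Finset.mul_sum]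
  refine Finset.sum_congr rfl fun m hm => ?_
  have h5 : ∑ i ∈ m.support, m i = e := by
    have := hG (mem_support_iff.1 hm)
    rw [Finsupp.weight_apply, Finsupp.sum] at this
    simpa using this
  simp only [mul_pow, Finset.prod_mul_distrib]
  rw [Finset.prod_pow_eq_pow_sum, h5]
  ring

private lemma FL4_scale_mem {M : ℕ} {P : Ideal (MvPolynomial (Fin (M + 1)) ℂ)} (hP : Homog P)
    {y : Fin (M + 1) → K} (hyP : ∀ g ∈ P, aeval y g = 0) (s : K) :
    ∀ g ∈ P, aeval (fun i => s * y i) g = 0 := by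
  intro g hg
  rw [← MvPolynomial.sum_homogeneousComponent g, map_sum]
  refine Finset.sum_eq_zero fun k _ => ?_
  rw [FL4_aeval_scale (homogeneousComponent_isHomogeneous k g), hyP _ (hP g hg k), mul_zero]

private lemma FL4_comb {M n : ℕ} (y : Fin (M + 1) → K) (l : Fin (n + 2) → ℂ)
    (F : Fin (n + 2) → MvPolynomial (Fin (M + 1)) ℂ) :
    dot (toL K l) (fun a => aeval y (F a)) = aeval y (comb l F) := by
  unfold dot toL comb
  rw [map_sum]
  refine Finset.sum_congr rfl fun a _ => ?_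
  rw [map_mul, aeval_C]

private lemma FL4_base {M r e : ℕ} {P : Ideal (MvPolynomial (Fin (M + 1)) ℂ)}
    {B : Fin r → MvPolynomial (Fin (M + 1)) ℂ} (hB : BaseFree P e B) {y : Fin (M + 1) → K}
    (hyP : ∀ g ∈ P, aeval y g = 0) {a₀ : Fin (M + 1)} (hy1 : y a₀ = 1) :
    ∃ b₀, aeval y (B b₀) ≠ 0 := by
  by_contra hcon
  push Not at hcon
  obtain ⟨k, hk⟩ := hB.base a₀
  have h1 : Ideal.span (Set.range B) ⊔ P ≤
      RingHom.ker (aeval y : MvPolynomial (Fin (M + 1)) ℂ →ₐ[ℂ] K) := by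
    refine sup_le (Ideal.span_le.2 ?_) fun g hg => ?_
    · rintro - ⟨a, rfl⟩
      exact hcon a
    · exact hyP g hg
  have h2 := h1 hk
  rw [RingHom.mem_ker, map_pow, aeval_X, hy1, one_pow] at h2
  exact one_ne_zero h2

private lemma FL4_alg {M r e : ℕ} {P : Ideal (MvPolynomial (Fin (M + 1)) ℂ)} (hP : Homog P)
    {B : Fin r → MvPolynomial (Fin (M + 1)) ℂ} (hB : BaseFree P e B) {y : Fin (M + 1) → K}
    (hyP : ∀ g ∈ P, aeval y g = 0) {a₀ : Fin (M + 1)} (hy1 : y a₀ = 1)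
    (halg : Algebra.IsAlgebraic (IntermediateField.adjoin ℂ (Set.range y)) K) {b₀ : Fin r}
    (hb₀ : aeval y (B b₀) ≠ 0) :
    Algebra.IsAlgebraic (IntermediateField.adjoin ℂ (Set.range fun b =>
      aeval y (B b) / aeval y (B b₀))) K := by
  obtain ⟨K₀, hK₀⟩ : ∃ K₀ : IntermediateField ℂ K, K₀ = IntermediateField.adjoin ℂ
    (Set.range fun b => aeval y (B b) / aeval y (B b₀)) := ⟨_, rfl⟩
  rw [← hK₀]
  have hx : ∀ a, IsAlgebraic K₀ (y a) := by
    intro a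
    have h1 := Pool.Agent.H5.DG3.point_algebraic hP hB hyP hb₀ a a₀
    rw [hy1, div_one, ← hK₀] at h1
    exact h1
  have hall : ∀ z ∈ IntermediateField.adjoin ℂ (Set.range y), IsAlgebraic K₀ z := by
    intro z hz
    induction hz using IntermediateField.adjoin_induction with
    | mem y hy =>
      obtain ⟨i, rfl⟩ := hy
      exact hx i
    | algebraMap c =>
      have h1 : algebraMap ℂ K c = algebraMap K₀ K (algebraMap ℂ K₀ c) := rfl
      rw [h1]
      exact isAlgebraic_algebraMap _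
    | add y y' _ _ h1 h2 => exact h1.add h2
    | inv y _ h1 => exact h1.inv
    | mul y y' _ _ h1 h2 => exact h1.mul h2
  refine ⟨fun f => ?_⟩
  obtain ⟨q, hq0, hq⟩ := halg.isAlgebraic f
  have hmem : ∀ x : IntermediateField.adjoin ℂ (Set.range y),
      algebraMap (IntermediateField.adjoin ℂ (Set.range y)) K x ∈ algebraicClosure K₀ K :=
    fun x => mem_algebraicClosure_iff.2 (hall x.1 x.2)
  obtain ⟨ψ, hψ⟩ : ∃ ψ : IntermediateField.adjoin ℂ (Set.range y) →+* algebraicClosure K₀ K,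
      ∀ x, ((ψ x : algebraicClosure K₀ K) : K) = x := by
    refine ⟨(algebraMap (IntermediateField.adjoin ℂ (Set.range y)) K).codRestrict
      (algebraicClosure K₀ K) hmem, fun x => rfl⟩
  have hC : IsAlgebraic (algebraicClosure K₀ K) f := by
    refine ⟨q.map ψ, ?_, ?_⟩
    · rwa [Ne, Polynomial.map_eq_zero]
    · rw [Polynomial.aeval_def, Polynomial.eval₂_map]
      rw [Polynomial.aeval_def] at hq
      have h1 : (algebraMap (algebraicClosure K₀ K) K).comp ψ =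
          algebraMap (IntermediateField.adjoin ℂ (Set.range y)) K := by
        ext x
        exact hψ x
      rw [h1]
      exact hq
  exact hC.restrictScalars K₀

private lemma FL4_index {n k : ℕ} {v : Fin (n + 2) → K} {b₀ : Fin (n + 2)} (hb₀ : v b₀ ≠ 0)
    (halg : Algebra.IsAlgebraic (IntermediateField.adjoin ℂ (Set.range fun b => v b / v b₀)) K)
    {z : Fin (k + 1) → K} (hz : IsTranscendenceBasis ℂ z) :
    k ≤ n ∧ ¬ ∃ (x : Fin (n + 2) → ℂ) (f : K), ∀ a, v a = algebraMap ℂ K (x a) * f := by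
  classical
  obtain ⟨J, hJ⟩ := exists_index halg hz
  have htr : ∀ i, Transcendental ℂ (v (J i) / v b₀) := hJ.1.transcendental
  have hinj : Function.Injective J := by
    intro a b hab
    exact hJ.1.injective (congrArg (fun j => v j / v b₀) hab)
  have hb : ∀ i, J i ≠ b₀ := by
    intro i h
    apply htr i
    rw [h, div_self hb₀]
    exact isAlgebraic_one
  constructor
  · have h1 : (Finset.univ.image J).card = k + 1 := by
      rw [Finset.card_image_of_injective _ hinj, Finset.card_univ, Fintype.card_fin]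
    have h2 : Finset.univ.image J ⊆ (Finset.univ : Finset (Fin (n + 2))).erase b₀ := by
      intro j hj
      obtain ⟨i, -, rfl⟩ := Finset.mem_image.1 hj
      exact Finset.mem_erase.2 ⟨hb i, Finset.mem_univ _⟩
    have h3 := Finset.card_le_card h2
    rw [h1, Finset.card_erase_of_mem (Finset.mem_univ _), Finset.card_univ, Fintype.card_fin] at h3
    omega
  · rintro ⟨x, f, hx⟩
    apply htr 0
    have hf : f ≠ 0 := by
      rintro rfl
      exact hb₀ (by rw [hx, mul_zero])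
    have h1 : v (J 0) / v b₀ = algebraMap ℂ K (x (J 0) / x b₀) := by
      rw [hx (J 0), hx b₀, mul_div_mul_right _ _ hf, map_div₀]
    rw [h1]
    exact isAlgebraic_algebraMap _

section

variable {u : AddValuation K (WithTop ℤ)}

private lemma FL4_poly_ord (hu : ∀ c : ℂ, 0 ≤ u (algebraMap ℂ K c)) {M : ℕ}
    {y : Fin (M + 1) → K} (hreg : ∀ a, 0 ≤ u (y a)) (p : MvPolynomial (Fin (M + 1)) ℂ) :
    0 ≤ u (aeval y p) := by
  induction p using MvPolynomial.induction_on with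
  | C a =>
    rw [aeval_C]
    exact hu a
  | add p q hp hq =>
    rw [map_add]
    exact (le_min hp hq).trans (u.map_add _ _)
  | mul_X p i hp =>
    rw [map_mul, aeval_X, u.map_mul]
    exact add_nonneg hp (hreg i)

omit [Algebra ℂ K] in
private lemma FL4_mul_eq {f g : K} {a b : ℤ} (hf : u f = ((a : ℤ) : WithTop ℤ))
    (hg : u g = ((b : ℤ) : WithTop ℤ)) : u (f * g) = ((a + b : ℤ) : WithTop ℤ) := by
  rw [u.map_mul, hf, hg, ← WithTop.coe_add]

omit [Algebra ℂ K] in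
private lemma FL4_mul_le {f g : K} {a b : ℤ} (hf : ((a : ℤ) : WithTop ℤ) ≤ u f)
    (hg : ((b : ℤ) : WithTop ℤ) ≤ u g) : ((a + b : ℤ) : WithTop ℤ) ≤ u (f * g) := by
  rw [u.map_mul, WithTop.coe_add]
  exact add_le_add hf hg

omit [Algebra ℂ K] in
private lemma FL4_pow {f : K} {a : ℤ} (h : u f = ((a : ℤ) : WithTop ℤ)) (m : ℕ) :
    u (f ^ m) = ((m * a : ℤ) : WithTop ℤ) := by
  induction m with
  | zero => simp
  | succ m ih =>
    rw [pow_succ, FL4_mul_eq ih h]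
    congr 1
    push_cast
    ring

omit [Algebra ℂ K] in
private lemma FL4_pow_le {f : K} {a : ℤ} (h : ((a : ℤ) : WithTop ℤ) ≤ u f) (m : ℕ) :
    ((m * a : ℤ) : WithTop ℤ) ≤ u (f ^ m) := by
  induction m with
  | zero => simp
  | succ m ih =>
    rw [pow_succ]
    refine le_trans (le_of_eq ?_) (FL4_mul_le ih h)
    congr 1
    push_cast
    ring

omit [Algebra ℂ K] in
private lemma FL4_prod {ι : Type} (S : Finset ι) {f : ι → K} {a : ι → ℤ}
    (h : ∀ j ∈ S, u (f j) = ((a j : ℤ) : WithTop ℤ)) :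
    u (∏ j ∈ S, f j) = ((∑ j ∈ S, a j : ℤ) : WithTop ℤ) := by
  classical
  induction S using Finset.induction_on with
  | empty => simp
  | insert i S hi ih =>
    rw [Finset.prod_insert hi, Finset.sum_insert hi]
    exact FL4_mul_eq (h i (Finset.mem_insert_self i S))
      (ih fun j hj => h j (Finset.mem_insert_of_mem hj))

omit [Algebra ℂ K] in
private lemma FL4_prod_le {ι : Type} (S : Finset ι) {f : ι → K} {a : ι → ℤ}
    (h : ∀ j ∈ S, ((a j : ℤ) : WithTop ℤ) ≤ u (f j)) :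
    ((∑ j ∈ S, a j : ℤ) : WithTop ℤ) ≤ u (∏ j ∈ S, f j) := by
  classical
  induction S using Finset.induction_on with
  | empty => simp
  | insert i S hi ih =>
    rw [Finset.prod_insert hi, Finset.sum_insert hi]
    exact FL4_mul_le (h i (Finset.mem_insert_self i S))
      (ih fun j hj => h j (Finset.mem_insert_of_mem hj))

omit [Algebra ℂ K] in
private lemma FL4_ne {f : K} {a : ℤ} (h : u f = ((a : ℤ) : WithTop ℤ)) : f ≠ 0 := by
  rintro rfl
  rw [u.map_zero] at h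
  exact absurd h.symm (WithTop.coe_ne_top)

omit [Algebra ℂ K] in
private lemma FL4_exists {f : K} (h : f ≠ 0) : ∃ a : ℤ, u f = ((a : ℤ) : WithTop ℤ) := by
  have := (u.ne_top_iff).2 h
  exact ⟨(u f).untop this, by simp⟩

omit [Algebra ℂ K] in
private lemma FL4_inv {f : K} {a : ℤ} (h : u f = ((a : ℤ) : WithTop ℤ)) :
    u f⁻¹ = ((-a : ℤ) : WithTop ℤ) := by
  obtain ⟨c, hc⟩ := FL4_exists (u := u) (inv_ne_zero (FL4_ne h))
  have h1 := FL4_mul_eq h hc
  rw [mul_inv_cancel₀ (FL4_ne h), u.map_one] at h1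
  have h2 : 0 = a + c := by exact_mod_cast h1
  rw [hc]
  congr 1
  omega

end

end

private lemma FL4_num {n κ e k t r ℓ : ℕ} (he : 1 ≤ e) (hk : k ≤ n) (hℓ : ℓ ≤ r * (k + 1)) :
    (κ : ℤ) * (e * r) + ((κ - t : ℕ) : ℤ) * (e * r) + ((κ - t : ℕ) : ℤ) * ℓ ≤
      e * ((n + 6) * κ) * r := by
  have h1 : κ * (e * r) + (κ - t) * (e * r) + (κ - t) * ℓ ≤ e * ((n + 6) * κ) * r := by
    have h2 : (κ - t) * (e * r) ≤ κ * (e * r) := Nat.mul_le_mul_right _ (Nat.sub_le _ _)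
    have h3 : (κ - t) * ℓ ≤ κ * (r * (n + 1)) :=
      Nat.mul_le_mul (Nat.sub_le _ _) (hℓ.trans (Nat.mul_le_mul_left _ (by omega)))
    have h4 : κ * (r * (n + 1)) ≤ e * (κ * (r * (n + 1))) := Nat.le_mul_of_pos_left _ he
    have h5 : e * ((n + 6) * κ) * r = κ * (e * r) + κ * (e * r) + e * (κ * (r * (n + 1))) +
      3 * (κ * (e * r)) := by ring
    have h6 : 0 ≤ κ * (e * r) := Nat.zero_le _
    omega
  exact_mod_cast h1

/-- The function for one cluster. -/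
private theorem FL4_cluster {A M m : ℕ} {P : Ideal (MvPolynomial (Fin (M + 1)) ℂ)}
    {G : Fin m → MvPolynomial (Fin (M + 1)) ℂ} (hP : Homog P) (γ : Cluster A P G) {K : Type}
    [Field K] [Algebra ℂ K] [Algebra.EssFiniteType ℂ K] {y : Fin (M + 1) → K}
    (hyP : ∀ g ∈ P, aeval y g = 0) {a₀ : Fin (M + 1)} (hy1 : y a₀ = 1)
    (halg : Algebra.IsAlgebraic (IntermediateField.adjoin ℂ (Set.range y)) K)
    (hΔ : aeval y γ.form ≠ 0) (hG : ∀ j, aeval y (G (γ.ι j)) ≠ 0) {k : ℕ}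
    {I : Fin (k + 1) → Fin (M + 1)} (hz : IsTranscendenceBasis ℂ fun i => y (I i))
    {B : Module.Basis (Fin (k + 1)) K Ω[K⁄ℂ]}
    (hB : ∀ i, B i = KaehlerDifferential.D ℂ K (y (I i))) :
    ∃ (t : ℕ) (θ : K), t < γ.κ ∧ θ ≠ 0 ∧
      ∀ (E : Pool.Agent.H23.PrimeDivisorOver K (k + 1)) (g₀ : K)
      (bE : Module.Basis (Fin (k + 1)) K Ω[K⁄ℂ]), E.ord g₀ = 1 →
      (∀ i f, 0 ≤ E.ord f → 0 ≤ E.ord (dualDer bE i f)) →
      (∀ i, i ≠ 0 → ∀ f, E.ord f ≤ E.ord (dualDer bE i f)) →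
      (∀ f, E.ord f ≤ E.ord (g₀ * dualDer bE 0 f)) → ∀ (b : Fin (M + 1)) (r : ℕ),
      E.ord (y b) = ((-(r : ℤ) : ℤ) : WithTop ℤ) → (∀ i, 0 ≤ E.ord ((y b)⁻¹ * y i)) →
      (((γ.e : ℤ) * (γ.len - (γ.n + 6) * γ.κ) * r -
        ({j | 0 < E.ord (aeval (fun i => (y b)⁻¹ * y i) (G (γ.ι j)))} :
          Set (Fin γ.len)).ncard : ℤ) : WithTop ℤ) ≤
        E.ord (θ * (bE.toMatrix B).det ^ (γ.κ - t)) ∧
      (((γ.e : ℤ) * (γ.len - (γ.n + 6) * γ.κ) * r - ((γ.κ - t : ℕ) : ℤ) : ℤ) : WithTop ℤ) ≤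
        E.ord (θ * (bE.toMatrix B).det ^ (γ.κ - t)) := by
  classical
  obtain ⟨v, hv⟩ : ∃ v : Fin (γ.n + 2) → K, v = fun a => aeval y (γ.B a) := ⟨_, rfl⟩
  have hva : ∀ a, v a = aeval y (γ.B a) := fun a => by rw [hv]
  have hΔ' : aeval v (Del γ.κ γ.N) ≠ 0 := by
    have h1 : aeval y γ.form = aeval v (Del γ.κ γ.N) := by
      unfold Cluster.form
      rw [hv, MvPolynomial.comp_aeval_apply]
    rwa [h1] at hΔ
  -- the index
  obtain ⟨b₀, hb₀⟩ := FL4_base γ.base hyP hy1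
  have halg' : Algebra.IsAlgebraic (IntermediateField.adjoin ℂ
      (Set.range fun b => v b / v b₀)) K := by
    rw [hv]
    exact FL4_alg hP γ.base hyP hy1 halg hb₀
  obtain ⟨hkn, hprop⟩ := FL4_index (v := v) (b₀ := b₀) (by rwa [hva]) halg' hz
  -- the constants
  have hD := γ.data
  have hfin := finite_constants hD.norm v hΔ'
  obtain ⟨T, hTdef⟩ : ∃ T : Finset (Fin (γ.n + 2) → ℂ), T = hfin.toFinset := ⟨_, rfl⟩
  have hT : ∀ τ, τ ∈ T ↔ τ ∈ Gam γ.N ℂ ∧ dot (toL K τ) v = 0 := by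
    intro τ
    rw [hTdef, Set.Finite.mem_toFinset]
    rfl
  have hTκ : T.card < γ.κ :=
    card_constants_lt hD.pos hD.norm hD.nondeg v hΔ' hprop T fun τ hτ => (hT τ).1 hτ
  have hdot : ∀ j, dot (toL K (γ.p j)) v =
      algebraMap ℂ K (γ.c j) * aeval y (G (γ.ι j)) := by
    intro j
    have h1 := hyP _ (γ.eq j)
    rw [map_sub, map_mul, aeval_C, sub_eq_zero] at h1
    rw [h1, hv, FL4_comb]
  have hdot0 : ∀ j, dot (toL K (γ.p j)) v ≠ 0 := by
    intro j
    rw [hdot]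
    refine mul_ne_zero ?_ (hG j)
    rw [Ne, map_eq_zero]
    exact γ.cne j
  have hJT : ∀ j, γ.p j ∉ T := fun j hj => hdot0 j ((hT _).1 hj).2
  -- the derivation
  obtain ⟨μ, hμ⟩ := phi_ne_zero hD.pos hD.norm hD.chow (fun i => dualDer B i) (by
    intro f hf
    obtain ⟨z, hz'⟩ := exists_const_of_D_eq_zero (K := K) (f := f) (by
      rw [← B.sum_repr (KaehlerDifferential.D ℂ (K) f)]
      refine Finset.sum_eq_zero fun a _ => ?_
      rw [← dualDer_apply, hf a, zero_smul])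
    exact ⟨z, hz'.symm⟩) v hΔ' T hT
  obtain ⟨δ, hδ⟩ : ∃ δ : Derivation ℂ K K,
    δ = ∑ i : Fin (k + 1), algebraMap ℂ (K) (μ i) • dualDer B i := ⟨_, rfl⟩
  have hδapp : ∀ g, δ g = ∑ i : Fin (k + 1), algebraMap ℂ (K) (μ i) * dualDer B i g := by
    intro g
    rw [hδ, FL4_der_sum]
    rfl
  have hΦ : evVW (Phi γ.φ T.card) v (fun a => δ (v a)) ≠ 0 := by
    have h1 : (fun a => δ (v a)) = fun a => ∑ i, algebraMap ℂ (K) (μ i) *
        dualDer B i (v a) := funext fun a => hδapp _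
    rw [h1]
    exact hμ
  refine ⟨T.card, evVW (Phi γ.φ T.card) v (fun a => δ (v a)) *
    (∏ j, dot (toL K (γ.p j)) v)⁻¹, hTκ, mul_ne_zero hΦ
      (inv_ne_zero (Finset.prod_ne_zero_iff.2 fun j _ => hdot0 j)), ?_⟩
  intro E g₀ bE hg₀ hreg hlog hlog0 b r hr hmin
  have hyb : y b ≠ 0 := FL4_ne hr
  have hr' : ∀ j, ((-(r : ℤ) : ℤ) : WithTop ℤ) ≤ E.ord (y j) := by
    intro j
    have h1 : E.ord (y j) = E.ord ((y b)⁻¹ * y j) + E.ord (y b) := by
      rw [← E.ord.map_mul]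
      congr 1
      rw [mul_comm (y b)⁻¹ (y j), mul_assoc, inv_mul_cancel₀ hyb, mul_one]
    rw [h1, hr]
    exact le_add_of_nonneg_left (hmin j)
  have hℓ : loss k r ≤ r * (k + 1) := by
    unfold loss
    split_ifs
    · positivity
    · exact le_rfl
  have hδ1 : ∀ f, 0 ≤ E.ord f → ((-(loss k r : ℤ) : ℤ) : WithTop ℤ) ≤
      E.ord ((bE.toMatrix B).det * δ f) := by
    intro f hf
    rw [hδapp, Finset.mul_sum]
    apply E.ord.map_le_sum
    intro a _
    have h2 := (localDer_loss (v := E.ord) hg₀ hreg hlog hlog0 hB a (n := r)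
      (fun j => hr' (I j))).1 f hf
    have h3 : (bE.toMatrix B).det * (algebraMap ℂ (K) (μ a) * dualDer B a f) =
        algebraMap ℂ (K) (μ a) * ((bE.toMatrix B).det * dualDer B a f) := by ring
    rw [h3, E.ord.map_mul]
    exact h2.trans (le_add_of_nonneg_left (E.ord_const _))
  have hδ2 : ∀ f (t : ℤ), ((t : ℤ) : WithTop ℤ) ≤ E.ord f →
      ((t - 1 - (loss k r : ℤ) : ℤ) : WithTop ℤ) ≤ E.ord ((bE.toMatrix B).det * δ f) := by
    intro f t hf
    rw [hδapp, Finset.mul_sum]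
    apply E.ord.map_le_sum
    intro a _
    have h2 := (localDer_loss (v := E.ord) hg₀ hreg hlog hlog0 hB a (n := r)
      (fun j => hr' (I j))).2 f t hf
    have h3 : (bE.toMatrix B).det * (algebraMap ℂ (K) (μ a) * dualDer B a f) =
        algebraMap ℂ (K) (μ a) * ((bE.toMatrix B).det * dualDer B a f) := by ring
    rw [h3, E.ord.map_mul]
    exact h2.trans (le_add_of_nonneg_left (E.ord_const _))
  -- the scaled point
  obtain ⟨yh, hyh⟩ : ∃ yh : Fin (M + 1) → K, yh = fun i => (y b)⁻¹ * y i := ⟨_, rfl⟩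
  have hsv : ∀ a, ((y b)⁻¹) ^ γ.e * v a = aeval yh (γ.B a) := by
    intro a
    rw [hyh, FL4_aeval_scale (γ.base.hom a), hva]
  have hsG : ∀ j, ((y b)⁻¹) ^ γ.e * dot (toL K (γ.p j)) v =
      algebraMap ℂ K (γ.c j) * aeval yh (G (γ.ι j)) := by
    intro j
    rw [hyh, FL4_aeval_scale (γ.homG j), hdot]
    ring
  have hyh0 : ∀ i, 0 ≤ E.ord (yh i) := by
    intro i
    rw [hyh]
    exact hmin i
  have hyhb : E.ord (yh b) = 0 := by
    rw [hyh]
    show E.ord ((y b)⁻¹ * y b) = 0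
    rw [inv_mul_cancel₀ hyb, E.ord.map_one]
  have hyhP : ∀ g ∈ P, aeval yh g = 0 := by
    rw [hyh]
    exact FL4_scale_mem hP hyP _
  have hv0 : ∀ a, 0 ≤ E.ord (((y b)⁻¹) ^ γ.e * v a) := by
    intro a
    rw [hsv]
    exact FL4_poly_ord E.ord_const hyh0 _
  have hv1 : ∃ a, E.ord (((y b)⁻¹) ^ γ.e * v a) = 0 := by
    obtain ⟨a, ha⟩ := Pool.Agent.H5.DG3.point_unit (Pool.Agent.H23.toFano E) γ.base hyhP hyh0 hyhb
    exact ⟨a, by rw [hsv]; exact ha⟩
  have hordG : ∀ j, E.ord (((y b)⁻¹) ^ γ.e * dot (toL K (γ.p j)) v) =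
      E.ord (aeval yh (G (γ.ι j))) := by
    intro j
    rw [hsG, E.ord.map_mul, Pool.Agent.H92.GT.val_const E.ord_const (γ.cne j), zero_add]
  have hexo : ∀ j, ∃ o : ℕ, E.ord (((y b)⁻¹) ^ γ.e * dot (toL K (γ.p j)) v) =
      ((o : ℤ) : WithTop ℤ) := by
    intro j
    obtain ⟨a, ha⟩ := FL4_exists (u := E.ord) (mul_ne_zero
      (pow_ne_zero γ.e (inv_ne_zero hyb)) (hdot0 j))
    have h1 : 0 ≤ a := by
      have h2 : 0 ≤ E.ord (aeval yh (G (γ.ι j))) := FL4_poly_ord E.ord_const hyh0 _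
      rw [← hordG, ha] at h2
      exact_mod_cast h2
    refine ⟨a.toNat, ?_⟩
    rw [ha]
    congr 1
    omega
  choose o ho using hexo
  have hcount : ((({j | 0 < E.ord (aeval (fun i => (y b)⁻¹ * y i) (G (γ.ι j)))} :
      Set (Fin γ.len)).ncard : ℕ) : ℤ) = ∑ j, (o j : ℤ) - ∑ j, ((o j - 1 : ℕ) : ℤ) := by
    have h1 : ({j | 0 < E.ord (aeval (fun i => (y b)⁻¹ * y i) (G (γ.ι j)))} :
        Set (Fin γ.len)) =
        (((Finset.univ : Finset (Fin γ.len)).filter fun j => 0 < o j : Finset (Fin γ.len)) :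
          Set (Fin γ.len)) := by
      ext j
      rw [Set.mem_ofPred_eq, Finset.coe_filter, Set.mem_ofPred_eq, ← hyh, ← hordG, ho]
      constructor
      · intro h
        exact ⟨Finset.mem_univ _, by exact_mod_cast h⟩
      · intro h
        exact_mod_cast h.2
    rw [h1, Set.ncard_coe_finset, Finset.card_filter, ← Finset.sum_sub_distrib]
    push_cast
    refine Finset.sum_congr rfl fun j _ => ?_
    split_ifs with h <;> omega
  -- the product of the linear forms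
  have hxe : E.ord ((y b) ^ γ.e) = ((-((γ.e : ℤ) * r) : ℤ) : WithTop ℤ) := by
    rw [FL4_pow hr]
    congr 1
    ring
  have hLj : ∀ j ∈ (Finset.univ : Finset (Fin γ.len)), E.ord (dot (toL K (γ.p j)) v) =
      (((o j : ℤ) - γ.e * r : ℤ) : WithTop ℤ) := by
    intro j _
    have h5 : dot (toL K (γ.p j)) v =
        (y b) ^ γ.e * (((y b)⁻¹) ^ γ.e * dot (toL K (γ.p j)) v) := by
      rw [← mul_assoc, ← mul_pow, mul_inv_cancel₀ hyb, one_pow, one_mul]
    rw [h5, FL4_mul_eq hxe (ho j)]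
    congr 1
    ring
  have hprod := FL4_inv (FL4_prod Finset.univ hLj)
  rw [Finset.sum_sub_distrib, Finset.sum_const, Finset.card_univ, Fintype.card_fin,
    nsmul_eq_mul] at hprod
  have hcomm : evVW (Phi γ.φ T.card) v (fun a => δ (v a)) *
      (∏ j, dot (toL K (γ.p j)) v)⁻¹ * (bE.toMatrix B).det ^ (γ.κ - T.card) =
      evVW (Phi γ.φ T.card) v (fun a => δ (v a)) * (bE.toMatrix B).det ^ (γ.κ - T.card) *
      (∏ j, dot (toL K (γ.p j)) v)⁻¹ := by ring
  have hnum := FL4_num (t := T.card) (κ := γ.κ) γ.base.pos hkn hℓ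
  rw [hcomm]
  constructor
  · have h1 := cluster_val4 (u := E.ord) E.ord_const hD γ.hom γ.mem γ.pinj hΔ' T
      (fun τ hτ => ((hT τ).1 hτ).1) (fun τ hτ => ((hT τ).1 hτ).2) hJT hr hv0 hv1 ho hg₀
      (det := (bE.toMatrix B).det) (δ := δ) (L := loss k r) (a := fun j => o j - 1)
      (fun j => Nat.sub_le _ _)
      (fun j => by
        by_cases hoj : o j = 0
        · refine le_trans (le_of_eq ?_) (hδ1 _ (by rw [ho j]; exact_mod_cast Nat.zero_le _))
          rw [hoj]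
          congr 1
          simp
        · refine le_trans (le_of_eq ?_) (hδ2 _ (o j) (ho j).ge)
          congr 1
          have : ((o j - 1 : ℕ) : ℤ) = (o j : ℤ) - 1 := by omega
          rw [this]
          ring)
      hδ1
    refine le_trans ?_ (FL4_mul_le h1 hprod.ge)
    rw [hcount]
    refine WithTop.coe_le_coe.mpr ?_
    linarith
  · have h1 := cluster_val4 (u := E.ord) E.ord_const hD γ.hom γ.mem γ.pinj hΔ' T
      (fun τ hτ => ((hT τ).1 hτ).1) (fun τ hτ => ((hT τ).1 hτ).2) hJT hr hv0 hv1 ho hg₀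
      (det := (bE.toMatrix B).det) (δ := δ) (L := loss k r + 1) (a := o)
      (fun j => le_rfl)
      (fun j => by
        refine le_trans (le_of_eq ?_) (hδ2 _ (o j) (ho j).ge)
        congr 1
        push_cast
        ring)
      (fun f hf => by
        refine le_trans (le_of_eq ?_) (hδ2 f 0 hf)
        congr 1
        push_cast
        ring)
    refine le_trans ?_ (FL4_mul_le h1 hprod.ge)
    refine WithTop.coe_le_coe.mpr ?_
    push_cast
    linarith

private lemma FL4_ncard {A M m : ℕ} {P : Ideal (MvPolynomial (Fin (M + 1)) ℂ)}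
    {G : Fin m → MvPolynomial (Fin (M + 1)) ℂ} {S : Finset (Fin m)} (Γ : Partition A P G S)
    (p : Fin m → Prop) :
    ∑ c, ({j | p ((Γ.γ c).ι j)} : Set (Fin (Γ.γ c).len)).ncard ≤ {j | j ∈ S ∧ p j}.ncard := by
  classical
  have h1 : ∀ c, ({j | p ((Γ.γ c).ι j)} : Set (Fin (Γ.γ c).len)).ncard =
      ((Finset.univ : Finset (Fin (Γ.γ c).len)).filter fun j => p ((Γ.γ c).ι j)).card := by
    intro c
    rw [← Set.ncard_coe_finset]
    congr 1
    ext j
    simp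
  have h2 : {j | j ∈ S ∧ p j}.ncard = (S.filter fun j => p j).card := by
    rw [← Set.ncard_coe_finset]
    congr 1
    ext j
    simp
  rw [h2, Finset.sum_congr rfl fun c _ => h1 c, ← Finset.card_sigma]
  obtain ⟨f, hf⟩ : ∃ f : (Σ c, Fin (Γ.γ c).len) → Fin m, ∀ c j, f ⟨c, j⟩ = (Γ.γ c).ι j :=
    ⟨fun x => (Γ.γ x.1).ι x.2, fun _ _ => rfl⟩
  have hinj : Function.Injective f := by
    rintro ⟨c, j⟩ ⟨c', j'⟩ h
    rw [hf, hf] at h
    obtain rfl := Γ.disj _ _ _ _ h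
    rw [(Γ.γ c).inj h]
  rw [← Finset.card_image_of_injective _ hinj]
  refine Finset.card_le_card fun i hi => ?_
  obtain ⟨⟨c, j⟩, hj, rfl⟩ := Finset.mem_image.1 hi
  have h3 := (Finset.mem_filter.1 (Finset.mem_sigma.1 hj).2).2
  rw [hf]
  exact Finset.mem_filter.2 ⟨Γ.mem c j, h3⟩

/-- The theorem over function fields. -/
private theorem FL4_core {A M m : ℕ} {P : Ideal (MvPolynomial (Fin (M + 1)) ℂ)}
    {G : Fin m → MvPolynomial (Fin (M + 1)) ℂ} {S : Finset (Fin m)} (hP : Homog P)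
    (Γ : Partition A P G S) {K : Type} [Field K] [Algebra ℂ K] [Algebra.EssFiniteType ℂ K]
    {y : Fin (M + 1) → K} (hyP : ∀ g ∈ P, aeval y g = 0) {a₀ : Fin (M + 1)} (hy1 : y a₀ = 1)
    (halg : Algebra.IsAlgebraic (IntermediateField.adjoin ℂ (Set.range y)) K)
    (hΔ : aeval y Γ.form ≠ 0) (hG : ∀ j ∈ S, aeval y (G j) ≠ 0) {k' : ℕ}
    {I : Fin (k' + 1) → Fin (M + 1)} (hz : IsTranscendenceBasis ℂ fun i => y (I i))
    (Bd : Pool.Agent.H23.PrimeDivisorOver K (k' + 1) → Prop) {t : K}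
    (ht : t ≠ 0) {k a : ℕ} (hk : 1 ≤ k)
    (hnum : A * a ≤ (A - 1) * (k * ∑ j ∈ S, (G j).totalDegree))
    (h0 : ∀ (E : Pool.Agent.H23.PrimeDivisorOver K (k' + 1)) (b : Fin (M + 1)), y b ≠ 0 →
      (∀ i, 0 ≤ E.ord ((y b)⁻¹ * y i)) → 0 ≤ E.ord ((y b)⁻¹ ^ a * t))
    (h1 : ∀ E : Pool.Agent.H23.PrimeDivisorOver K (k' + 1), ¬ Bd E → ∀ b : Fin (M + 1), y b ≠ 0 →
      (∀ i, 0 ≤ E.ord ((y b)⁻¹ * y i)) →
      (((k * {j | j ∈ S ∧ 0 < E.ord (aeval (fun i => (y b)⁻¹ * y i) (G j))}.ncard : ℕ) : ℤ) :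
        WithTop ℤ) ≤ E.ord ((y b)⁻¹ ^ a * t)) : Pool.Agent.H17LG.IsLogGeneralType Bd := by
  classical
  obtain ⟨B, hB⟩ := H23.exists_basis_kaehler hz
  have hΔc : ∀ c, aeval y (Γ.γ c).form ≠ 0 := by
    intro c h
    apply hΔ
    unfold Partition.form
    rw [map_prod]
    exact Finset.prod_eq_zero (Finset.mem_univ c) h
  choose τ θ hτ hθ hest using fun c => FL4_cluster hP (Γ.γ c) hyP hy1 halg (hΔc c)
    (fun j => hG _ (Γ.mem c j)) hz hB
  -- numbers
  have hnumΓ := Γ.num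
  have hA : 1 ≤ A := by
    refine Nat.pos_of_ne_zero fun h => ?_
    exact absurd (Nat.lt_of_lt_of_le hnumΓ (Nat.mul_eq_zero.2 (Or.inl h)).le) (Nat.not_lt_zero _)
  have hlen : ∀ c, ((Γ.γ c).n + 6) * (Γ.γ c).κ ≤ (Γ.γ c).len := by
    intro c
    have h2 := (Γ.γ c).card
    have h3 : ((Γ.γ c).n + 6) * (Γ.γ c).κ ≤ 2 * A * (((Γ.γ c).n + 6) * (Γ.γ c).κ) :=
      Nat.le_mul_of_pos_left _ (by omega)
    have h4 : 2 * A * (((Γ.γ c).n + 6) * (Γ.γ c).κ) = 2 * A * ((Γ.γ c).n + 6) * (Γ.γ c).κ := by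
      ring
    omega
  obtain ⟨σ, hσ⟩ : ∃ σ : ℕ, σ = ∑ c, (Γ.γ c).e * ((Γ.γ c).len - ((Γ.γ c).n + 6) * (Γ.γ c).κ) :=
    ⟨_, rfl⟩
  rw [← hσ] at hnumΓ
  have haσ : a + 1 ≤ k * σ := by
    have h2 : A * a < A * (k * σ) := by
      calc A * a ≤ (A - 1) * (k * ∑ j ∈ S, (G j).totalDegree) := hnum
        _ = k * ((A - 1) * ∑ j ∈ S, (G j).totalDegree) := by ring
        _ < k * (A * σ) := Nat.mul_lt_mul_of_pos_left hnumΓ (by omega)
        _ = A * (k * σ) := by ring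
    exact Nat.lt_of_mul_lt_mul_left h2
  have hσZ : (σ : ℤ) = ∑ c, ((Γ.γ c).e : ℤ) * ((Γ.γ c).len - ((Γ.γ c).n + 6) * (Γ.γ c).κ) := by
    rw [hσ]
    push_cast
    refine Finset.sum_congr rfl fun c _ => ?_
    rw [Nat.cast_sub (hlen c)]
    push_cast
    ring
  obtain ⟨s, hs⟩ : ∃ s : ℕ, s = ∑ c, ((Γ.γ c).κ - τ c) := ⟨_, rfl⟩
  have hs1 : 1 ≤ s := by
    have h2 : ∃ c : Fin Γ.ν, True := by
      by_contra hcon
      push Not at hcon
      have h3 : σ = 0 := by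
        rw [hσ]
        exact Finset.sum_eq_zero fun c _ => (hcon c).elim
      rw [h3] at haσ
      omega
    obtain ⟨c, -⟩ := h2
    have h3 : (Γ.γ c).κ - τ c ≤ s := by
      rw [hs]
      exact Finset.single_le_sum (f := fun c => (Γ.γ c).κ - τ c) (fun _ _ => Nat.zero_le _)
        (Finset.mem_univ c)
    have h4 := hτ c
    omega
  refine isLogGeneralType_of_function (K := K) hz (b := B) (M := k * s)
    (Nat.mul_pos (by omega) (by omega)) hy1 halg
    (Θ := (∏ c, θ c) ^ k * t)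
    (mul_ne_zero (pow_ne_zero _ (Finset.prod_ne_zero_iff.2 fun c _ => hθ c)) ht) ?_
  intro E g₀ bE hg₀ hreg hlog hlog0 i
  -- the minimal order
  obtain ⟨b, -, hb⟩ := Finset.exists_min_image Finset.univ (fun j => E.ord (y j))
    ⟨a₀, Finset.mem_univ _⟩
  have hb' : ∀ j, E.ord (y b) ≤ E.ord (y j) := fun j => hb j (Finset.mem_univ _)
  have hle0 : E.ord (y b) ≤ 0 := by
    have := hb' a₀
    rwa [hy1, E.ord.map_one] at this
  have hyb : y b ≠ 0 := by
    intro h0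
    rw [h0, E.ord.map_zero] at hle0
    exact absurd hle0 (by simp)
  obtain ⟨r, hr⟩ : ∃ r : ℕ, E.ord (y b) = ((-(r : ℤ) : ℤ) : WithTop ℤ) := by
    obtain ⟨a, ha⟩ := FL4_exists (u := E.ord) hyb
    rw [ha] at hle0
    have h2 : a ≤ 0 := by exact_mod_cast hle0
    refine ⟨(-a).toNat, ?_⟩
    rw [ha]
    congr 1
    omega
  have hy0 : ∀ i, 0 ≤ E.ord ((y b)⁻¹ * y i) := by
    intro j
    have h1 : E.ord (y j) = E.ord ((y b)⁻¹ * y j) + E.ord (y b) := by
      rw [← E.ord.map_mul]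
      congr 1
      rw [mul_comm (y b)⁻¹ (y j), mul_assoc, inv_mul_cancel₀ hyb, mul_one]
    have h2 := hb' j
    rw [h1, hr] at h2
    induction hc : E.ord ((y b)⁻¹ * y j) using WithTop.recTopCoe with
    | top => exact le_top
    | coe a =>
      rw [hc] at h2
      have h3 : -(r : ℤ) ≤ a + -(r : ℤ) := by exact_mod_cast h2
      exact_mod_cast (by omega : (0 : ℤ) ≤ a)
  have hyi : ((-(r : ℤ) : ℤ) : WithTop ℤ) ≤ E.ord (y i) := by
    rw [← hr]
    exact hb' i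
  have hΘ : (∏ c, θ c) ^ k * t * y i * (bE.toMatrix B).det ^ (k * s) =
      (∏ c, θ c * (bE.toMatrix B).det ^ ((Γ.γ c).κ - τ c)) ^ k *
        ((y b) ^ a * ((y b)⁻¹ ^ a * t)) * y i := by
    have h2 : (y b) ^ a * ((y b)⁻¹ ^ a * t) = t := by
      rw [← mul_assoc, ← mul_pow, mul_inv_cancel₀ hyb, one_pow, one_mul]
    rw [h2, Finset.prod_mul_distrib, mul_pow, Finset.prod_pow_eq_pow_sum, ← hs, mul_comm k s,
      pow_mul]
    ring
  have hya : E.ord ((y b) ^ a) = ((a * (-(r : ℤ)) : ℤ) : WithTop ℤ) := FL4_pow hr a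
  have hrσ : (0 : ℤ) ≤ (r : ℤ) * (k * σ - (a + 1)) := by
    refine mul_nonneg (Nat.cast_nonneg r) ?_
    have h2 : ((a : ℤ) + 1) ≤ k * σ := by exact_mod_cast haσ
    linarith
  have hsumr : ∑ c, ((Γ.γ c).e : ℤ) * ((Γ.γ c).len - ((Γ.γ c).n + 6) * (Γ.γ c).κ) * r =
      σ * r := by
    rw [hσZ, Finset.sum_mul]
  rw [hΘ]
  constructor
  · intro hE
    have h2 := FL4_prod_le (u := E.ord) Finset.univ fun c _ =>
      (hest c E g₀ bE hg₀ hreg hlog hlog0 b r hr hy0).1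
    have h3 := FL4_mul_le (FL4_mul_le (FL4_pow_le h2 k)
      (FL4_mul_le hya.ge (h1 E hE b hyb hy0))) hyi
    refine le_trans ?_ h3
    have h4 := FL4_ncard Γ fun j => 0 < E.ord (aeval (fun i => (y b)⁻¹ * y i) (G j))
    rw [Finset.sum_sub_distrib, hsumr]
    obtain ⟨x, hx⟩ : ∃ x : ℕ, x = ∑ c, ({j | 0 < E.ord (aeval (fun i => (y b)⁻¹ * y i)
      (G ((Γ.γ c).ι j)))} : Set (Fin (Γ.γ c).len)).ncard := ⟨_, rfl⟩
    rw [← hx] at h4
    have hx' : ((∑ c, ((({j | 0 < E.ord (aeval (fun i => (y b)⁻¹ * y i)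
      (G ((Γ.γ c).ι j)))} : Set (Fin (Γ.γ c).len)).ncard : ℕ) : ℤ)) : ℤ) = x := by
      rw [hx]
      push_cast
      rfl
    rw [hx']
    obtain ⟨x', hx''⟩ : ∃ x' : ℕ, x' = {j | j ∈ S ∧ 0 < E.ord (aeval (fun i => (y b)⁻¹ * y i)
      (G j))}.ncard := ⟨_, rfl⟩
    rw [← hx''] at h4 ⊢
    have h5 : (k : ℤ) * x ≤ k * x' := by
      exact_mod_cast Nat.mul_le_mul_left k h4
    refine WithTop.coe_le_coe.mpr ?_
    push_cast
    linarith
  · have h2 := FL4_prod_le (u := E.ord) Finset.univ fun c _ =>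
      (hest c E g₀ bE hg₀ hreg hlog hlog0 b r hr hy0).2
    have h3 := FL4_mul_le (FL4_mul_le (FL4_pow_le h2 k)
      (FL4_mul_le hya.ge (h0 E b hyb hy0))) hyi
    rw [Finset.sum_sub_distrib, hsumr] at h3
    have hx' : ((∑ c, (((Γ.γ c).κ - τ c : ℕ) : ℤ)) : ℤ) = s := by
      rw [hs]
      push_cast
      rfl
    rw [hx'] at h3
    refine le_trans ?_ (add_le_add h3 (le_refl (((k * s : ℕ) : ℤ) : WithTop ℤ)))
    rw [← WithTop.coe_add]
    refine WithTop.coe_le_coe.mpr ?_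
    push_cast
    linarith

end

theorem field_lgt4 {A M m : ℕ} {P : Ideal (MvPolynomial (Fin (M + 1)) ℂ)}
    {G : Fin m → MvPolynomial (Fin (M + 1)) ℂ} {S : Finset (Fin m)} (hP : Homog P)
    (Γ : Partition A P G S) {K : Type} [Field K] [Algebra ℂ K] [Algebra.EssFiniteType ℂ K]
    {y : Fin (M + 1) → K} (hyP : ∀ g ∈ P, aeval y g = 0) {a₀ : Fin (M + 1)} (hy1 : y a₀ = 1)
    (halg : Algebra.IsAlgebraic (IntermediateField.adjoin ℂ (Set.range y)) K)
    (hΔ : aeval y Γ.form ≠ 0) (hG : ∀ j ∈ S, aeval y (G j) ≠ 0) {w : ℕ} (hw : 1 ≤ w)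
    (hz : ∃ z : Fin w → K, IsTranscendenceBasis ℂ z) (Bd : PrimeDivisorOver K w → Prop) {t : K}
    (ht : t ≠ 0) {k a : ℕ} (hk : 1 ≤ k)
    (hnum : A * a ≤ (A - 1) * (k * ∑ j ∈ S, (G j).totalDegree))
    (h0 : ∀ (E : PrimeDivisorOver K w) (b : Fin (M + 1)), y b ≠ 0 →
      (∀ i, 0 ≤ E.ord ((y b)⁻¹ * y i)) → 0 ≤ E.ord ((y b)⁻¹ ^ a * t))
    (h1 : ∀ E : PrimeDivisorOver K w, ¬ Bd E → ∀ b : Fin (M + 1), y b ≠ 0 →
      (∀ i, 0 ≤ E.ord ((y b)⁻¹ * y i)) →
      (((k * {j | j ∈ S ∧ 0 < E.ord (aeval (fun i => (y b)⁻¹ * y i) (G j))}.ncard : ℕ) : ℤ) :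
        WithTop ℤ) ≤ E.ord ((y b)⁻¹ ^ a * t)) : IsLogGeneralType Bd := by
  obtain ⟨k', rfl⟩ : ∃ k', w = k' + 1 := ⟨w - 1, by omega⟩
  obtain ⟨z, hz⟩ := hz
  obtain ⟨I, hI⟩ := Pool.Agent.H92.GT.exists_index halg hz
  refine Pool.Agent.H17LG.isLogGeneralType_translate (K := K)
    (B := fun E => Bd (Pool.Agent.H23.toFano E)) (fun E => Iff.rfl) ?_
  exact FL4_core hP Γ hyP hy1 halg hΔ hG hI _ ht hk hnum
    (fun E b hb h => h0 (Pool.Agent.H23.toFano E) b hb h)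
    (fun E hE b hb h => h1 (Pool.Agent.H23.toFano E) hE b hb h)

end Pool.Agent.H5.DG4
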