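import Pool.Agent.H5.DG.F1
import Pool.Agent.H5.DG.CoverDefs
import Pool.Agent.H5.DG2.IntSec
import Pool.Agent.H5.DG2.Joint2

/-!
# Project DG4, module GenPos4: general position

`columns_of_smooth`: let `∑ i, g i * a i (t j) = 0` for all `j`, `g i₀ ≠ 0`.  There is `x ≠ 0` with `x j = 0`
for the `n + 2` indices `j` outside of the image of `t`, and `ciForm a e L i` vanishes at `x` for all
`i ≠ i₀` (`c - 1` forms in `c` variables, or `n + 2 + (c - 1) = N` forms in `N + 1` variables:
`Pool.Agent.H17.exists_ne_zero_common_zero`; see `f1_exists_point` in module `Pool.Agent.H5.DG.F1`).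
`∑ i, g i * ciForm a e L i = ∑ j, (∑ i, g i * a i j) * X j ^ e * L j` has only terms with `x j = 0`, so it and
its derivatives vanish at `x` (`e ≥ 2`); `g i₀ ≠ 0` gives `ciForm a e L i₀ = 0` at `x`.  Contradiction to
`SmoothIntersection`.
`forms_of_columns`: the rows of `a` are independent, the kernel has dimension `n + 2`; see `exists_forms` in
module F1: `l j` = the `j`-th coordinate in terms of a basis.  `GenPos l`: if `dot (l (s i)) v = 0` for all `i`
then `y j = dot (l j) v` is in the kernel and is supported in the `c` other indices, so `y = 0`.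
`few_of_genPos`: `n + 2` vanishing `dot (l j) v` give `v = 0`.
`integralSection_linearForm`: `Q = span {linearForm l}`, the kernel of the substitution
`X i₀ ↦ - ∑ i ≠ i₀, (l i / l i₀) X i` where `l i₀ ≠ 0`, so a prime ideal.
-/

open MvPolynomial
open Pool.Agent.H17 (PN VanishesAt)
open Pool.Agent.H5.DG

noncomputable section

namespace Pool.Agent.H5.DG4

/-- The forms `∑ j, a i j * x j ^ e * L j (x)`. -/
def ciForm {N c : ℕ} (a : Fin c → Fin (N + 1) → ℂ) (e : ℕ)
    (L : Fin (N + 1) → MvPolynomial (Fin (N + 1)) ℂ) (i : Fin c) :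
    MvPolynomial (Fin (N + 1)) ℂ :=
  ∑ j, C (a i j) * (X j ^ e * L j)

/-- Any `c` of the `N + 1` columns of the matrix `a` with `c` rows are linearly independent. -/
def IndependentColumns {N c : ℕ} (a : Fin c → Fin (N + 1) → ℂ) : Prop :=
  ∀ t : Fin c → Fin (N + 1), Function.Injective t → LinearIndependent ℂ fun i j => a i (t j)

private theorem gp_eval {N c : ℕ} (a : Fin c → Fin (N + 1) → ℂ) (e : ℕ)
    (L : Fin (N + 1) → MvPolynomial (Fin (N + 1)) ℂ) (i : Fin c) (x : Fin (N + 1) → ℂ) :
    eval x (ciForm a e L i) = ∑ j, a i j * (x j ^ e * eval x (L j)) := by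
  unfold ciForm
  simp

private theorem gp_pderiv {N c : ℕ} (a : Fin c → Fin (N + 1) → ℂ) (e : ℕ)
    (L : Fin (N + 1) → MvPolynomial (Fin (N + 1)) ℂ) (i : Fin c) (x : Fin (N + 1) → ℂ)
    (k : Fin (N + 1)) : eval x (pderiv k (ciForm a e L i)) =
      ∑ j, a i j * eval x (pderiv k (X j ^ e * L j)) := by
  unfold ciForm
  rw [map_sum, map_sum]
  refine Finset.sum_congr rfl fun j _ => ?_
  rw [pderiv_C_mul, map_mul, eval_C]

theorem columns_of_smooth {N c n e s : ℕ} (hc : c + (n + 1) = N) (he : 2 ≤ e)
    {a : Fin c → Fin (N + 1) → ℂ} {L : Fin (N + 1) → MvPolynomial (Fin (N + 1)) ℂ}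
    (hL : ∀ j, (L j).IsHomogeneous s) (hs : SmoothIntersection (ciForm a e L)) :
    IndependentColumns a := by
  classical
  have _ := hL
  intro t ht
  rw [Fintype.linearIndependent_iff]
  intro g hg i₀
  by_contra hgi
  have hg' : ∀ j, ∑ i, g i * a i (t j) = 0 := by
    intro j
    have h := congrFun hg j
    simpa only [Finset.sum_apply, Pi.smul_apply, smul_eq_mul, Pi.zero_apply] using h
  have hcardT : Fintype.card {j : Fin (N + 1) // j ∈ Set.range t} = c := by
    rw [← Fintype.card_congr (Equiv.ofInjective t ht), Fintype.card_fin]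
  have hcardC : Fintype.card {j : Fin (N + 1) // j ∉ Set.range t} = n + 2 := by
    rw [Fintype.card_subtype_compl, hcardT, Fintype.card_fin]
    omega
  have hcardI : Fintype.card {i : Fin c // i ≠ i₀} = c - 1 := by
    have h := Fintype.card_subtype_compl (fun i : Fin c => i = i₀)
    rw [Fintype.card_fin, Fintype.card_subtype_eq] at h
    exact h
  have hcpos : 0 < c := i₀.pos
  obtain ⟨x, hx0, hx⟩ := Pool.Agent.H17.exists_ne_zero_common_zero (Fin (N + 1))
    ({j : Fin (N + 1) // j ∉ Set.range t} ⊕ {i : Fin c // i ≠ i₀})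
    (by
      simp only [Nat.card_eq_fintype_card, Fintype.card_sum, Fintype.card_fin, hcardC, hcardI]
      omega)
    (Sum.elim (fun j => X j.1) fun i => ciForm a e L i.1)
    (by
      rintro (j | i)
      · simp
      · simp only [Sum.elim_inr]
        rw [gp_eval]
        refine Finset.sum_eq_zero fun j _ => ?_
        simp [zero_pow (show e ≠ 0 by omega)])
  have hxj : ∀ j, j ∉ Set.range t → x j = 0 := by
    intro j hj
    have h := hx (Sum.inl ⟨j, hj⟩)
    simpa using h
  have hxi : ∀ i, i ≠ i₀ → eval x (ciForm a e L i) = 0 := by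
    intro i hi
    exact hx (Sum.inr ⟨i, hi⟩)
  have hcol : ∀ j (w : ℂ), (j ∉ Set.range t → w = 0) → (∑ i, g i * a i j) * w = 0 := by
    intro j w hw
    by_cases hj : j ∈ Set.range t
    · obtain ⟨k, rfl⟩ := hj
      rw [hg' k, zero_mul]
    · rw [hw hj, mul_zero]
  have hsum : ∑ i, g i * eval x (ciForm a e L i) = 0 := by
    simp only [gp_eval, Finset.mul_sum]
    rw [Finset.sum_comm]
    refine Finset.sum_eq_zero fun j _ => ?_
    rw [← hcol j (x j ^ e * eval x (L j)) fun hj => by
      rw [hxj j hj, zero_pow (show e ≠ 0 by omega), zero_mul], Finset.sum_mul]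
    exact Finset.sum_congr rfl fun i _ => by ring
  have hall : ∀ i, eval x (ciForm a e L i) = 0 := by
    intro i
    by_cases hi : i = i₀
    · subst hi
      rw [Finset.sum_eq_single i] at hsum
      · exact (mul_eq_zero.1 hsum).resolve_left hgi
      · intro k _ hk
        rw [hxi k hk, mul_zero]
      · intro h
        exact absurd (Finset.mem_univ i) h
    · exact hxi i hi
  have hind := hs x hx0 hall
  rw [Fintype.linearIndependent_iff] at hind
  refine hgi (hind g ?_ i₀)
  funext k
  simp only [Finset.sum_apply, Pi.smul_apply, smul_eq_mul, Pi.zero_apply]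
  simp only [gp_pderiv, Finset.mul_sum]
  rw [Finset.sum_comm]
  refine Finset.sum_eq_zero fun j _ => ?_
  rw [← hcol j (eval x (pderiv k (X j ^ e * L j))) fun hj => by
    rw [(pderiv k).leibniz, (pderiv k).leibniz_pow]
    simp [hxj j hj, zero_pow (show e ≠ 0 by omega), zero_pow (show e - 1 ≠ 0 by omega)],
    Finset.sum_mul]
  exact Finset.sum_congr rfl fun i _ => by ring

theorem forms_of_columns {N c n : ℕ} (hc : c + (n + 1) = N) {a : Fin c → Fin (N + 1) → ℂ}
    (ha : IndependentColumns a) : ∃ l : Fin (N + 1) → Fin (n + 2) → ℂ, GenPos l ∧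
      ∀ y : Fin (N + 1) → ℂ, (∀ i, ∑ j, a i j * y j = 0) ↔
        ∃ v : Fin (n + 2) → ℂ, ∀ j, y j = dot (l j) v := by
  classical
  have hrows : LinearIndependent ℂ a := by
    have h := ha (Fin.castLE (by omega)) (Fin.castLE_injective _)
    rw [Fintype.linearIndependent_iff] at h ⊢
    intro g hg i
    refine h g ?_ i
    funext j
    have h2 := congrFun hg (Fin.castLE (by omega) j)
    simpa only [Finset.sum_apply, Pi.smul_apply, smul_eq_mul, Pi.zero_apply] using h2
  set A : Matrix (Fin c) (Fin (N + 1)) ℂ := Matrix.of a with hA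
  have hrank : A.rank = c := by
    have := LinearIndependent.rank_matrix (M := A) hrows
    simpa using this
  have hfin : Module.finrank ℂ (LinearMap.ker A.mulVecLin) = n + 2 := by
    have h1 := LinearMap.finrank_range_add_finrank_ker A.mulVecLin
    have h2 : Module.finrank ℂ (LinearMap.range A.mulVecLin) = c := hrank
    rw [h2, Module.finrank_fin_fun] at h1
    omega
  let B := Module.finBasisOfFinrankEq ℂ (LinearMap.ker A.mulVecLin) hfin
  have hmem : ∀ y : Fin (N + 1) → ℂ, (∀ i, ∑ j, a i j * y j = 0) ↔ y ∈ LinearMap.ker A.mulVecLin := by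
    intro y
    rw [LinearMap.mem_ker]
    constructor
    · intro h
      funext i
      exact h i
    · intro h i
      exact congrFun h i
  set l : Fin (N + 1) → Fin (n + 2) → ℂ := fun j k => (B k : Fin (N + 1) → ℂ) j with hl
  have hdot : ∀ (v : Fin (n + 2) → ℂ) j, dot (l j) v =
      ((∑ k, v k • B k : LinearMap.ker A.mulVecLin) : Fin (N + 1) → ℂ) j := by
    intro v j
    rw [Submodule.coe_sum, Finset.sum_apply]
    unfold dot
    refine Finset.sum_congr rfl fun k _ => ?_
    rw [Submodule.coe_smul, Pi.smul_apply, smul_eq_mul, mul_comm]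
  refine ⟨l, ?_, ?_⟩
  · intro s hsi
    have h1 : IsUnit (Matrix.of fun i => l (s i)) := by
      rw [← Matrix.mulVec_injective_iff_isUnit]
      have key : ∀ v : Fin (n + 2) → ℂ, (Matrix.of fun i => l (s i)).mulVec v = 0 → v = 0 := by
        intro v hv
        have hv' : ∀ i, dot (l (s i)) v = 0 := fun i => congrFun hv i
        have hya : ∀ i, ∑ j, a i j * dot (l j) v = 0 := by
          rw [hmem]
          have h2 : (fun j => dot (l j) v) =
              ((∑ k, v k • B k : LinearMap.ker A.mulVecLin) : Fin (N + 1) → ℂ) :=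
            funext fun j => hdot v j
          rw [h2]
          exact Subtype.property _
        have hcardS : Fintype.card {j : Fin (N + 1) // j ∈ Set.range s} = n + 2 := by
          rw [← Fintype.card_congr (Equiv.ofInjective s hsi), Fintype.card_fin]
        have hcardC : Fintype.card {j : Fin (N + 1) // j ∉ Set.range s} = c := by
          rw [Fintype.card_subtype_compl, hcardS, Fintype.card_fin]
          omega
        let E : Fin c ≃ {j : Fin (N + 1) // j ∉ Set.range s} :=
          (Fintype.equivFinOfCardEq hcardC).symm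
        have htinj : Function.Injective fun k => (E k).1 :=
          Subtype.val_injective.comp E.injective
        have hunit : IsUnit (Matrix.of fun i k => a i (E k).1 : Matrix (Fin c) (Fin c) ℂ) :=
          (Matrix.linearIndependent_rows_iff_isUnit).1 (ha (fun k => (E k).1) htinj)
        have hzero : (fun k => dot (l (E k).1) v) = 0 := by
          refine (Matrix.mulVec_injective_iff_isUnit.2 hunit) ?_
          rw [Matrix.mulVec_zero]
          funext i
          show ∑ k, a i (E k).1 * dot (l (E k).1) v = 0
          rw [Equiv.sum_comp E (fun j => a i j.1 * dot (l j.1) v), ← hya i,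
            ← Finset.sum_subtype (Finset.univ.filter fun j => j ∉ Set.range s) (by simp)
              (fun j => a i j * dot (l j) v)]
          refine Finset.sum_filter_of_ne fun j _ hj hjs => hj ?_
          obtain ⟨i', rfl⟩ := hjs
          rw [hv' i', mul_zero]
        have hy : ∀ j, dot (l j) v = 0 := by
          intro j
          by_cases hj : j ∈ Set.range s
          · obtain ⟨i, rfl⟩ := hj
            exact hv' i
          · have h := congrFun hzero (E.symm ⟨j, hj⟩)
            simpa using h
        have h4 : (∑ k, v k • B k : LinearMap.ker A.mulVecLin) = 0 := by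
          apply Subtype.ext
          funext j
          rw [← hdot v j, hy j]
          rfl
        funext k
        exact (Fintype.linearIndependent_iff.1 B.linearIndependent) v h4 k
      intro v w hvw
      have h5 : (Matrix.of fun i => l (s i)).mulVec (v - w) = 0 := by
        rw [Matrix.mulVec_sub]
        exact sub_eq_zero.2 hvw
      exact sub_eq_zero.1 (key _ h5)
    exact (Matrix.linearIndependent_rows_iff_isUnit).2 h1
  · intro y
    rw [hmem]
    constructor
    · intro hy
      refine ⟨fun k => B.repr ⟨y, hy⟩ k, fun j => ?_⟩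
      rw [hdot, B.sum_repr]
    · rintro ⟨v, hv⟩
      have h2 : y = ((∑ k, v k • B k : LinearMap.ker A.mulVecLin) : Fin (N + 1) → ℂ) :=
        funext fun j => by rw [hv j, hdot v j]
      rw [h2]
      exact Subtype.property _

theorem few_of_genPos {m n : ℕ} {l : Fin m → Fin (n + 2) → ℂ} (hl : GenPos l)
    {v : Fin (n + 2) → ℂ} (hv : v ≠ 0) : {j | dot (l j) v = 0}.ncard ≤ n + 1 := by
  classical
  by_contra hcon
  push Not at hcon
  have hcard : n + 2 ≤ Fintype.card {j : Fin m // dot (l j) v = 0} := by
    have h : {j | dot (l j) v = 0}.ncard = Fintype.card {j : Fin m // dot (l j) v = 0} := by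
      rw [← Nat.card_coe_set_eq, Nat.card_eq_fintype_card]
      rfl
    omega
  obtain ⟨s⟩ : Nonempty (Fin (n + 2) ↪ {j : Fin m // dot (l j) v = 0}) := by
    rw [Function.Embedding.nonempty_iff_card_le, Fintype.card_fin]
    exact hcard
  have hsinj : Function.Injective fun i => (s i).1 := Subtype.val_injective.comp s.injective
  have hunit : IsUnit (Matrix.of fun i => l (s i).1 : Matrix (Fin (n + 2)) (Fin (n + 2)) ℂ) :=
    (Matrix.linearIndependent_rows_iff_isUnit).1 (hl (fun i => (s i).1) hsinj)
  apply hv
  refine (Matrix.mulVec_injective_iff_isUnit.2 hunit) ?_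
  rw [Matrix.mulVec_zero]
  funext i
  exact (s i).2

private theorem gp_homog_span {M e : ℕ} {G : MvPolynomial (Fin (M + 1)) ℂ}
    (hG : G.IsHomogeneous e) : Homog (Ideal.span {G}) := by
  let _ := MvPolynomial.gradedAlgebra (σ := Fin (M + 1)) (R := ℂ)
  have h1 : (Ideal.span {G}).IsHomogeneous (homogeneousSubmodule (Fin (M + 1)) ℂ) := by
    refine Ideal.homogeneous_span _ _ ?_
    intro x hx
    rw [Set.mem_singleton_iff] at hx
    rw [hx]
    exact ⟨e, hG⟩
  intro p hp m
  exact homogeneousComponent_mem_of_mem h1 hp m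

theorem integralSection_linearForm {n : ℕ} {l : Fin (n + 2) → ℂ} (hl : l ≠ 0) :
    IntegralSection (⊥ : Ideal (MvPolynomial (Fin (n + 2)) ℂ)) (linearForm l) := by
  classical
  have hhom : (linearForm l).IsHomogeneous 1 := linearForm_isHomogeneous l
  have hcoeff : ∀ i, (linearForm l).coeff (Finsupp.single i 1) = l i := by
    intro i
    unfold linearForm
    rw [coeff_sum, Finset.sum_eq_single i]
    · rw [coeff_C_mul, coeff_X, if_pos rfl, mul_one]
    · intro j _ hj
      rw [coeff_C_mul, coeff_X, if_neg, mul_zero]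
      rw [Finsupp.single_left_inj Nat.one_ne_zero]
      exact hj
    · intro h
      exact absurd (Finset.mem_univ i) h
  obtain ⟨i₀, hi₀⟩ : ∃ i, l i ≠ 0 := by
    by_contra hcon
    push Not at hcon
    exact hl (funext hcon)
  have hne : linearForm l ≠ 0 := by
    intro h
    have h1 := hcoeff i₀
    rw [h, coeff_zero] at h1
    exact hi₀ h1.symm
  have hirr : Irreducible (linearForm l) := by
    refine irreducible_of_totalDegree_eq_one (hhom.totalDegree hne) ?_
    intro x hx
    refine isUnit_iff_ne_zero.2 ?_
    rintro rfl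
    have h1 := hx (Finsupp.single i₀ 1)
    rw [hcoeff, zero_dvd_iff] at h1
    exact hi₀ h1
  refine ⟨Ideal.span {linearForm l}, (Ideal.span_singleton_prime hne).2 hirr.prime,
    gp_homog_span hhom, bot_le, Ideal.subset_span rfl, ?_, ?_⟩
  · by_contra hcon
    push Not at hcon
    obtain ⟨i₁, hi₁⟩ : ∃ i : Fin (n + 2), i ≠ i₀ := exists_ne i₀
    have h1 := hcon i₁
    rw [Ideal.mem_span_singleton] at h1
    obtain ⟨q, hq⟩ := h1
    have hq0 : q ≠ 0 := by
      rintro rfl
      rw [mul_zero] at hq
      exact X_ne_zero i₁ hq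
    have hdeg : (linearForm l).totalDegree + q.totalDegree = 1 := by
      rw [← totalDegree_mul_of_isDomain hne hq0, ← hq, totalDegree_X]
    rw [hhom.totalDegree hne] at hdeg
    have hq1 : q.totalDegree = 0 := by omega
    rw [totalDegree_eq_zero_iff_eq_C] at hq1
    rw [hq1] at hq
    have h2 := congrArg (coeff (Finsupp.single i₀ 1)) hq
    rw [mul_comm, coeff_C_mul, hcoeff, coeff_X, if_neg] at h2
    · have h3 : coeff 0 q ≠ 0 := by
        intro h
        apply hq0
        rw [hq1, h, C_0]
      exact mul_ne_zero h3 hi₀ h2.symm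
    · rw [Finsupp.single_left_inj Nat.one_ne_zero]
      exact hi₁
  · intro q hq i
    exact ⟨0, by
      rw [pow_zero, one_mul]
      exact Ideal.mem_sup_right hq⟩

end Pool.Agent.H5.DG4
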