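import Pool.Agent.H5.DG4.Asm4
import Pool.Agent.H5.DG4.CI4

/-!
# Project DG4, module Main4: Lang's conjecture, complete intersections
-/

open MvPolynomial
open Pool.Agent.H17 (PN VanishesAt)
open Pool.Agent.H17LG.Variety (FunField)
open Pool.Agent.H5.DG (Homog variety IntegralSection AtMostThrough LangProperties linearForm
  linearForm_isHomogeneous SmoothIntersection homog_bot GenPos)
open Pool.Agent.H5.DG3 (FourProperties)

noncomputable section

namespace Pool.Agent.H5.DG4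

/-- Lang's conjecture for the projective varieties with a partially ramified morphism to the variety
given by `P`, with finite fibres outside of the closed set `Z`. -/
def LangPartial (A N₀ : ℕ) {m M : ℕ} (P : Ideal (MvPolynomial (Fin (M + 1)) ℂ)) [P.IsPrime]
    (G : Fin m → MvPolynomial (Fin (M + 1)) ℂ) (Δ : MvPolynomial (Fin (M + 1)) ℂ) : Prop :=
  ∀ (N s : ℕ) (I : Ideal (MvPolynomial (Fin (N + 1)) ℂ)) [I.IsPrime] (Z : Set (PN N))
    (F : Fin s → Fin (M + 1) → MvPolynomial (Fin (N + 1)) ℂ), FiniteMorphism P I ∅ Z F →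
    ∀ w, 1 ≤ w → (∃ z : Fin w → FunField I, IsTranscendenceBasis ℂ z) →
      ((∃ z : Fin w → FunField P, IsTranscendenceBasis ℂ z) → ¬ (variety I ⊆ Z) →
        (∃ a τ, RamifiedSection A N₀ P G I ∅ F a τ ∧ ∃ α, τ α ∉ I) →
        ¬ (variety I ⊆ excSet A N₀ P G I ∅ Z F Δ)) ∧
      (¬ (variety I ⊆ excSet A N₀ P G I ∅ Z F Δ) →
        LangProperties I w (excSet A N₀ P G I ∅ Z F Δ))

theorem PartialTheorem.lang {A N₀ m M k : ℕ} {P : Ideal (MvPolynomial (Fin (M + 1)) ℂ)}
    [P.IsPrime] {G : Fin m → MvPolynomial (Fin (M + 1)) ℂ} {Δ : MvPolynomial (Fin (M + 1)) ℂ}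
    (h : PartialTheorem A N₀ P G Δ) (hk : Δ.IsHomogeneous k) : LangPartial A N₀ P G Δ := by
  intro N s I _ Z F hR w hw hz
  have h1 := h.morphisms N s I ∅ Z F hR
  have h2 := h1.2 w hw hz
  rw [Set.sdiff_empty] at h2
  refine ⟨h2.1, fun hne => ?_⟩
  have hcl := excSet_closed4 (A := A) (N₀ := N₀) (P := P) (G := G) (B := ∅) hR.homog hR.closedZ
    hR.morphism hk
  rw [Set.sdiff_empty] at hcl
  exact h1.1.lang hR.homog hcl hne hw hz

/-- **Complete intersections** given by `c` forms `∑ j, a i j * x j ^ e * L j (x)` in `ℙ^N`,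
`N = c + n + 1`: irreducible components, if the columns of the matrix are in general position. -/
theorem main_ci (n A : ℕ) (hA : 2 ≤ A) : ∃ N₀ : ℕ, ∀ N c e s : ℕ, c + (n + 1) = N → N₀ ≤ N + 1 →
    2 ≤ e → e + s ≤ A * (e - 1) → ∀ (a : Fin c → Fin (N + 1) → ℂ)
      (L : Fin (N + 1) → MvPolynomial (Fin (N + 1)) ℂ), (∀ j, (L j).IsHomogeneous s) →
      IndependentColumns a ∨ SmoothIntersection (ciForm a e L) →
      ∀ (I : Ideal (MvPolynomial (Fin (N + 1)) ℂ)) [I.IsPrime], Homog I →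
        (∀ i, ciForm a e L i ∈ I) → (∀ x ∈ variety I, ∃ j, ¬ VanishesAt (X j * L j) x) →
        (∃ z : Fin (n + 1) → FunField I, IsTranscendenceBasis ℂ z) →
        ∃ Ξ : Set (PN N), FourProperties I ∅ (n + 1) Ξ ∧ LangProperties I (n + 1) Ξ := by
  obtain ⟨N₀, -, hN₀⟩ := main_partial (n + 1) 1 A (by omega)
  refine ⟨(N₀ + 1) * (n + 1) + (n + 2), fun N c e s hc hN he hes a L hL ha I _ hI hf hne hz => ?_⟩
  have ha' : IndependentColumns a := by
    rcases ha with h | h
    · exact h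
    · exact columns_of_smooth hc he hL h
  obtain ⟨l, hl, hker⟩ := forms_of_columns hc ha'
  obtain ⟨h1, h2, -⟩ := partial_data (by omega) hl
  obtain ⟨k, Δ, hΔ, hk, h4, -⟩ := hN₀ (N + 1) ⊥ (fun j => linearForm (l j))
    (homog_bot _) (fun j => ⟨1, le_rfl, le_rfl, linearForm_isHomogeneous (l j)⟩) h1 h2
  have hLh : ∀ j, (X j * L j : MvPolynomial (Fin (N + 1)) ℂ).IsHomogeneous (1 + s) := fun j =>
    (isHomogeneous_X ℂ j).mul (hL j)
  obtain ⟨F, hF1, hF2⟩ := ci_four hc (by omega) he hes hL hl hker hI hf (fun v hv hvI => by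
      obtain ⟨j, hj⟩ := hne (Projectivization.mk ℂ v hv) fun R hR k hk => by
        rw [Pool.Agent.H17.vanishesAt_mk_iff hk]
        exact hvI R hR
      refine ⟨j, ?_⟩
      rwa [Pool.Agent.H17.vanishesAt_mk_iff (hLh j)] at hj) hz hk
    (fun hcon => hΔ (by rw [hcon]; exact Ideal.zero_mem _)) (h4 N₀ le_rfl)
  exact ⟨_, hF1, hF2⟩

end Pool.Agent.H5.DG4
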