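import Pool.Agent.H5.DG4.Main4
import Pool.Agent.H39.SZ.Main

/-!
# Project DG4, module Main5: models at the points where many hypersurfaces meet
-/

open MvPolynomial
open Pool.Agent.H17 (PN VanishesAt)
open Pool.Agent.H17LG.Variety (FunField)
open Pool.Agent.H5.DG (Homog variety IntegralSection AtMostThrough)
open Pool.Agent.H5.DG3 (MorphismTheorem)
open Pool.Agent.H39.SZ (HasModels)

noncomputable section

namespace Pool.Agent.H5.DG4

variable {M m : ℕ}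

private theorem Main5_dim {r : ℕ} {P : Ideal (MvPolynomial (Fin (M + 1)) ℂ)} [P.IsPrime]
    {y : PN M} (hy : y ∈ variety P) (hzP : ∃ z : Fin r → FunField P, IsTranscendenceBasis ℂ z) :
    r ≤ M := by
  obtain ⟨b, hb⟩ : ∃ b, y.rep b ≠ 0 := Function.ne_iff.1 y.rep_nonzero
  refine Pool.Agent.H39.SZ.dim_le (b := b)
    (Pool.Agent.H17R.coordFun_ne_zero_iff.2 fun hX => hb ?_) hzP
  have h3 := hy _ hX 1 (isHomogeneous_X ℂ b)
  have h4 : eval y.rep (X b : MvPolynomial (Fin (M + 1)) ℂ) = 0 := h3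
  rwa [eval_X] at h4

/-- A point with a model lies on at most `2 M` of the hypersurfaces (helper39). -/
theorem atMostThrough_of_models {k : ℕ} {P : Ideal (MvPolynomial (Fin (M + 1)) ℂ)} [P.IsPrime]
    (hP : Homog P) {G : Fin m → MvPolynomial (Fin (M + 1)) ℂ}
    (hG : ∀ j, ∃ e, (G j).IsHomogeneous e) (hne : ∀ i j, i ≠ j → ∀ c : ℂ, G i - C c * G j ∉ P)
    (hint : ∀ j, IntegralSection P (G j)) (h : HasModels k P G) :
    AtMostThrough (max (2 * M) k) P G := by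
  intro y hy
  by_cases hk : k < {j | VanishesAt (G j) y}.ncard
  · refine le_trans ?_ (le_max_left _ _)
    obtain ⟨r, hr, hzP, N, s, I, hI, B, F, hmod⟩ := h y hy hk
    refine (Pool.Agent.H39.SZ.count_le hr hP hzP hG hne hint hmod.dim hmod.ramified hmod.closed
      (fun x hx => hmod.mult x hx.1 hx.2) hy fun x hx hxy => hmod.smooth x hx hxy).trans ?_
    exact Nat.mul_le_mul_left 2 (Main5_dim hy hzP)
  · exact (not_lt.1 hk).trans (le_max_right _ _)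

/-- **The main theorem.** -/
theorem main_final (M δ A : ℕ) (hA : 2 ≤ A) : ∃ N₀ : ℕ, 1 ≤ N₀ ∧ ∀ (m : ℕ)
    (P : Ideal (MvPolynomial (Fin (M + 1)) ℂ)) [P.IsPrime]
    (G : Fin m → MvPolynomial (Fin (M + 1)) ℂ), Homog P →
    (∀ j, ∃ e, 1 ≤ e ∧ e ≤ δ ∧ (G j).IsHomogeneous e) →
    (∀ i j, i ≠ j → ∀ c : ℂ, G i - C c * G j ∉ P) → (∀ j, IntegralSection P (G j)) →
    ∃ (d : ℕ) (Δ : MvPolynomial (Fin (M + 1)) ℂ), Δ ∉ P ∧ Δ.IsHomogeneous d ∧
      PartialTheorem A N₀ P G Δ ∧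
      (N₀ ≤ m → HasModels (m / N₀) P G → MorphismTheorem 2 P G Δ) := by
  obtain ⟨N₁, hN₁, h⟩ := main_partial M δ A (by omega)
  obtain ⟨K, hK⟩ : ∃ K, K = 2 * (N₁ + 1) * (2 * M + 1) := ⟨_, rfl⟩
  have hK1 : 2 * (N₁ + 1) ≤ K := by
    rw [hK]
    exact Nat.le_mul_of_pos_right _ (by omega)
  refine ⟨K, by omega, fun m P _ G hP hdeg hne hint => ?_⟩
  obtain ⟨d, Δ, hΔ, hd, h1, h2⟩ := h m P G hP hdeg hne hint
  refine ⟨d, Δ, hΔ, hd, h1 K (by omega), fun hm hmod => ?_⟩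
  have hGh : ∀ j, ∃ e, (G j).IsHomogeneous e := fun j => by
    obtain ⟨e, -, -, he⟩ := hdeg j
    exact ⟨e, he⟩
  refine h2 hA _ (atMostThrough_of_models hP hGh hne hint hmod) ?_
  rcases le_total (2 * M) (m / K) with h3 | h3
  · rw [max_eq_right h3]
    have h4 : 2 * (N₁ + 1) * (m / K) ≤ m :=
      (Nat.mul_le_mul_right _ hK1).trans (Nat.mul_div_le m K)
    have h5 : (N₁ + 1) * (m / K + 1) = (N₁ + 1) * (m / K) + (N₁ + 1) := by ring
    have h6 : 2 * (N₁ + 1) * (m / K) = 2 * ((N₁ + 1) * (m / K)) := by ring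
    omega
  · rw [max_eq_left h3]
    have h4 : (N₁ + 1) * (2 * M + 1) ≤ K := by
      rw [hK]
      calc (N₁ + 1) * (2 * M + 1) = 1 * ((N₁ + 1) * (2 * M + 1)) := (one_mul _).symm
        _ ≤ 2 * ((N₁ + 1) * (2 * M + 1)) := Nat.mul_le_mul_right _ (by norm_num)
        _ = 2 * (N₁ + 1) * (2 * M + 1) := by ring
    omega

end Pool.Agent.H5.DG4
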