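import Pool.Agent.H5.DG4.Clu
import Pool.Agent.H5.DG4.CluEst
import Pool.Agent.H5.DG.CovBd

/-!
# Project DG4, module PartEst: the estimates for a partition, analytic case

For every cluster `γ a` apply `cluster_est` with `g b ζ = eval (fun i => h i ζ) ((γ a).B b)`,
`R₀`; `lin (p j) g = c j * G (ι j) (h)` near all points (`eq`, `hP`).  `u` = all the `lin (lam i) g` and
all the `G (ι j) (h)` of all clusters (an index type `Fin l`), `J` = the latter, `Pf` = the product of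
the functions `P` of the clusters, `ρ` = the sum, `D = ∑ a, e * (len - 2 * κ)`.  With
`BaseFree P e B`: `size h ^ e ≤ C * size g` near all points (`Pool.Agent.H5.DG.exists_norm_bound`,
module CovBd), `size g ≤ C * size h ^ e`, and the minimum of the orders of the `g b` at `s` is
`e * minOrd h s` (divide by the `minOrd`-th power of `ζ - s`: values without common zero; some `B b`
does not vanish there).  `hub`, `hul` with `d = ` the maximum of the degrees `e` (`size h ≥ 1`,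
`minOrd h ≤ 0`).  The log derivatives: `c j * G` and `G` have the same.  `Γ.num` gives `1 ≤ A`, so
`2 * κ ≤ len`.  The functions `g b` are meromorphic, and either identically zero or `MeroPunct` (the
punctured disc is connected; the order is locally `⊤` or locally finite).

The ideal `P` has to be homogeneous (hypothesis `hhom`): the elements of `P` have to vanish at all the
multiples of the points of the curve (otherwise `size h ^ e ≤ C * size g` fails).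
-/

open MvPolynomial Filter Topology
open Pool.Agent.H62.FC (MeroPunct PunctMero)
open Pool.Agent.H92.GGL (ordZ)
open Pool.Agent.H5.DG

noncomputable section

namespace Pool.Agent.H5.DG4

variable {A M m : ℕ} {P : Ideal (MvPolynomial (Fin (M + 1)) ℂ)}
  {G : Fin m → MvPolynomial (Fin (M + 1)) ℂ} {S : Finset (Fin m)}

/-! ### Auxiliary lemmas -/

private theorem PartEst_identity {R₀ : ℝ} {u : ℂ → ℂ}
    (hu : ∀ z, 0 < ‖z‖ → ‖z‖ < R₀ → MeromorphicAt u z) {z₀ : ℂ} (h0 : 0 < ‖z₀‖)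
    (h1 : ‖z₀‖ < R₀) (h : meromorphicOrderAt u z₀ = ⊤) :
    ∀ z, 0 < ‖z‖ → ‖z‖ < R₀ → ∀ᶠ ζ in 𝓝[≠] z, u ζ = 0 := by
  intro z hz1 hz2
  rw [← meromorphicOrderAt_eq_top_iff]
  by_contra hcon
  have hm : MeromorphicOn u {z : ℂ | 0 < ‖z‖ ∧ ‖z‖ < R₀} := fun z hz => hu z hz.1 hz.2
  exact (hm.meromorphicOrderAt_ne_top_of_isPreconnected
    (Pool.Agent.H92.GGL.isPreconnected_punctured R₀) (x := z) (y := z₀) ⟨hz1, hz2⟩ ⟨h0, h1⟩ hcon) h

private theorem PartEst_dich {R₀ : ℝ} {u : ℂ → ℂ}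
    (hu : ∀ z, 0 < ‖z‖ → ‖z‖ < R₀ → MeromorphicAt u z) :
    MeroPunct R₀ u ∨ ∀ z, 0 < ‖z‖ → ‖z‖ < R₀ → ∀ᶠ ζ in 𝓝[≠] z, u ζ = 0 := by
  by_cases h : ∃ z₀ : ℂ, 0 < ‖z₀‖ ∧ ‖z₀‖ < R₀ ∧ meromorphicOrderAt u z₀ = ⊤
  · obtain ⟨z₀, h0, h1, h2⟩ := h
    exact Or.inr (PartEst_identity hu h0 h1 h2)
  · push Not at h
    exact Or.inl ⟨hu, h⟩

private theorem PartEst_mero {R₀ : ℝ} {h : Fin (M + 1) → ℂ → ℂ} {i₀ : Fin (M + 1)}
    (hh : Curve R₀ h i₀) {z : ℂ} (h1 : 0 < ‖z‖) (h2 : ‖z‖ < R₀) (i : Fin (M + 1)) :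
    MeromorphicAt (h i) z := by
  rcases hh.dich i with h3 | h3
  · exact h3.mero z h1 h2
  · refine (MeromorphicAt.const 0 z).congr ?_
    filter_upwards [h3 z h1 h2] with ζ hζ
    exact hζ.symm

private theorem PartEst_eval_mero {r : ℕ} {h : Fin r → ℂ → ℂ} {s : ℂ}
    (hξ : ∀ i, MeromorphicAt (h i) s) (F : MvPolynomial (Fin r) ℂ) :
    MeromorphicAt (fun z => eval (fun i => h i z) F) s := by
  induction F using MvPolynomial.induction_on with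
  | C a =>
    simp only [eval_C]
    exact MeromorphicAt.const a s
  | add p q hp hq =>
    simp only [map_add]
    exact hp.add hq
  | mul_X p i hp =>
    simp only [map_mul, eval_X]
    exact hp.mul (hξ i)

private theorem PartEst_eval_an {r : ℕ} {w : Fin r → ℂ → ℂ} {s : ℂ}
    (hw : ∀ i, AnalyticAt ℂ (w i) s) (F : MvPolynomial (Fin r) ℂ) :
    AnalyticAt ℂ (fun z => eval (fun i => w i z) F) s := by
  induction F using MvPolynomial.induction_on with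
  | C a =>
    simp only [eval_C]
    exact analyticAt_const
  | add p q hp hq =>
    simp only [map_add]
    exact hp.add hq
  | mul_X p i hp =>
    simp only [map_mul, eval_X]
    exact hp.mul (hw i)

private theorem PartEst_size {ι : Type} [Fintype ι] [Nonempty ι] (h : ι → ℂ → ℂ) (z : ℂ) :
    size h z = ‖fun i => h i z‖ := by
  refine le_antisymm (Finset.sup'_le _ _ fun i _ => norm_le_pi_norm (fun i => h i z) i) ?_
  refine (pi_norm_le_iff_of_nonempty _).2 fun i => ?_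
  exact Finset.le_sup' (fun i => ‖h i z‖) (Finset.mem_univ i)

private theorem PartEst_hombd {r e : ℕ} {F : MvPolynomial (Fin r) ℂ} (hF : F.IsHomogeneous e) :
    ∃ C : ℝ, 0 ≤ C ∧ ∀ x : Fin r → ℂ, ‖eval x F‖ ≤ C * ‖x‖ ^ e := by
  refine ⟨∑ d ∈ F.support, ‖coeff d F‖, Finset.sum_nonneg fun _ _ => norm_nonneg _, fun x => ?_⟩
  rw [eval_eq, Finset.sum_mul]
  refine (norm_sum_le _ _).trans (Finset.sum_le_sum fun d hd => ?_)
  rw [norm_mul]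
  refine mul_le_mul_of_nonneg_left ?_ (norm_nonneg _)
  have h1 : ∑ i ∈ d.support, d i = e := by
    have hdeg : d.degree = e := by
      by_contra hne
      exact (mem_support_iff.mp hd) (hF.coeff_eq_zero hne)
    exact hdeg
  rw [norm_prod]
  calc ∏ i ∈ d.support, ‖x i ^ d i‖ ≤ ∏ i ∈ d.support, ‖x‖ ^ d i :=
        Finset.prod_le_prod (fun _ _ => norm_nonneg _) fun i _ => by
          rw [norm_pow]
          exact pow_le_pow_left₀ (norm_nonneg _) (norm_le_pi_norm x i) _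
    _ = ‖x‖ ^ e := by rw [Finset.prod_pow_eq_pow_sum, h1]

private theorem PartEst_smul (hI : Homog P) {x : Fin (M + 1) → ℂ} (h : ∀ Q ∈ P, eval x Q = 0)
    (c : ℂ) {Q : MvPolynomial (Fin (M + 1)) ℂ} (hQ : Q ∈ P) : eval (c • x) Q = 0 := by
  rw [← MvPolynomial.sum_homogeneousComponent Q, map_sum]
  refine Finset.sum_eq_zero fun k _ => ?_
  have h1 := Pool.Agent.H17.eval_smul_of_isHomogeneous (homogeneousComponent_isHomogeneous k Q) c x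
  have h2 : eval (c • x) (homogeneousComponent k Q) =
      c ^ k * eval x (homogeneousComponent k Q) := h1
  rw [h2, h _ (hI Q hQ k), mul_zero]

private theorem PartEst_minOrd {R₀ : ℝ} {h : Fin (M + 1) → ℂ → ℂ} {i₀ : Fin (M + 1)}
    (hh : Curve R₀ h i₀) {s : ℂ} (h1 : 0 < ‖s‖) (h2 : ‖s‖ < R₀) :
    (∀ i, ((minOrd h s : ℤ) : WithTop ℤ) ≤ meromorphicOrderAt (h i) s) ∧
      ∃ i, meromorphicOrderAt (h i) s = ((minOrd h s : ℤ) : WithTop ℤ) := by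
  constructor
  · intro i
    by_cases ht : meromorphicOrderAt (h i) s = ⊤
    · rw [ht]
      exact le_top
    · rw [← Pool.Agent.H92.GGL.ordZ_cast ht]
      exact_mod_cast Finset.inf'_le (fun i => ordZ (h i) s) (Finset.mem_univ i)
  · obtain ⟨i, -, hi⟩ := Finset.exists_mem_eq_inf' Finset.univ_nonempty fun i => ordZ (h i) s
    have hi' : minOrd h s = ordZ (h i) s := hi
    by_cases ht : meromorphicOrderAt (h i) s = ⊤
    · refine ⟨i₀, ?_⟩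
      have h3 : ordZ (h i) s = 0 := by
        unfold ordZ
        rw [ht]
        rfl
      have h4 : h i₀ =ᶠ[𝓝[≠] s] fun _ => 1 := hh.one s h1 h2
      rw [hi', h3, meromorphicOrderAt_congr h4, meromorphicOrderAt_const]
      simp
    · exact ⟨i, by rw [hi', Pool.Agent.H92.GGL.ordZ_cast ht]⟩

private theorem PartEst_zpow (k : ℤ) (s : ℂ) :
    MeromorphicAt (fun ζ : ℂ => (ζ - s) ^ k) s ∧
      meromorphicOrderAt (fun ζ : ℂ => (ζ - s) ^ k) s = ((k : ℤ) : WithTop ℤ) := by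
  have h1 : MeromorphicAt (fun ζ : ℂ => (ζ - s) ^ k) s := by fun_prop
  refine ⟨h1, ?_⟩
  rw [meromorphicOrderAt_eq_int_iff h1]
  refine ⟨fun _ => 1, analyticAt_const, one_ne_zero, ?_⟩
  filter_upwards with z
  simp

/-- The local form of the coordinates. -/
private theorem PartEst_local {R₀ : ℝ} {h : Fin (M + 1) → ℂ → ℂ} {i₀ : Fin (M + 1)}
    (hh : Curve R₀ h i₀) {s : ℂ} (h1 : 0 < ‖s‖) (h2 : ‖s‖ < R₀) :
    ∃ w : Fin (M + 1) → ℂ → ℂ, (∀ i, AnalyticAt ℂ (w i) s) ∧ (fun i => w i s) ≠ 0 ∧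
      ∀ᶠ ζ in 𝓝[≠] s, ∀ i, h i ζ = (ζ - s) ^ minOrd h s * w i ζ := by
  obtain ⟨h3, i₁, h4⟩ := PartEst_minOrd hh h1 h2
  obtain ⟨w, hw, hhw, hwne⟩ := exists_local (fun i => PartEst_mero hh h1 h2 i) h3
  exact ⟨w, hw, fun h => hwne i₁ h4 (congrFun h i₁), Filter.eventually_all.2 hhw⟩

private theorem PartEst_pull {h w : Fin (M + 1) → ℂ → ℂ} {s : ℂ}
    (hw : ∀ᶠ ζ in 𝓝[≠] s, ∀ i, h i ζ = (ζ - s) ^ minOrd h s * w i ζ) {e : ℕ}
    {F : MvPolynomial (Fin (M + 1)) ℂ} (hF : F.IsHomogeneous e) :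
    (fun ζ => eval (fun i => h i ζ) F) =ᶠ[𝓝[≠] s]
      fun ζ => (ζ - s) ^ ((e : ℤ) * minOrd h s) * eval (fun i => w i ζ) F := by
  filter_upwards [hw] with ζ hζ
  have h3 : (fun i => h i ζ) = fun i => (ζ - s) ^ minOrd h s * w i ζ := funext hζ
  rw [h3, Pool.Agent.H17.eval_smul_of_isHomogeneous hF, ← zpow_natCast, ← zpow_mul,
    mul_comm (minOrd h s)]

/-- The order of a form along the curve. -/
private theorem PartEst_ord_ge {R₀ : ℝ} {h : Fin (M + 1) → ℂ → ℂ} {i₀ : Fin (M + 1)}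
    (hh : Curve R₀ h i₀) {s : ℂ} (h1 : 0 < ‖s‖) (h2 : ‖s‖ < R₀) {e : ℕ}
    {F : MvPolynomial (Fin (M + 1)) ℂ} (hF : F.IsHomogeneous e) :
    (((e : ℤ) * minOrd h s : ℤ) : WithTop ℤ) ≤
      meromorphicOrderAt (fun ζ => eval (fun i => h i ζ) F) s := by
  obtain ⟨w, hw, -, hhw⟩ := PartEst_local hh h1 h2
  obtain ⟨h3, h4⟩ := PartEst_zpow ((e : ℤ) * minOrd h s) s
  have h5 := PartEst_eval_an hw F
  rw [meromorphicOrderAt_congr (PartEst_pull hhw hF)]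
  have h6 := meromorphicOrderAt_mul h3 h5.meromorphicAt
  have h7 : meromorphicOrderAt (fun ζ => (ζ - s) ^ ((e : ℤ) * minOrd h s) *
      eval (fun i => w i ζ) F) s = (((e : ℤ) * minOrd h s : ℤ) : WithTop ℤ) +
      meromorphicOrderAt (fun ζ => eval (fun i => w i ζ) F) s := by
    rw [← h4]
    exact h6
  rw [h7]
  exact le_add_of_nonneg_right h5.meromorphicOrderAt_nonneg

private theorem PartEst_ordZ_ge {R₀ : ℝ} {h : Fin (M + 1) → ℂ → ℂ} {i₀ : Fin (M + 1)}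
    (hh : Curve R₀ h i₀) {s : ℂ} (h1 : 0 < ‖s‖) (h2 : ‖s‖ < R₀) {e : ℕ}
    {F : MvPolynomial (Fin (M + 1)) ℂ} (hF : F.IsHomogeneous e)
    (ht : meromorphicOrderAt (fun ζ => eval (fun i => h i ζ) F) s ≠ ⊤) :
    (e : ℤ) * minOrd h s ≤ ordZ (fun ζ => eval (fun i => h i ζ) F) s := by
  have h3 := PartEst_ord_ge hh h1 h2 hF
  rw [← Pool.Agent.H92.GGL.ordZ_cast ht] at h3
  exact_mod_cast h3

private theorem PartEst_ord_eq (hI : Homog P) {n e : ℕ}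
    {B : Fin (n + 1) → MvPolynomial (Fin (M + 1)) ℂ} (hB : BaseFree P e B) {R₀ : ℝ}
    {h : Fin (M + 1) → ℂ → ℂ} {i₀ : Fin (M + 1)} (hh : Curve R₀ h i₀) {s : ℂ} (h1 : 0 < ‖s‖)
    (h2 : ‖s‖ < R₀) (hP : ∀ᶠ ζ in 𝓝[≠] s, ∀ R ∈ P, eval (fun i => h i ζ) R = 0) :
    ∃ b, meromorphicOrderAt (fun ζ => eval (fun i => h i ζ) (B b)) s =
      (((e : ℤ) * minOrd h s : ℤ) : WithTop ℤ) := by
  obtain ⟨w, hw, hw0, hhw⟩ := PartEst_local hh h1 h2
  have hv : ∀ Q ∈ P, eval (fun i => w i s) Q = 0 := by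
    intro Q hQ
    have h3 : ∀ᶠ ζ in 𝓝[≠] s, eval (fun i => w i ζ) Q = 0 := by
      filter_upwards [hhw, hP, self_mem_nhdsWithin] with ζ a1 a2 a3
      have a4 : (ζ - s) ^ minOrd h s ≠ 0 := zpow_ne_zero _ (sub_ne_zero.2 a3)
      have a5 : (fun i => w i ζ) = ((ζ - s) ^ minOrd h s)⁻¹ • fun i => h i ζ := by
        funext i
        rw [Pi.smul_apply, smul_eq_mul, a1 i, ← mul_assoc, inv_mul_cancel₀ a4, one_mul]
      rw [a5]
      exact PartEst_smul hI a2 _ hQ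
    have h4 : Tendsto (fun ζ => eval (fun i => w i ζ) Q) (𝓝[≠] s)
        (𝓝 (eval (fun i => w i s) Q)) :=
      (PartEst_eval_an hw Q).continuousAt.tendsto.mono_left nhdsWithin_le_nhds
    have h5 : Tendsto (fun ζ => eval (fun i => w i ζ) Q) (𝓝[≠] s) (𝓝 0) :=
      tendsto_const_nhds.congr' (h3.mono fun _ h => h.symm)
    exact tendsto_nhds_unique h4 h5
  have hne := eval_ne_zero hB hw0 hv
  obtain ⟨b, hb⟩ : ∃ b, eval (fun i => w i s) (B b) ≠ 0 := by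
    by_contra hc
    push Not at hc
    exact hne (funext hc)
  refine ⟨b, ?_⟩
  rw [meromorphicOrderAt_eq_int_iff (PartEst_eval_mero (fun i => PartEst_mero hh h1 h2 i) _)]
  refine ⟨fun ζ => eval (fun i => w i ζ) (B b), PartEst_eval_an hw _, hb, ?_⟩
  exact PartEst_pull hhw (hB.hom b)

private theorem PartEst_aeval {r r' : ℕ} (F : Fin r → MvPolynomial (Fin r') ℂ) (x : Fin r' → ℂ)
    (Q : MvPolynomial (Fin r) ℂ) : eval x (aeval F Q) = eval (fun a => eval x (F a)) Q := by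
  induction Q using MvPolynomial.induction_on with
  | C a => simp
  | add p q hp hq => rw [map_add, map_add, map_add, hp, hq]
  | mul_X p i hp => rw [map_mul, map_mul, map_mul, hp, aeval_X, eval_X]

private theorem PartEst_comb {n : ℕ} (τ : Fin (n + 2) → ℂ)
    (B : Fin (n + 2) → MvPolynomial (Fin (M + 1)) ℂ) (h : Fin (M + 1) → ℂ → ℂ) :
    lin τ (fun b ζ => eval (fun i => h i ζ) (B b)) =
      fun ζ => eval (fun i => h i ζ) (comb τ B) := by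
  funext ζ
  unfold lin dot comb
  rw [map_sum]
  refine Finset.sum_congr rfl fun a _ => ?_
  rw [map_mul, eval_C]

private theorem PartEst_sum_le {ι : Type} [Fintype ι] [Nonempty ι] (g : ι → ℂ → ℂ) (z : ℂ) :
    ∑ a, ‖g a z‖ ≤ Fintype.card ι * size g z := by
  have h1 : ∀ a ∈ Finset.univ, ‖g a z‖ ≤ size g z := fun a ha =>
    Finset.le_sup' (fun i => ‖g i z‖) ha
  have h2 := Finset.sum_le_card_nsmul Finset.univ (fun a => ‖g a z‖) (size g z) h1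
  rwa [nsmul_eq_mul, Finset.card_univ] at h2

private theorem PartEst_size_nonneg {ι : Type} [Fintype ι] [Nonempty ι] (g : ι → ℂ → ℂ) (z : ℂ) :
    0 ≤ size g z := by
  rw [PartEst_size]
  exact norm_nonneg _

/-- The estimates for one cluster. -/
private theorem PartEst_cluster (hI : Homog P) (γ : Cluster A P G) (hk : 2 * γ.κ ≤ γ.len)
    {R₀ : ℝ} (hR₀ : 0 < R₀) {h : Fin (M + 1) → ℂ → ℂ} {i₀ : Fin (M + 1)} (hh : Curve R₀ h i₀)
    (hP : ∀ z, 0 < ‖z‖ → ‖z‖ < R₀ → ∀ᶠ ζ in 𝓝[≠] z, ∀ R ∈ P, eval (fun i => h i ζ) R = 0)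
    (hΔ : ∀ z, 0 < ‖z‖ → ‖z‖ < R₀ → ∀ᶠ ζ in 𝓝[≠] z, eval (fun i => h i ζ) γ.form ≠ 0)
    (hG : ∀ j, MeroPunct R₀ fun ζ => eval (fun i => h i ζ) (G (γ.ι j))) :
    ∃ (l : ℕ) (u : Fin l ⊕ Fin γ.len → ℂ → ℂ) (Pf : ℂ → ℂ) (ρ : ℕ) (C : ℝ), 0 ≤ C ∧
      (∀ k, MeroPunct R₀ (u k)) ∧ MeroPunct R₀ Pf ∧
      (∀ ζ k, ‖u k ζ‖ ≤ C * size h ζ ^ γ.e) ∧
      (∀ s, 0 < ‖s‖ → ‖s‖ < R₀ → ∀ k, (γ.e : ℤ) * minOrd h s ≤ ordZ (u k) s) ∧
      (∀ z, 0 < ‖z‖ → ‖z‖ < R₀ → ∀ᶠ ζ in 𝓝[≠] z,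
        ‖Pf ζ‖ * size h ζ ^ (γ.e * (γ.len - 2 * γ.κ)) ≤
          C * (∏ j, ‖u (Sum.inr j) ζ‖) * (1 + ∑ k, ‖deriv (u k) ζ / u k ζ‖) ^ ρ) ∧
      ∀ s, 0 < ‖s‖ → ‖s‖ < R₀ → ∑ j, ordZ (u (Sum.inr j)) s ≤ ordZ Pf s +
        ((γ.e * (γ.len - 2 * γ.κ) : ℕ) : ℤ) * minOrd h s +
        ((Finset.univ.filter fun j => (γ.e : ℤ) * minOrd h s <
          ordZ (fun ζ => eval (fun i => h i ζ) (G (γ.ι j))) s).card : ℤ) := by
  classical
  obtain ⟨g, hgdef⟩ : ∃ g : Fin (γ.n + 2) → ℂ → ℂ,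
      g = fun b ζ => eval (fun i => h i ζ) (γ.B b) := ⟨_, rfl⟩
  have hlin : ∀ τ, lin τ g = fun ζ => eval (fun i => h i ζ) (comb τ γ.B) := by
    intro τ
    rw [hgdef]
    exact PartEst_comb τ γ.B h
  have hcomb : ∀ τ, (comb τ γ.B).IsHomogeneous γ.e := fun τ => comb_isHomogeneous τ γ.base.hom
  have hmero : ∀ (F : MvPolynomial (Fin (M + 1)) ℂ) z, 0 < ‖z‖ → ‖z‖ < R₀ →
      MeromorphicAt (fun ζ => eval (fun i => h i ζ) F) z := fun F z h1 h2 =>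
    PartEst_eval_mero (fun i => PartEst_mero hh h1 h2 i) F
  -- the functions given by the points
  have hpe : ∀ j z, 0 < ‖z‖ → ‖z‖ < R₀ →
      lin (γ.p j) g =ᶠ[𝓝[≠] z] fun ζ => γ.c j * eval (fun i => h i ζ) (G (γ.ι j)) := by
    intro j z h1 h2
    filter_upwards [hP z h1 h2] with ζ hζ
    have h3 := hζ _ (γ.eq j)
    rw [map_sub, map_mul, eval_C, sub_eq_zero] at h3
    rw [hlin, h3]
  have hpo : ∀ j z, 0 < ‖z‖ → ‖z‖ < R₀ → meromorphicOrderAt (lin (γ.p j) g) z =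
      meromorphicOrderAt (fun ζ => eval (fun i => h i ζ) (G (γ.ι j))) z := by
    intro j z h1 h2
    rw [meromorphicOrderAt_congr (hpe j z h1 h2)]
    have h3 := meromorphicOrderAt_mul (MeromorphicAt.const (γ.c j) z)
      (hmero (G (γ.ι j)) z h1 h2)
    rw [meromorphicOrderAt_const, if_neg (γ.cne j), zero_add] at h3
    exact h3
  have hpm : ∀ j, MeroPunct R₀ (lin (γ.p j) g) := by
    intro j
    refine ⟨fun z h1 h2 => ?_, fun z h1 h2 => ?_⟩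
    · rw [hlin]
      exact hmero _ z h1 h2
    · rw [hpo j z h1 h2]
      exact (hG j).ord z h1 h2
  have hgm : ∀ a z, 0 < ‖z‖ → ‖z‖ < R₀ → MeromorphicAt (g a) z := by
    intro a z h1 h2
    rw [hgdef]
    exact hmero _ z h1 h2
  obtain ⟨l, lam, Pf, ρ, C₁, c1, c2, c3, c4, c5⟩ := cluster_est γ.data γ.hom γ.mem γ.pinj hk hR₀
    (g := g) (fun a => PartEst_dich (hgm a)) hgm (by
      intro z h1 h2
      filter_upwards [hΔ z h1 h2] with ζ hζ hcon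
      apply hζ
      unfold Cluster.form
      rw [PartEst_aeval, ← hcon, hgdef]) hpm
  obtain ⟨C₂, hC₂, hC₂'⟩ := exists_norm_bound γ.base
  choose K hK0 hK using fun k : Fin l ⊕ Fin γ.len => PartEst_hombd (hcomb (Sum.elim lam γ.p k))
  obtain ⟨C₃, hC₃⟩ : ∃ C₃ : ℝ, C₃ = C₂ * (Fintype.card (Fin (γ.n + 2)) : ℝ) := ⟨_, rfl⟩
  have hC₃0 : 0 ≤ C₃ := by
    rw [hC₃]
    positivity
  have hKs : 0 ≤ ∑ k, K k := Finset.sum_nonneg fun k _ => hK0 k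
  have hC₁' : 0 ≤ C₃ ^ (γ.len - 2 * γ.κ) * C₁ := mul_nonneg (pow_nonneg hC₃0 _) c3
  have hmp : ∀ k, MeroPunct R₀ (lin (Sum.elim lam γ.p k) g) := by
    intro k
    cases k with
    | inl i => exact c1 i
    | inr j => exact hpm j
  refine ⟨l, fun k => lin (Sum.elim lam γ.p k) g, Pf, ρ,
    C₃ ^ (γ.len - 2 * γ.κ) * C₁ + ∑ k, K k, add_nonneg hC₁' hKs, hmp, c2, ?_, ?_, ?_, ?_⟩
  · intro ζ k
    have h1 := hK k (fun i => h i ζ)
    rw [← PartEst_size] at h1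
    have h2 : K k ≤ C₃ ^ (γ.len - 2 * γ.κ) * C₁ + ∑ k, K k := by
      have h3 : K k ≤ ∑ k, K k := Finset.single_le_sum (fun b _ => hK0 b) (Finset.mem_univ k)
      linarith
    show ‖lin (Sum.elim lam γ.p k) g ζ‖ ≤ _
    rw [hlin]
    exact h1.trans (mul_le_mul_of_nonneg_right h2 (pow_nonneg (PartEst_size_nonneg h ζ) _))
  · intro s h1 h2 k
    have h3 := (hmp k).ord s h1 h2
    rw [hlin] at h3
    show (γ.e : ℤ) * minOrd h s ≤ ordZ (lin (Sum.elim lam γ.p k) g) s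
    rw [hlin]
    exact PartEst_ordZ_ge hh h1 h2 (hcomb _) h3
  · intro z h1 h2
    filter_upwards [c4 z h1 h2, hP z h1 h2] with ζ a1 a2
    have a3 : size h ζ ^ γ.e ≤ C₃ * size g ζ := by
      have b1 := hC₂' (fun i => h i ζ) fun c Q hQ => PartEst_smul hI a2 c hQ
      rw [← PartEst_size] at b1
      have b2 := PartEst_sum_le g ζ
      calc size h ζ ^ γ.e ≤ C₂ * ∑ a, ‖eval (fun i => h i ζ) (γ.B a)‖ := b1
        _ = C₂ * ∑ a, ‖g a ζ‖ := by rw [hgdef]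
        _ ≤ C₂ * (Fintype.card (Fin (γ.n + 2)) * size g ζ) :=
            mul_le_mul_of_nonneg_left b2 hC₂.le
        _ = C₃ * size g ζ := by rw [hC₃, mul_assoc]
    have a4 : (size h ζ ^ γ.e) ^ (γ.len - 2 * γ.κ) ≤
        C₃ ^ (γ.len - 2 * γ.κ) * size g ζ ^ (γ.len - 2 * γ.κ) := by
      rw [← mul_pow]
      exact pow_le_pow_left₀ (pow_nonneg (PartEst_size_nonneg h ζ) _) a3 _
    have a5 : (0 : ℝ) ≤ ∑ i, ‖deriv (lin (lam i) g) ζ / lin (lam i) g ζ‖ :=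
      Finset.sum_nonneg fun _ _ => norm_nonneg _
    have a6 : ∑ i, ‖deriv (lin (lam i) g) ζ / lin (lam i) g ζ‖ ≤
        ∑ k, ‖deriv (lin (Sum.elim lam γ.p k) g) ζ / lin (Sum.elim lam γ.p k) g ζ‖ := by
      rw [Fintype.sum_sum_type]
      simp only [Sum.elim_inl, Sum.elim_inr]
      exact le_add_of_nonneg_right (Finset.sum_nonneg fun _ _ => norm_nonneg _)
    have a7 : (1 + ∑ i, ‖deriv (lin (lam i) g) ζ / lin (lam i) g ζ‖) ^ ρ ≤
        (1 + ∑ k, ‖deriv (lin (Sum.elim lam γ.p k) g) ζ / lin (Sum.elim lam γ.p k) g ζ‖) ^ ρ :=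
      pow_le_pow_left₀ (by linarith) (by linarith) _
    have a8 : 0 ≤ ∏ j, ‖lin (γ.p j) g ζ‖ := Finset.prod_nonneg fun _ _ => norm_nonneg _
    have a9 : 0 ≤ (1 + ∑ k, ‖deriv (lin (Sum.elim lam γ.p k) g) ζ /
        lin (Sum.elim lam γ.p k) g ζ‖) ^ ρ := pow_nonneg (by linarith) _
    rw [pow_mul]
    calc ‖Pf ζ‖ * (size h ζ ^ γ.e) ^ (γ.len - 2 * γ.κ) ≤
          ‖Pf ζ‖ * (C₃ ^ (γ.len - 2 * γ.κ) * size g ζ ^ (γ.len - 2 * γ.κ)) :=
          mul_le_mul_of_nonneg_left a4 (norm_nonneg _)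
      _ = C₃ ^ (γ.len - 2 * γ.κ) * (‖Pf ζ‖ * size g ζ ^ (γ.len - 2 * γ.κ)) := by ring
      _ ≤ C₃ ^ (γ.len - 2 * γ.κ) * (C₁ * (∏ j, ‖lin (γ.p j) g ζ‖) *
          (1 + ∑ i, ‖deriv (lin (lam i) g) ζ / lin (lam i) g ζ‖) ^ ρ) :=
          mul_le_mul_of_nonneg_left a1 (pow_nonneg hC₃0 _)
      _ = C₃ ^ (γ.len - 2 * γ.κ) * C₁ * (∏ j, ‖lin (γ.p j) g ζ‖) *
          (1 + ∑ i, ‖deriv (lin (lam i) g) ζ / lin (lam i) g ζ‖) ^ ρ := by ring
      _ ≤ C₃ ^ (γ.len - 2 * γ.κ) * C₁ * (∏ j, ‖lin (γ.p j) g ζ‖) *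
          (1 + ∑ k, ‖deriv (lin (Sum.elim lam γ.p k) g) ζ /
            lin (Sum.elim lam γ.p k) g ζ‖) ^ ρ :=
          mul_le_mul_of_nonneg_left a7 (mul_nonneg hC₁' a8)
      _ ≤ (C₃ ^ (γ.len - 2 * γ.κ) * C₁ + ∑ k, K k) * (∏ j, ‖lin (γ.p j) g ζ‖) *
          (1 + ∑ k, ‖deriv (lin (Sum.elim lam γ.p k) g) ζ /
            lin (Sum.elim lam γ.p k) g ζ‖) ^ ρ := by
          refine mul_le_mul_of_nonneg_right (mul_le_mul_of_nonneg_right ?_ a8) a9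
          linarith
  · intro s h1 h2
    obtain ⟨b, hb⟩ := PartEst_ord_eq hI γ.base hh h1 h2 (hP s h1 h2)
    have h3 := c5 s h1 h2 ((γ.e : ℤ) * minOrd h s) (by
      intro a
      rw [hgdef]
      exact PartEst_ord_ge hh h1 h2 (γ.base.hom a)) ⟨b, by rw [hgdef]; exact hb⟩
    have h4 : ∀ j, ordZ (lin (γ.p j) g) s =
        ordZ (fun ζ => eval (fun i => h i ζ) (G (γ.ι j))) s := by
      intro j
      unfold ordZ
      rw [hpo j s h1 h2]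
    have h5 : (Finset.univ.filter fun j => (γ.e : ℤ) * minOrd h s < ordZ (lin (γ.p j) g) s) =
        Finset.univ.filter fun j => (γ.e : ℤ) * minOrd h s <
          ordZ (fun ζ => eval (fun i => h i ζ) (G (γ.ι j))) s := by
      refine Finset.filter_congr fun j _ => ?_
      rw [h4 j]
    rw [h5] at h3
    refine h3.trans (le_of_eq ?_)
    push_cast
    ring

/-- The number of the hypersurfaces of the clusters which are met at `s`. -/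
def Partition.count (Γ : Partition A P G S) (h : Fin (M + 1) → ℂ → ℂ) (s : ℂ) : ℕ :=
  ∑ a, (Finset.univ.filter fun j => ((Γ.γ a).e : ℤ) * minOrd h s <
    ordZ (fun ζ => eval (fun i => h i ζ) (G ((Γ.γ a).ι j))) s).card

theorem partition_est (Γ : Partition A P G S) (hhom : Homog P) {R₀ : ℝ} (hR₀ : 0 < R₀)
    {h : Fin (M + 1) → ℂ → ℂ} {i₀ : Fin (M + 1)} (hh : Curve R₀ h i₀)
    (hP : ∀ z, 0 < ‖z‖ → ‖z‖ < R₀ → ∀ᶠ ζ in 𝓝[≠] z, ∀ R ∈ P, eval (fun i => h i ζ) R = 0)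
    (hΔ : ∀ z, 0 < ‖z‖ → ‖z‖ < R₀ → ∀ᶠ ζ in 𝓝[≠] z, eval (fun i => h i ζ) Γ.form ≠ 0)
    (hG : ∀ a j, MeroPunct R₀ fun ζ => eval (fun i => h i ζ) (G ((Γ.γ a).ι j))) :
    ∃ (l : ℕ) (u : Fin l → ℂ → ℂ) (J : Finset (Fin l)) (Pf : ℂ → ℂ) (ρ d : ℕ) (C : ℝ),
      (∀ j, MeroPunct R₀ (u j)) ∧ MeroPunct R₀ Pf ∧
      (∀ z, 0 < ‖z‖ → ‖z‖ < R₀ → ∀ᶠ ζ in 𝓝[≠] z, ∀ j, ‖u j ζ‖ ≤ C * size h ζ ^ d) ∧
      (∀ s, 0 < ‖s‖ → ‖s‖ < R₀ → ∀ j, d * minOrd h s ≤ ordZ (u j) s) ∧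
      (∀ z, 0 < ‖z‖ → ‖z‖ < R₀ → ∀ᶠ ζ in 𝓝[≠] z,
        ‖Pf ζ‖ * size h ζ ^ (∑ a, (Γ.γ a).e * ((Γ.γ a).len - 2 * (Γ.γ a).κ)) ≤
          C * (∏ j ∈ J, ‖u j ζ‖) * (1 + ∑ j, ‖deriv (u j) ζ / u j ζ‖) ^ ρ) ∧
      ∀ s, 0 < ‖s‖ → ‖s‖ < R₀ → ((∑ j ∈ J, ordZ (u j) s : ℤ) : ℝ) ≤ (ordZ Pf s : ℝ) +
        ((∑ a, (Γ.γ a).e * ((Γ.γ a).len - 2 * (Γ.γ a).κ) : ℕ) : ℝ) * minOrd h s +
        (Γ.count h s : ℝ) := by
  classical
  have hkl : ∀ a, 2 * (Γ.γ a).κ ≤ (Γ.γ a).len := by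
    intro a
    have hA : 1 ≤ A := by
      by_contra hcon
      have h0 : A = 0 := by omega
      have h1 := Γ.num
      rw [Nat.mul_eq_zero.2 (Or.inl h0)] at h1
      exact absurd h1 (Nat.not_lt_zero _)
    have h1 := (Γ.γ a).card
    have h2 : 1 * 1 ≤ A * ((Γ.γ a).n + 6) := Nat.mul_le_mul hA (by omega)
    have h3 : 2 * (Γ.γ a).κ ≤ 2 * A * ((Γ.γ a).n + 6) * (Γ.γ a).κ := by
      calc 2 * (Γ.γ a).κ = 2 * (1 * 1) * (Γ.γ a).κ := by ring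
        _ ≤ 2 * (A * ((Γ.γ a).n + 6)) * (Γ.γ a).κ :=
            Nat.mul_le_mul_right _ (Nat.mul_le_mul_left _ h2)
        _ = 2 * A * ((Γ.γ a).n + 6) * (Γ.γ a).κ := by ring
    omega
  have hform : ∀ ζ, eval (fun i => h i ζ) Γ.form =
      ∏ a, eval (fun i => h i ζ) (Γ.γ a).form := fun ζ => by
    unfold Partition.form
    rw [map_prod]
  choose l u Pf ρ C c0 c1 c2 c3 c4 c5 c6 using fun a => PartEst_cluster hhom (Γ.γ a) (hkl a) hR₀
    hh hP (fun z h1 h2 => by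
      filter_upwards [hΔ z h1 h2] with ζ hζ hcon
      apply hζ
      rw [hform]
      exact Finset.prod_eq_zero (Finset.mem_univ a) hcon) (hG a)
  obtain ⟨d, hd⟩ : ∃ d : ℕ, d = ∑ a, (Γ.γ a).e := ⟨_, rfl⟩
  have hde : ∀ a, (Γ.γ a).e ≤ d := fun a => by
    rw [hd]
    exact Finset.single_le_sum (f := fun a => (Γ.γ a).e) (fun _ _ => Nat.zero_le _)
      (Finset.mem_univ a)
  have hCs : 0 ≤ ∑ a, C a := Finset.sum_nonneg fun a _ => c0 a
  have hCp : 0 ≤ ∏ a, C a := Finset.prod_nonneg fun a _ => c0 a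
  -- the index type
  obtain ⟨U, hU⟩ : ∃ U : (Σ a, (Fin (l a) ⊕ Fin (Γ.γ a).len)) → ℂ → ℂ,
      U = fun k => u k.1 k.2 := ⟨_, rfl⟩
  obtain ⟨J, hJ⟩ : ∃ J : Finset (Σ a, (Fin (l a) ⊕ Fin (Γ.γ a).len)),
      J = Finset.univ.sigma fun a => Finset.univ.map Function.Embedding.inr := ⟨_, rfl⟩
  have hsize1 : ∀ z, 0 < ‖z‖ → ‖z‖ < R₀ → ∀ᶠ ζ in 𝓝[≠] z, 1 ≤ size h ζ := by
    intro z h1 h2
    filter_upwards [hh.one z h1 h2] with ζ hζ
    have h3 : ‖h i₀ ζ‖ ≤ size h ζ := Finset.le_sup' (fun i => ‖h i ζ‖) (Finset.mem_univ i₀)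
    rwa [hζ, norm_one] at h3
  have hub : ∀ z, 0 < ‖z‖ → ‖z‖ < R₀ → ∀ᶠ ζ in 𝓝[≠] z, ∀ k,
      ‖U k ζ‖ ≤ (∑ a, C a + ∏ a, C a) * size h ζ ^ d := by
    intro z h1 h2
    filter_upwards [hsize1 z h1 h2] with ζ hζ k
    have h3 := c3 k.1 ζ k.2
    have h4 : size h ζ ^ (Γ.γ k.1).e ≤ size h ζ ^ d := pow_le_pow_right₀ hζ (hde k.1)
    have h5 : C k.1 ≤ ∑ a, C a + ∏ a, C a := by
      have h6 : C k.1 ≤ ∑ a, C a := Finset.single_le_sum (fun b _ => c0 b) (Finset.mem_univ k.1)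
      linarith
    rw [hU]
    exact h3.trans (mul_le_mul h5 h4 (pow_nonneg (PartEst_size_nonneg h ζ) _)
      (add_nonneg hCs hCp))
  have hul : ∀ s, 0 < ‖s‖ → ‖s‖ < R₀ → ∀ k, (d : ℤ) * minOrd h s ≤ ordZ (U k) s := by
    intro s h1 h2 k
    have h3 := c4 k.1 s h1 h2 k.2
    have h4 := hh.minOrd_le h1 h2
    have h5 : ((Γ.γ k.1).e : ℤ) ≤ d := by exact_mod_cast hde k.1
    have h6 : (d : ℤ) * minOrd h s ≤ ((Γ.γ k.1).e : ℤ) * minOrd h s :=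
      mul_le_mul_of_nonpos_right h5 h4
    rw [hU]
    exact h6.trans h3
  have hprodJ : ∀ ζ, ∏ k ∈ J, ‖U k ζ‖ = ∏ a, ∏ j, ‖u a (Sum.inr j) ζ‖ := by
    intro ζ
    rw [hJ, Finset.prod_sigma]
    refine Finset.prod_congr rfl fun a _ => ?_
    rw [Finset.prod_map, hU]
    rfl
  have hsumJ : ∀ s, ∑ k ∈ J, ordZ (U k) s = ∑ a, ∑ j, ordZ (u a (Sum.inr j)) s := by
    intro s
    rw [hJ, Finset.sum_sigma]
    refine Finset.sum_congr rfl fun a _ => ?_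
    rw [Finset.sum_map, hU]
    rfl
  have hsumU : ∀ ζ, ∑ k, ‖deriv (U k) ζ / U k ζ‖ =
      ∑ a, ∑ k, ‖deriv (u a k) ζ / u a k ζ‖ := by
    intro ζ
    rw [Fintype.sum_sigma, hU]
  have hpt : ∀ z, 0 < ‖z‖ → ‖z‖ < R₀ → ∀ᶠ ζ in 𝓝[≠] z,
      ‖∏ a, Pf a ζ‖ * size h ζ ^ (∑ a, (Γ.γ a).e * ((Γ.γ a).len - 2 * (Γ.γ a).κ)) ≤
        (∑ a, C a + ∏ a, C a) * (∏ k ∈ J, ‖U k ζ‖) *
          (1 + ∑ k, ‖deriv (U k) ζ / U k ζ‖) ^ (∑ a, ρ a) := by
    intro z h1 h2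
    filter_upwards [Filter.eventually_all.2 fun a => c5 a z h1 h2] with ζ hζ
    have h0 : ∀ a, 0 ≤ ∑ k, ‖deriv (u a k) ζ / u a k ζ‖ := fun a =>
      Finset.sum_nonneg fun _ _ => norm_nonneg _
    have h3 : ∀ a, ∑ k, ‖deriv (u a k) ζ / u a k ζ‖ ≤ ∑ k, ‖deriv (U k) ζ / U k ζ‖ := by
      intro a
      rw [hsumU]
      exact Finset.single_le_sum (fun b _ => h0 b) (Finset.mem_univ a)
    have h4 : ∀ a, 0 ≤ ∏ j, ‖u a (Sum.inr j) ζ‖ := fun a =>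
      Finset.prod_nonneg fun _ _ => norm_nonneg _
    have h5 : 0 ≤ ∏ k ∈ J, ‖U k ζ‖ := Finset.prod_nonneg fun _ _ => norm_nonneg _
    have h6 : 0 ≤ ∑ k, ‖deriv (U k) ζ / U k ζ‖ := Finset.sum_nonneg fun _ _ => norm_nonneg _
    calc ‖∏ a, Pf a ζ‖ * size h ζ ^ (∑ a, (Γ.γ a).e * ((Γ.γ a).len - 2 * (Γ.γ a).κ)) =
          ∏ a, (‖Pf a ζ‖ * size h ζ ^ ((Γ.γ a).e * ((Γ.γ a).len - 2 * (Γ.γ a).κ))) := by
          rw [norm_prod, Finset.prod_mul_distrib, Finset.prod_pow_eq_pow_sum]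
      _ ≤ ∏ a, (C a * (∏ j, ‖u a (Sum.inr j) ζ‖) *
          (1 + ∑ k, ‖deriv (U k) ζ / U k ζ‖) ^ ρ a) := by
          refine Finset.prod_le_prod (fun a _ => mul_nonneg (norm_nonneg _)
            (pow_nonneg (PartEst_size_nonneg h ζ) _)) fun a _ => (hζ a).trans ?_
          refine mul_le_mul_of_nonneg_left ?_ (mul_nonneg (c0 a) (h4 a))
          exact pow_le_pow_left₀ (by linarith [h0 a]) (by linarith [h3 a]) _
      _ = (∏ a, C a) * (∏ k ∈ J, ‖U k ζ‖) *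
          (1 + ∑ k, ‖deriv (U k) ζ / U k ζ‖) ^ (∑ a, ρ a) := by
          rw [Finset.prod_mul_distrib, Finset.prod_mul_distrib, Finset.prod_pow_eq_pow_sum,
            hprodJ]
      _ ≤ _ := by
          refine mul_le_mul_of_nonneg_right (mul_le_mul_of_nonneg_right ?_ h5)
            (pow_nonneg (by linarith) _)
          linarith
  have hPo : ∀ s, 0 < ‖s‖ → ‖s‖ < R₀ →
      meromorphicOrderAt (fun z => ∏ a, Pf a z) s = ∑ a, meromorphicOrderAt (Pf a) s :=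
    fun s h1 h2 => meromorphicOrderAt_fun_prod fun a _ => (c2 a).mero s h1 h2
  have hPcast : ∀ s, 0 < ‖s‖ → ‖s‖ < R₀ →
      meromorphicOrderAt (fun z => ∏ a, Pf a z) s = ((∑ a, ordZ (Pf a) s : ℤ) : WithTop ℤ) := by
    intro s h1 h2
    rw [hPo s h1 h2, WithTop.coe_sum]
    exact Finset.sum_congr rfl fun a _ =>
      (Pool.Agent.H92.GGL.ordZ_cast ((c2 a).ord s h1 h2)).symm
  have hPm : MeroPunct R₀ fun z => ∏ a, Pf a z := by
    refine ⟨fun z h1 h2 => ?_, fun z h1 h2 => ?_⟩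
    · exact MeromorphicAt.fun_prod fun a _ => (c2 a).mero z h1 h2
    · rw [hPcast z h1 h2]
      exact WithTop.coe_ne_top
  have hloc : ∀ s, 0 < ‖s‖ → ‖s‖ < R₀ → ((∑ k ∈ J, ordZ (U k) s : ℤ) : ℝ) ≤
      (ordZ (fun z => ∏ a, Pf a z) s : ℝ) +
      ((∑ a, (Γ.γ a).e * ((Γ.γ a).len - 2 * (Γ.γ a).κ) : ℕ) : ℝ) * minOrd h s +
      (Γ.count h s : ℝ) := by
    intro s h1 h2
    have h3 : ordZ (fun z => ∏ a, Pf a z) s = ∑ a, ordZ (Pf a) s := by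
      have h4 := Pool.Agent.H92.GGL.ordZ_cast (hPm.ord s h1 h2)
      rw [hPcast s h1 h2] at h4
      exact_mod_cast h4
    have h4 : ∑ k ∈ J, ordZ (U k) s ≤ ordZ (fun z => ∏ a, Pf a z) s +
        ((∑ a, (Γ.γ a).e * ((Γ.γ a).len - 2 * (Γ.γ a).κ) : ℕ) : ℤ) * minOrd h s +
        ((Γ.count h s : ℕ) : ℤ) := by
      rw [hsumJ, h3]
      refine (Finset.sum_le_sum fun a _ => c6 a s h1 h2).trans (le_of_eq ?_)
      rw [Finset.sum_add_distrib, Finset.sum_add_distrib, ← Finset.sum_mul, ← Nat.cast_sum]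
      unfold Partition.count
      rw [← Nat.cast_sum]
    exact_mod_cast h4
  -- transfer to `Fin`
  obtain ⟨E⟩ : Nonempty ((Σ a, (Fin (l a) ⊕ Fin (Γ.γ a).len)) ≃
    Fin (Fintype.card (Σ a, (Fin (l a) ⊕ Fin (Γ.γ a).len)))) := ⟨Fintype.equivFin _⟩
  refine ⟨_, fun j => U (E.symm j), J.map E.toEmbedding, fun z => ∏ a, Pf a z, ∑ a, ρ a, d,
    ∑ a, C a + ∏ a, C a, fun j => ?_, hPm, ?_, ?_, ?_, ?_⟩
  · rw [hU]
    exact c1 _ _
  · intro z h1 h2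
    filter_upwards [hub z h1 h2] with ζ hζ j
    exact hζ _
  · intro s h1 h2 j
    exact hul s h1 h2 _
  · intro z h1 h2
    filter_upwards [hpt z h1 h2] with ζ hζ
    rw [Finset.prod_map]
    simp only [Equiv.coe_toEmbedding, Equiv.symm_apply_apply]
    rw [Equiv.sum_comp E.symm fun k => ‖deriv (U k) ζ / U k ζ‖]
    exact hζ
  · intro s h1 h2
    rw [Finset.sum_map]
    simp only [Equiv.coe_toEmbedding, Equiv.symm_apply_apply]
    exact hloc s h1 h2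

end Pool.Agent.H5.DG4
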