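import Pool.Agent.H23.Fano
import Mathlib

/-!
# Project DG4, module RootBd: roots of monic equations

`norm_root_le`: `‖t‖ ≤ C * H ^ a` with `C = ∑ ‖..‖ + 1`: if `‖t‖ > C * H ^ a` then
`‖t ^ n‖ > ∑ ‖c (n - i)‖ * ‖t‖ ^ i`.  `ord_root_ge`: if `ord t < a * μ` then `ord (t ^ n)` is smaller than
the orders of all the other terms.
-/

open MvPolynomial

noncomputable section

namespace Pool.Agent.H5.DG4

theorem norm_root_le (n a : ℕ) {K : ℝ} (hK : 0 ≤ K) : ∃ C : ℝ, 0 ≤ C ∧ ∀ (c : ℕ → ℂ) (t : ℂ)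
    (H : ℝ), 0 < H → (∀ i, ‖c i‖ ≤ K * H ^ (a * i)) →
    t ^ n + ∑ i ∈ Finset.range n, c (n - i) * t ^ i = 0 → ‖t‖ ≤ C * H ^ a := by
  refine ⟨K * n + 1, by positivity, fun c t H hH hc ht => ?_⟩
  rcases Nat.eq_zero_or_pos n with hn | hn
  · subst hn
    rw [pow_zero, Finset.range_zero, Finset.sum_empty, add_zero] at ht
    exact absurd ht one_ne_zero
  by_contra hcon
  rw [not_le] at hcon
  obtain ⟨ρ, hρ⟩ : ∃ ρ : ℝ, ρ = H ^ a := ⟨_, rfl⟩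
  have hρ0 : 0 < ρ := by rw [hρ]; positivity
  rw [← hρ] at hcon
  have h1 : ρ ≤ ‖t‖ := by
    have : 0 ≤ K * n * ρ := by positivity
    nlinarith
  have ht0 : 0 < ‖t‖ := lt_of_lt_of_le hρ0 h1
  have h2 : t ^ n = -∑ i ∈ Finset.range n, c (n - i) * t ^ i := eq_neg_of_add_eq_zero_left ht
  have h3 : ‖t‖ ^ n ≤ ∑ i ∈ Finset.range n, ‖c (n - i) * t ^ i‖ := by
    rw [← norm_pow, h2, norm_neg]
    exact norm_sum_le _ _
  have h4 : ∀ i ∈ Finset.range n, ‖c (n - i) * t ^ i‖ ≤ K * (ρ * ‖t‖ ^ (n - 1)) := by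
    intro i hi
    rw [Finset.mem_range] at hi
    have h5 := hc (n - i)
    rw [pow_mul, ← hρ] at h5
    rw [norm_mul, norm_pow]
    have h6 : ρ ^ (n - i) * ‖t‖ ^ i ≤ ρ * ‖t‖ ^ (n - 1) := by
      have e1 : n - i = (n - 1 - i) + 1 := by omega
      have e2 : n - 1 = (n - 1 - i) + i := by omega
      rw [e1, pow_succ]
      conv_rhs => rw [e2, pow_add]
      have h7 : ρ ^ (n - 1 - i) ≤ ‖t‖ ^ (n - 1 - i) := pow_le_pow_left₀ hρ0.le h1 _
      calc ρ ^ (n - 1 - i) * ρ * ‖t‖ ^ i = ρ * (ρ ^ (n - 1 - i) * ‖t‖ ^ i) := by ring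
        _ ≤ ρ * (‖t‖ ^ (n - 1 - i) * ‖t‖ ^ i) :=
          mul_le_mul_of_nonneg_left (mul_le_mul_of_nonneg_right h7 (by positivity)) hρ0.le
    calc ‖c (n - i)‖ * ‖t‖ ^ i ≤ (K * ρ ^ (n - i)) * ‖t‖ ^ i :=
          mul_le_mul_of_nonneg_right h5 (by positivity)
      _ = K * (ρ ^ (n - i) * ‖t‖ ^ i) := by ring
      _ ≤ K * (ρ * ‖t‖ ^ (n - 1)) := mul_le_mul_of_nonneg_left h6 hK
  have h8 : ‖t‖ ^ n ≤ n * (K * (ρ * ‖t‖ ^ (n - 1))) := by
    refine h3.trans ((Finset.sum_le_sum h4).trans (le_of_eq ?_))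
    rw [Finset.sum_const, Finset.card_range, nsmul_eq_mul]
  have h9 : ‖t‖ ^ n = ‖t‖ * ‖t‖ ^ (n - 1) := by
    conv_lhs => rw [show n = (n - 1) + 1 by omega, pow_succ]
    ring
  rw [h9] at h8
  have h10 : ‖t‖ ≤ n * K * ρ := by
    have h11 : 0 < ‖t‖ ^ (n - 1) := by positivity
    refine le_of_mul_le_mul_right ?_ h11
    calc ‖t‖ * ‖t‖ ^ (n - 1) ≤ n * (K * (ρ * ‖t‖ ^ (n - 1))) := h8
      _ = n * K * ρ * ‖t‖ ^ (n - 1) := by ring
  nlinarith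

theorem ord_root_nonneg {K : Type} [Field K] (v : AddValuation K (WithTop ℤ)) {n : ℕ}
    {c : ℕ → K} {t : K} (hc : ∀ i, 0 ≤ v (c i))
    (ht : t ^ n + ∑ i ∈ Finset.range n, c (n - i) * t ^ i = 0) : 0 ≤ v t := by
  rcases Nat.eq_zero_or_pos n with hn | hn
  · subst hn
    rw [pow_zero, Finset.range_zero, Finset.sum_empty, add_zero] at ht
    exact absurd ht one_ne_zero
  by_contra hcon
  rw [not_le] at hcon
  have hne : v t ≠ ⊤ := ne_top_of_lt hcon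
  obtain ⟨m, hm⟩ := WithTop.ne_top_iff_exists.1 hne
  have hm0 : m < 0 := by
    rw [← hm] at hcon
    exact_mod_cast hcon
  have hp : ∀ i : ℕ, v (t ^ i) = (((i : ℤ) * m : ℤ) : WithTop ℤ) := by
    intro i
    rw [AddValuation.map_pow, ← hm, ← WithTop.coe_nsmul, nsmul_eq_mul]
  have h2 : t ^ n = -∑ i ∈ Finset.range n, c (n - i) * t ^ i := eq_neg_of_add_eq_zero_left ht
  have h3 : (((n : ℤ) * m : ℤ) : WithTop ℤ) < v (∑ i ∈ Finset.range n, c (n - i) * t ^ i) := by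
    refine AddValuation.map_lt_sum v WithTop.coe_ne_top fun i hi => ?_
    rw [Finset.mem_range] at hi
    rw [AddValuation.map_mul, hp i]
    have h4 : (((n : ℤ) * m : ℤ) : WithTop ℤ) < (((i : ℤ) * m : ℤ) : WithTop ℤ) := by
      have h5 : (i : ℤ) < n := by exact_mod_cast hi
      have h6 : (n : ℤ) * m < (i : ℤ) * m := mul_lt_mul_of_neg_right h5 hm0
      exact_mod_cast h6
    refine lt_of_lt_of_le h4 ?_
    calc (((i : ℤ) * m : ℤ) : WithTop ℤ) = 0 + (((i : ℤ) * m : ℤ) : WithTop ℤ) := (zero_add _).symm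
      _ ≤ v (c (n - i)) + (((i : ℤ) * m : ℤ) : WithTop ℤ) := add_le_add_left (hc _) _
  have h4 := hp n
  rw [h2, AddValuation.map_neg] at h4
  rw [h4] at h3
  exact lt_irrefl _ h3

end Pool.Agent.H5.DG4
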