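import Pool.Agent.H5.DG4.RootBd
import Pool.Agent.H5.DG4.Defs
import Pool.Agent.H5.DG3.OrdPull
import Pool.Agent.H5.DG.CovMain
import Pool.Agent.H5.DG.SecBase
import Pool.Agent.H5.DG.SecDim
import Pool.Agent.H5.DG3.Centre

/-!
# Project DG4, module SecK: sections at the generic point of a closed subvariety

`x i = ratio Q i j₀`, `y i = F α i (x) / F α a₀ (x)`, `t = τ α (x) / F α a₀ (x) ^ a`.
`section_ord_nonneg`: `(y b)⁻¹ ^ a * t = τ α (x) / F α b (x) ^ a`; the equation of `integral`, divided by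
`F α b (x) ^ (a * n)`, has the coefficients `c (n - i) ((y b)⁻¹ y)` (`aeval_eq_pow_mul`), of order `≥ 0`
since all the `(y b)⁻¹ y i` are regular; `ord_root_nonneg`.
`section_ord_ge`: a chart `j₁` with regular coordinates `x' i = ratio Q i j₁` as in
`Pool.Agent.H5.DG3.strongly_of_linearField` (module `Pool.Agent.H5.DG3.Sub3`).
`Pool.Agent.H5.DG3.exists_ord_zero` (module Centre), for the set of all products `T * F β c` such that `T`
satisfies the condition of `VanishesTimes` for `β`: `T (x')` and `F β c (x')` have order `0`.  With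
`u = F β b (x')`: `ord u = 0` since `(y b)⁻¹ y c = F β c (x') / u` is regular (`compat`, and
`x' = (x j₁)⁻¹ x`), `(y b)⁻¹ ^ a * t = τ β (x') / u ^ a` (`IsSection.compat`), and
`G j ((y b)⁻¹ y) = L j (x') / u ^ d` with `L j = aeval (F β) (G j)`.  All elements of
`radical (span {L j} ⊔ I)` have order `≥ 1` at `x'` if `L j (x')` has positive order, and order `≥ 0` in
any case; so the elements of the `k`-th power of the product have order `≥ k` times the number of the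
`j ∈ J` with `ord (L j (x')) > 0` (models: `CE_ideal` and `ord_ge_of_mult` in module Centre).
-/

open MvPolynomial
open Pool.Agent.H17 (PN VanishesAt ZariskiClosedIn)
open Pool.Agent.H17GT (coordFun)
open Pool.Agent.H17LG.Variety (FunField ratio)
open Pool.Agent.H23.Fano (PrimeDivisorOver)
open Pool.Agent.H5.DG (Homog variety valAt)
open Pool.Agent.H5.DG3 (IsMorphism morph CentreIn)

noncomputable section

namespace Pool.Agent.H5.DG4

variable {N M m s w a k : ℕ} {I : Ideal (MvPolynomial (Fin (N + 1)) ℂ)} {B : Set (PN N)}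
  {F : Fin s → Fin (M + 1) → MvPolynomial (Fin (N + 1)) ℂ}
  {τ : Fin s → MvPolynomial (Fin (N + 1)) ℂ} {J : Finset (Fin m)}
  {G : Fin m → MvPolynomial (Fin (M + 1)) ℂ}

/-! ### Auxiliary lemmas -/

section

variable {K : Type} [Field K] {u : AddValuation K (WithTop ℤ)}

private lemma SK_mul_le {f g : K} {a b : ℤ} (hf : ((a : ℤ) : WithTop ℤ) ≤ u f)
    (hg : ((b : ℤ) : WithTop ℤ) ≤ u g) : ((a + b : ℤ) : WithTop ℤ) ≤ u (f * g) := by
  rw [u.map_mul, WithTop.coe_add]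
  exact add_le_add hf hg

private lemma SK_pow_zero {f : K} (h : u f = 0) (m : ℕ) : u (f ^ m) = 0 := by
  induction m with
  | zero => simp
  | succ m ih => rw [pow_succ, u.map_mul, ih, h, add_zero]

private lemma SK_pos_iff {f : K} : 0 < u f ↔ ((1 : ℤ) : WithTop ℤ) ≤ u f := by
  induction u f using WithTop.recTopCoe with
  | top => simp
  | coe a =>
    constructor
    · intro h
      have h1 : (0 : ℤ) < a := by exact_mod_cast h
      exact_mod_cast (by omega : (1 : ℤ) ≤ a)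
    · intro h
      have h1 : (1 : ℤ) ≤ a := by exact_mod_cast h
      exact_mod_cast (by omega : (0 : ℤ) < a)

private lemma SK_both_zero {a b : WithTop ℤ} (ha : 0 ≤ a) (hb : 0 ≤ b) (h : a + b = 0) :
    a = 0 ∧ b = 0 := by
  have h1 : a ≤ 0 := by
    calc a ≤ a + b := le_add_of_nonneg_right hb
      _ = 0 := h
  have h2 : b ≤ 0 := by
    calc b ≤ a + b := le_add_of_nonneg_left ha
      _ = 0 := h
  exact ⟨le_antisymm h1 ha, le_antisymm h2 hb⟩

private lemma SK_div {a b : K} (hb : u b = 0) : u (a / b) = u a := by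
  have hb0 : b ≠ 0 := by
    rintro rfl
    rw [u.map_zero] at hb
    exact absurd hb (by simp)
  have h1 : u (a / b) + u b = u a := by
    rw [← u.map_mul, div_mul_cancel₀ _ hb0]
  rwa [hb, add_zero] at h1

private lemma SK_alg {p q t : K} (hp : p ≠ 0) (hq : q ≠ 0) (a : ℕ) :
    (p / q)⁻¹ ^ a * (t / q ^ a) = t / p ^ a := by
  rw [inv_div, div_pow]
  field_simp

private lemma SK_alg1 {p q t : K} (hp : p ≠ 0) (hq : q ≠ 0) :
    (p / q)⁻¹ * (t / q) = t / p := by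
  field_simp

private lemma SK_root {n a : ℕ} {v T t : K} (hv : v ≠ 0) (ht : t = v ^ a * T) {A D : ℕ → K}
    (hA : ∀ i, i < n → A i = v ^ (a * (n - i)) * D i)
    (h : t ^ n + ∑ i ∈ Finset.range n, A i * t ^ i = 0) :
    T ^ n + ∑ i ∈ Finset.range n, D i * T ^ i = 0 := by
  have h2 : ∀ i ∈ Finset.range n, A i * t ^ i = v ^ (a * n) * (D i * T ^ i) := by
    intro i hi
    have hi' := Finset.mem_range.1 hi
    have h6 : v ^ (a * n) = v ^ (a * (n - i)) * v ^ (a * i) := by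
      rw [← pow_add, ← mul_add]
      congr 2
      omega
    rw [hA i hi', ht, mul_pow, ← pow_mul, h6]
    ring
  rw [Finset.sum_congr rfl h2, ← Finset.mul_sum, ht, mul_pow, ← pow_mul, ← mul_add] at h
  exact (mul_eq_zero.1 h).resolve_left (pow_ne_zero _ hv)

variable [Algebra ℂ K]

/-- The polynomials whose value has order at least `c`. -/
private def SK_ideal (u : AddValuation K (WithTop ℤ)) {q : ℕ} (y : Fin q → K)
    (hy : ∀ G : MvPolynomial (Fin q) ℂ, 0 ≤ u (aeval y G)) (c : WithTop ℤ) :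
    Ideal (MvPolynomial (Fin q) ℂ) where
  carrier := {G | c ≤ u (aeval y G)}
  add_mem' := by
    intro G H hG hH
    rw [Set.mem_ofPred_eq, map_add]
    exact (le_min hG hH).trans (u.map_add _ _)
  zero_mem' := by
    rw [Set.mem_ofPred_eq, map_zero, u.map_zero]
    exact le_top
  smul_mem' := by
    intro G H hH
    rw [Set.mem_ofPred_eq, smul_eq_mul, map_mul, u.map_mul]
    exact le_trans hH (le_add_of_nonneg_left (hy G))

private lemma SK_nonneg (hu : ∀ c : ℂ, 0 ≤ u (algebraMap ℂ K c)) {q : ℕ} {y : Fin q → K}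
    (hy : ∀ i, 0 ≤ u (y i)) (G : MvPolynomial (Fin q) ℂ) : 0 ≤ u (aeval y G) := by
  induction G using MvPolynomial.induction_on with
  | C a =>
    rw [aeval_C]
    exact hu a
  | add p p' h h' =>
    rw [map_add]
    exact (le_min h h').trans (u.map_add _ _)
  | mul_X p i h =>
    rw [map_mul, aeval_X, u.map_mul]
    exact add_nonneg h (hy i)

private lemma SK_le_ideal {q : ℕ} {y : Fin q → K} {I : Ideal (MvPolynomial (Fin q) ℂ)}
    (hy : ∀ G : MvPolynomial (Fin q) ℂ, 0 ≤ u (aeval y G)) (hI : ∀ G ∈ I, aeval y G = 0)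
    (c : WithTop ℤ) : I ≤ SK_ideal u y hy c := by
  intro G hG
  show c ≤ u (aeval y G)
  rw [hI G hG, u.map_zero]
  exact le_top

private lemma SK_rad {q : ℕ} {y : Fin q → K}
    (hy : ∀ G : MvPolynomial (Fin q) ℂ, 0 ≤ u (aeval y G)) {J : Ideal (MvPolynomial (Fin q) ℂ)}
    (h1 : J ≤ SK_ideal u y hy ((1 : ℤ) : WithTop ℤ)) :
    Ideal.radical J ≤ SK_ideal u y hy ((1 : ℤ) : WithTop ℤ) := by
  intro G hG
  obtain ⟨t, ht⟩ := hG
  have h3 : ((1 : ℤ) : WithTop ℤ) ≤ u (aeval y (G ^ t)) := h1 ht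
  show ((1 : ℤ) : WithTop ℤ) ≤ u (aeval y G)
  by_contra h4
  rw [← SK_pos_iff, not_lt] at h4
  have h5 : u (aeval y G) = 0 := le_antisymm h4 (hy G)
  rw [map_pow, SK_pow_zero h5] at h3
  exact absurd h3 (by exact_mod_cast (by norm_num : ¬ (1 : ℤ) ≤ 0))

private lemma SK_mulI {q : ℕ} {y : Fin q → K}
    (hy : ∀ G : MvPolynomial (Fin q) ℂ, 0 ≤ u (aeval y G)) {J₁ J₂ : Ideal (MvPolynomial (Fin q) ℂ)}
    {n₁ n₂ : ℕ} (h1 : J₁ ≤ SK_ideal u y hy (((n₁ : ℕ) : ℤ) : WithTop ℤ))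
    (h2 : J₂ ≤ SK_ideal u y hy (((n₂ : ℕ) : ℤ) : WithTop ℤ)) :
    J₁ * J₂ ≤ SK_ideal u y hy (((n₁ + n₂ : ℕ) : ℤ) : WithTop ℤ) := by
  rw [Ideal.mul_le]
  intro G hG H hH
  show (((n₁ + n₂ : ℕ) : ℤ) : WithTop ℤ) ≤ u (aeval y (G * H))
  rw [map_mul]
  have h3 := SK_mul_le (a := (n₁ : ℤ)) (b := (n₂ : ℤ)) (h1 hG) (h2 hH)
  rw [Nat.cast_add]
  exact h3

end

/-- The value of a section at the generic point, with respect to the frame `F α a₀ ^ a`. -/
def secAt (Q : Ideal (MvPolynomial (Fin (N + 1)) ℂ)) [Q.IsPrime] (j₀ : Fin (N + 1))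
    (F : Fin s → Fin (M + 1) → MvPolynomial (Fin (N + 1)) ℂ) (a : ℕ)
    (τ : Fin s → MvPolynomial (Fin (N + 1)) ℂ) (α : Fin s) (a₀ : Fin (M + 1)) : FunField Q :=
  aeval (fun i => ratio Q i j₀) (τ α) / valAt Q j₀ (F α) a₀ ^ a

theorem section_ne_zero (hτ : IsSection I F a τ) (Q : Ideal (MvPolynomial (Fin (N + 1)) ℂ))
    [Q.IsPrime] (hQ : Homog Q) (hIQ : I ≤ Q) {j₀ : Fin (N + 1)} (hj₀ : coordFun Q j₀ ≠ 0)
    {α β : Fin s} {a₀ : Fin (M + 1)} (ha₀ : F α a₀ ∉ Q) (hβ : τ β ∉ Q) :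
    secAt Q j₀ F a τ α a₀ ≠ 0 := by
  obtain ⟨e, he, heτ⟩ := hτ.hom α
  have hprime : Q.IsPrime := inferInstance
  have h1 : τ α ∉ Q := by
    intro hcon
    have h2 := hIQ (hτ.compat α β a₀)
    have h3 : τ β * F α a₀ ^ a ∈ Q := by
      have h4 : τ β * F α a₀ ^ a = τ α * F β a₀ ^ a -
          (τ α * F β a₀ ^ a - τ β * F α a₀ ^ a) := by ring
      rw [h4]
      exact Ideal.sub_mem _ (Ideal.mul_mem_right _ _ hcon) h2
    rcases hprime.mem_or_mem h3 with h4 | h4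
    · exact hβ h4
    · exact ha₀ (hprime.mem_of_pow_mem _ h4)
  have h2 : aeval (fun i => ratio Q i j₀) (τ α) ≠ 0 := fun h3 =>
    h1 ((Pool.Agent.H5.DG.eval_ratio_zero_iff Q hj₀ heτ).1 h3)
  have h3 : valAt Q j₀ (F α) a₀ ≠ 0 := fun h4 =>
    ha₀ ((Pool.Agent.H5.DG.eval_ratio_zero_iff Q hj₀ (he a₀)).1 h4)
  exact div_ne_zero h2 (pow_ne_zero _ h3)

theorem section_ord_nonneg (hτ : IsSection I F a τ) (Q : Ideal (MvPolynomial (Fin (N + 1)) ℂ))
    [Q.IsPrime] (hQ : Homog Q) (hIQ : I ≤ Q) {j₀ : Fin (N + 1)} (hj₀ : coordFun Q j₀ ≠ 0)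
    {α : Fin s} {a₀ : Fin (M + 1)} (ha₀ : F α a₀ ∉ Q) (E : PrimeDivisorOver (FunField Q) w)
    {b : Fin (M + 1)} (hb : valAt Q j₀ (F α) b / valAt Q j₀ (F α) a₀ ≠ 0)
    (hreg : ∀ i, 0 ≤ E.ord ((valAt Q j₀ (F α) b / valAt Q j₀ (F α) a₀)⁻¹ *
      (valAt Q j₀ (F α) i / valAt Q j₀ (F α) a₀))) :
    0 ≤ E.ord ((valAt Q j₀ (F α) b / valAt Q j₀ (F α) a₀)⁻¹ ^ a * secAt Q j₀ F a τ α a₀) := by
  obtain ⟨e, he, heτ⟩ := hτ.hom α
  have hV0 : valAt Q j₀ (F α) a₀ ≠ 0 := fun h4 =>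
    ha₀ ((Pool.Agent.H5.DG.eval_ratio_zero_iff Q hj₀ (he a₀)).1 h4)
  have hVb : valAt Q j₀ (F α) b ≠ 0 := fun h4 => hb (by rw [h4, zero_div])
  obtain ⟨x, hx⟩ : ∃ x : Fin (N + 1) → FunField Q, x = fun i => ratio Q i j₀ := ⟨_, rfl⟩
  obtain ⟨V, hV⟩ : ∃ V : Fin (M + 1) → FunField Q, V = valAt Q j₀ (F α) := ⟨_, rfl⟩
  have hVx : ∀ i, V i = aeval x (F α i) := by
    intro i
    rw [hV, hx]
    rfl
  unfold secAt
  rw [← hV] at hV0 hVb hb hreg ⊢
  rw [← hx]
  obtain ⟨z, hz⟩ : ∃ z : Fin (M + 1) → FunField Q, z = fun i =>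
    (V b / V a₀)⁻¹ * (V i / V a₀) := ⟨_, rfl⟩
  have hzV : ∀ i, V i = V b * z i := by
    intro i
    rw [hz]
    show V i = V b * ((V b / V a₀)⁻¹ * (V i / V a₀))
    rw [SK_alg1 hVb hV0, mul_div_cancel₀ _ hVb]
  have hzreg : ∀ i, 0 ≤ E.ord (z i) := by
    intro i
    rw [hz]
    exact hreg i
  obtain ⟨n, c, hc, hint⟩ := hτ.integral
  have h1 := Pool.Agent.H5.DG.eval_ratio_mem Q hQ hj₀ (hIQ (hint α))
  rw [← hx, map_add, map_pow, map_sum] at h1
  simp only [map_mul, map_pow] at h1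
  rw [SK_alg hVb hV0]
  have h3 : (aeval x (τ α) / V b ^ a) ^ n + ∑ i ∈ Finset.range n,
      aeval z (c (n - i)) * (aeval x (τ α) / V b ^ a) ^ i = 0 := by
    refine SK_root hVb (mul_div_cancel₀ _ (pow_ne_zero _ hVb)).symm
      (A := fun i => aeval x (aeval (F α) (c (n - i)))) (fun i _ => ?_) h1
    show aeval x (aeval (F α) (c (n - i))) = V b ^ (a * (n - i)) * aeval z (c (n - i))
    rw [← AlgHom.comp_apply, MvPolynomial.comp_aeval]
    refine Pool.Agent.H5.DG.aeval_eq_pow_mul (hc (n - i)) fun i => ?_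
    rw [← hVx]
    exact hzV i
  exact ord_root_nonneg E.ord (c := fun i => aeval z (c i))
    (fun i => SK_nonneg E.ord_const hzreg (c i)) h3

theorem section_ord_ge (hI : Homog I) (hF : IsMorphism I (variety I \ B) F)
    (hτ : IsSection I F a τ) (hG : ∀ j, ∃ d, (G j).IsHomogeneous d)
    (hv : ∀ x ∈ variety I \ B, ∃ α, (∃ b, ¬ VanishesAt (F α b) x) ∧
      VanishesTimes k I J (fun j => aeval (F α) (G j)) (τ α) x)
    (Q : Ideal (MvPolynomial (Fin (N + 1)) ℂ)) [Q.IsPrime] (hQ : Homog Q) (hIQ : I ≤ Q)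
    {j₀ : Fin (N + 1)} (hj₀ : coordFun Q j₀ ≠ 0) {α : Fin s} {a₀ : Fin (M + 1)}
    (ha₀ : F α a₀ ∉ Q) (E : PrimeDivisorOver (FunField Q) w) (hE : ¬ CentreIn Q B E)
    {b : Fin (M + 1)} (hb : valAt Q j₀ (F α) b / valAt Q j₀ (F α) a₀ ≠ 0)
    (hreg : ∀ i, 0 ≤ E.ord ((valAt Q j₀ (F α) b / valAt Q j₀ (F α) a₀)⁻¹ *
      (valAt Q j₀ (F α) i / valAt Q j₀ (F α) a₀))) :
    (((k * {j | j ∈ J ∧ 0 < E.ord (aeval (fun i =>
      (valAt Q j₀ (F α) b / valAt Q j₀ (F α) a₀)⁻¹ *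
        (valAt Q j₀ (F α) i / valAt Q j₀ (F α) a₀)) (G j))}.ncard : ℕ) : ℤ) : WithTop ℤ) ≤
      E.ord ((valAt Q j₀ (F α) b / valAt Q j₀ (F α) a₀)⁻¹ ^ a * secAt Q j₀ F a τ α a₀) := by
  classical
  obtain ⟨e, he, heτ⟩ := hτ.hom α
  have hV0 : valAt Q j₀ (F α) a₀ ≠ 0 := fun h4 =>
    ha₀ ((Pool.Agent.H5.DG.eval_ratio_zero_iff Q hj₀ (he a₀)).1 h4)
  have hVb : valAt Q j₀ (F α) b ≠ 0 := fun h4 => hb (by rw [h4, zero_div])
  obtain ⟨x, hx⟩ : ∃ x : Fin (N + 1) → FunField Q, x = fun i => ratio Q i j₀ := ⟨_, rfl⟩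
  obtain ⟨V, hV⟩ : ∃ V : Fin (M + 1) → FunField Q, V = valAt Q j₀ (F α) := ⟨_, rfl⟩
  have hVx : ∀ i, V i = aeval x (F α i) := by
    intro i
    rw [hV, hx]
    rfl
  unfold secAt
  rw [← hV] at hV0 hVb hb hreg ⊢
  rw [← hx]
  -- a chart
  obtain ⟨j₁, -, hj₁⟩ := Finset.exists_min_image Finset.univ (fun i => E.ord (x i))
    ⟨j₀, Finset.mem_univ _⟩
  have hx₁ : x j₁ ≠ 0 := by
    intro hcon
    have h1 := hj₁ j₀ (Finset.mem_univ _)
    have h2 : x j₀ = 1 := by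
      rw [hx]
      exact Subtype.ext (div_self hj₀)
    rw [hcon, h2, E.ord.map_zero, E.ord.map_one] at h1
    exact absurd h1 (by simp)
  have hj₁c : coordFun Q j₁ ≠ 0 := by
    intro hcon
    apply hx₁
    rw [hx]
    apply Subtype.ext
    show coordFun Q j₁ / coordFun Q j₀ = 0
    rw [hcon, zero_div]
  have hxx : ∀ i, ratio Q i j₁ = x i / x j₁ := by
    intro i
    rw [hx]
    apply Subtype.ext
    show coordFun Q i / coordFun Q j₁ =
      (coordFun Q i / coordFun Q j₀) / (coordFun Q j₁ / coordFun Q j₀)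
    rw [div_div_div_cancel_right₀ hj₀]
  have hreg₁ : ∀ i, 0 ≤ E.ord (ratio Q i j₁) := by
    intro i
    rw [hxx]
    obtain ⟨n, hn⟩ : ∃ n : ℤ, E.ord (x j₁) = ((n : ℤ) : WithTop ℤ) := by
      rcases h1 : E.ord (x j₁) with _ | n
      · exact absurd ((AddValuation.top_iff E.ord).1 h1) hx₁
      · exact ⟨n, rfl⟩
    have h2 : E.ord (x i / x j₁) + E.ord (x j₁) = E.ord (x i) := by
      rw [← E.ord.map_mul, div_mul_cancel₀ _ hx₁]
    have h3 := hj₁ i (Finset.mem_univ _)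
    rw [hn] at h2 h3
    rcases h4 : E.ord (x i / x j₁) with _ | l
    · exact le_top
    · rw [h4] at h2
      rw [← h2] at h3
      have h5 : ((l : ℤ) : WithTop ℤ) + ((n : ℤ) : WithTop ℤ) = ((l + n : ℤ) : WithTop ℤ) := rfl
      have h6 : ((n : ℤ) : WithTop ℤ) ≤ ((l + n : ℤ) : WithTop ℤ) := by
        rw [← h5]
        exact h3
      have h7 : n ≤ l + n := by exact_mod_cast h6
      have h8 : (0 : ℤ) ≤ l := by omega
      have h9 : ((0 : ℤ) : WithTop ℤ) ≤ ((l : ℤ) : WithTop ℤ) := by exact_mod_cast h8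
      exact h9
  -- the tuple
  obtain ⟨T', ⟨β, c, T, d, hT', hTd, hTτ⟩, hT0⟩ :=
    Pool.Agent.H5.DG3.exists_ord_zero hI Q hQ hIQ hE hj₁c hreg₁
    {T' | ∃ (β : Fin s) (c : Fin (M + 1)) (T : MvPolynomial (Fin (N + 1)) ℂ) (d : ℕ),
      T' = T * F β c ∧ T.IsHomogeneous d ∧
      T * τ β ∈ (∏ j ∈ J, Ideal.radical (Ideal.span {aeval (F β) (G j)} ⊔ I)) ^ k ⊔ I}
    (by
      rintro T' ⟨β, c, T, d, rfl, hTd, -⟩
      obtain ⟨e, he⟩ := hF.hom β
      exact ⟨d + e, hTd.mul (he c)⟩)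
    (fun p hp => by
      obtain ⟨β, ⟨c, hc⟩, T, d, hTd, hTx, hTL⟩ := hv p hp
      refine ⟨T * F β c, ⟨β, c, T, d, rfl, hTd, hTL⟩, ?_⟩
      intro hcon
      unfold VanishesAt at hcon
      rw [map_mul, mul_eq_zero] at hcon
      exact hcon.elim hTx hc)
  obtain ⟨x', hx'⟩ : ∃ x' : Fin (N + 1) → FunField Q, x' = fun i => ratio Q i j₁ := ⟨_, rfl⟩
  have hx'reg : ∀ i, 0 ≤ E.ord (x' i) := by
    rw [hx']
    exact hreg₁
  have hy : ∀ R : MvPolynomial (Fin (N + 1)) ℂ, 0 ≤ E.ord (aeval x' R) :=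
    SK_nonneg E.ord_const hx'reg
  rw [← hx', hT', map_mul, E.ord.map_mul] at hT0
  obtain ⟨hTz, hβz⟩ := SK_both_zero (hy T) (hy (F β c)) hT0
  have hI0 : ∀ R ∈ I, aeval x' R = 0 := by
    intro R hR
    rw [hx']
    exact Pool.Agent.H5.DG.eval_ratio_mem Q hQ hj₁c (hIQ hR)
  have hI0' : ∀ R ∈ I, aeval x R = 0 := by
    intro R hR
    rw [hx]
    exact Pool.Agent.H5.DG.eval_ratio_mem Q hQ hj₀ (hIQ hR)
  -- the two points are proportional
  obtain ⟨e', he', heτ'⟩ := hτ.hom β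
  have hx'x : ∀ i, x' i = (x j₁)⁻¹ * x i := by
    intro i
    rw [hx']
    show ratio Q i j₁ = _
    rw [hxx, div_eq_inv_mul]
  obtain ⟨ρ, hρ⟩ : ∃ ρ, ρ = (x j₁)⁻¹ ^ e' := ⟨_, rfl⟩
  have hρ0 : ρ ≠ 0 := by
    rw [hρ]
    exact pow_ne_zero _ (inv_ne_zero hx₁)
  have h1 : ∀ i, aeval x' (F β i) = ρ * aeval x (F β i) := by
    intro i
    rw [hρ]
    exact Pool.Agent.H5.DG.aeval_eq_pow_mul (he' i) hx'x
  have h1τ : aeval x' (τ β) = ρ ^ a * aeval x (τ β) := by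
    rw [hρ, ← pow_mul]
    exact Pool.Agent.H5.DG.aeval_eq_pow_mul heτ' hx'x
  have h2 : ∀ i i', aeval x (F β i) * V i' = aeval x (F β i') * V i := by
    intro i i'
    have h3 := hI0' _ (hF.compat β α i i')
    rw [map_sub, map_mul, map_mul, sub_eq_zero] at h3
    rw [hVx, hVx]
    exact h3
  have hne : ∀ f : FunField Q, E.ord f = 0 → f ≠ 0 := by
    intro f hf hcon
    rw [hcon, E.ord.map_zero] at hf
    exact absurd hf (by simp)
  -- the coordinate with index `b`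
  have hc0 : aeval x (F β c) ≠ 0 := by
    intro hcon
    apply hne _ hβz
    rw [h1, hcon, mul_zero]
  have hb0 : aeval x (F β b) ≠ 0 := by
    intro hcon
    have h3 := h2 b c
    rw [hcon, zero_mul] at h3
    exact mul_ne_zero hc0 hVb h3.symm
  have hb0' : aeval x' (F β b) ≠ 0 := by
    rw [h1]
    exact mul_ne_zero hρ0 hb0
  have hquot : ∀ i, (V b / V a₀)⁻¹ * (V i / V a₀) = aeval x' (F β i) / aeval x' (F β b) := by
    intro i
    rw [h1, h1, mul_div_mul_left _ _ hρ0]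
    have h3 := h2 b i
    rw [SK_alg1 hVb hV0, div_eq_div_iff hVb hb0, mul_comm (V i), h3]
  have hordb : E.ord (aeval x' (F β b)) = 0 := by
    have h3 := hreg c
    rw [hquot] at h3
    have h4 : E.ord (aeval x' (F β c) / aeval x' (F β b)) + E.ord (aeval x' (F β b)) =
        E.ord (aeval x' (F β c)) := by
      rw [← E.ord.map_mul, div_mul_cancel₀ _ hb0']
    rw [hβz] at h4
    exact (SK_both_zero h3 (hy _) h4).2
  -- the section
  have hsec : (V b / V a₀)⁻¹ ^ a * (aeval x (τ α) / V a₀ ^ a) =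
      aeval x' (τ β) / aeval x' (F β b) ^ a := by
    have h3 := hI0' _ (hτ.compat α β b)
    rw [map_sub, map_mul, map_mul, map_pow, map_pow, sub_eq_zero, ← hVx] at h3
    rw [SK_alg hVb hV0, h1, h1τ, mul_pow, mul_div_mul_left _ _ (pow_ne_zero _ hρ0),
      div_eq_div_iff (pow_ne_zero _ hVb) (pow_ne_zero _ hb0), h3]
  have hgoal : E.ord ((V b / V a₀)⁻¹ ^ a * (aeval x (τ α) / V a₀ ^ a)) =
      E.ord (aeval x' (τ β)) := by
    rw [hsec, SK_div (SK_pow_zero hordb a)]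
  rw [hgoal]
  -- the forms
  have hform : ∀ j, E.ord (aeval (fun i => (V b / V a₀)⁻¹ * (V i / V a₀)) (G j)) =
      E.ord (aeval x' (aeval (F β) (G j))) := by
    intro j
    obtain ⟨d', hd'⟩ := hG j
    have h3 : aeval x' (aeval (F β) (G j)) = aeval x' (F β b) ^ d' *
        aeval (fun i => (V b / V a₀)⁻¹ * (V i / V a₀)) (G j) := by
      rw [← AlgHom.comp_apply, MvPolynomial.comp_aeval]
      refine Pool.Agent.H5.DG.aeval_eq_pow_mul hd' fun i => ?_
      rw [hquot, mul_div_cancel₀ _ hb0']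
    rw [h3, E.ord.map_mul, SK_pow_zero hordb, zero_add]
  have hset : {j | j ∈ J ∧ 0 < E.ord (aeval (fun i => (V b / V a₀)⁻¹ * (V i / V a₀)) (G j))} =
      ((J.filter fun j => 0 < E.ord (aeval x' (aeval (F β) (G j))) : Finset (Fin m)) :
        Set (Fin m)) := by
    ext j
    rw [Finset.mem_coe, Finset.mem_filter, ← hform]
    rfl
  rw [hset, Set.ncard_coe_finset]
  have hprod : ∀ S : Finset (Fin m),
      (∏ j ∈ S, Ideal.radical (Ideal.span {aeval (F β) (G j)} ⊔ I)) ≤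
      SK_ideal E.ord x' hy ((((S.filter fun j =>
        0 < E.ord (aeval x' (aeval (F β) (G j)))).card : ℕ) : ℤ) : WithTop ℤ) := by
    intro S
    induction S using Finset.induction_on with
    | empty =>
      rw [Finset.filter_empty, Finset.card_empty]
      intro R _
      show (((0 : ℕ) : ℤ) : WithTop ℤ) ≤ E.ord (aeval x' R)
      exact_mod_cast hy R
    | insert i S hi ih =>
      rw [Finset.prod_insert hi, Finset.filter_insert]
      by_cases hvi : 0 < E.ord (aeval x' (aeval (F β) (G i)))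
      · rw [if_pos hvi, Finset.card_insert_of_notMem
          (fun h => hi (Finset.mem_filter.1 h).1),
          Nat.add_comm (S.filter fun j => 0 < E.ord (aeval x' (aeval (F β) (G j)))).card 1]
        refine SK_mulI hy (n₁ := 1) ?_ ih
        have h5 : Ideal.span {aeval (F β) (G i)} ⊔ I ≤
            SK_ideal E.ord x' hy ((1 : ℤ) : WithTop ℤ) := by
          refine sup_le ?_ (SK_le_ideal hy hI0 _)
          rw [Ideal.span_le, Set.singleton_subset_iff]
          exact SK_pos_iff.mp hvi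
        exact SK_rad hy h5
      · rw [if_neg hvi]
        exact (Ideal.mul_le.2 fun r _ y hy' => Ideal.mul_mem_left _ _ hy').trans ih
  have hpow : ∀ r : ℕ, (∏ j ∈ J, Ideal.radical (Ideal.span {aeval (F β) (G j)} ⊔ I)) ^ r ≤
      SK_ideal E.ord x' hy (((r * (J.filter fun j =>
        0 < E.ord (aeval x' (aeval (F β) (G j)))).card : ℕ) : ℤ) : WithTop ℤ) := by
    intro r
    induction r with
    | zero =>
      rw [zero_mul]
      intro R _
      show (((0 : ℕ) : ℤ) : WithTop ℤ) ≤ E.ord (aeval x' R)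
      exact_mod_cast hy R
    | succ r ih =>
      rw [pow_succ, add_mul, one_mul]
      exact SK_mulI hy ih (hprod J)
  have h5 := (sup_le (hpow k) (SK_le_ideal hy hI0 _)) hTτ
  have h6 : (((k * (J.filter fun j => 0 < E.ord (aeval x' (aeval (F β) (G j)))).card : ℕ) : ℤ) :
      WithTop ℤ) ≤ E.ord (aeval x' (T * τ β)) := h5
  rwa [map_mul, E.ord.map_mul, hTz, zero_add] at h6

end Pool.Agent.H5.DG4
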