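import Pool.Agent.H5.DG4.Chr2
import Pool.Agent.H5.DG4.PartEst
import Pool.Agent.H5.DG.D3Lem
import Pool.Agent.H5.DG.SecDefs
import Pool.Agent.H5.DG.CovMap
import Pool.Agent.H62.FC.Extend

/-!
# Project DG4, module SmtPart: maps of the punctured disc to the variety, and sections along them

`nc f i₀`: the coordinates of `f`, divided by the one with index `i₀`.
`nc_curve`: `quot_meroPunct`, `nz_mem`, `nz_notMem` (module D3Lem).
`minOrd_nc`: for a local lift `ψ` at `s` we have `ordZ (nc f i₀ i) s = ordZ ψ_i s - ordZ ψ_(i₀) s`, and some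
`ψ_i s` is not `0`.
`smt_partition`: `partition_est` and `smt_trunc` with `R₀ = 1` (`n = Γ.count`; `LocFin` since the
functions `G (ι j) (nc f i₀)` and the coordinates have locally finite orders: if all the orders at `s`
are `0` then `Γ.count` is `0`).
`count_le`: `G (ι j) (nc f i₀) = G (ι j) (ψ) / ψ_(i₀) ^ e` has order `> e * minOrd` iff `G (ι j) (ψ s) = 0`; the
indices `ι j` of all clusters are distinct elements of `S`.
`ext_of_section`: `Γ.num` and `hnum` give `a < k * D'`, `D' = ∑ e * (len - (n + 6) * κ) ≤ D = ∑ e * (len - 2 * κ)`;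
`k * (D - ε) - a > 0` for a small `ε`; `cnt_le_of_section`, `punctMero_of_chr`, `exists_extension`
(module H62/FC/Extend).
-/

open MvPolynomial Filter Topology MeasureTheory
open Pool.Agent.H17 (PN VanishesAt HolomorphicInto puncturedDisc)
open Pool.Agent.H62.FC hiding Homog
open Pool.Agent.H92.GGL (ordZ)
open Pool.Agent.H5.DG

noncomputable section

namespace Pool.Agent.H5.DG4

variable {A M m : ℕ} {P : Ideal (MvPolynomial (Fin (M + 1)) ℂ)}
  {G : Fin m → MvPolynomial (Fin (M + 1)) ℂ} {S : Finset (Fin m)}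

/-- Normalised coordinates. -/
def nc (f : ℂ → PN M) (i₀ i : Fin (M + 1)) (z : ℂ) : ℂ := (f z).rep i / (f z).rep i₀

theorem nc_curve {f : ℂ → PN M} (hf : HolomorphicInto f puncturedDisc) {i₀ : Fin (M + 1)}
    (hi₀ : i₀ ∈ nzSet f) : Curve 1 (nc f i₀) i₀ where
  dich i := by
    by_cases hi : i ∈ nzSet f
    · left
      exact quot_meroPunct hf hi hi₀
    · right
      intro z h1 h2
      filter_upwards [eventually_mem_puncturedDisc (mem_puncturedDisc.mpr ⟨h1, h2⟩)] with ζ hζ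
      show (f ζ).rep i / (f ζ).rep i₀ = 0
      rw [nz_notMem hf hi hζ, zero_div]
  one z h1 h2 := by
    filter_upwards [nz_mem hi₀ (mem_puncturedDisc.mpr ⟨h1, h2⟩)] with ζ hζ
    exact div_self hζ

private theorem SP_nc {f : ℂ → PN M} (i₀ : Fin (M + 1)) (z : ℂ) :
    (fun i => nc f i₀ i z) = ((f z).rep i₀)⁻¹ • (f z).rep := by
  funext i
  show (f z).rep i / (f z).rep i₀ = ((f z).rep i₀)⁻¹ * (f z).rep i
  rw [div_eq_inv_mul]

private theorem SP_smul {r e : ℕ} {Q : MvPolynomial (Fin r) ℂ} (hQ : Q.IsHomogeneous e)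
    (c : ℂ) (x : Fin r → ℂ) : eval (c • x) Q = c ^ e * eval x Q :=
  Pool.Agent.H17.eval_smul_of_isHomogeneous hQ c x

private theorem SP_eval {f : ℂ → PN M} (i₀ : Fin (M + 1)) (z : ℂ)
    {Q : MvPolynomial (Fin (M + 1)) ℂ} {e : ℕ} (hQ : Q.IsHomogeneous e) :
    eval (fun i => nc f i₀ i z) Q = ((f z).rep i₀)⁻¹ ^ e * eval (f z).rep Q := by
  rw [SP_nc, SP_smul hQ]

private theorem SP_rep {r : ℕ} {f : ℂ → PN r} {s : ℂ} {ψ : ℂ → Fin (r + 1) → ℂ}
    (he : ∀ᶠ z in 𝓝 s, ∃ h : ψ z ≠ 0, f z = Projectivization.mk ℂ (ψ z) h) :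
    ∀ᶠ z in 𝓝 s, ∃ c : ℂ, c ≠ 0 ∧ (f z).rep = c • ψ z := by
  filter_upwards [he] with z hz
  obtain ⟨h1, h2⟩ := hz
  obtain ⟨a, ha, h3⟩ := Pool.Agent.H17.exists_smul_rep (ψ z) h1
  refine ⟨a, ha, ?_⟩
  rw [h2, h3]

private theorem SP_analytic {r : ℕ} {ψ : ℂ → Fin (r + 1) → ℂ} {s : ℂ} (hψ : AnalyticAt ℂ ψ s)
    (Q : MvPolynomial (Fin (r + 1)) ℂ) : AnalyticAt ℂ (fun z => eval (ψ z) Q) s := by
  have h1 : AnalyticAt ℂ (fun z => aeval (ψ z) Q) s :=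
    AnalyticAt.aeval_mvPolynomial (fun i => analyticAt_pi_iff.mp hψ i) Q
  refine h1.congr (Eventually.of_forall fun z => ?_)
  rfl

private theorem SP_ord_nonneg {Λ : ℂ → ℂ} {s : ℂ} (hΛ : AnalyticAt ℂ Λ s) : 0 ≤ ordZ Λ s := by
  by_cases hne : meromorphicOrderAt Λ s = ⊤
  · unfold ordZ
    rw [hne]
    simp
  · have h1 := hΛ.meromorphicOrderAt_nonneg
    rw [← Pool.Agent.H92.GGL.ordZ_cast hne] at h1
    exact_mod_cast h1

/-- Not identically zero forms give meromorphic functions. -/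
private theorem SP_mero {f : ℂ → PN M} (hf : HolomorphicInto f puncturedDisc) {i₀ : Fin (M + 1)}
    (hi₀ : i₀ ∈ nzSet f) {Q : MvPolynomial (Fin (M + 1)) ℂ} {e : ℕ} (hQ : Q.IsHomogeneous e)
    (hne : ∀ s ∈ puncturedDisc, ∀ᶠ z in 𝓝[≠] s, ¬ VanishesAt Q (f z)) :
    MeroPunct 1 (fun ζ => eval (fun i => nc f i₀ i ζ) Q) := by
  have hmer : ∀ z, 0 < ‖z‖ → ‖z‖ < 1 →
      MeromorphicAt (fun ζ => eval (fun i => nc f i₀ i ζ) Q) z := by
    intro z h1 h2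
    obtain ⟨ψ, hψ, he⟩ := hf z (mem_puncturedDisc.mpr ⟨h1, h2⟩)
    have h3 : MeromorphicAt (fun ζ => (ψ ζ i₀)⁻¹ ^ e * eval (ψ ζ) Q) z :=
      ((analyticAt_pi_iff.mp hψ i₀).meromorphicAt.inv.pow e).mul
        (SP_analytic hψ Q).meromorphicAt
    refine h3.congr ?_
    filter_upwards [(SP_rep he).filter_mono nhdsWithin_le_nhds] with ζ hζ
    obtain ⟨c, hc, h4⟩ := hζ
    rw [SP_eval i₀ ζ hQ, h4, SP_smul hQ, Pi.smul_apply,
      smul_eq_mul, mul_inv, mul_pow, inv_pow c]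
    field_simp
  refine ⟨hmer, fun z h1 h2 => ?_⟩
  have hs := mem_puncturedDisc.mpr ⟨h1, h2⟩
  rw [meromorphicOrderAt_ne_top_iff_eventually_ne_zero (hmer z h1 h2)]
  filter_upwards [hne z hs, nz_mem hi₀ hs] with ζ h3 h4
  rw [SP_eval i₀ ζ hQ]
  exact mul_ne_zero (pow_ne_zero _ (inv_ne_zero h4)) h3

/-- The order of a form. -/
private theorem SP_ord {f : ℂ → PN M} (hf : HolomorphicInto f puncturedDisc) {i₀ : Fin (M + 1)}
    (hi₀ : i₀ ∈ nzSet f) {s : ℂ} (hs : s ∈ puncturedDisc) {ψ : ℂ → Fin (M + 1) → ℂ}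
    (hψ : AnalyticAt ℂ ψ s)
    (he : ∀ᶠ z in 𝓝 s, ∃ h : ψ z ≠ 0, f z = Projectivization.mk ℂ (ψ z) h)
    {Q : MvPolynomial (Fin (M + 1)) ℂ} {e : ℕ} (hQ : Q.IsHomogeneous e)
    (hne : ∀ s ∈ puncturedDisc, ∀ᶠ z in 𝓝[≠] s, ¬ VanishesAt Q (f z)) :
    ordZ (fun ζ => eval (fun i => nc f i₀ i ζ) Q) s =
      ordZ (fun z => eval (ψ z) Q) s - e * ordZ (fun z => ψ z i₀) s := by
  have hM := SP_mero hf hi₀ hQ hne
  have h5 := mem_puncturedDisc.mp hs
  have ha := SP_analytic hψ Q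
  have hb := analyticAt_pi_iff.mp hψ i₀
  have hψ0 : ∀ᶠ z in 𝓝[≠] s, ψ z i₀ ≠ 0 := by
    filter_upwards [(SP_rep he).filter_mono nhdsWithin_le_nhds, nz_mem hi₀ hs] with z hz h1 h2
    obtain ⟨c, hc, h3⟩ := hz
    apply h1
    rw [h3, Pi.smul_apply, h2, smul_zero]
  have hQ0 : ∀ᶠ z in 𝓝[≠] s, eval (ψ z) Q ≠ 0 := by
    filter_upwards [(SP_rep he).filter_mono nhdsWithin_le_nhds, hne s hs] with z hz h1 h2
    obtain ⟨c, hc, h3⟩ := hz
    apply h1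
    unfold VanishesAt
    rw [h3, SP_smul hQ, h2, mul_zero]
  have hta := (meromorphicOrderAt_ne_top_iff_eventually_ne_zero ha.meromorphicAt).mpr hQ0
  have htb := (meromorphicOrderAt_ne_top_iff_eventually_ne_zero hb.meromorphicAt).mpr hψ0
  have h1 : (fun z => eval (ψ z) Q) =ᶠ[𝓝[≠] s]
      ((fun ζ => eval (fun i => nc f i₀ i ζ) Q) * (fun z => ψ z i₀) ^ e) := by
    filter_upwards [(SP_rep he).filter_mono nhdsWithin_le_nhds, hψ0] with z hz h2
    obtain ⟨c, hc, h3⟩ := hz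
    rw [Pi.mul_apply, Pi.pow_apply]
    show _ = eval (fun i => nc f i₀ i z) Q * ψ z i₀ ^ e
    rw [SP_eval i₀ z hQ, h3, SP_smul hQ, Pi.smul_apply,
      smul_eq_mul, mul_inv, mul_pow, inv_pow c, inv_pow (ψ z i₀)]
    field_simp
  have h2 := meromorphicOrderAt_congr h1
  rw [meromorphicOrderAt_mul (hM.mero s h5.1 h5.2) (hb.meromorphicAt.pow e),
    meromorphicOrderAt_pow hb.meromorphicAt] at h2
  rw [← Pool.Agent.H92.GGL.ordZ_cast hta, ← Pool.Agent.H92.GGL.ordZ_cast htb,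
    ← Pool.Agent.H92.GGL.ordZ_cast (hM.ord s h5.1 h5.2)] at h2
  have h4 : ordZ (fun z => eval (ψ z) Q) s =
      ordZ (fun ζ => eval (fun i => nc f i₀ i ζ) Q) s + e * ordZ (fun z => ψ z i₀) s := by
    exact_mod_cast h2
  linarith

private theorem SP_ord_X {f : ℂ → PN M} (hf : HolomorphicInto f puncturedDisc) {i₀ : Fin (M + 1)}
    (hi₀ : i₀ ∈ nzSet f) {s : ℂ} (hs : s ∈ puncturedDisc) {ψ : ℂ → Fin (M + 1) → ℂ}
    (hψ : AnalyticAt ℂ ψ s)
    (he : ∀ᶠ z in 𝓝 s, ∃ h : ψ z ≠ 0, f z = Projectivization.mk ℂ (ψ z) h)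
    {i : Fin (M + 1)} (hi : i ∈ nzSet f) :
    ordZ (nc f i₀ i) s = ordZ (fun z => ψ z i) s - ordZ (fun z => ψ z i₀) s := by
  have h1 := SP_ord hf hi₀ hs hψ he (isHomogeneous_X ℂ i) (fun s hs => by
    filter_upwards [nz_mem hi hs] with z hz hz'
    exact hz (vanishesAt_X.mp hz'))
  simp only [eval_X, Nat.cast_one, one_mul] at h1
  exact h1

theorem minOrd_nc {f : ℂ → PN M} (hf : HolomorphicInto f puncturedDisc) {i₀ : Fin (M + 1)}
    (hi₀ : i₀ ∈ nzSet f) {s : ℂ} (hs : s ∈ puncturedDisc) {ψ : ℂ → Fin (M + 1) → ℂ}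
    (hψ : AnalyticAt ℂ ψ s)
    (he : ∀ᶠ z in 𝓝 s, ∃ h : ψ z ≠ 0, f z = Projectivization.mk ℂ (ψ z) h) :
    minOrd (nc f i₀) s = - ordZ (fun z => ψ z i₀) s := by
  have hnn : ∀ i, 0 ≤ ordZ (fun z => ψ z i) s := fun i =>
    SP_ord_nonneg (analyticAt_pi_iff.mp hψ i)
  obtain ⟨c, hc, hrep⟩ := (SP_rep he).self_of_nhds
  obtain ⟨hne, -⟩ := he.self_of_nhds
  have h5 := mem_puncturedDisc.mp hs
  apply le_antisymm
  · obtain ⟨i, hi⟩ : ∃ i, ψ s i ≠ 0 := by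
      by_contra hcon
      push Not at hcon
      exact hne (funext hcon)
    have hi' : i ∈ nzSet f := by
      by_contra h1
      have h2 := nz_notMem hf h1 hs
      rw [hrep, Pi.smul_apply, smul_eq_mul] at h2
      exact mul_ne_zero hc hi h2
    refine (Finset.inf'_le _ (Finset.mem_univ i)).trans (le_of_eq ?_)
    rw [SP_ord_X hf hi₀ hs hψ he hi', ord_eq_zero_of_ne (analyticAt_pi_iff.mp hψ i) hi, zero_sub]
  · refine Finset.le_inf' _ _ fun i _ => ?_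
    by_cases hi : i ∈ nzSet f
    · rw [SP_ord_X hf hi₀ hs hψ he hi]
      have := hnn i
      linarith
    · have h1 : ordZ (nc f i₀ i) s = 0 := by
        have h2 : nc f i₀ i =ᶠ[𝓝[≠] s] fun _ => 0 := by
          filter_upwards [eventually_mem_puncturedDisc hs] with ζ hζ
          show (f ζ).rep i / (f ζ).rep i₀ = 0
          rw [nz_notMem hf hi hζ, zero_div]
        unfold ordZ
        rw [meromorphicOrderAt_congr h2]
        have h3 : meromorphicOrderAt (fun _ : ℂ => (0 : ℂ)) s = ⊤ := by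
          rw [meromorphicOrderAt_eq_top_iff]
          exact Eventually.of_forall fun _ => rfl
        rw [h3]
        rfl
      rw [h1]
      have := hnn i₀
      linarith

private theorem SP_ne {f : ℂ → PN M} (hf : HolomorphicInto f puncturedDisc)
    {Q : MvPolynomial (Fin (M + 1)) ℂ} {e : ℕ} (hQ : Q.IsHomogeneous e)
    (h : ∃ z ∈ puncturedDisc, ¬ VanishesAt Q (f z)) :
    ∀ s ∈ puncturedDisc, ∀ᶠ z in 𝓝[≠] s, ¬ VanishesAt Q (f z) := by
  rcases vanish_dich hf hQ with h1 | h1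
  · obtain ⟨z, hz1, hz2⟩ := h
    exact absurd (h1 z hz1).self_of_nhds hz2
  · exact h1

theorem count_le (Γ : Partition A P G S) {f : ℂ → PN M} (hf : HolomorphicInto f puncturedDisc)
    {i₀ : Fin (M + 1)} (hi₀ : i₀ ∈ nzSet f)
    (hG : ∀ j ∈ S, ∃ z ∈ puncturedDisc, ¬ VanishesAt (G j) (f z)) {s : ℂ}
    (hs : s ∈ puncturedDisc) :
    Γ.count (nc f i₀) s ≤ {j | j ∈ S ∧ VanishesAt (G j) (f s)}.ncard := by
  classical
  obtain ⟨ψ, hψ, he⟩ := hf s hs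
  have key : ∀ a (j : Fin (Γ.γ a).len), ((Γ.γ a).e : ℤ) * minOrd (nc f i₀) s <
      ordZ (fun ζ => eval (fun i => nc f i₀ i ζ) (G ((Γ.γ a).ι j))) s →
      VanishesAt (G ((Γ.γ a).ι j)) (f s) := by
    intro a j h1
    rw [minOrd_nc hf hi₀ hs hψ he, SP_ord hf hi₀ hs hψ he ((Γ.γ a).homG j)
      (SP_ne hf ((Γ.γ a).homG j) (hG _ (Γ.mem a j)))] at h1
    have h2 : 0 < ordZ (fun z => eval (ψ z) (G ((Γ.γ a).ι j))) s := by linarith
    have h3 : eval (ψ s) (G ((Γ.γ a).ι j)) = 0 := by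
      by_contra h4
      rw [ord_eq_zero_of_ne (SP_analytic hψ _) h4] at h2
      exact lt_irrefl _ h2
    obtain ⟨c, hc, hrep⟩ := (SP_rep he).self_of_nhds
    unfold VanishesAt
    rw [hrep, SP_smul ((Γ.γ a).homG j), h3, mul_zero]
  have h1 : Γ.count (nc f i₀) s = ((Finset.univ : Finset (Fin Γ.ν)).sigma fun a =>
      Finset.univ.filter fun j : Fin (Γ.γ a).len => ((Γ.γ a).e : ℤ) * minOrd (nc f i₀) s <
        ordZ (fun ζ => eval (fun i => nc f i₀ i ζ) (G ((Γ.γ a).ι j))) s).card := by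
    rw [Finset.card_sigma]
    rfl
  have h2 : {j | j ∈ S ∧ VanishesAt (G j) (f s)} =
      ((S.filter fun j => VanishesAt (G j) (f s) : Finset (Fin m)) : Set (Fin m)) := by
    ext j
    simp
  rw [h1, h2, Set.ncard_coe_finset]
  refine Finset.card_le_card_of_injOn (fun x => (Γ.γ x.1).ι x.2) ?_ ?_
  · rintro ⟨a, j⟩ hx
    have hx' := Finset.mem_coe.1 hx
    rw [Finset.mem_sigma, Finset.mem_filter] at hx'
    exact Finset.mem_coe.2 (Finset.mem_filter.2 ⟨Γ.mem a j, key a j hx'.2.2⟩)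
  · rintro ⟨a, i⟩ - ⟨b, j⟩ - hab
    have hab' : (Γ.γ a).ι i = (Γ.γ b).ι j := hab
    have h3 := Γ.disj a b i j hab'
    subst h3
    rw [(Γ.γ a).inj hab']

private theorem SP_locFin (Γ : Partition A P G S) {f : ℂ → PN M}
    (hf : HolomorphicInto f puncturedDisc) {i₀ : Fin (M + 1)} (hi₀ : i₀ ∈ nzSet f)
    (hM : ∀ a j, MeroPunct 1 fun ζ => eval (fun i => nc f i₀ i ζ) (G ((Γ.γ a).ι j))) :
    LocFin 1 (fun s => (Γ.count (nc f i₀) s : ℝ)) := by
  classical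
  intro r b hr hb
  have h1 : ∀ i ∈ nzSet f, {s : ℂ | r ≤ ‖s‖ ∧ ‖s‖ ≤ b ∧ (ordZ (nc f i₀ i) s : ℝ) ≠ 0}.Finite :=
    fun i hi => (show MeroPunct 1 (nc f i₀ i) from quot_meroPunct hf hi hi₀).locFin r b hr hb
  have h2 : ∀ a j, {s : ℂ | r ≤ ‖s‖ ∧ ‖s‖ ≤ b ∧
      (ordZ (fun ζ => eval (fun i => nc f i₀ i ζ) (G ((Γ.γ a).ι j))) s : ℝ) ≠ 0}.Finite :=
    fun a j => (hM a j).locFin r b hr hb
  have h3 : ((⋃ i ∈ nzSet f, {s : ℂ | r ≤ ‖s‖ ∧ ‖s‖ ≤ b ∧ (ordZ (nc f i₀ i) s : ℝ) ≠ 0}) ∪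
      ⋃ a, ⋃ j, {s : ℂ | r ≤ ‖s‖ ∧ ‖s‖ ≤ b ∧
        (ordZ (fun ζ => eval (fun i => nc f i₀ i ζ) (G ((Γ.γ a).ι j))) s : ℝ) ≠ 0}).Finite := by
    refine Set.Finite.union ?_ ?_
    · exact Set.Finite.biUnion (nzSet f).finite_toSet h1
    · exact Set.finite_iUnion fun a => Set.finite_iUnion fun j => h2 a j
  refine h3.subset ?_
  rintro s ⟨hs1, hs2, hs3⟩
  have hs : s ∈ puncturedDisc := mem_puncturedDisc.mpr ⟨by linarith, by linarith⟩
  by_contra hcon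
  rw [Set.mem_union, not_or] at hcon
  obtain ⟨hc1, hc2⟩ := hcon
  have e1 : ∀ i, ordZ (nc f i₀ i) s = 0 := by
    intro i
    by_cases hi : i ∈ nzSet f
    · by_contra h4
      apply hc1
      rw [Set.mem_iUnion₂]
      exact ⟨i, hi, hs1, hs2, by exact_mod_cast h4⟩
    · have h2 : nc f i₀ i =ᶠ[𝓝[≠] s] fun _ => 0 := by
        filter_upwards [eventually_mem_puncturedDisc hs] with ζ hζ
        show (f ζ).rep i / (f ζ).rep i₀ = 0
        rw [nz_notMem hf hi hζ, zero_div]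
      unfold ordZ
      rw [meromorphicOrderAt_congr h2]
      have h3 : meromorphicOrderAt (fun _ : ℂ => (0 : ℂ)) s = ⊤ := by
        rw [meromorphicOrderAt_eq_top_iff]
        exact Eventually.of_forall fun _ => rfl
      rw [h3]
      rfl
  have e2 : ∀ a j, ordZ (fun ζ => eval (fun i => nc f i₀ i ζ) (G ((Γ.γ a).ι j))) s = 0 := by
    intro a j
    by_contra h4
    apply hc2
    rw [Set.mem_iUnion]
    refine ⟨a, ?_⟩
    rw [Set.mem_iUnion]
    exact ⟨j, hs1, hs2, by exact_mod_cast h4⟩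
  have e3 : minOrd (nc f i₀) s = 0 := by
    unfold minOrd
    apply le_antisymm
    · exact (Finset.inf'_le _ (Finset.mem_univ i₀)).trans (le_of_eq (e1 i₀))
    · exact Finset.le_inf' _ _ fun i _ => (e1 i).ge
  apply hs3
  have h5 : Γ.count (nc f i₀) s = 0 := by
    unfold Partition.count
    refine Finset.sum_eq_zero fun a _ => ?_
    rw [Finset.card_eq_zero, Finset.filter_eq_empty_iff]
    intro j _ h6
    rw [e3, e2 a j, mul_zero] at h6
    exact lt_irrefl _ h6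
  show (Γ.count (nc f i₀) s : ℝ) = 0
  rw [h5, Nat.cast_zero]

theorem smt_partition (hP : Homog P) (Γ : Partition A P G S) {f : ℂ → PN M}
    (hf : HolomorphicInto f puncturedDisc) (hfP : ∀ z ∈ puncturedDisc, f z ∈ variety P)
    (hΔ : ∃ z ∈ puncturedDisc, ¬ VanishesAt Γ.form (f z))
    (hG : ∀ j ∈ S, ∃ z ∈ puncturedDisc, ¬ VanishesAt (G j) (f z)) {i₀ : Fin (M + 1)}
    (hi₀ : i₀ ∈ nzSet f) {R₁ : ℝ} (h1 : 0 < R₁) (h2 : R₁ < 1) {ε : ℝ} (hε : 0 < ε) :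
    LocFin 1 (fun s => (Γ.count (nc f i₀) s : ℝ)) ∧
    ∃ (C : ℝ) (E : Set ℝ), volume E ≠ ⊤ ∧ ∀ x, Real.exp (-x) < R₁ → x ∉ E →
      (((∑ a, (Γ.γ a).e * ((Γ.γ a).len - 2 * (Γ.γ a).κ) : ℕ) : ℝ) - ε) * chr (nc f i₀) R₁ x ≤
        cnt (fun s => (Γ.count (nc f i₀) s : ℝ)) R₁ (Real.exp (-x)) + C * (1 + |x|) := by
  have hM : ∀ a j, MeroPunct 1 fun ζ => eval (fun i => nc f i₀ i ζ) (G ((Γ.γ a).ι j)) :=
    fun a j => SP_mero hf hi₀ ((Γ.γ a).homG j) (SP_ne hf ((Γ.γ a).homG j) (hG _ (Γ.mem a j)))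
  have hn := SP_locFin Γ hf hi₀ hM
  refine ⟨hn, ?_⟩
  have hcurve := nc_curve hf hi₀
  obtain ⟨l, u, J, Pf, ρ, d, C, hu, hPf, hub, hul, hpt, hloc⟩ :=
    partition_est Γ hP one_pos hcurve (fun z hz1 hz2 => by
      have hs := mem_puncturedDisc.mpr ⟨hz1, hz2⟩
      filter_upwards [eventually_mem_puncturedDisc hs, nz_mem hi₀ hs] with ζ h3 h4 R hR
      have h5 : (fun i => nc f i₀ i ζ) ≠ 0 := by
        intro h6
        have h7 := congrFun h6 i₀
        have h8 : nc f i₀ i₀ ζ = 1 := div_self h4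
        rw [Pi.zero_apply] at h7
        rw [h8] at h7
        exact one_ne_zero h7
      have h6 : Projectivization.mk ℂ (fun i => nc f i₀ i ζ) h5 = f ζ := by
        refine Eq.trans ?_ (f ζ).mk_rep
        rw [Projectivization.mk_eq_mk_iff']
        exact ⟨((f ζ).rep i₀)⁻¹, (SP_nc i₀ ζ).symm⟩
      refine eval_of_mem hP h5 ?_ hR
      rw [h6]
      exact hfP ζ h3) (fun z hz1 hz2 => by
      have hs := mem_puncturedDisc.mpr ⟨hz1, hz2⟩
      obtain ⟨k, hk⟩ := Γ.form_homogeneous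
      filter_upwards [SP_ne hf hk hΔ z hs, nz_mem hi₀ hs] with ζ h3 h4
      rw [SP_eval i₀ ζ hk]
      exact mul_ne_zero (pow_ne_zero _ (inv_ne_zero h4)) h3) hM
  exact smt_trunc h1 h2 hcurve hu hPf hn hub hul hpt hloc hε

/-- **Extension over the puncture**, if there is a section with many zeros. -/
theorem ext_of_section (hP : Homog P) (Γ : Partition A P G S) {f : ℂ → PN M}
    (hf : HolomorphicInto f puncturedDisc) (hfP : ∀ z ∈ puncturedDisc, f z ∈ variety P)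
    (hΔ : ∃ z ∈ puncturedDisc, ¬ VanishesAt Γ.form (f z))
    (hG : ∀ j ∈ S, ∃ z ∈ puncturedDisc, ¬ VanishesAt (G j) (f z)) {i₀ : Fin (M + 1)}
    (hi₀ : i₀ ∈ nzSet f) {k a : ℕ} (hk : 1 ≤ k)
    (hnum : A * a ≤ (A - 1) * (k * ∑ j ∈ S, (G j).totalDegree)) {t : ℂ → ℂ}
    (ht : MeroPunct 1 t) {C : ℝ}
    (hb : ∀ z ∈ puncturedDisc, ∀ᶠ ζ in 𝓝[≠] z, ‖t ζ‖ ≤ C * size (nc f i₀) ζ ^ a)
    (hord : ∀ s ∈ puncturedDisc, ((k * {j | j ∈ S ∧ VanishesAt (G j) (f s)}.ncard : ℕ) : ℤ) ≤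
      ordZ t s - a * minOrd (nc f i₀) s) :
    ∃ g : ℂ → PN M, HolomorphicInto g (Metric.ball 0 1) ∧ ∀ z ∈ puncturedDisc, g z = f z := by
  have hcurve := nc_curve hf hi₀
  have h1 : (0 : ℝ) < 1 / 2 := by norm_num
  have h2 : (1 / 2 : ℝ) < 1 := by norm_num
  -- the numerical condition
  obtain ⟨D, hD⟩ : ∃ D : ℕ, D = ∑ a, (Γ.γ a).e * ((Γ.γ a).len - 2 * (Γ.γ a).κ) := ⟨_, rfl⟩
  have hDlt : a < k * D := by
    have e1 : ∑ a, (Γ.γ a).e * ((Γ.γ a).len - ((Γ.γ a).n + 6) * (Γ.γ a).κ) ≤ D := by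
      rw [hD]
      refine Finset.sum_le_sum fun b _ => Nat.mul_le_mul_left _ ?_
      refine Nat.sub_le_sub_left ?_ _
      exact Nat.mul_le_mul_right _ (by omega)
    have e2 := Γ.num
    have e3 : A * a < A * (k * D) := by
      calc A * a ≤ (A - 1) * (k * ∑ j ∈ S, (G j).totalDegree) := hnum
        _ = k * ((A - 1) * ∑ j ∈ S, (G j).totalDegree) := by ring
        _ < k * (A * ∑ a, (Γ.γ a).e * ((Γ.γ a).len - ((Γ.γ a).n + 6) * (Γ.γ a).κ)) :=
          Nat.mul_lt_mul_of_pos_left e2 (by omega)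
        _ ≤ k * (A * D) := Nat.mul_le_mul_left _ (Nat.mul_le_mul_left _ e1)
        _ = A * (k * D) := by ring
    exact Nat.lt_of_mul_lt_mul_left e3
  have hkR : (0 : ℝ) < k := by exact_mod_cast hk
  have hε : (0 : ℝ) < 1 / (2 * k) := by positivity
  obtain ⟨hn, C₁, E, hE, hsmt⟩ := smt_partition hP Γ hf hfP hΔ hG hi₀ h1 h2 hε
  rw [← hD] at hsmt
  obtain ⟨C₂, hsec⟩ := cnt_le_of_section (n := fun s => (Γ.count (nc f i₀) s : ℝ)) (k := k) (a := a)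
    (C := C) h1 h2 hcurve ht hn (fun z hz1 hz2 => hb z (mem_puncturedDisc.mpr ⟨hz1, hz2⟩))
    (fun s hs1 hs2 => by
      have hs := mem_puncturedDisc.mpr ⟨hs1, hs2⟩
      have h3 := hord s hs
      have h4 := count_le Γ hf hi₀ hG hs
      have h5 : ((k * Γ.count (nc f i₀) s : ℕ) : ℤ) ≤
          ordZ t s - a * minOrd (nc f i₀) s := by
        refine le_trans ?_ h3
        exact_mod_cast Nat.mul_le_mul_left k h4
      exact_mod_cast h5)
  have hδ : (0 : ℝ) < k * ((D : ℝ) - 1 / (2 * k)) - a := by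
    have h3 : (a : ℝ) + 1 ≤ k * D := by exact_mod_cast hDlt
    have h4 : (k : ℝ) * (1 / (2 * k)) = 1 / 2 := by
      field_simp
    rw [mul_sub, h4]
    linarith
  have hpm : ∀ i, PunctMero (nc f i₀ i) := by
    intro i
    refine punctMero_of_chr (δ := k * ((D : ℝ) - 1 / (2 * k)) - a) (C := C₂ + k * C₁)
      h1 h2 hcurve hδ hE (fun x hx1 hx2 => ?_) i
    have h3 := hsmt x hx1 hx2
    have h4 := hsec x hx1
    have h5 := mul_le_mul_of_nonneg_left h3 hkR.le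
    have e1 : ((k : ℝ) * ((D : ℝ) - 1 / (2 * k)) - a) * chr (nc f i₀) (1 / 2) x =
        k * (((D : ℝ) - 1 / (2 * k)) * chr (nc f i₀) (1 / 2) x) -
          a * chr (nc f i₀) (1 / 2) x := by ring
    have e2 : (C₂ + k * C₁) * (1 + |x|) = C₂ * (1 + |x|) + k * (C₁ * (1 + |x|)) := by ring
    rw [mul_add] at h5
    rw [e1, e2]
    linarith
  refine exists_extension hf (i₀ := i₀) ?_ hpm
  filter_upwards [eventually_puncturedDisc_zero] with z hz
  exact nz_mem hi₀ hz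

end Pool.Agent.H5.DG4
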