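import Pool.Agent.H5.DG4.FieldLgt
import Pool.Agent.H5.DG4.SecK
import Pool.Agent.H5.DG4.SecCurve
import Pool.Agent.H5.DG3.MorphAlg
import Pool.Agent.H5.DG3.Into
import Pool.Agent.H5.DG.SecDim

/-!
# Project DG4, module Strong4: closed subvarieties are of log general type
-/

open MvPolynomial
open Pool.Agent.H17 (PN VanishesAt ZariskiClosedIn)
open Pool.Agent.H17GT (coordFun)
open Pool.Agent.H17LG.Variety (FunField ratio)
open Pool.Agent.H23.Fano (PrimeDivisorOver)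
open Pool.Agent.H5.DG (Homog variety valAt)
open Pool.Agent.H5.DG3 (IsMorphism morph CentreIn LogGeneralType)

noncomputable section

namespace Pool.Agent.H5.DG4

/-- The values of forms at the normalised point. -/
private theorem Strong4_value {N M s e d : ℕ} (Q : Ideal (MvPolynomial (Fin (N + 1)) ℂ))
    [Q.IsPrime] {j₀ : Fin (N + 1)} (hj₀ : coordFun Q j₀ ≠ 0)
    {F : Fin s → Fin (M + 1) → MvPolynomial (Fin (N + 1)) ℂ} {α : Fin s}
    (he : ∀ b, (F α b).IsHomogeneous e) {a₀ : Fin (M + 1)} (ha₀ : F α a₀ ∉ Q)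
    {R : MvPolynomial (Fin (M + 1)) ℂ} (hR : R.IsHomogeneous d) :
    aeval (fun i => valAt Q j₀ (F α) i / valAt Q j₀ (F α) a₀) R = 0 ↔ aeval (F α) R ∈ Q := by
  have hv0 : valAt Q j₀ (F α) a₀ ≠ 0 := fun hcon =>
    ha₀ ((Pool.Agent.H5.DG.eval_ratio_zero_iff Q hj₀ (he a₀)).1 hcon)
  have h1 : aeval (fun i => valAt Q j₀ (F α) i / valAt Q j₀ (F α) a₀) R =
      (valAt Q j₀ (F α) a₀)⁻¹ ^ d * aeval (valAt Q j₀ (F α)) R :=
    Pool.Agent.H5.DG.aeval_eq_pow_mul hR fun i => div_eq_inv_mul _ _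
  have h2 : aeval (valAt Q j₀ (F α)) R = aeval (fun i => ratio Q i j₀) (aeval (F α) R) := by
    rw [← AlgHom.comp_apply, MvPolynomial.comp_aeval]
    rfl
  rw [h1, mul_eq_zero, h2]
  constructor
  · rintro (h | h)
    · exact absurd h (pow_ne_zero _ (inv_ne_zero hv0))
    · exact (Pool.Agent.H5.DG.eval_ratio_zero_iff Q hj₀ (hR.aeval _ he)).1 h
  · intro h
    exact Or.inr ((Pool.Agent.H5.DG.eval_ratio_zero_iff Q hj₀ (hR.aeval _ he)).2 h)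

theorem strongly_of_section {A N₀ N M m s w : ℕ} {P : Ideal (MvPolynomial (Fin (M + 1)) ℂ)}
    (hP : Homog P) {G : Fin m → MvPolynomial (Fin (M + 1)) ℂ}
    (hGh : ∀ j, ∃ d, (G j).IsHomogeneous d) {Δ : MvPolynomial (Fin (M + 1)) ℂ}
    (hpart : ∀ J : Finset (Fin m), GoodSet N₀ P G J → ∃ Γ : Partition A P G J, Γ.form ∣ Δ)
    {I : Ideal (MvPolynomial (Fin (N + 1)) ℂ)} [I.IsPrime] {B Z : Set (PN N)}
    {F : Fin s → Fin (M + 1) → MvPolynomial (Fin (N + 1)) ℂ}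
    (hR : FiniteMorphism P I B Z F) (Q : Ideal (MvPolynomial (Fin (N + 1)) ℂ)) [Q.IsPrime]
    (hQ : Homog Q) (hIQ : I ≤ Q) (hQΞ : ¬ (variety Q \ B ⊆ excSet A N₀ P G I B Z F Δ))
    (hw : 1 ≤ w) (hz : ∃ z : Fin w → FunField Q, IsTranscendenceBasis ℂ z) :
    LogGeneralType Q B w := by
  classical
  -- a point outside of the exceptional set
  obtain ⟨x₀, hx₀, hx₀Ξ⟩ := Set.not_subset.1 hQΞ
  have hx₀I : x₀ ∈ variety I \ B := ⟨fun R hRI k hk => hx₀.1 R (hIQ hRI) k hk, hx₀.2⟩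
  have hx₀Z : x₀ ∉ Z := fun hcon => hx₀Ξ ⟨hx₀I, Or.inl hcon⟩
  have hx₀Δ : ¬ VanishesAt Δ (morph F x₀) := fun hcon => hx₀Ξ ⟨hx₀I, Or.inr (Or.inl hcon)⟩
  obtain ⟨a, τ, hτ, β, hβ⟩ : ∃ a τ, RamifiedSection A N₀ P G I B F a τ ∧
      ∃ β, ¬ VanishesAt (τ β) x₀ := by
    by_contra hcon
    push Not at hcon
    exact hx₀Ξ ⟨hx₀I, Or.inr (Or.inr hcon)⟩
  obtain ⟨k, J, hk, hJ, hnum, hv⟩ := hτ.vanishes
  obtain ⟨Γ, R', hΓ⟩ := hpart J hJ
  obtain ⟨α, a₀, ha₀⟩ := hR.morphism.base x₀ hx₀I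
  obtain ⟨e, he⟩ := hR.morphism.hom α
  have ha₀Q : F α a₀ ∉ Q := fun hcon => ha₀ (hx₀.1 _ hcon e (he a₀))
  have hQZ : ¬ (variety Q \ B ⊆ Z) := fun hcon => hx₀Z (hcon hx₀)
  -- the generic point
  obtain ⟨j₀, hj₀⟩ : ∃ j, coordFun Q j ≠ 0 := by
    obtain ⟨z, hz⟩ := hz
    obtain ⟨w, rfl⟩ : ∃ w', w = w' + 1 := ⟨w - 1, by omega⟩
    exact Pool.Agent.H92.GT.Proj.exists_coordFun_ne_zero Q (k := w) z hz
  have hPQ : ∀ g ∈ P, aeval (F α) g ∈ Q := fun g hg =>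
    hIQ (Pool.Agent.H5.DG3.aeval_mem_of_maps hP hR.homog hR.closedB ⟨x₀, hx₀I⟩ hR.morphism
      hR.maps α hg)
  have hyP : ∀ g ∈ P, aeval (fun i => valAt Q j₀ (F α) i / valAt Q j₀ (F α) a₀) g = 0 := by
    intro g hg
    rw [← sum_homogeneousComponent g, map_sum]
    exact Finset.sum_eq_zero fun i _ => (Strong4_value Q hj₀ he ha₀Q
      (homogeneousComponent_isHomogeneous i g)).2 (hPQ _ (hP g hg i))
  have hv0 : valAt Q j₀ (F α) a₀ ≠ 0 := fun hcon =>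
    ha₀Q ((Pool.Agent.H5.DG.eval_ratio_zero_iff Q hj₀ (he a₀)).1 hcon)
  have hnv : ∀ {R : MvPolynomial (Fin (M + 1)) ℂ} {d : ℕ}, R.IsHomogeneous d →
      ¬ VanishesAt R (morph F x₀) →
      aeval (fun i => valAt Q j₀ (F α) i / valAt Q j₀ (F α) a₀) R ≠ 0 := by
    intro R d hd h1 h2
    have h3 := (Strong4_value Q hj₀ he ha₀Q hd).1 h2
    exact h1 ((Pool.Agent.H5.DG3.vanishesAt_morph hR.morphism hR.homog hx₀I.1 hd ⟨a₀, ha₀⟩).2
      (hx₀.1 _ h3 _ (hd.aeval _ he)))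
  have hess : Algebra.EssFiniteType ℂ (FunField Q) :=
    Pool.Agent.H17GT.essFiniteType_functionField Q
  obtain ⟨d, hd⟩ := Γ.form_homogeneous
  refine field_lgt4 hP Γ hyP (a₀ := a₀) (div_self hv0)
    (Pool.Agent.H5.DG3.morph_algebraic hR.homog hR.closedB hR.closedZ hR.morphism hR.finite Q
      hQ hIQ hQZ hz hj₀ ha₀Q) (hnv hd ?_) (fun j hj => ?_) hw hz (CentreIn Q B)
    (t := secAt Q j₀ F a τ α a₀) ?_ hk hnum (fun E b hb hreg => ?_) (fun E hE b hb hreg => ?_)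
  · intro hcon
    apply hx₀Δ
    unfold VanishesAt at hcon ⊢
    rw [hΓ, map_mul, hcon, zero_mul]
  · obtain ⟨d', hd'⟩ := hGh j
    exact hnv hd' (not_vanishesAt_of_section hR.homog (fun x hx => hx.1) hR.morphism
      hτ.isSection hk hGh hx₀I (hv x₀ hx₀I) hβ hj)
  · obtain ⟨e', -, he'⟩ := hτ.isSection.hom β
    exact section_ne_zero hτ.isSection Q hQ hIQ hj₀ ha₀Q fun hcon =>
      hβ (hx₀.1 _ hcon _ he')
  · exact section_ord_nonneg hτ.isSection Q hQ hIQ hj₀ ha₀Q E hb hreg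
  · exact section_ord_ge hR.homog hR.morphism hτ.isSection hGh hv Q hQ hIQ hj₀ ha₀Q E hE hb hreg

end Pool.Agent.H5.DG4
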